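import Pool.Agent.Lib.Q7.Small43b

/-! Towers over Gosset polytopes. -/

namespace Pool.Agent.Lib.Q7.H43

open Module Function Finset Pool.Agent.Lib.MP_7157e1_co Chk

open Tr in
/-- the 27 lines -/
def g221T : Tr :=
    node 1 (node 0 (node 0 (node 1 (node 0 (node 1 (node 0 leaf nil) (node 0 (node 1 leaf nil)
    nil)) (node 1 (node 0 (node 0 leaf nil) nil) nil)) (node 0 (node 1 (node 1 (node 0 leaf nil)
    (node 0 (node 1 leaf nil) nil)) (node 0 (node 1 (node 1 leaf nil) nil) nil)) nil)) (node 1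
    (node 0 (node 0 (node 1 (node 0 leaf nil) (node 0 (node 1 leaf nil) nil)) (node 1 (node 0
    (node 0 leaf nil) nil) nil)) (node 1 (node 0 (node 0 (node 0 leaf nil) nil) nil) nil)) nil))
    (node 1 (node 0 (node 0 (node 0 (node 1 (node 0 leaf nil) (node 0 (node 1 leaf nil) nil))
    (node 1 (node 0 (node 0 leaf nil) nil) nil)) (node 1 (node 0 (node 0 (node 0 leaf nil) nil)
    nil) nil)) (node 1 (node 0 (node 0 (node 0 (node 0 leaf nil) nil) nil) nil) nil)) nil)) (node
    2 (node 1 (node 1 (node 1 (node 1 (node 1 (node 0 leaf nil) (node 0 (node 1 leaf nil) nil))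
    (node 0 (node 1 (node 1 leaf nil) nil) nil)) (node 0 (node 1 (node 1 (node 1 leaf nil) nil)
    nil) nil)) (node 0 (node 1 (node 1 (node 1 (node 1 leaf nil) nil) nil) nil) nil)) (node 0
    (node 1 (node 1 (node 1 (node 1 (node 1 leaf nil) nil) nil) nil) nil) nil)) (node 0 (node 0
    (node 0 (node 0 (node 0 (node 0 (node (-1) leaf nil) (node (-1) (node 0 leaf nil) nil)) (node
    (-1) (node 0 (node 0 leaf nil) nil) nil)) (node (-1) (node 0 (node 0 (node 0 leaf nil) nil)
    nil) nil)) (node (-1) (node 0 (node 0 (node 0 (node 0 leaf nil) nil) nil) nil) nil)) (node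
    (-1) (node 0 (node 0 (node 0 (node 0 (node 0 leaf nil) nil) nil) nil) nil) nil)) nil))

theorem g221_len : ∀ y ∈ g221T.li, y.length = 6 + 1 := by decide +kernel

theorem g221 (s : ℕ) : Attained (3 + s * 5) 6 :=
  main (L := g221T.li) (d := 6) (a := 4) (by omega) (by omega) (by omega)
    [[3,-1,-1,-1,-1,-1,-1],[3,-1,-1,-1,-1,-1,0],[3,-1,-1,-1,-1,0,0],[3,-1,-1,-1,0,0,0],
    [3,-1,-1,0,0,0,0],[3,-1,0,0,0,0,0],[1,0,0,0,0,0,0]]
    [[],[],[],[],[],[2,-1,-1,0,0,0,0],[1,-1,0,0,0,0,0]]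
    (gen 6 fun i => 5 - i) [19,-7,-5,-3,-2,-1,0] g221_len
    (li_gen g221_len (by omega) fun _ _ _ => by omega) (inv_gen (by decide +kernel))
    (by decide +kernel) (by decide +kernel) (by decide +kernel) (by decide +kernel)
    (by decide +kernel) s

open Tr in
/-- the 56 lines -/
def g321T : Tr :=
    node 2 (node 1 (node 1 (node 1 (node 1 (node 0 (node 1 (node 0 leaf nil) (node 0 (node 1 leaf
    nil) nil)) (node 1 (node 0 (node 0 leaf nil) nil) nil)) (node 0 (node 1 (node 1 (node 0 leaf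
    nil) (node 0 (node 1 leaf nil) nil)) (node 0 (node 1 (node 1 leaf nil) nil) nil)) nil)) (node
    0 (node 1 (node 1 (node 1 (node 0 leaf nil) (node 0 (node 1 leaf nil) nil)) (node 0 (node 1
    (node 1 leaf nil) nil) nil)) (node 0 (node 1 (node 1 (node 1 leaf nil) nil) nil) nil)) nil))
    (node 0 (node 1 (node 1 (node 1 (node 1 (node 0 leaf nil) (node 0 (node 1 leaf nil) nil))
    (node 0 (node 1 (node 1 leaf nil) nil) nil)) (node 0 (node 1 (node 1 (node 1 leaf nil) nil)
    nil) nil)) (node 0 (node 1 (node 1 (node 1 (node 1 leaf nil) nil) nil) nil) nil)) nil)) (node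
    0 (node 1 (node 1 (node 1 (node 1 (node 1 (node 0 leaf nil) (node 0 (node 1 leaf nil) nil))
    (node 0 (node 1 (node 1 leaf nil) nil) nil)) (node 0 (node 1 (node 1 (node 1 leaf nil) nil)
    nil) nil)) (node 0 (node 1 (node 1 (node 1 (node 1 leaf nil) nil) nil) nil) nil)) (node 0
    (node 1 (node 1 (node 1 (node 1 (node 1 leaf nil) nil) nil) nil) nil) nil)) nil)) (node 1
    (node 0 (node 0 (node 0 (node 1 (node 0 (node 1 (node 0 leaf nil) (node 0 (node 1 leaf nil)
    nil)) (node 1 (node 0 (node 0 leaf nil) nil) nil)) (node 0 (node 1 (node 1 (node 0 leaf nil)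
    (node 0 (node 1 leaf nil) nil)) (node 0 (node 1 (node 1 leaf nil) nil) nil)) nil)) (node 1
    (node 0 (node 0 (node 1 (node 0 leaf nil) (node 0 (node 1 leaf nil) nil)) (node 1 (node 0
    (node 0 leaf nil) nil) nil)) (node 1 (node 0 (node 0 (node 0 leaf nil) nil) nil) nil)) nil))
    (node 1 (node 0 (node 0 (node 0 (node 1 (node 0 leaf nil) (node 0 (node 1 leaf nil) nil))
    (node 1 (node 0 (node 0 leaf nil) nil) nil)) (node 1 (node 0 (node 0 (node 0 leaf nil) nil)
    nil) nil)) (node 1 (node 0 (node 0 (node 0 (node 0 leaf nil) nil) nil) nil) nil)) nil)) (node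
    1 (node 0 (node 0 (node 0 (node 0 (node 1 (node 0 leaf nil) (node 0 (node 1 leaf nil) nil))
    (node 1 (node 0 (node 0 leaf nil) nil) nil)) (node 1 (node 0 (node 0 (node 0 leaf nil) nil)
    nil) nil)) (node 1 (node 0 (node 0 (node 0 (node 0 leaf nil) nil) nil) nil) nil)) (node 1
    (node 0 (node 0 (node 0 (node 0 (node 0 leaf nil) nil) nil) nil) nil) nil)) nil)) (node 3
    (node 1 (node 1 (node 1 (node 1 (node 1 (node 2 (node 1 leaf nil) (node 1 (node 2 leaf nil)
    nil)) (node 2 (node 1 (node 1 leaf nil) nil) nil)) (node 2 (node 1 (node 1 (node 1 leaf nil)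
    nil) nil) nil)) (node 2 (node 1 (node 1 (node 1 (node 1 leaf nil) nil) nil) nil) nil)) (node
    2 (node 1 (node 1 (node 1 (node 1 (node 1 leaf nil) nil) nil) nil) nil) nil)) (node 2 (node 1
    (node 1 (node 1 (node 1 (node 1 (node 1 leaf nil) nil) nil) nil) nil) nil) nil)) (node 0
    (node 0 (node 0 (node 0 (node 0 (node 0 (node 0 (node (-1) leaf nil) (node (-1) (node 0 leaf
    nil) nil)) (node (-1) (node 0 (node 0 leaf nil) nil) nil)) (node (-1) (node 0 (node 0 (node 0
    leaf nil) nil) nil) nil)) (node (-1) (node 0 (node 0 (node 0 (node 0 leaf nil) nil) nil) nil)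
    nil)) (node (-1) (node 0 (node 0 (node 0 (node 0 (node 0 leaf nil) nil) nil) nil) nil) nil))
    (node (-1) (node 0 (node 0 (node 0 (node 0 (node 0 (node 0 leaf nil) nil) nil) nil) nil) nil)
    nil)) nil)))

theorem g321_len : ∀ y ∈ g321T.li, y.length = 7 + 1 := by decide +kernel

theorem g321 (s : ℕ) : Attained (3 + s * 6) 7 :=
  main (L := g321T.li) (d := 7) (a := 5) (by omega) (by omega) (by omega)
    [[3,-1,-1,-1,-1,-1,-1,-1],[3,-1,-1,-1,-1,-1,-1,0],[3,-1,-1,-1,-1,-1,0,0],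
    [3,-1,-1,-1,-1,0,0,0],[3,-1,-1,-1,0,0,0,0],[3,-1,-1,0,0,0,0,0],[3,-1,0,0,0,0,0,0],
    [1,0,0,0,0,0,0,0]]
    [[],[],[],[],[],[],[2,-1,-1,0,0,0,0,0],[1,-1,0,0,0,0,0,0]]
    (gen 7 fun i => 6 - i) [22,-8,-6,-4,-3,-2,-1,0] g321_len
    (li_gen g321_len (by omega) fun _ _ _ => by omega) (inv_gen (by decide +kernel))
    (by decide +kernel) (by decide +kernel) (by decide +kernel) (by decide +kernel)
    (by decide +kernel) s

open Tr in
/-- the 126 shifted roots -/
def g231T : Tr :=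
    node 3 (node 1 (node 1 (node 1 (node 1 (node 2 (node 1 (node 0 leaf nil) (node 0 (node 1 leaf
    nil) nil)) (node 1 (node 2 (node 0 leaf nil) (node 0 (node 2 leaf nil) nil)) (node 0 (node 2
    (node 1 leaf nil) (node 1 (node 2 leaf nil) nil)) nil))) (node 2 (node 1 (node 1 (node 0 leaf
    nil) (node 0 (node 1 leaf nil) nil)) (node 0 (node 1 (node 1 leaf nil) nil) nil)) (node 0
    (node 1 (node 2 (node 1 leaf nil) (node 1 (node 2 leaf nil) nil)) (node 2 (node 1 (node 1
    leaf nil) nil) nil)) nil))) (node 2 (node 1 (node 1 (node 1 (node 0 leaf nil) (node 0 (node 1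
    leaf nil) nil)) (node 0 (node 1 (node 1 leaf nil) nil) nil)) (node 0 (node 1 (node 1 (node 1
    leaf nil) nil) nil) nil)) (node 0 (node 1 (node 1 (node 2 (node 1 leaf nil) (node 1 (node 2
    leaf nil) nil)) (node 2 (node 1 (node 1 leaf nil) nil) nil)) (node 2 (node 1 (node 1 (node 1
    leaf nil) nil) nil) nil)) nil))) (node 2 (node 1 (node 1 (node 1 (node 1 (node 0 leaf nil)
    (node 0 (node 1 leaf nil) nil)) (node 0 (node 1 (node 1 leaf nil) nil) nil)) (node 0 (node 1
    (node 1 (node 1 leaf nil) nil) nil) nil)) (node 0 (node 1 (node 1 (node 1 (node 1 leaf nil)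
    nil) nil) nil) nil)) (node 0 (node 1 (node 1 (node 1 (node 2 (node 1 leaf nil) (node 1 (node
    2 leaf nil) nil)) (node 2 (node 1 (node 1 leaf nil) nil) nil)) (node 2 (node 1 (node 1 (node
    1 leaf nil) nil) nil) nil)) (node 2 (node 1 (node 1 (node 1 (node 1 leaf nil) nil) nil) nil)
    nil)) nil))) (node 2 (node 1 (node 1 (node 1 (node 1 (node 1 (node 0 leaf nil) (node 0 (node
    1 leaf nil) nil)) (node 0 (node 1 (node 1 leaf nil) nil) nil)) (node 0 (node 1 (node 1 (node
    1 leaf nil) nil) nil) nil)) (node 0 (node 1 (node 1 (node 1 (node 1 leaf nil) nil) nil) nil)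
    nil)) (node 0 (node 1 (node 1 (node 1 (node 1 (node 1 leaf nil) nil) nil) nil) nil) nil))
    (node 0 (node 1 (node 1 (node 1 (node 1 (node 2 (node 1 leaf nil) (node 1 (node 2 leaf nil)
    nil)) (node 2 (node 1 (node 1 leaf nil) nil) nil)) (node 2 (node 1 (node 1 (node 1 leaf nil)
    nil) nil) nil)) (node 2 (node 1 (node 1 (node 1 (node 1 leaf nil) nil) nil) nil) nil)) (node
    2 (node 1 (node 1 (node 1 (node 1 (node 1 leaf nil) nil) nil) nil) nil) nil)) nil))) (node 4
    (node 1 (node 2 (node 1 (node 2 (node 1 (node 2 (node 1 leaf nil) (node 1 (node 2 leaf nil)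
    nil)) (node 2 (node 1 (node 1 leaf nil) nil) nil)) (node 1 (node 2 (node 2 (node 1 leaf nil)
    (node 1 (node 2 leaf nil) nil)) (node 1 (node 2 (node 2 leaf nil) nil) nil)) nil)) (node 2
    (node 1 (node 1 (node 2 (node 1 leaf nil) (node 1 (node 2 leaf nil) nil)) (node 2 (node 1
    (node 1 leaf nil) nil) nil)) (node 2 (node 1 (node 1 (node 1 leaf nil) nil) nil) nil)) nil))
    (node 1 (node 2 (node 2 (node 1 (node 2 (node 1 leaf nil) (node 1 (node 2 leaf nil) nil))
    (node 2 (node 1 (node 1 leaf nil) nil) nil)) (node 1 (node 2 (node 2 (node 1 leaf nil) (node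
    1 (node 2 leaf nil) nil)) (node 1 (node 2 (node 2 leaf nil) nil) nil)) nil)) (node 1 (node 2
    (node 2 (node 2 (node 1 leaf nil) (node 1 (node 2 leaf nil) nil)) (node 1 (node 2 (node 2
    leaf nil) nil) nil)) (node 1 (node 2 (node 2 (node 2 leaf nil) nil) nil) nil)) nil)) nil))
    (node 2 (node 1 (node 1 (node 2 (node 1 (node 2 (node 1 leaf nil) (node 1 (node 2 leaf nil)
    nil)) (node 2 (node 1 (node 1 leaf nil) nil) nil)) (node 1 (node 2 (node 2 (node 1 leaf nil)
    (node 1 (node 2 leaf nil) nil)) (node 1 (node 2 (node 2 leaf nil) nil) nil)) nil)) (node 2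
    (node 1 (node 1 (node 2 (node 1 leaf nil) (node 1 (node 2 leaf nil) nil)) (node 2 (node 1
    (node 1 leaf nil) nil) nil)) (node 2 (node 1 (node 1 (node 1 leaf nil) nil) nil) nil)) nil))
    (node 2 (node 1 (node 1 (node 1 (node 2 (node 1 leaf nil) (node 1 (node 2 leaf nil) nil))
    (node 2 (node 1 (node 1 leaf nil) nil) nil)) (node 2 (node 1 (node 1 (node 1 leaf nil) nil)
    nil) nil)) (node 2 (node 1 (node 1 (node 1 (node 1 leaf nil) nil) nil) nil) nil)) nil)) nil))
    (node 2 (node 1 (node 1 (node 0 (node 1 (node 0 (node 1 (node 0 leaf nil) (node 0 (node 1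
    leaf nil) nil)) (node 1 (node 0 (node 0 leaf nil) nil) nil)) (node 0 (node 1 (node 1 (node 0
    leaf nil) (node 0 (node 1 leaf nil) nil)) (node 0 (node 1 (node 1 leaf nil) nil) nil)) nil))
    (node 1 (node 0 (node 0 (node 1 (node 0 leaf nil) (node 0 (node 1 leaf nil) nil)) (node 1
    (node 0 (node 0 leaf nil) nil) nil)) (node 1 (node 0 (node 0 (node 0 leaf nil) nil) nil)
    nil)) nil)) (node 0 (node 1 (node 1 (node 0 (node 1 (node 0 leaf nil) (node 0 (node 1 leaf
    nil) nil)) (node 1 (node 0 (node 0 leaf nil) nil) nil)) (node 0 (node 1 (node 1 (node 0 leaf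
    nil) (node 0 (node 1 leaf nil) nil)) (node 0 (node 1 (node 1 leaf nil) nil) nil)) nil)) (node
    0 (node 1 (node 1 (node 1 (node 0 leaf nil) (node 0 (node 1 leaf nil) nil)) (node 0 (node 1
    (node 1 leaf nil) nil) nil)) (node 0 (node 1 (node 1 (node 1 leaf nil) nil) nil) nil)) nil))
    nil)) (node 0 (node 1 (node 1 (node 1 (node 0 (node 1 (node 0 leaf nil) (node 0 (node 1 leaf
    nil) nil)) (node 1 (node 0 (node 0 leaf nil) nil) nil)) (node 0 (node 1 (node 1 (node 0 leaf
    nil) (node 0 (node 1 leaf nil) nil)) (node 0 (node 1 (node 1 leaf nil) nil) nil)) nil)) (node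
    0 (node 1 (node 1 (node 1 (node 0 leaf nil) (node 0 (node 1 leaf nil) nil)) (node 0 (node 1
    (node 1 leaf nil) nil) nil)) (node 0 (node 1 (node 1 (node 1 leaf nil) nil) nil) nil)) nil))
    (node 0 (node 1 (node 1 (node 1 (node 1 (node 0 leaf nil) (node 0 (node 1 leaf nil) nil))
    (node 0 (node 1 (node 1 leaf nil) nil) nil)) (node 0 (node 1 (node 1 (node 1 leaf nil) nil)
    nil) nil)) (node 0 (node 1 (node 1 (node 1 (node 1 leaf nil) nil) nil) nil) nil)) nil)) nil))
    (node 5 (node 2 (node 2 (node 2 (node 2 (node 2 (node 2 (node 1 leaf nil) (node 1 (node 2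
    leaf nil) nil)) (node 1 (node 2 (node 2 leaf nil) nil) nil)) (node 1 (node 2 (node 2 (node 2
    leaf nil) nil) nil) nil)) (node 1 (node 2 (node 2 (node 2 (node 2 leaf nil) nil) nil) nil)
    nil)) (node 1 (node 2 (node 2 (node 2 (node 2 (node 2 leaf nil) nil) nil) nil) nil) nil))
    (node 1 (node 2 (node 2 (node 2 (node 2 (node 2 (node 2 leaf nil) nil) nil) nil) nil) nil)
    nil)) (node 1 (node 0 (node 0 (node 0 (node 0 (node 0 (node 1 (node 0 leaf nil) (node 0 (node
    1 leaf nil) nil)) (node 1 (node 0 (node 0 leaf nil) nil) nil)) (node 1 (node 0 (node 0 (node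
    0 leaf nil) nil) nil) nil)) (node 1 (node 0 (node 0 (node 0 (node 0 leaf nil) nil) nil) nil)
    nil)) (node 1 (node 0 (node 0 (node 0 (node 0 (node 0 leaf nil) nil) nil) nil) nil) nil))
    (node 1 (node 0 (node 0 (node 0 (node 0 (node 0 (node 0 leaf nil) nil) nil) nil) nil) nil)
    nil)) nil))))

theorem g231_len : ∀ y ∈ g231T.li, y.length = 7 + 1 := by decide +kernel

theorem g231 (s : ℕ) : Attained (4 + s * 6) 7 :=
  main (L := g231T.li) (d := 7) (a := 4) (by omega) (by omega) (by omega)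
    [[3,-1,-1,-1,-1,-1,-1,-1],[5,-1,-2,-2,-2,-2,-2,-2],[17,-5,-5,-7,-7,-7,-7,-7],
    [12,-4,-4,-4,-5,-5,-5,-5],[31,-11,-11,-11,-11,-13,-13,-13],[19,-7,-7,-7,-7,-7,-8,-8],
    [45,-17,-17,-17,-17,-17,-17,-19],[13,-5,-5,-5,-5,-5,-5,-5]]
    [[],[],[],[],[],[9,-3,-3,-3,-3,-4,-4,-4],[6,-2,-2,-2,-2,-2,-3,-3],[3,-1,-1,-1,-1,-1,-1,-2]]
    (gen 7 fun i => i + 1) [160,-56,-57,-59,-60,-63,-65,-68] g231_len
    (li_gen g231_len (by omega) fun _ _ _ => by omega) (inv_gen (by decide +kernel))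
    (by decide +kernel) (by decide +kernel) (by decide +kernel) (by decide +kernel)
    (by decide +kernel) s

open Tr in
/-- the 240 lines -/
def g421T : Tr :=
    node 4 (node 1 (node 1 (node 2 (node 1 (node 2 (node 1 (node 2 (node 1 leaf nil) (node 1
    (node 2 leaf nil) nil)) (node 2 (node 1 (node 1 leaf nil) nil) nil)) (node 1 (node 2 (node 2
    (node 1 leaf nil) (node 1 (node 2 leaf nil) nil)) (node 1 (node 2 (node 2 leaf nil) nil)
    nil)) nil)) (node 2 (node 1 (node 1 (node 2 (node 1 leaf nil) (node 1 (node 2 leaf nil) nil))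
    (node 2 (node 1 (node 1 leaf nil) nil) nil)) (node 2 (node 1 (node 1 (node 1 leaf nil) nil)
    nil) nil)) nil)) (node 1 (node 2 (node 2 (node 1 (node 2 (node 1 leaf nil) (node 1 (node 2
    leaf nil) nil)) (node 2 (node 1 (node 1 leaf nil) nil) nil)) (node 1 (node 2 (node 2 (node 1
    leaf nil) (node 1 (node 2 leaf nil) nil)) (node 1 (node 2 (node 2 leaf nil) nil) nil)) nil))
    (node 1 (node 2 (node 2 (node 2 (node 1 leaf nil) (node 1 (node 2 leaf nil) nil)) (node 1
    (node 2 (node 2 leaf nil) nil) nil)) (node 1 (node 2 (node 2 (node 2 leaf nil) nil) nil)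
    nil)) nil)) nil)) (node 2 (node 1 (node 1 (node 2 (node 1 (node 2 (node 1 leaf nil) (node 1
    (node 2 leaf nil) nil)) (node 2 (node 1 (node 1 leaf nil) nil) nil)) (node 1 (node 2 (node 2
    (node 1 leaf nil) (node 1 (node 2 leaf nil) nil)) (node 1 (node 2 (node 2 leaf nil) nil)
    nil)) nil)) (node 2 (node 1 (node 1 (node 2 (node 1 leaf nil) (node 1 (node 2 leaf nil) nil))
    (node 2 (node 1 (node 1 leaf nil) nil) nil)) (node 2 (node 1 (node 1 (node 1 leaf nil) nil)
    nil) nil)) nil)) (node 2 (node 1 (node 1 (node 1 (node 2 (node 1 leaf nil) (node 1 (node 2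
    leaf nil) nil)) (node 2 (node 1 (node 1 leaf nil) nil) nil)) (node 2 (node 1 (node 1 (node 1
    leaf nil) nil) nil) nil)) (node 2 (node 1 (node 1 (node 1 (node 1 leaf nil) nil) nil) nil)
    nil)) nil)) nil)) (node 2 (node 1 (node 1 (node 1 (node 2 (node 1 (node 2 (node 1 leaf nil)
    (node 1 (node 2 leaf nil) nil)) (node 2 (node 1 (node 1 leaf nil) nil) nil)) (node 1 (node 2
    (node 2 (node 1 leaf nil) (node 1 (node 2 leaf nil) nil)) (node 1 (node 2 (node 2 leaf nil)
    nil) nil)) nil)) (node 2 (node 1 (node 1 (node 2 (node 1 leaf nil) (node 1 (node 2 leaf nil)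
    nil)) (node 2 (node 1 (node 1 leaf nil) nil) nil)) (node 2 (node 1 (node 1 (node 1 leaf nil)
    nil) nil) nil)) nil)) (node 2 (node 1 (node 1 (node 1 (node 2 (node 1 leaf nil) (node 1 (node
    2 leaf nil) nil)) (node 2 (node 1 (node 1 leaf nil) nil) nil)) (node 2 (node 1 (node 1 (node
    1 leaf nil) nil) nil) nil)) (node 2 (node 1 (node 1 (node 1 (node 1 leaf nil) nil) nil) nil)
    nil)) nil)) (node 2 (node 1 (node 1 (node 1 (node 1 (node 2 (node 1 leaf nil) (node 1 (node 2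
    leaf nil) nil)) (node 2 (node 1 (node 1 leaf nil) nil) nil)) (node 2 (node 1 (node 1 (node 1
    leaf nil) nil) nil) nil)) (node 2 (node 1 (node 1 (node 1 (node 1 leaf nil) nil) nil) nil)
    nil)) (node 2 (node 1 (node 1 (node 1 (node 1 (node 1 leaf nil) nil) nil) nil) nil) nil))
    nil)) nil)) (node 3 (node 1 (node 1 (node 1 (node 1 (node 1 (node 2 (node 1 (node 0 leaf nil)
    (node 0 (node 1 leaf nil) nil)) (node 1 (node 2 (node 0 leaf nil) (node 0 (node 2 leaf nil)
    nil)) (node 0 (node 2 (node 1 leaf nil) (node 1 (node 2 leaf nil) nil)) nil))) (node 2 (node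
    1 (node 1 (node 0 leaf nil) (node 0 (node 1 leaf nil) nil)) (node 0 (node 1 (node 1 leaf nil)
    nil) nil)) (node 0 (node 1 (node 2 (node 1 leaf nil) (node 1 (node 2 leaf nil) nil)) (node 2
    (node 1 (node 1 leaf nil) nil) nil)) nil))) (node 2 (node 1 (node 1 (node 1 (node 0 leaf nil)
    (node 0 (node 1 leaf nil) nil)) (node 0 (node 1 (node 1 leaf nil) nil) nil)) (node 0 (node 1
    (node 1 (node 1 leaf nil) nil) nil) nil)) (node 0 (node 1 (node 1 (node 2 (node 1 leaf nil)
    (node 1 (node 2 leaf nil) nil)) (node 2 (node 1 (node 1 leaf nil) nil) nil)) (node 2 (node 1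
    (node 1 (node 1 leaf nil) nil) nil) nil)) nil))) (node 2 (node 1 (node 1 (node 1 (node 1
    (node 0 leaf nil) (node 0 (node 1 leaf nil) nil)) (node 0 (node 1 (node 1 leaf nil) nil)
    nil)) (node 0 (node 1 (node 1 (node 1 leaf nil) nil) nil) nil)) (node 0 (node 1 (node 1 (node
    1 (node 1 leaf nil) nil) nil) nil) nil)) (node 0 (node 1 (node 1 (node 1 (node 2 (node 1 leaf
    nil) (node 1 (node 2 leaf nil) nil)) (node 2 (node 1 (node 1 leaf nil) nil) nil)) (node 2
    (node 1 (node 1 (node 1 leaf nil) nil) nil) nil)) (node 2 (node 1 (node 1 (node 1 (node 1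
    leaf nil) nil) nil) nil) nil)) nil))) (node 2 (node 1 (node 1 (node 1 (node 1 (node 1 (node 0
    leaf nil) (node 0 (node 1 leaf nil) nil)) (node 0 (node 1 (node 1 leaf nil) nil) nil)) (node
    0 (node 1 (node 1 (node 1 leaf nil) nil) nil) nil)) (node 0 (node 1 (node 1 (node 1 (node 1
    leaf nil) nil) nil) nil) nil)) (node 0 (node 1 (node 1 (node 1 (node 1 (node 1 leaf nil) nil)
    nil) nil) nil) nil)) (node 0 (node 1 (node 1 (node 1 (node 1 (node 2 (node 1 leaf nil) (node
    1 (node 2 leaf nil) nil)) (node 2 (node 1 (node 1 leaf nil) nil) nil)) (node 2 (node 1 (node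
    1 (node 1 leaf nil) nil) nil) nil)) (node 2 (node 1 (node 1 (node 1 (node 1 leaf nil) nil)
    nil) nil) nil)) (node 2 (node 1 (node 1 (node 1 (node 1 (node 1 leaf nil) nil) nil) nil) nil)
    nil)) nil))) (node 2 (node 1 (node 1 (node 1 (node 1 (node 1 (node 1 (node 0 leaf nil) (node
    0 (node 1 leaf nil) nil)) (node 0 (node 1 (node 1 leaf nil) nil) nil)) (node 0 (node 1 (node
    1 (node 1 leaf nil) nil) nil) nil)) (node 0 (node 1 (node 1 (node 1 (node 1 leaf nil) nil)
    nil) nil) nil)) (node 0 (node 1 (node 1 (node 1 (node 1 (node 1 leaf nil) nil) nil) nil) nil)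
    nil)) (node 0 (node 1 (node 1 (node 1 (node 1 (node 1 (node 1 leaf nil) nil) nil) nil) nil)
    nil) nil)) (node 0 (node 1 (node 1 (node 1 (node 1 (node 1 (node 2 (node 1 leaf nil) (node 1
    (node 2 leaf nil) nil)) (node 2 (node 1 (node 1 leaf nil) nil) nil)) (node 2 (node 1 (node 1
    (node 1 leaf nil) nil) nil) nil)) (node 2 (node 1 (node 1 (node 1 (node 1 leaf nil) nil) nil)
    nil) nil)) (node 2 (node 1 (node 1 (node 1 (node 1 (node 1 leaf nil) nil) nil) nil) nil)
    nil)) (node 2 (node 1 (node 1 (node 1 (node 1 (node 1 (node 1 leaf nil) nil) nil) nil) nil)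
    nil) nil)) nil))) (node 2 (node 1 (node 1 (node 1 (node 0 (node 1 (node 0 (node 1 (node 0
    leaf nil) (node 0 (node 1 leaf nil) nil)) (node 1 (node 0 (node 0 leaf nil) nil) nil)) (node
    0 (node 1 (node 1 (node 0 leaf nil) (node 0 (node 1 leaf nil) nil)) (node 0 (node 1 (node 1
    leaf nil) nil) nil)) nil)) (node 1 (node 0 (node 0 (node 1 (node 0 leaf nil) (node 0 (node 1
    leaf nil) nil)) (node 1 (node 0 (node 0 leaf nil) nil) nil)) (node 1 (node 0 (node 0 (node 0
    leaf nil) nil) nil) nil)) nil)) (node 0 (node 1 (node 1 (node 0 (node 1 (node 0 leaf nil)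
    (node 0 (node 1 leaf nil) nil)) (node 1 (node 0 (node 0 leaf nil) nil) nil)) (node 0 (node 1
    (node 1 (node 0 leaf nil) (node 0 (node 1 leaf nil) nil)) (node 0 (node 1 (node 1 leaf nil)
    nil) nil)) nil)) (node 0 (node 1 (node 1 (node 1 (node 0 leaf nil) (node 0 (node 1 leaf nil)
    nil)) (node 0 (node 1 (node 1 leaf nil) nil) nil)) (node 0 (node 1 (node 1 (node 1 leaf nil)
    nil) nil) nil)) nil)) nil)) (node 0 (node 1 (node 1 (node 1 (node 0 (node 1 (node 0 leaf nil)
    (node 0 (node 1 leaf nil) nil)) (node 1 (node 0 (node 0 leaf nil) nil) nil)) (node 0 (node 1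
    (node 1 (node 0 leaf nil) (node 0 (node 1 leaf nil) nil)) (node 0 (node 1 (node 1 leaf nil)
    nil) nil)) nil)) (node 0 (node 1 (node 1 (node 1 (node 0 leaf nil) (node 0 (node 1 leaf nil)
    nil)) (node 0 (node 1 (node 1 leaf nil) nil) nil)) (node 0 (node 1 (node 1 (node 1 leaf nil)
    nil) nil) nil)) nil)) (node 0 (node 1 (node 1 (node 1 (node 1 (node 0 leaf nil) (node 0 (node
    1 leaf nil) nil)) (node 0 (node 1 (node 1 leaf nil) nil) nil)) (node 0 (node 1 (node 1 (node
    1 leaf nil) nil) nil) nil)) (node 0 (node 1 (node 1 (node 1 (node 1 leaf nil) nil) nil) nil)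
    nil)) nil)) nil)) (node 0 (node 1 (node 1 (node 1 (node 1 (node 0 (node 1 (node 0 leaf nil)
    (node 0 (node 1 leaf nil) nil)) (node 1 (node 0 (node 0 leaf nil) nil) nil)) (node 0 (node 1
    (node 1 (node 0 leaf nil) (node 0 (node 1 leaf nil) nil)) (node 0 (node 1 (node 1 leaf nil)
    nil) nil)) nil)) (node 0 (node 1 (node 1 (node 1 (node 0 leaf nil) (node 0 (node 1 leaf nil)
    nil)) (node 0 (node 1 (node 1 leaf nil) nil) nil)) (node 0 (node 1 (node 1 (node 1 leaf nil)
    nil) nil) nil)) nil)) (node 0 (node 1 (node 1 (node 1 (node 1 (node 0 leaf nil) (node 0 (node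
    1 leaf nil) nil)) (node 0 (node 1 (node 1 leaf nil) nil) nil)) (node 0 (node 1 (node 1 (node
    1 leaf nil) nil) nil) nil)) (node 0 (node 1 (node 1 (node 1 (node 1 leaf nil) nil) nil) nil)
    nil)) nil)) (node 0 (node 1 (node 1 (node 1 (node 1 (node 1 (node 0 leaf nil) (node 0 (node 1
    leaf nil) nil)) (node 0 (node 1 (node 1 leaf nil) nil) nil)) (node 0 (node 1 (node 1 (node 1
    leaf nil) nil) nil) nil)) (node 0 (node 1 (node 1 (node 1 (node 1 leaf nil) nil) nil) nil)
    nil)) (node 0 (node 1 (node 1 (node 1 (node 1 (node 1 leaf nil) nil) nil) nil) nil) nil))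
    nil)) nil)) (node 5 (node 2 (node 2 (node 2 (node 2 (node 2 (node 1 (node 2 (node 1 leaf nil)
    (node 1 (node 2 leaf nil) nil)) (node 2 (node 1 (node 1 leaf nil) nil) nil)) (node 1 (node 2
    (node 2 (node 1 leaf nil) (node 1 (node 2 leaf nil) nil)) (node 1 (node 2 (node 2 leaf nil)
    nil) nil)) nil)) (node 1 (node 2 (node 2 (node 2 (node 1 leaf nil) (node 1 (node 2 leaf nil)
    nil)) (node 1 (node 2 (node 2 leaf nil) nil) nil)) (node 1 (node 2 (node 2 (node 2 leaf nil)
    nil) nil) nil)) nil)) (node 1 (node 2 (node 2 (node 2 (node 2 (node 1 leaf nil) (node 1 (node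
    2 leaf nil) nil)) (node 1 (node 2 (node 2 leaf nil) nil) nil)) (node 1 (node 2 (node 2 (node
    2 leaf nil) nil) nil) nil)) (node 1 (node 2 (node 2 (node 2 (node 2 leaf nil) nil) nil) nil)
    nil)) nil)) (node 1 (node 2 (node 2 (node 2 (node 2 (node 2 (node 1 leaf nil) (node 1 (node 2
    leaf nil) nil)) (node 1 (node 2 (node 2 leaf nil) nil) nil)) (node 1 (node 2 (node 2 (node 2
    leaf nil) nil) nil) nil)) (node 1 (node 2 (node 2 (node 2 (node 2 leaf nil) nil) nil) nil)
    nil)) (node 1 (node 2 (node 2 (node 2 (node 2 (node 2 leaf nil) nil) nil) nil) nil) nil))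
    nil)) (node 1 (node 2 (node 2 (node 2 (node 2 (node 2 (node 2 (node 1 leaf nil) (node 1 (node
    2 leaf nil) nil)) (node 1 (node 2 (node 2 leaf nil) nil) nil)) (node 1 (node 2 (node 2 (node
    2 leaf nil) nil) nil) nil)) (node 1 (node 2 (node 2 (node 2 (node 2 leaf nil) nil) nil) nil)
    nil)) (node 1 (node 2 (node 2 (node 2 (node 2 (node 2 leaf nil) nil) nil) nil) nil) nil))
    (node 1 (node 2 (node 2 (node 2 (node 2 (node 2 (node 2 leaf nil) nil) nil) nil) nil) nil)
    nil)) nil)) (node 1 (node 0 (node 0 (node 0 (node 0 (node 1 (node 0 (node 1 (node 0 leaf nil)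
    (node 0 (node 1 leaf nil) nil)) (node 1 (node 0 (node 0 leaf nil) nil) nil)) (node 0 (node 1
    (node 1 (node 0 leaf nil) (node 0 (node 1 leaf nil) nil)) (node 0 (node 1 (node 1 leaf nil)
    nil) nil)) nil)) (node 1 (node 0 (node 0 (node 1 (node 0 leaf nil) (node 0 (node 1 leaf nil)
    nil)) (node 1 (node 0 (node 0 leaf nil) nil) nil)) (node 1 (node 0 (node 0 (node 0 leaf nil)
    nil) nil) nil)) nil)) (node 1 (node 0 (node 0 (node 0 (node 1 (node 0 leaf nil) (node 0 (node
    1 leaf nil) nil)) (node 1 (node 0 (node 0 leaf nil) nil) nil)) (node 1 (node 0 (node 0 (node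
    0 leaf nil) nil) nil) nil)) (node 1 (node 0 (node 0 (node 0 (node 0 leaf nil) nil) nil) nil)
    nil)) nil)) (node 1 (node 0 (node 0 (node 0 (node 0 (node 1 (node 0 leaf nil) (node 0 (node 1
    leaf nil) nil)) (node 1 (node 0 (node 0 leaf nil) nil) nil)) (node 1 (node 0 (node 0 (node 0
    leaf nil) nil) nil) nil)) (node 1 (node 0 (node 0 (node 0 (node 0 leaf nil) nil) nil) nil)
    nil)) (node 1 (node 0 (node 0 (node 0 (node 0 (node 0 leaf nil) nil) nil) nil) nil) nil))
    nil)) (node 1 (node 0 (node 0 (node 0 (node 0 (node 0 (node 1 (node 0 leaf nil) (node 0 (node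
    1 leaf nil) nil)) (node 1 (node 0 (node 0 leaf nil) nil) nil)) (node 1 (node 0 (node 0 (node
    0 leaf nil) nil) nil) nil)) (node 1 (node 0 (node 0 (node 0 (node 0 leaf nil) nil) nil) nil)
    nil)) (node 1 (node 0 (node 0 (node 0 (node 0 (node 0 leaf nil) nil) nil) nil) nil) nil))
    (node 1 (node 0 (node 0 (node 0 (node 0 (node 0 (node 0 leaf nil) nil) nil) nil) nil) nil)
    nil)) nil)) (node 6 (node 2 (node 2 (node 2 (node 2 (node 2 (node 2 (node 3 (node 2 leaf nil)
    (node 2 (node 3 leaf nil) nil)) (node 3 (node 2 (node 2 leaf nil) nil) nil)) (node 3 (node 2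
    (node 2 (node 2 leaf nil) nil) nil) nil)) (node 3 (node 2 (node 2 (node 2 (node 2 leaf nil)
    nil) nil) nil) nil)) (node 3 (node 2 (node 2 (node 2 (node 2 (node 2 leaf nil) nil) nil) nil)
    nil) nil)) (node 3 (node 2 (node 2 (node 2 (node 2 (node 2 (node 2 leaf nil) nil) nil) nil)
    nil) nil) nil)) (node 3 (node 2 (node 2 (node 2 (node 2 (node 2 (node 2 (node 2 leaf nil)
    nil) nil) nil) nil) nil) nil) nil)) (node 0 (node 0 (node 0 (node 0 (node 0 (node 0 (node 0
    (node 0 (node (-1) leaf nil) (node (-1) (node 0 leaf nil) nil)) (node (-1) (node 0 (node 0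
    leaf nil) nil) nil)) (node (-1) (node 0 (node 0 (node 0 leaf nil) nil) nil) nil)) (node (-1)
    (node 0 (node 0 (node 0 (node 0 leaf nil) nil) nil) nil) nil)) (node (-1) (node 0 (node 0
    (node 0 (node 0 (node 0 leaf nil) nil) nil) nil) nil) nil)) (node (-1) (node 0 (node 0 (node
    0 (node 0 (node 0 (node 0 leaf nil) nil) nil) nil) nil) nil) nil)) (node (-1) (node 0 (node 0
    (node 0 (node 0 (node 0 (node 0 (node 0 leaf nil) nil) nil) nil) nil) nil) nil) nil))
    nil))))))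

theorem g421_len : ∀ y ∈ g421T.li, y.length = 8 + 1 := by decide +kernel

theorem g421 (s : ℕ) : Attained (3 + s * 7) 8 :=
  main (L := g421T.li) (d := 8) (a := 6) (by omega) (by omega) (by omega)
    [[3,-1,-1,-1,-1,-1,-1,-1,-1],[3,-1,-1,-1,-1,-1,-1,-1,0],[3,-1,-1,-1,-1,-1,-1,0,0],
    [3,-1,-1,-1,-1,-1,0,0,0],[3,-1,-1,-1,-1,0,0,0,0],[3,-1,-1,-1,0,0,0,0,0],[3,-1,-1,0,0,0,0,0,0],
    [3,-1,0,0,0,0,0,0,0],[1,0,0,0,0,0,0,0,0]]
    [[],[],[],[],[],[],[],[2,-1,-1,0,0,0,0,0,0],[1,-1,0,0,0,0,0,0,0]]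
    (gen 8 fun i => 7 - i) [25,-9,-7,-5,-4,-3,-2,-1,0] g421_len
    (li_gen g421_len (by omega) fun _ _ _ => by omega) (inv_gen (by decide +kernel))
    (by decide +kernel) (by decide +kernel) (by decide +kernel) (by decide +kernel)
    (by decide +kernel) s

end Pool.Agent.Lib.Q7.H43
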