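import Pool.Agent.Lib.Q7.Stack43

/-! Towers over the simplex and over the cross-polytope. -/

namespace Pool.Agent.Lib.Q7.H43

open Module Function Finset Pool.Agent.Lib.MP_7157e1_co

/-- the number of flags of a face as a sum over its facets -/
theorem nc_fam {ι Z : Type} [Fintype ι] [Fintype Z] [Nonempty Z] {F : Set ι → Prop}
    (G : {G // F G}) (φ : Z → {G // F G}) (h1 : ∀ z, φ z < G)
    (h2 : ∀ z z', φ z ≤ φ z' → z = z') (h3 : ∀ H, H < G → ∃ z, H ≤ φ z) :
    nc G = ∑ z, nc (φ z) := by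
  classical
  obtain ⟨z0⟩ := ‹Nonempty Z›
  rw [nc_sum (not_isMin_of_lt (h1 z0)) (univ.image φ), sum_image fun z _ z' _ e => h2 z z' e.le]
  intro H
  simp only [mem_image, mem_univ, true_and]
  constructor
  · rintro ⟨z, rfl⟩
    refine ⟨h1 z, fun K k1 k2 => ?_⟩
    obtain ⟨z', hz⟩ := h3 K k2
    obtain rfl := h2 z z' (k1.le.trans hz)
    exact k1.not_ge hz
  · intro h
    obtain ⟨z, hz⟩ := h3 H h.lt
    exact ⟨z, ((h.eq_or_eq hz (h1 z).le).resolve_right (h1 z).ne)⟩

section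
variable {ι : Type} [Fintype ι] {E : Submodule ℝ (ι → ℝ)} {d : ℕ}

/-- the rank is read off from a simplex facet -/
theorem rk_of {v : Fin d → ι} (hv : Injective v) (h : ∀ S, S ⊆ Set.range v → IsF E S)
    (h1 : cr E (Set.range v) = 1) : finrank ℝ E = d + 1 := by
  classical
  have key : ∀ s : Finset (Fin d), cr E (v '' s) + s.card ≤ cr E ∅ := fun s => by
    induction s using Finset.induction_on with
    | empty => simp
    | insert j s hj ih =>
      have := cr_lt (h (v '' s) (Set.image_subset_range _ _)) (B := v '' (insert j s : Finset _))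
        (Set.image_mono (coe_subset.2 (subset_insert _ _))) ⟨j, mem_insert_self _ _, rfl⟩
        fun k => hj (hv.mem_set_image.1 k)
      rw [card_insert_of_notMem hj]
      omega
  have a1 := key univ
  have a2 := cr_fin (E := E) (univ.image v)
  rw [coe_univ, Set.image_univ, card_univ, Fintype.card_fin, h1, cr_empty] at a1
  rw [card_image_of_injective _ hv, coe_image, coe_univ, Set.image_univ, card_univ,
    Fintype.card_fin, h1, cr_empty] at a2
  omega

theorem nc_range {F : Set ι → Prop} {α : Type} [Fintype α] {v : α → ι} (hv : Injective v)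
    (G : {G // F G}) (hG : G.1 = Set.range v) (h : ∀ S, S ⊆ G.1 → F S) :
    nc G = (Fintype.card α).factorial :=
  nc_simplex _ G h (by rw [hG, Set.ncard_range_of_injective hv, Nat.card_eq_fintype_card])

end

/-! ### the simplex -/

theorem simplex {d s : ℕ} (hd : 3 ≤ d) (hs : 1 ≤ s) : Attained (1 + s * (d - 1)) d := by
  classical
  have hF : ∀ S : Set (Fin (d + 1)), IsF ⊤ S := fun S =>
    ⟨fun i => if i ∈ S then 0 else 1, trivial, fun i => by dsimp only; split_ifs <;> norm_num,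
      fun i => by simp⟩
  have rk : finrank ℝ (⊤ : Submodule ℝ (Fin (d + 1) → ℝ)) = d + 1 := by simp
  refine stack ⊤ hd (hF _) rk Fin.succAbove (fun _ => Fin.succAbove_right_injective)
    (fun _ => hF _) (fun o => max_fac (hF _) ?_ fun H _ h1 h2 => ?_) (fun o p h => ?_)
    (fun i => ?_) (Γ := Equiv.Perm (Fin (d + 1))) id injective_id (fun _ _ _ => trivial)
    (fun γ o => ⟨γ o, fun j => ?_⟩) ?_ ?_ hs
  · rw [Fin.range_succAbove]
    exact Tw.compl_ne o
  · rw [Fin.range_succAbove] at h1 ⊢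
    rintro i hi rfl
    refine h2 (Set.eq_univ_of_forall fun j => ?_)
    by_cases e : j = i
    exacts [e ▸ hi, h1 e]
  · rw [Fin.range_succAbove, Fin.range_succAbove] at h
    exact Tw.compl_inj h.le
  · have : Nontrivial (Fin (d + 1)) := Fin.nontrivial_iff_two_le.2 (by omega)
    obtain ⟨o, ho⟩ := exists_ne i
    exact ⟨o, Fin.exists_succAbove_eq ho.symm⟩
  · rw [Fin.range_succAbove]
    exact fun e => Fin.succAbove_ne o j (γ.injective e)
  · rw [Nat.card_eq_fintype_card, Fintype.card_perm, Fintype.card_fin, Nat.factorial_succ]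
  · rw [card_fl (hF _) rk, nc_range injective_id _ Set.range_id.symm fun S _ => hF S, one_mul,
      Nat.card_eq_fintype_card, Fintype.card_perm]

/-! ### the cross-polytope -/

theorem z2 (t : ZMod 2) : t = 0 ∨ t = 1 := by revert t; decide

theorem z2_ne {s t : ZMod 2} : s ≠ t ↔ s = t + 1 := by revert s t; decide

theorem z2_add (t : ZMod 2) : t + 1 + 1 = t := by revert t; decide

/-- vectors of even weight -/
abbrev Ev (d : ℕ) : Type := {w : Fin d → ZMod 2 // ∑ j, w j = 0}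

theorem card_Ev {d : ℕ} (hd : 3 ≤ d) :
    Fintype.card (Fin d → ZMod 2) = 2 * Fintype.card (Ev d) := by
  let a : Fin d := ⟨0, by omega⟩
  have key : ∀ w : Fin d → ZMod 2,
      ∑ j, (w + Pi.single a 1 : Fin d → ZMod 2) j = ∑ j, w j + 1 := fun w => by
    simp [sum_add_distrib]
  have h1 : Fintype.card {w : Fin d → ZMod 2 // ¬∑ j, w j = 0} = Fintype.card (Ev d) :=
    Fintype.card_congr ((Equiv.addRight (Pi.single a 1)).subtypeEquiv fun w => by
      rw [Equiv.coe_addRight, key]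
      generalize ∑ j, w j = t
      revert t
      decide)
  have h2 := Fintype.card_subtype_compl fun w : Fin d → ZMod 2 => ∑ j, w j = 0
  have h3 := Fintype.card_subtype_le fun w : Fin d → ZMod 2 => ∑ j, w j = 0
  change _ = _ - Fintype.card (Ev d) at h2
  change Fintype.card (Ev d) ≤ _ at h3
  omega

theorem card_grp (d : ℕ) :
    Nat.card (Ev d × Equiv.Perm (Fin d)) = Fintype.card (Ev d) * d.factorial := by
  rw [Nat.card_eq_fintype_card, Fintype.card_prod, Fintype.card_perm, Fintype.card_fin]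

/-- affine functions on the vertices of the cross-polytope -/
def EX (d : ℕ) : Submodule ℝ (Fin d × ZMod 2 → ℝ) where
  carrier := {f | ∃ c, ∀ j t, f (j, t) + f (j, t + 1) = c}
  add_mem' := fun ⟨a, ha⟩ ⟨b, hb⟩ => ⟨a + b, fun j t => by
    rw [← ha j t, ← hb j t, Pi.add_apply, Pi.add_apply]; ring⟩
  zero_mem' := ⟨0, fun _ _ => add_zero _⟩
  smul_mem' := fun r _ ⟨a, ha⟩ => ⟨r * a, fun j t => by rw [← ha j t, mul_add]; rfl⟩

theorem EX_sub {d : ℕ} (y : Fin d → ZMod 2) {S : Set (Fin d × ZMod 2)}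
    (h : S ⊆ Set.range fun j => (j, y j)) : IsF (EX d) S := by
  classical
  have key : ∀ j t, (j, t) ∈ S → (j, t + 1) ∉ S := fun j t h1 h2 => by
    obtain ⟨_, e1⟩ := h h1
    obtain ⟨_, e2⟩ := h h2
    obtain ⟨rfl, e1⟩ := Prod.ext_iff.1 e1
    obtain ⟨rfl, e3⟩ := Prod.mk.inj e2
    exact z2_ne.2 rfl (e3.symm.trans e1)
  refine ⟨fun z => if z ∈ S then 0 else if (z.1, z.2 + 1) ∈ S then 2 else 1, ⟨2, fun j t => ?_⟩,
    fun z => by dsimp only; split_ifs <;> norm_num,
    fun z => by dsimp only; split_ifs <;> simp [*]⟩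
  simp only [z2_add]
  by_cases h1 : (j, t) ∈ S
  · simp [h1, key j t h1]
  · by_cases h2 : (j, t + 1) ∈ S <;> simp [h1, h2]
    norm_num

theorem EX_cov {d : ℕ} {H : Set (Fin d × ZMod 2)} (h : IsF (EX d) H) (hne : H ≠ Set.univ) :
    ∃ y : Fin d → ZMod 2, H ⊆ Set.range fun j => (j, y j) := by
  classical
  obtain ⟨f, ⟨c, f1⟩, f2, f3⟩ := h
  refine ⟨fun j => if (j, 0) ∈ H then 0 else 1, ?_⟩
  rintro ⟨j, t⟩ hz
  refine ⟨j, Prod.ext rfl ?_⟩
  rcases z2 t with rfl | rfl
  · exact if_pos hz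
  · refine if_neg fun h0 => hne (Set.eq_univ_of_forall fun ⟨l, u⟩ => (f3 _).1 ?_)
    have a1 := f1 j 0
    rw [zero_add, (f3 _).2 h0, (f3 _).2 hz] at a1
    linarith [f1 l u, f2 (l, u), f2 (l, u + 1)]

theorem gr_inj {d : ℕ} {y y' : Fin d → ZMod 2}
    (h : Set.range (fun j => (j, y j)) ⊆ Set.range fun j => (j, y' j)) : y = y' := funext fun j => by
  obtain ⟨l, e⟩ := h ⟨j, rfl⟩
  obtain ⟨rfl, e⟩ := Prod.mk.inj e
  exact e.symm

theorem cross {d s : ℕ} (hd : 3 ≤ d) (hs : 1 ≤ s) : Attained (2 + s * (d - 1)) d := by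
  have hi : ∀ y : Fin d → ZMod 2, Injective fun j => (j, y j) := fun y _ _ e => congrArg Prod.fst e
  have hn : ∀ y : Fin d → ZMod 2, Set.range (fun j => (j, y j)) ≠ Set.univ := fun y e => by
    obtain ⟨l, e⟩ := e.ge (Set.mem_univ (⟨0, by omega⟩, y ⟨0, by omega⟩ + 1))
    obtain ⟨rfl, e⟩ := Prod.mk.inj e
    exact z2_ne.2 rfl e.symm
  have hc : ∀ y : Fin d → ZMod 2, cr (EX d) (Set.range fun j => (j, y j)) = 1 := fun y =>
    max_fac (EX_sub y subset_rfl) (hn y) fun H h1 h2 h3 => by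
      obtain ⟨y', h4⟩ := EX_cov h1 h3
      rwa [gr_inj (h2.trans h4)]
  have hp : IsF (EX d) ∅ := EX_sub 0 (Set.empty_subset _)
  have rk := rk_of (hi 0) (fun S => EX_sub 0) (hc 0)
  have : Nonempty (Ev d) := ⟨⟨0, by simp⟩⟩
  refine stack (EX d) hd hp rk (fun w : Ev d => fun j => (j, w.1 j)) (fun _ => hi _)
    (fun _ => EX_sub _ subset_rfl) (fun _ => hc _) (fun _ _ e => Subtype.ext (gr_inj e.le))
    (fun ⟨j, t⟩ => ?_) (Γ := Ev d × Equiv.Perm (Fin d))
    (fun γ => γ.2.prodShear fun j => Equiv.addRight (γ.1.1 j)) (fun γ δ e => ?_) ?_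
    (fun γ o => ⟨⟨(o.1 + γ.1.1) ∘ γ.2.symm, ?_⟩, fun j => ⟨γ.2 j, by simp⟩⟩) (card_grp d) ?_ hs
  · have : Nontrivial (Fin d) := Fin.nontrivial_iff_two_le.2 (by omega)
    obtain ⟨l, hl⟩ := exists_ne j
    exact ⟨⟨Pi.single j t + Pi.single l t, by simp [sum_add_distrib, CharTwo.add_self_eq_zero]⟩, j,
      by simp [Pi.single_eq_of_ne hl.symm]⟩
  · have key := fun j => Prod.mk.inj (congrArg (fun π : Equiv.Perm (Fin d × ZMod 2) => π (j, 0)) e)
    exact Prod.ext (Subtype.ext (funext fun j => by simpa using (key j).2))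
      (Equiv.ext fun j => (key j).1)
  · rintro γ f ⟨c, hc⟩
    refine ⟨c, fun j t => ?_⟩
    rw [← hc (γ.2 j) (t + γ.1.1 j), add_right_comm]
    rfl
  · rw [show ∑ j, ((o.1 + γ.1.1) ∘ γ.2.symm) j = ∑ j, (o.1 + γ.1.1) j from
      Equiv.sum_comp γ.2.symm _]
    simp [sum_add_distrib, o.2, γ.1.2]
  · rw [card_sum hp rk (fun y : Fin d → ZMod 2 => ⟨_, EX_sub y subset_rfl⟩)
      (fun _ _ e => gr_inj (congrArg Subtype.val e).le) fun H => ⟨fun h => ?_, ?_⟩,
      sum_congr rfl fun y _ => nc_range (hi y) _ rfl fun S => EX_sub y, card_grp, sum_const,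
      card_univ, card_Ev hd, Fintype.card_fin, smul_eq_mul, mul_assoc]
    · obtain ⟨y, hy⟩ := EX_cov H.2 (ne_univ h.ge)
      exact ⟨y, Subtype.ext (fac_max H.2 h (EX_sub y subset_rfl) hy (hn y)).symm⟩
    · rintro ⟨y, rfl⟩
      exact hc y

end Pool.Agent.Lib.Q7.H43
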