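import Pool.Agent.Lib.Q7.Base43a

/-! Towers over the second hypersimplex. -/

namespace Pool.Agent.Lib.Q7.H43

open Module Function Finset Pool.Agent.Lib.MP_7157e1_co

namespace Hyp
variable {α : Type} [Fintype α] [DecidableEq α]

/-- two element subsets -/
abbrev P2 (α : Type) : Type := {y : Finset α // y.card = 2}

/-- linear functions -/
def EH (α : Type) : Submodule ℝ (P2 α → ℝ) where
  carrier := {f | ∃ c : α → ℝ, ∀ y, f y = ∑ j ∈ y.1, c j}
  add_mem' := fun ⟨a, ha⟩ ⟨b, hb⟩ => ⟨a + b, fun y => by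
    simp only [Pi.add_apply, ha, hb, sum_add_distrib]⟩
  zero_mem' := ⟨0, fun _ => by simp⟩
  smul_mem' := fun r _ ⟨a, ha⟩ => ⟨r • a, fun y => by
    simp only [Pi.smul_apply, ha, smul_sum]⟩

def pr {i j : α} (h : i ≠ j) : P2 α := ⟨{i, j}, card_pair h⟩

/-- the pairs inside `s` -/
def GG (s : Finset α) : Set (P2 α) := {y | y.1 ⊆ s}

/-- the pairs inside `s` that contain `i` -/
def St (s : Finset α) (i : α) : Set (P2 α) := {y | i ∈ y.1 ∧ y.1 ⊆ s}

omit [Fintype α] in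
theorem ex_pr {y : P2 α} {i : α} (h : i ∈ y.1) : ∃ j, ∃ e : i ≠ j, y = pr e := by
  obtain ⟨a, b, hab, e⟩ := card_eq_two.1 y.2
  rw [e, mem_insert, mem_singleton] at h
  rcases h with rfl | rfl
  · exact ⟨b, hab, Subtype.ext e⟩
  · exact ⟨a, hab.symm, Subtype.ext (e.trans (pair_comm _ _))⟩

omit [Fintype α] in
theorem pr_sub {i j : α} {h : i ≠ j} {s : Finset α} : (pr h).1 ⊆ s ↔ i ∈ s ∧ j ∈ s := by
  simp [pr, insert_subset_iff]

omit [Fintype α] in
theorem mem_pr {i j l : α} {h : i ≠ j} : l ∈ (pr h).1 ↔ l = i ∨ l = j := by simp [pr]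

omit [Fintype α] in
theorem sum_pr {i j : α} (h : i ≠ j) (c : α → ℝ) : ∑ l ∈ (pr h).1, c l = c i + c j := sum_pair h

omit [Fintype α] in
theorem isF_GG (s : Finset α) : IsF (EH α) (GG s) :=
  ⟨_, ⟨fun j => if j ∈ s then 0 else 1, fun _ => rfl⟩,
    fun y => sum_nonneg fun j _ => by split_ifs <;> norm_num, fun y => by
      rw [sum_eq_zero_iff_of_nonneg fun j _ => by split_ifs <;> norm_num]
      simp [GG, subset_iff]⟩

omit [Fintype α] in
theorem isF_St {i : α} {S : Set (P2 α)} (h : ∀ y ∈ S, i ∈ y.1) : IsF (EH α) S := by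
  classical
  let c : α → ℝ := fun j => if j = i then -1 else if ∃ y ∈ S, j ∈ y.1 then 1 else 2
  have hc : ∀ j, j ≠ i → 1 ≤ c j := fun j hj => by
    simp only [c, if_neg hj]
    split_ifs <;> norm_num
  have key : ∀ y : P2 α, 0 ≤ ∑ j ∈ y.1, c j ∧ (∑ j ∈ y.1, c j = 0 ↔ y ∈ S) := fun y => by
    by_cases hi : i ∈ y.1
    · obtain ⟨j, e, rfl⟩ := ex_pr hi
      rw [sum_pr]
      have h1 : c i = -1 := if_pos rfl
      refine ⟨by linarith [hc j e.symm], fun k => ?_, fun k => ?_⟩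
      · by_cases h2 : ∃ y ∈ S, j ∈ y.1
        · obtain ⟨y, h3, h4⟩ := h2
          obtain ⟨l, e', rfl⟩ := ex_pr (h y h3)
          obtain rfl := (mem_pr.1 h4).resolve_left e.symm
          exact h3
        · have h3 : c j = 2 := (if_neg e.symm).trans (if_neg h2)
          linarith
      · have h3 : c j = 1 := (if_neg e.symm).trans (if_pos ⟨_, k, mem_pr.2 (Or.inr rfl)⟩)
        linarith
    · have h1 : 0 < ∑ j ∈ y.1, c j := sum_pos (fun j hj => one_pos.trans_le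
        (hc j fun e => hi (e ▸ hj))) (card_pos.1 (by rw [y.2]; norm_num))
      exact ⟨h1.le, iff_of_false h1.ne' fun k => hi (h y k)⟩
  exact ⟨_, ⟨c, fun _ => rfl⟩, fun y => (key y).1, fun y => (key y).2⟩

omit [Fintype α] in
theorem cov {s : Finset α} {H : Set (P2 α)} (h : IsF (EH α) H) (h1 : H ⊂ GG s) :
    (∃ i ∈ s, H ⊆ St s i) ∨ ∃ j ∈ s, H ⊆ GG (s.erase j) := by
  obtain ⟨f, ⟨c, f1⟩, f2, f3⟩ := h
  obtain ⟨y0, h2, h3⟩ := Set.exists_of_ssubset h1
  by_cases h4 : ∀ j ∈ s, ∃ y ∈ H, j ∈ y.1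
  swap
  · push Not at h4
    obtain ⟨j, hj, h4⟩ := h4
    exact Or.inr ⟨j, hj, fun y hy => subset_erase.2 ⟨h1.le hy, h4 y hy⟩⟩
  obtain ⟨i, hi, hm⟩ := exists_min_image s c
    ((card_pos.1 (by rw [y0.2]; norm_num)).mono h2)
  refine Or.inl ⟨i, hi, fun y hy => ⟨?_, h1.le hy⟩⟩
  by_contra hn
  have a1 : ∀ j ∈ s, j ≠ i → 0 ≤ c i + c j := fun j _ e => by
    rw [← sum_pr e.symm, ← f1]; exact f2 _
  obtain ⟨a, ha⟩ := card_pos.1 (show 0 < y.1.card by rw [y.2]; norm_num)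
  obtain ⟨b, e, rfl⟩ := ex_pr ha
  have a2 := (f3 _).2 hy
  have a3 := pr_sub.1 (h1.le hy)
  rw [mem_pr, not_or] at hn
  rw [f1, sum_pr] at a2
  have a4 : 0 ≤ c i := by
    linarith [a1 a a3.1 (Ne.symm hn.1), a1 b a3.2 (Ne.symm hn.2)]
  refine h3 ((f3 _).1 ((f1 _).trans (sum_eq_zero fun j hj => ?_)))
  obtain ⟨z, h5, h6⟩ := h4 j (h2 hj)
  exact (sum_eq_zero_iff_of_nonneg fun l hl => a4.trans (hm l (h1.le h5 hl))).1
    ((f1 z).symm.trans ((f3 z).2 h5)) j h6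

omit [Fintype α] in
theorem third {s : Finset α} (hs : 3 ≤ s.card) (i j : α) : ∃ l ∈ s, l ≠ i ∧ l ≠ j := by
  obtain ⟨l, h1, h2⟩ := exists_mem_notMem_of_card_lt_card (s := {i, j}) (t := s)
    (card_le_two.trans_lt hs)
  exact ⟨l, h1, by simpa [not_or] using h2⟩

omit [Fintype α] in
theorem St_inj {s : Finset α} (hs : 3 ≤ s.card) {i j : α} (hi : i ∈ s) (h : St s i ⊆ St s j) :
    i = j := by
  obtain ⟨l, h1, h2, h3⟩ := third hs i j
  rcases mem_pr.1 (h (a := pr h2.symm) ⟨mem_pr.2 (Or.inl rfl), pr_sub.2 ⟨hi, h1⟩⟩).1 with e | e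
  exacts [e.symm, absurd e.symm h3]

omit [Fintype α] in
theorem St_lt {s : Finset α} (hs : 3 ≤ s.card) (i : α) : St s i ⊂ GG s := by
  obtain ⟨j, h1, h2, -⟩ := third hs i i
  obtain ⟨l, h3, h4, h5⟩ := third hs i j
  exact ⟨fun _ h => h.2, fun h => by
    rcases mem_pr.1 (h (a := pr h5) (pr_sub.2 ⟨h3, h1⟩)).1 with e | e
    exacts [h4 e.symm, h2 e.symm]⟩

omit [Fintype α] in
theorem St_eq {s : Finset α} {i : α} (hi : i ∈ s) :
    St s i = Set.range fun j : s.erase i => pr (ne_of_mem_erase j.2).symm := by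
  ext y
  constructor
  · rintro ⟨h1, h2⟩
    obtain ⟨j, e, rfl⟩ := ex_pr h1
    exact ⟨⟨j, mem_erase.2 ⟨e.symm, (pr_sub.1 h2).2⟩⟩, rfl⟩
  · rintro ⟨j, rfl⟩
    exact ⟨mem_pr.2 (Or.inl rfl), pr_sub.2 ⟨hi, mem_of_mem_erase j.2⟩⟩

omit [Fintype α] in
theorem pr_inj {i j l : α} {h : i ≠ j} {h' : i ≠ l} (e : pr h = pr h') : j = l :=
  (mem_pr.1 (e ▸ mem_pr.2 (Or.inr rfl) : j ∈ (pr h').1)).resolve_left h.symm

theorem nc_St {s : Finset α} {i : α} (hi : i ∈ s) :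
    nc (⟨St s i, isF_St fun _ h => h.1⟩ : {G // IsF (EH α) G}) = (s.card - 1).factorial := by
  rw [← card_erase_of_mem hi, ← Fintype.card_coe]
  exact nc_range (fun _ _ e => Subtype.ext (pr_inj e)) _ (St_eq hi)
    fun S hS => isF_St fun y h => (hS h).1

theorem nc_GG (m : ℕ) : ∀ s : Finset α, s.card = m + 3 →
    nc (⟨GG s, isF_GG s⟩ : {G // IsF (EH α) G}) = (m + 1) * (m + 3).factorial := by
  induction m with
  | zero =>
    intro s hs
    have : Nonempty s := (card_pos.1 (by omega)).to_subtype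
    rw [nc_fam _ (fun i : s => ⟨St s i, isF_St fun _ h => h.1⟩) (fun i => St_lt hs.ge i)
      (fun i j h => Subtype.ext (St_inj hs.ge i.2 h)) fun H hH => ?_,
      sum_congr rfl fun i _ => nc_St i.2, sum_const, card_univ, Fintype.card_coe, hs]
    · rfl
    rcases cov H.2 hH with ⟨i, hi, h⟩ | ⟨j, hj, h⟩
    · exact ⟨⟨i, hi⟩, h⟩
    · obtain ⟨l, h1, h2, -⟩ := third hs.ge j j
      refine ⟨⟨l, h1⟩, fun y hy => ⟨?_, hH.le hy⟩⟩
      rw [eq_of_subset_of_card_le (h hy) (by rw [card_erase_of_mem hj, hs, y.2])]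
      exact mem_erase.2 ⟨h2, h1⟩
  | succ m ih =>
    intro s hs
    have h3 : 3 ≤ s.card := by omega
    have he : ∀ j : s, (s.erase j).card = m + 3 := fun j => by rw [card_erase_of_mem j.2]; omega
    have : Nonempty s := (card_pos.1 (by omega)).to_subtype
    rw [nc_fam (Z := s ⊕ s) _ (Sum.elim (fun i => ⟨St s i, isF_St fun _ h => h.1⟩)
      fun j => ⟨GG (s.erase j), isF_GG _⟩) ?_ ?_ fun H hH => ?_, Fintype.sum_sum_type]
    · simp only [Sum.elim_inl, Sum.elim_inr]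
      rw [sum_congr rfl fun i _ => nc_St i.2, sum_congr rfl fun j _ => ih _ (he j), sum_const,
        sum_const, card_univ, Fintype.card_coe, hs, show m + 1 + 3 = m + 3 + 1 from rfl,
        Nat.add_sub_cancel, Nat.factorial_succ (m + 3), smul_eq_mul, smul_eq_mul]
      ring
    · rintro (i | j)
      · exact St_lt h3 i
      · obtain ⟨l, h1, h2, -⟩ := third h3 j j
        exact ⟨fun y hy => hy.trans (erase_subset _ _), fun h => notMem_erase _ _
          (pr_sub.1 (h (a := pr h2) (pr_sub.2 ⟨h1, j.2⟩))).2⟩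
    · rintro (i | i) (j | j) h
      · exact congrArg _ (Subtype.ext (St_inj h3 i.2 h))
      · exfalso
        by_cases e : i.1 = j.1
        · obtain ⟨l, h1, h2, -⟩ := third h3 i i
          exact notMem_erase _ _ (e ▸ (pr_sub.1 (h (a := pr h2.symm)
            ⟨mem_pr.2 (Or.inl rfl), pr_sub.2 ⟨i.2, h1⟩⟩)).1)
        · exact notMem_erase _ _ (pr_sub.1 (h (a := pr e)
            ⟨mem_pr.2 (Or.inl rfl), pr_sub.2 ⟨i.2, j.2⟩⟩)).2
      · exfalso
        obtain ⟨a, h1, h2, -⟩ := third (he i ▸ Nat.le_add_left 3 m) j.1 j.1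
        obtain ⟨b, h4, h5, h6⟩ := third (he i ▸ Nat.le_add_left 3 m) j.1 a
        rcases mem_pr.1 (h (a := pr h6) (pr_sub.2 ⟨h4, h1⟩)).1 with e | e
        exacts [h5 e.symm, h2 e.symm]
      · by_contra hne
        have e : j.1 ≠ i.1 := fun e => hne (congrArg _ (Subtype.ext e.symm))
        obtain ⟨l, h1, h2, h4⟩ := third h3 i j
        exact notMem_erase _ _ (pr_sub.1 (h (a := pr h4)
          (pr_sub.2 ⟨mem_erase.2 ⟨h2, h1⟩, mem_erase.2 ⟨e, j.2⟩⟩))).2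
    · rcases cov H.2 hH with ⟨i, hi, h⟩ | ⟨j, hj, h⟩
      exacts [⟨Sum.inl ⟨i, hi⟩, h⟩, ⟨Sum.inr ⟨j, hj⟩, h⟩]

end Hyp

open Hyp in
theorem hyper {d s : ℕ} (hd : 3 ≤ d) (hs : 1 ≤ s) : Attained (d - 1 + s * (d - 1)) d := by
  let v : Fin (d + 1) → Fin d → P2 (Fin (d + 1)) := fun o j => pr (o.succAbove_ne j).symm
  have h3 : 3 ≤ (univ : Finset (Fin (d + 1))).card := by simp; omega
  have hu : GG (univ : Finset (Fin (d + 1))) = Set.univ :=
    Set.eq_univ_of_forall fun _ => subset_univ _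
  have hi : ∀ o, Injective (v o) := fun o _ _ e => Fin.succAbove_right_injective (pr_inj e)
  have hr : ∀ o, Set.range (v o) = St univ o := fun o => Set.ext fun y => ⟨by
    rintro ⟨j, rfl⟩
    exact ⟨mem_pr.2 (Or.inl rfl), subset_univ _⟩, fun h => by
    obtain ⟨j, e, rfl⟩ := ex_pr h.1
    obtain ⟨l, rfl⟩ := Fin.exists_succAbove_eq e.symm
    exact ⟨l, rfl⟩⟩
  have hf : ∀ o S, S ⊆ Set.range (v o) → IsF (EH _) S := fun o S hS =>
    isF_St fun y hy => ((hr o).le (hS hy)).1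
  have hc : ∀ o, cr (EH _) (Set.range (v o)) = 1 := fun o =>
    max_fac (hf o _ subset_rfl) (by rw [hr, ← hu]; exact (St_lt h3 o).ne) fun H h1 h2 h4 => by
      rw [hr] at h2 ⊢
      rcases cov (s := univ) h1 (hu ▸ Set.ssubset_univ_iff.2 h4) with ⟨i, -, h⟩ | ⟨j, -, h⟩
      · rwa [St_inj h3 (mem_univ o) (h2.trans h)]
      · exfalso
        by_cases e : o = j
        · obtain ⟨l, -, h5, -⟩ := third h3 o o
          exact notMem_erase _ _ (e ▸ (pr_sub.1 (h (h2 (a := pr h5.symm)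
            ⟨mem_pr.2 (Or.inl rfl), subset_univ _⟩))).1)
        · exact notMem_erase _ _ (pr_sub.1 (h (h2 (a := pr e)
            ⟨mem_pr.2 (Or.inl rfl), subset_univ _⟩))).2
  have hp := hf 0 ∅ (Set.empty_subset _)
  have rk := rk_of (hi 0) (hf 0) (hc 0)
  have hg : Nat.card (Equiv.Perm (Fin (d + 1))) = (d + 1).factorial := by
    rw [Nat.card_eq_fintype_card, Fintype.card_perm, Fintype.card_fin]
  refine stack _ hd hp rk v hi (fun o => hf o _ subset_rfl) hc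
    (fun o p e => St_inj h3 (mem_univ o) (by rw [← hr, ← hr, e])) (fun y => ?_)
    (Γ := Equiv.Perm (Fin (d + 1)))
    (fun σ => σ.finsetCongr.subtypeEquiv fun y => by simp) (fun σ τ e => Equiv.ext fun i => ?_) ?_
    (fun σ o => ⟨σ o, fun j => (hr _).ge ⟨mem_map_of_mem _ (mem_pr.2 (Or.inl rfl)), subset_univ _⟩⟩)
    (by rw [hg, Fintype.card_fin, Nat.factorial_succ]) ?_ hs
  · obtain ⟨i, h⟩ := card_pos.1 (show 0 < y.1.card by rw [y.2]; norm_num)
    exact ⟨i, (hr i).ge ⟨h, subset_univ _⟩⟩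
  · by_contra hne
    obtain ⟨l, -, h1, h2⟩ := third h3 i (τ.symm (σ i))
    have h4 : σ i ∈ (pr h1.symm).1.map τ.toEmbedding :=
      (congrArg (fun π : Equiv.Perm (P2 (Fin (d + 1))) => (π (pr h1.symm)).1) e).le
        (mem_map_of_mem _ (mem_pr.2 (Or.inl rfl)))
    rcases mem_pr.1 (mem_map_equiv.1 h4) with k | k
    · exact hne (τ.symm_apply_eq.1 k)
    · exact h2 k.symm
  · rintro σ f ⟨c, hc⟩
    exact ⟨c ∘ σ, fun y => (hc _).trans (sum_map _ _ _)⟩
  · obtain ⟨m, rfl⟩ : ∃ m, d = m + 2 := ⟨d - 2, by omega⟩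
    rw [card_fl hp rk, hg]
    exact (congrArg nc (Subtype.ext hu.symm)).trans (nc_GG m _ (by simp))

end Pool.Agent.Lib.Q7.H43
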