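import Pool.Agent.Lib.Q7.Base43b
import Pool.Agent.Lib.MP_7157e1_co.P6

/-! Towers over the demicube; the existence theorem. -/

namespace Pool.Agent.Lib.Q7.H43

open Module Function Finset Pool.Agent.Lib.MP_7157e1_co

namespace Dem
variable {d : ℕ}

/-- vectors of odd weight -/
abbrev Od (d : ℕ) : Type := {y : Fin d → ZMod 2 // ∑ j, y j = 1}

/-- affine functions -/
def ED (d : ℕ) : Submodule ℝ (Od d → ℝ) where
  carrier := {f | ∃ (c : ℝ) (g : Fin d → ZMod 2 → ℝ), ∀ y, f y = c + ∑ j, g j (y.1 j)}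
  add_mem' := fun ⟨a, g, ha⟩ ⟨b, h, hb⟩ => ⟨a + b, g + h, fun y => by
    simp only [Pi.add_apply, ha, hb, sum_add_distrib]; ring⟩
  zero_mem' := ⟨0, 0, fun _ => by simp⟩
  smul_mem' := fun r _ ⟨a, g, ha⟩ => ⟨r * a, r • g, fun y => by
    simp only [Pi.smul_apply, ha, smul_eq_mul, mul_add, mul_sum]⟩

/-- change one coordinate -/
def fl (j : Fin d) (w : Fin d → ZMod 2) : Fin d → ZMod 2 := update w j (w j + 1)

theorem fl_self (j : Fin d) (w : Fin d → ZMod 2) : fl j w j = w j + 1 := update_self _ _ _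

theorem fl_ne {j l : Fin d} (h : l ≠ j) (w : Fin d → ZMod 2) : fl j w l = w l :=
  update_of_ne h _ _

theorem sum_fl (j : Fin d) (w : Fin d → ZMod 2) : ∑ l, fl j w l = ∑ l, w l + 1 := by
  rw [fl, sum_update_of_mem (mem_univ j), ← add_sum_erase _ w (mem_univ j), sdiff_singleton_eq_erase]
  ring

/-- the neighbours of an even vector -/
def nb (w : Ev d) (j : Fin d) : Od d := ⟨fl j w.1, by rw [sum_fl, w.2, zero_add]⟩

theorem nb_inj (w : Ev d) : Injective (nb w) := fun j l e => by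
  by_contra hne
  have h : fl j w.1 j = fl l w.1 j := congrFun (congrArg Subtype.val e) j
  rw [fl_self, fl_ne hne] at h
  exact z2_ne.2 rfl h

theorem eq_nb {w : Ev d} {y : Od d} {j : Fin d} (h : ∀ l, l ≠ j → y.1 l = w.1 l) : nb w j = y := by
  refine Subtype.ext (funext fun l => ?_)
  by_cases e : l = j
  · subst e
    refine (fl_self _ _).trans (z2_ne.1 fun k => ?_).symm
    have h1 := y.2
    rw [sum_congr rfl fun i _ => show y.1 i = w.1 i from if e : i = l then e ▸ k else h i e,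
      w.2] at h1
    exact zero_ne_one h1
  · exact (fl_ne e _).trans (h l e).symm

theorem ex_od (u : Fin d → ZMod 2) (a : Fin d) : ∃ y : Od d, ∀ l, l ≠ a → y.1 l = u l := by
  rcases z2 (∑ j, u j) with h | h
  exacts [⟨nb ⟨u, h⟩ a, fun l hl => fl_ne hl _⟩, ⟨⟨u, h⟩, fun _ _ => rfl⟩]

/-- a subcube -/
def GG (s : Finset (Fin d)) (z : Fin d → ZMod 2) : Set (Od d) := {y | ∀ j, j ∉ s → y.1 j = z j}

/-- even vectors of a subcube -/
abbrev EV (s : Finset (Fin d)) (z : Fin d → ZMod 2) : Type := {w : Ev d // ∀ j, j ∉ s → w.1 j = z j}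

variable {s : Finset (Fin d)} {z : Fin d → ZMod 2}

theorem isF_GG (s : Finset (Fin d)) (z : Fin d → ZMod 2) : IsF (ED d) (GG s z) :=
  ⟨_, ⟨0, fun j t => if j ∈ s ∨ t = z j then 0 else 1, fun _ => (zero_add _).symm⟩,
    fun y => sum_nonneg fun j _ => by dsimp only; split_ifs <;> norm_num, fun y => by
      rw [sum_eq_zero_iff_of_nonneg fun j _ => by dsimp only; split_ifs <;> norm_num]
      simp [GG, or_iff_not_imp_left]⟩

theorem ex_diff (w : Ev d) (y : Od d) : ∃ j, y.1 j ≠ w.1 j := by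
  by_contra h
  push Not at h
  have h1 := y.2
  rw [funext h, w.2] at h1
  exact zero_ne_one h1

theorem isF_nb (w : Ev d) {S : Set (Od d)} (h : S ⊆ Set.range (nb w)) : IsF (ED d) S := by
  classical
  let g : Fin d → ZMod 2 → ℝ := fun j t => if t = w.1 j then 0 else if nb w j ∈ S then 1 else 2
  have g0 : ∀ j t, 0 ≤ g j t := fun j t => by simp only [g]; split_ifs <;> norm_num
  have g1 : ∀ j t, t ≠ w.1 j → 1 ≤ g j t := fun j t e => by
    simp only [g, if_neg e]; split_ifs <;> norm_num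
  refine ⟨_, ⟨-1, g, fun _ => rfl⟩, fun y => ?_, fun y => ⟨fun k => ?_, fun k => ?_⟩⟩
  · obtain ⟨j, hj⟩ := ex_diff w y
    linarith [g1 j _ hj, single_le_sum (f := fun l => g l (y.1 l)) (fun l _ => g0 _ _) (mem_univ j)]
  · obtain ⟨j, hj⟩ := ex_diff w y
    rw [← add_sum_erase _ _ (mem_univ j)] at k
    have a1 := g1 j _ hj
    have a2 : nb w j = y := eq_nb fun l hl => by
      by_contra e
      linarith [g1 l _ e, single_le_sum (f := fun l => g l (y.1 l)) (fun l _ => g0 _ _)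
        (mem_erase.2 ⟨hl, mem_univ l⟩)]
    by_contra hn
    have a3 : g j (y.1 j) = 2 := (if_neg hj).trans (if_neg (a2 ▸ hn))
    linarith [sum_nonneg (s := univ.erase j) fun l _ => g0 l (y.1 l)]
  · obtain ⟨j, rfl⟩ := h k
    rw [sum_eq_single j (f := fun l => g l ((nb w j).1 l)) (fun l _ e => if_pos (fl_ne e _))
      fun e => absurd (mem_univ j) e]
    have a3 : g j ((nb w j).1 j) = 1 := (if_neg (z2_ne.2 (fl_self _ _))).trans (if_pos k)
    linarith

theorem cov (hs : s.Nonempty) {H : Set (Od d)} (h : IsF (ED d) H) (h1 : H ⊂ GG s z) :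
    (∃ w : EV s z, H ⊆ nb w.1 '' s) ∨ ∃ j ∈ s, ∃ t, H ⊆ GG (s.erase j) (update z j t) := by
  classical
  obtain ⟨f, ⟨c, g, f1⟩, f2, f3⟩ := h
  obtain ⟨y0, h2, h3⟩ := Set.exists_of_ssubset h1
  let w : Fin d → ZMod 2 := fun j => if j ∈ s then (if g j 0 ≤ g j 1 then 0 else 1) else z j
  have w1 : ∀ j, j ∉ s → w j = z j := fun j hj => if_neg hj
  let δ : Fin d → ℝ := fun j => g j (w j + 1) - g j (w j)
  have δ0 : ∀ j ∈ s, 0 ≤ δ j := fun j hj => by
    simp only [δ, w, if_pos hj]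
    split_ifs with e
    · rwa [zero_add, sub_nonneg]
    · rw [show (1 + 1 : ZMod 2) = 0 from rfl, sub_nonneg]
      exact (not_le.1 e).le
  have key : ∀ y ∈ GG s z, f y = (c + ∑ j, g j (w j)) + ∑ j ∈ s.filter fun j => y.1 j ≠ w j, δ j :=
    fun y hy => by
      rw [f1, add_assoc, sum_filter, ← sum_subset (subset_univ s) (f := fun j => g j (y.1 j) -
        g j (w j)) (fun j _ hj => by rw [hy j hj, w1 j hj, sub_self]) |>.trans (sum_sub_distrib ..)
        |> sub_eq_iff_eq_add'.1 ∘ Eq.symm |>.symm]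
      refine congrArg _ (congrArg _ (sum_congr rfl fun j _ => ?_))
      split_ifs with e
      · rw [z2_ne.1 e]
      · rw [not_not.1 e, sub_self]
  by_cases h4 : ∀ j ∈ s, ∃ y ∈ H, y.1 j ≠ w j
  swap
  · push Not at h4
    obtain ⟨j, hj, h4⟩ := h4
    refine Or.inr ⟨j, hj, w j, fun y hy l hl => ?_⟩
    by_cases e : l = j
    · rw [e, update_self, h4 y hy]
    · rw [update_of_ne e, h1.le hy l fun k => hl (mem_erase.2 ⟨e, k⟩)]
  have a1 : ∀ j ∈ s, c + ∑ j, g j (w j) + δ j ≤ 0 := fun j hj => by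
    obtain ⟨y, k1, k2⟩ := h4 j hj
    rw [← (f3 y).2 k1, key y (h1.le k1), add_le_add_iff_left]
    exact single_le_sum (fun l hl => δ0 l (mem_filter.1 hl).1) (mem_filter.2 ⟨hj, k2⟩)
  have a2 : c + ∑ j, g j (w j) < 0 := by
    by_contra hn
    have b1 : ∀ j ∈ s, δ j = 0 := fun j hj => by linarith [a1 j hj, δ0 j hj]
    have b2 := key y0 h2
    rw [sum_eq_zero fun l hl => b1 l (mem_filter.1 hl).1, add_zero] at b2
    obtain ⟨j, hj⟩ := hs
    exact h3 ((f3 y0).1 (by linarith [a1 j hj, b1 j hj]))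
  have a3 : ∑ j, w j = 0 := (z2 _).resolve_right fun e => by
    have b1 := f2 ⟨w, e⟩
    rw [f1] at b1
    exact absurd a2 (not_lt.2 b1)
  have a4 : ∀ j ∈ s, δ j = -(c + ∑ j, g j (w j)) := fun j hj => by
    have b1 := f2 (nb ⟨w, a3⟩ j)
    rw [key _ fun l hl => (fl_ne (ne_of_mem_of_not_mem hj hl).symm w).trans (w1 l hl),
      sum_eq_single_of_mem (s := s.filter fun l => (nb ⟨w, a3⟩ j).1 l ≠ w l) j
        (mem_filter.2 ⟨hj, z2_ne.2 (fl_self j w)⟩) fun l hl e =>
          absurd (fl_ne e w) (mem_filter.1 hl).2] at b1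
    linarith [a1 j hj]
  refine Or.inl ⟨⟨⟨w, a3⟩, w1⟩, fun y hy => ?_⟩
  have b1 := key y (h1.le hy)
  rw [(f3 y).2 hy, sum_congr rfl fun l hl => a4 l (mem_filter.1 hl).1, sum_const, nsmul_eq_mul] at b1
  obtain ⟨j, hj⟩ := card_eq_one.1 (Nat.cast_eq_one (R := ℝ).1
    (mul_right_cancel₀ a2.ne (by linarith : _ = 1 * (c + ∑ j, g j (w j))) :
      ((s.filter fun j => y.1 j ≠ w j).card : ℝ) = 1))
  refine ⟨j, (mem_filter.1 (hj.ge (mem_singleton_self j))).1, eq_nb fun l hl => ?_⟩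
  by_contra hn
  by_cases e : l ∈ s
  · exact hl (mem_singleton.1 (hj.le (mem_filter.2 ⟨e, hn⟩)))
  · exact hn ((h1.le hy l e).trans (w1 l e).symm)

theorem more (hs : 3 ≤ s.card) (i j : Fin d) : ∃ l ∈ s, l ≠ i ∧ l ≠ j := Hyp.third hs i j

theorem nb_diff {w : Ev d} {j b c : Fin d} (h1 : (nb w j).1 b ≠ w.1 b) (h2 : (nb w j).1 c ≠ w.1 c) :
    b = c := by
  by_contra hne
  by_cases e : b = j
  · exact h2 (fl_ne (fun k => hne (e.trans k.symm)) _)
  · exact h1 (fl_ne e _)

theorem nb_sub (w : EV s z) : nb w.1 '' s ⊆ GG s z := by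
  rintro _ ⟨j, hj, rfl⟩ l hl
  exact (fl_ne (ne_of_mem_of_not_mem hj hl).symm _).trans (w.2 l hl)

/-- a point of a subcube far from a given vector -/
theorem far (hs : 3 ≤ s.card) (z w : Fin d → ZMod 2) :
    ∃ y ∈ GG s z, ∃ b c, b ≠ c ∧ y.1 b ≠ w b ∧ y.1 c ≠ w c := by
  obtain ⟨a, ha⟩ := card_pos.1 (show 0 < s.card by omega)
  obtain ⟨b, hb, h1, -⟩ := more hs a a
  obtain ⟨c, hc, h2, h3⟩ := more hs a b
  obtain ⟨y, hy⟩ := ex_od (fun l => if l ∈ s then w l + 1 else z l) a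
  exact ⟨y, fun l hl => (hy l fun e => hl (e ▸ ha)).trans (if_neg hl), b, c, h3.symm,
    z2_ne.2 ((hy b h1).trans (if_pos hb)), z2_ne.2 ((hy c h2).trans (if_pos hc))⟩

theorem far_not (hs : 3 ≤ s.card) (w : Ev d) (t : Set (Fin d)) : ¬GG s z ⊆ nb w '' t := fun h => by
  obtain ⟨y, h1, b, c, h2, h3, h4⟩ := far hs z w.1
  obtain ⟨j, -, rfl⟩ := h h1
  exact h2 (nb_diff h3 h4)

theorem nb_anti (hs : 3 ≤ s.card) {w w' : Ev d} (h : nb w '' s ⊆ Set.range (nb w')) : w = w' := by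
  by_contra hne
  have key : ∀ a ∈ s, w.1 a ≠ w'.1 a := fun a ha e => by
    obtain ⟨j, hj⟩ := h ⟨a, ha, rfl⟩
    have h1 : (nb w' j).1 a ≠ w'.1 a := by rw [hj, ← e]; exact z2_ne.2 (fl_self _ _)
    obtain rfl : j = a := by
      by_contra k
      exact h1 (fl_ne (Ne.symm k) _)
    refine hne (Subtype.ext (funext fun l => ?_))
    by_cases k : l = j
    · rw [k, e]
    · exact (fl_ne k _).symm.trans ((congrFun (congrArg Subtype.val hj) l).symm.trans (fl_ne k _))
  obtain ⟨a, ha⟩ := card_pos.1 (show 0 < s.card by omega)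
  obtain ⟨b, hb, h1, -⟩ := more hs a a
  obtain ⟨c, hc, h2, h3⟩ := more hs a b
  obtain ⟨j, hj⟩ := h ⟨a, ha, rfl⟩
  exact h3 (nb_diff (w := w') (j := j) (by rw [hj]; exact fun e => key c hc ((fl_ne h2 _).symm.trans e))
    (by rw [hj]; exact fun e => key b hb ((fl_ne h1 _).symm.trans e)))

theorem nb_not (hs : 3 ≤ s.card) (w : Ev d) {j : Fin d} (hj : j ∈ s) {t : Finset (Fin d)}
    (ht : j ∉ t) : ¬nb w '' s ⊆ GG t z := fun h => by
  obtain ⟨a, ha, h1, -⟩ := more hs j j
  exact z2_ne.2 rfl (((fl_self j _).symm.trans (h ⟨j, hj, rfl⟩ j ht)).trans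
    ((h ⟨a, ha, rfl⟩ j ht).symm.trans (fl_ne h1.symm _)))

theorem nc_nb (w : Ev d) (s : Finset (Fin d)) : nc (⟨nb w '' s, isF_nb w
    (Set.image_subset_range _ _)⟩ : {G // IsF (ED d) G}) = s.card.factorial :=
  nc_simplex _ _ (fun _ hS => isF_nb w (hS.trans (Set.image_subset_range _ _)))
    (by rw [Set.ncard_image_of_injective _ (nb_inj w), Set.ncard_coe_finset])

theorem card_EV {j : Fin d} (hj : j ∈ s) :
    ∑ t, Fintype.card (EV (s.erase j) (update z j t)) = Fintype.card (EV s z) := by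
  rw [← Fintype.card_sigma]
  refine Fintype.card_congr ⟨fun p => ⟨p.2.1, fun l hl => (p.2.2 l fun k =>
    hl (mem_of_mem_erase k)).trans (update_of_ne (ne_of_mem_of_not_mem hj hl).symm _ _)⟩,
    fun w => ⟨w.1.1 j, w.1, fun l hl => ?_⟩, ?_, fun _ => rfl⟩
  · by_cases e : l = j
    · rw [e, update_self]
    · rw [update_of_ne e, w.2 l fun k => hl (mem_erase.2 ⟨e, k⟩)]
  · rintro ⟨t, w, hw⟩
    obtain rfl : w.1 j = t := (hw j (notMem_erase _ _)).trans (update_self _ _ _)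
    rfl

theorem ne_EV (hs : s.Nonempty) (z : Fin d → ZMod 2) : Nonempty (EV s z) := by
  obtain ⟨a, ha⟩ := hs
  rcases z2 (∑ j, z j) with h | h
  · exact ⟨⟨⟨z, h⟩, fun _ _ => rfl⟩⟩
  · exact ⟨⟨⟨fl a z, by rw [sum_fl, h]; rfl⟩, fun l hl => fl_ne (ne_of_mem_of_not_mem ha hl).symm _⟩⟩

theorem nb_lt (hs : 3 ≤ s.card) (w : EV s z) : nb w.1 '' s ⊂ GG s z :=
  ⟨nb_sub w, far_not hs _ _⟩

theorem nc_GG (m : ℕ) : ∀ (s : Finset (Fin d)) (z : Fin d → ZMod 2), s.card = m + 3 →
    nc (⟨GG s z, isF_GG s z⟩ : {G // IsF (ED d) G}) =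
      (m + 1) * (Fintype.card (EV s z) * (m + 3).factorial) := by
  induction m with
  | zero =>
    intro s z hs
    have h0 : s.Nonempty := card_pos.1 (by omega)
    have := ne_EV h0 z
    rw [nc_fam _ (fun w : EV s z => ⟨_, isF_nb w.1 (Set.image_subset_range _ s)⟩) (nb_lt hs.ge)
      (fun w w' h => Subtype.ext (nb_anti hs.ge (Set.Subset.trans h (Set.image_subset_range _ _))))
      fun H hH => ?_, sum_congr rfl fun w _ => nc_nb w.1 s, sum_const, card_univ, hs, smul_eq_mul]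
    · exact (one_mul _).symm
    rcases cov h0 H.2 hH with h | ⟨j, hj, t, h⟩
    · exact h
    · obtain ⟨a, b, hab, e⟩ := card_eq_two.1 (show (s.erase j).card = 2 by
        rw [card_erase_of_mem hj, hs])
      have ha : a ∈ s.erase j := e ▸ mem_insert_self _ _
      have hb : b ∈ s.erase j := e ▸ mem_insert_of_mem (mem_singleton_self _)
      obtain ⟨⟨w, hw⟩⟩ := ne_EV ⟨a, ha⟩ (update z j t)
      refine ⟨⟨w, fun l hl => (hw l fun k => hl (mem_of_mem_erase k)).trans
        (update_of_ne (ne_of_mem_of_not_mem hj hl).symm _ _)⟩, fun y hy => ?_⟩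
      have k : ∀ l, l ≠ a → l ≠ b → y.1 l = w.1 l := fun l l1 l2 => by
        have : l ∉ s.erase j := by simp [e, l1, l2]
        rw [h hy l this, hw l this]
      by_cases e1 : y.1 a = w.1 a
      · exact ⟨b, mem_of_mem_erase hb, eq_nb fun l hl =>
          if e2 : l = a then e2 ▸ e1 else k l e2 hl⟩
      · refine ⟨a, mem_of_mem_erase ha, eq_nb fun l hl => if e2 : l = b then ?_ else k l hl e2⟩
        subst e2
        have k1 := y.2
        have k2 := w.2
        rw [← add_sum_erase _ _ (mem_univ a), ← add_sum_erase _ _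
          (mem_erase.2 ⟨hl, mem_univ l⟩)] at k1 k2
        rw [sum_congr rfl fun i hi => k i (ne_of_mem_erase (mem_of_mem_erase hi))
          (ne_of_mem_erase hi), z2_ne.1 e1] at k1
        linear_combination k1 - k2
  | succ m ih =>
    intro s z hs
    have h3 : 3 ≤ s.card := by omega
    have h0 : s.Nonempty := card_pos.1 (by omega)
    have he : ∀ j : s, (s.erase j).card = m + 3 := fun j => by rw [card_erase_of_mem j.2]; omega
    have := ne_EV h0 z
    rw [nc_fam (Z := EV s z ⊕ s × ZMod 2) _ (Sum.elim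
      (fun w => ⟨_, isF_nb w.1 (Set.image_subset_range _ s)⟩)
      fun p => ⟨_, isF_GG (s.erase p.1) (update z p.1 p.2)⟩) ?_ ?_ fun H hH => ?_,
      Fintype.sum_sum_type, Fintype.sum_prod_type]
    · simp only [Sum.elim_inl, Sum.elim_inr]
      rw [sum_congr rfl fun w _ => nc_nb w.1 s, sum_congr rfl fun j _ => (sum_congr rfl fun t _ =>
        ih _ _ (he j)).trans (by rw [← mul_sum, ← sum_mul, card_EV j.2]), sum_const,
        sum_const, card_univ, card_univ, Fintype.card_coe, hs, show m + 1 + 3 = m + 3 + 1 from rfl,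
        Nat.factorial_succ (m + 3), smul_eq_mul, smul_eq_mul]
      ring
    · rintro (w | ⟨j, t⟩)
      · exact nb_lt h3 w
      · refine ⟨fun y hy l hl => (hy l fun k => hl (mem_of_mem_erase k)).trans
          (update_of_ne (ne_of_mem_of_not_mem j.2 hl).symm _ _), fun h => ?_⟩
        obtain ⟨a, ha, h1, -⟩ := more h3 j j
        obtain ⟨y, hy⟩ := ex_od (update z j (t + 1)) a
        refine z2_ne.2 rfl ((((hy j h1.symm).trans (update_self _ _ _)).symm.trans
          (h (a := y) (fun l hl => ?_) j (notMem_erase _ _))).trans (update_self _ _ _))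
        rw [hy l fun e => hl (e ▸ ha), update_of_ne (ne_of_mem_of_not_mem j.2 hl).symm]
    · rintro (w | ⟨i, t⟩) (w' | ⟨j, u⟩) h
      · exact congrArg _ (Subtype.ext (nb_anti h3 (Set.Subset.trans h (Set.image_subset_range _ _))))
      · exact absurd h (nb_not h3 _ j.2 (notMem_erase _ _))
      · exact absurd h (far_not (he i ▸ Nat.le_add_left 3 m) _ _)
      · obtain ⟨a, ha, h1, h2⟩ := more h3 i j
        have k : ∀ x : ZMod 2, update (update z j x) i t j = u := fun x => by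
          obtain ⟨y, hy⟩ := ex_od (update (update z j x) i t) a
          refine ((hy j h2.symm).symm.trans (h (a := y) (fun l hl => ?_) j
            (notMem_erase _ _))).trans (update_self _ _ _)
          rw [hy l fun e => hl (e ▸ mem_erase.2 ⟨h1, ha⟩)]
          by_cases e : l = i
          · rw [e, update_self, update_self]
          · rw [update_of_ne e, update_of_ne e,
              update_of_ne fun e' : l = j => hl (mem_erase.2 ⟨e, e' ▸ j.2⟩)]
        have k1 := k (u + 1)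
        by_cases e : j.1 = i.1
        · rw [e, update_self] at k1
          rw [k1, Subtype.ext e]
        · rw [update_of_ne e, update_self] at k1
          exact absurd k1 (z2_ne.2 rfl)
    · rcases cov h0 H.2 hH with ⟨w, h⟩ | ⟨j, hj, t, h⟩
      exacts [⟨Sum.inl w, h⟩, ⟨Sum.inr (⟨j, hj⟩, t), h⟩]

/-- the symmetries -/
def sy (γ : Ev d × Equiv.Perm (Fin d)) : Equiv.Perm (Od d) :=
  ((Equiv.addRight γ.1.1).trans (γ.2.arrowCongr (Equiv.refl _))).subtypeEquiv fun y => by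
    rw [show ∑ j, ((Equiv.addRight γ.1.1).trans (γ.2.arrowCongr (Equiv.refl _))) y j =
      ∑ j, (y + γ.1.1) j from Equiv.sum_comp γ.2.symm (y + γ.1.1)]
    simp [sum_add_distrib, γ.1.2]

theorem sy_val (γ : Ev d × Equiv.Perm (Fin d)) (y : Od d) (j : Fin d) :
    (sy γ y).1 j = y.1 (γ.2.symm j) + γ.1.1 (γ.2.symm j) := rfl

end Dem

open Dem in
theorem demi {d s : ℕ} (hd : 3 ≤ d) (hs : 1 ≤ s) : Attained (d - 2 + s * (d - 1)) d := by
  have h3 : 3 ≤ (univ : Finset (Fin d)).card := by simpa using hd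
  have h0 : (univ : Finset (Fin d)).Nonempty := card_pos.1 (by omega)
  have hu : GG (univ : Finset (Fin d)) 0 = Set.univ :=
    Set.eq_univ_of_forall fun _ j hj => absurd (mem_univ j) hj
  have hr : ∀ w : Ev d, nb w '' (univ : Finset (Fin d)) = Set.range (nb w) := fun w => by simp
  have hc : ∀ w : Ev d, cr (ED d) (Set.range (nb w)) = 1 := fun w =>
    max_fac (isF_nb w subset_rfl) (fun e => far_not (z := 0) h3 w _ (by rw [hr, e, hu]))
      fun H h1 h2 h4 => by
        rcases cov h0 h1 (hu ▸ Set.ssubset_univ_iff.2 h4) with ⟨w', h⟩ | ⟨j, hj, t, h⟩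
        · rw [hr] at h
          rwa [nb_anti h3 ((hr w).le.trans (h2.trans h))]
        · exact absurd ((hr w).le.trans (h2.trans h)) (nb_not h3 w hj (notMem_erase _ _))
  let o : Ev d := ⟨0, by simp⟩
  have : Nonempty (Ev d) := ⟨o⟩
  have hp := isF_nb o (Set.empty_subset _)
  have rk := rk_of (nb_inj o) (fun S => isF_nb o) (hc o)
  refine stack _ hd hp rk nb nb_inj (fun w => isF_nb w subset_rfl) hc
    (fun w w' e => nb_anti h3 ((hr w).le.trans e.le)) (fun y => ?_) sy (fun γ δ e => ?_) ?_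
    (fun γ w => ⟨⟨(w.1 + γ.1.1) ∘ γ.2.symm, ?_⟩, fun j => ⟨γ.2 j, eq_nb fun l hl => ?_⟩⟩)
    (card_grp d) ?_ hs
  · obtain ⟨a, -⟩ := h0
    exact ⟨⟨fl a y.1, by rw [sum_fl, y.2]; rfl⟩, a, eq_nb fun l hl => (fl_ne hl _).symm⟩
  · have key : ∀ a j, (nb o a).1 (γ.2.symm j) + γ.1.1 (γ.2.symm j) =
        (nb o a).1 (δ.2.symm j) + δ.1.1 (δ.2.symm j) := fun a j => by
      rw [← sy_val, ← sy_val, e]
    have k1 : ∀ j, γ.1.1 (γ.2.symm j) = δ.1.1 (δ.2.symm j) := fun j => by
      obtain ⟨a, -, h1, h2⟩ := more h3 (γ.2.symm j) (δ.2.symm j)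
      have := key a j
      rwa [show (nb o a).1 (γ.2.symm j) = 0 from fl_ne h1.symm _,
        show (nb o a).1 (δ.2.symm j) = 0 from fl_ne h2.symm _, zero_add, zero_add] at this
    have k2 : γ.2.symm = δ.2.symm := Equiv.ext fun j => by
      by_contra hne
      have := key (γ.2.symm j) j
      rw [k1, add_left_inj] at this
      exact z2_ne.2 rfl ((fl_self _ _).symm.trans (this.trans (fl_ne (Ne.symm hne) _)))
    refine Prod.ext (Subtype.ext (funext fun j => ?_)) (Equiv.symm_bijective.1 k2)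
    have := k1 (γ.2 j)
    rwa [← k2, Equiv.symm_apply_apply] at this
  · rintro γ f ⟨c, g, hg⟩
    refine ⟨c, fun j t => g (γ.2 j) (t + γ.1.1 j), fun y => (hg _).trans (congrArg _ ?_)⟩
    rw [← Equiv.sum_comp γ.2]
    simp only [sy_val, Equiv.symm_apply_apply]
  · rw [show ∑ j, ((w.1 + γ.1.1) ∘ γ.2.symm) j = ∑ j, (w.1 + γ.1.1) j from
      Equiv.sum_comp γ.2.symm _]
    simp [sum_add_distrib, w.2, γ.1.2]
  · rw [sy_val]
    exact congrArg (· + _) (fl_ne (fun e => hl (γ.2.symm_apply_eq.1 e)) _)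
  · obtain ⟨m, rfl⟩ : ∃ m, d = m + 3 := ⟨d - 3, by omega⟩
    rw [card_fl hp rk, card_grp]
    refine (congrArg nc (Subtype.ext hu.symm)).trans ((nc_GG m _ 0 (by simp)).trans ?_)
    rw [Fintype.card_congr (Equiv.subtypeUnivEquiv fun _ j hj => absurd (mem_univ j) hj)]
    rfl

/-- the existence theorem -/
theorem exist {k d : ℕ} (hd : 5 ≤ d) (hk : d ≤ k + 2) (hm : (k + 1) % (d - 1) ≤ 3) :
    Attained k d := by
  obtain ⟨e, rfl⟩ : ∃ e, d = e + 5 := ⟨d - 5, by omega⟩
  have hq := Nat.div_add_mod (k + 1) (e + 5 - 1)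
  generalize (k + 1) % (e + 5 - 1) = t at *
  generalize (k + 1) / (e + 5 - 1) = s at *
  have e1 : e + 5 - 1 = e + 4 := rfl
  have e2 : e + 5 - 2 = e + 3 := rfl
  rw [e1] at hq
  rcases s with _ | s
  · omega
  rcases (show t = 0 ∨ t = 1 ∨ t = 2 ∨ t = 3 by omega) with rfl | rfl | rfl | rfl
  · rcases s with _ | s
    · rw [show k = e + 5 - 2 by omega]; exact demicube hd
    · rw [show k = e + 5 - 2 + (s + 1) * (e + 5 - 1) by rw [e1, e2]; nlinarith]
      exact demi (by omega) (by omega)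
  · rcases s with _ | s
    · rw [show k = e + 5 - 1 by omega]; exact hypersimplex (by omega)
    · rw [show k = e + 5 - 1 + (s + 1) * (e + 5 - 1) by rw [e1]; nlinarith]
      exact hyper (by omega) (by omega)
  · rw [show k = 1 + (s + 1) * (e + 5 - 1) by rw [e1]; nlinarith]
    exact simplex (by omega) (by omega)
  · rw [show k = 2 + (s + 1) * (e + 5 - 1) by rw [e1]; nlinarith]
    exact cross (by omega) (by omega)

end Pool.Agent.Lib.Q7.H43
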