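import Pool.Agent.Lib.MP_7157e1_co.FoRf

/-! The chamber is a strict fundamental domain, and parabolic subgroups contain no other wall. -/

namespace Pool.Agent.FlagOrb

open Equiv Set Real

namespace PS

variable {F L : Type} [Lattice L] {n : ℕ} {r : ℕ → Perm F} {φ : ℕ → F → L} (h : PS n r φ)
include h

/-- The universal property of the group generated by the walls of a chamber. -/
theorem cover65 {a b : ℕ} (hb : b ≤ n) (x0 : F) {H : Type} [Group H] (s : Perm F → H)
    (ss : ∀ g, s g * s g = 1)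
    (hs : ∀ g ∈ Walls r a b x0, ∀ k ∈ Walls r a b x0, ∀ j, (g * k) ^ j = 1 → (s g * s k) ^ j = 1)
    {p : Perm F × H} (hp : p ∈ Subgroup.closure ((fun g => (g, s g)) '' Walls r a b x0))
    {x x' : F} (hx : InD r a b x0 x) (hx' : InD r a b x0 x') (he : p.1 x = x') : p = 1 := by
  classical
  let G := Aut r × H
  let A : F → ℕ → G := fun x c => (⟨rf r x c, rf_aut x c⟩, s (rf r x c))
  have AA : ∀ x c, A x c * A x c = 1 := fun x c =>
    Prod.ext (Subtype.ext (h.rf_sq x c)) (ss _)
  let R0 : ℕ → F × G → F × G := fun c y =>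
    if Wl r y.1 c then (y.1, y.2 * A y.1 c) else (r c y.1, y.2)
  have R0w : ∀ c x g, Wl r x c → R0 c (x, g) = (x, g * A x c) := fun c x g hw => if_pos hw
  have R0n : ∀ c x g, ¬ Wl r x c → R0 c (x, g) = (r c x, g) := fun c x g hw => if_neg hw
  have R0i : ∀ c, Function.Involutive (R0 c) := by
    rintro c ⟨x, g⟩
    by_cases hw : Wl r x c
    · rw [R0w c x g hw, R0w c x _ hw, mul_assoc, AA, mul_one]
    · rw [R0n c x g hw, R0n c _ _ (by rwa [h.wl_step]), h.rr]
  let R : ℕ → Perm (F × G) := fun c => (R0i c).toPerm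
  have Rw : ∀ c x g, Wl r x c → R c (x, g) = (x, g * A x c) := R0w
  have Rn : ∀ c x g, ¬ Wl r x c → R c (x, g) = (r c x, g) := R0n
  have hR : ∀ c, R c * R c = 1 := fun c => by ext1 y; exact R0i c y
  let pr : F × G → F := fun y => (y.2.1 : Perm F) y.1
  have hpr : ∀ c y, pr (R c y) = r c (pr y) := by
    rintro c ⟨x, g⟩
    by_cases hw : Wl r x c
    · rw [Rw c x g hw]
      change (g.1 : Perm F) (rf r x c x) = r c ((g.1 : Perm F) x)
      rw [rf_app hw, Aut.app g.1.2]
    · rw [Rn c x g hw]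
      exact Aut.app g.1.2 c x
  have hP : ∀ c ∈ Ico a b, ∀ y : F × G, InD r a b x0 y.1 → InD r a b x0 (R c y).1 := by
    rintro c hc ⟨x, g⟩ hx
    by_cases hw : Wl r x c
    · rw [Rw c x g hw]; exact hx
    · rw [Rn c x g hw]; exact hx.next hc hw
  have hit : ∀ c c' x t x' e, Seg r c c' x t x' e → ∀ g,
      ((R c' * R c) ^ t * R c') (x, g) = (x, g * A x' e) := by
    intro c c' x t x' e hs
    induction hs with
    | zero c c' x hw => intro g; simpa using Rw c' x g hw
    | succ c c' x t x' e hw _ ih =>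
      intro g
      apply (R c').injective
      rw [Rn c' x _ hw, ← ih g, ← Perm.mul_apply (R c'), ← mul_assoc, mul_pow_conj _ _ (hR c'),
        pow_succ, ← Rn c' x g hw]
      simp [Perm.mul_apply]
  have relw : ∀ c ∈ Ico a b, ∀ c' ∈ Ico a b, ∀ (y : F × G), InD r a b x0 y.1 →
      Wl r y.1 c → ∀ m, ((r c' * r c) ^ m) (pr y) = pr y → ((R c' * R c) ^ m) y = y := by
    rintro c hc c' hc' ⟨x, g⟩ hx hw m hm
    have hu : ∀ i, (r c' * r c) ^ i ∈ W r univ := fun i =>
      pow_mem (mul_mem (W_gen (mem_univ _)) (W_gen (mem_univ _))) i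
    have hm' : ((r c' * r c) ^ m) x = x := by
      apply (g.1 : Perm F).injective
      rw [Aut.appW g.1.2 (hu m)]; exact hm
    rcases m with _ | m
    · rfl
    have e1 : Eqv r x (((r c' * r c) ^ m * r c') x) := by
      have := Eqv.map hw (mul_mem (hu m) (W_gen (t := r) (c := c') (mem_univ _)))
      rw [← Perm.mul_apply, mul_assoc, ← pow_succ, hm'] at this
      exact this.symm
    obtain ⟨t, x', e, hsg⟩ := h.seg_ex m c c' x e1
    obtain ⟨j, hj, hj1⟩ := h.seg_dvd hw hsg hm'
    obtain ⟨hx', he, hw'⟩ := hsg.ind hc hc' hx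
    have h2 : ∀ j g, ((R c' * R c) ^ ((t + 1) * j)) (x, g) = (x, g * (A x c * A x' e) ^ j) := by
      intro j
      induction j with
      | zero => intro g; simp
      | succ j ih =>
        intro g
        rw [mul_add, mul_one, add_comm, pow_add, Perm.mul_apply, ih, pow_succ, ← mul_assoc,
          Perm.mul_apply, Rw c x _ hw, hit _ _ _ _ _ _ hsg, pow_succ]
        simp only [mul_assoc]
    rw [hj, h2]
    have : (A x c * A x' e) ^ j = 1 :=
      Prod.ext (Subtype.ext hj1) (hs _ (wall_mem hx hc hw) _ (wall_mem hx' he hw') j hj1)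
    rw [this, mul_one]
  have rel : ∀ c ∈ Ico a b, ∀ c' ∈ Ico a b, ∀ (y : F × G) (m : ℕ), InD r a b x0 y.1 →
      ((r c * r c') ^ m) (pr y) = pr y → ((R c * R c') ^ m) y = y := by
    intro c hc c' hc' y m hy hm
    have hsub : ∀ d ∈ ({c, c'} : Set ℕ), d ∈ Ico a b := by
      rintro d (rfl | rfl) <;> assumption
    by_cases hP' : ∀ z, Rch R {c, c'} y z → ¬ Wl r z.1 c ∧ ¬ Wl r z.1 c'
    · have key : ∀ m, Rch R {c, c'} y (((r c * r c') ^ m) y.1, y.2) ∧
          ((R c * R c') ^ m) y = (((r c * r c') ^ m) y.1, y.2) := by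
        intro m
        induction m with
        | zero => exact ⟨Rch.refl _, rfl⟩
        | succ m ih =>
          have q1 := ih.1.next (c := c') (by simp)
          have w1 := Rn c' _ y.2 (hP' _ ih.1).2
          rw [w1] at q1
          have q2 := q1.next (c := c) (by simp)
          have w2 := Rn c _ y.2 (hP' _ q1).1
          rw [w2] at q2
          refine ⟨by rw [pow_succ']; exact q2, ?_⟩
          rw [pow_succ', Perm.mul_apply, ih.2, Perm.mul_apply, w1, w2, pow_succ']; rfl
      rw [(key m).2]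
      refine Prod.ext ?_ rfl
      apply (y.2.1 : Perm F).injective
      rw [Aut.appW y.2.1.2 (I := univ)
        (pow_mem (mul_mem (W_gen (mem_univ _)) (W_gen (mem_univ _))) m)]
      exact hm
    · push Not at hP'
      obtain ⟨z, hz, hwz⟩ := hP'
      have hzD : InD r a b x0 z.1 :=
        hz.ind (fun d _ => hR d) (P := fun z => InD r a b x0 z.1) hy
          fun z d hd _ ih => hP d (hsub d hd) z ih
      let Q : F × G → Prop := fun z => ∀ m, ((r c * r c') ^ m) (pr z) = pr z →
        ((R c * R c') ^ m) z = z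
      have Qz : Q z := by
        by_cases hw : Wl r z.1 c
        · intro m hm
          exact pow_swap_app (hR _) (hR _)
            (relw c hc c' hc' z hzD hw m (pow_swap_app (h.inv _) (h.inv _) hm))
        · exact relw c' hc' c hc z hzD (hwz hw)
      refine hz.symm.ind (fun d _ => hR d) (P := Q) Qz ?_ m hm
      rintro z d (rfl | rfl) _ ih m hm
      · apply pow_swap_app (hR _) (hR _)
        rw [← mul_pow_conj _ _ (hR d)]
        simp only [Perm.mul_apply, invol_apply (hR d)]
        rw [ih m]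
        have := pow_swap_app (h.inv _) (h.inv _) hm
        rw [← mul_pow_conj _ _ (h.inv d), hpr] at this
        simp only [Perm.mul_apply, h.rr] at this
        exact (r d).injective this
      · rw [← mul_pow_conj _ _ (hR d)]
        simp only [Perm.mul_apply, invol_apply (hR d)]
        rw [pow_swap_app (hR _) (hR _) (ih m _)]
        rw [← mul_pow_conj _ _ (h.inv d), hpr] at hm
        simp only [Perm.mul_apply, h.rr] at hm
        exact pow_swap_app (h.inv _) (h.inv _) ((r d).injective hm)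
  have walk : ∀ x, InD r a b x0 x → ∀ g, Rch R (Ico a b) (x0, g) (x, g) := by
    intro x hx g
    refine hx.ind (P := fun x => Rch R (Ico a b) (x0, g) (x, g)) (Rch.refl _) ?_
    intro y c _ hc hw ih
    rw [← Rn c y g hw]
    exact ih.next hc
  have key : ∃ g : G, ((g.1 : Perm F), g.2) = p ∧ Rch R (Ico a b) (x0, 1) (x0, g) := by
    clear he
    induction hp using Subgroup.closure_induction_right with
    | one => exact ⟨1, rfl, Rch.refl _⟩
    | mul_right p hp q hq ih =>
      obtain ⟨g, rfl, hg⟩ := ih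
      obtain ⟨_, ⟨y, c, hy, hc, hw, rfl⟩, rfl⟩ := hq
      refine ⟨g * A y c, rfl, ?_⟩
      have := (hg.trans (walk y hy g)).next hc
      rw [Rw c y g hw] at this
      exact this.trans (walk y hy _).symm
    | mul_inv_cancel p hp q hq ih =>
      obtain ⟨g, rfl, hg⟩ := ih
      obtain ⟨_, ⟨y, c, hy, hc, hw, rfl⟩, rfl⟩ := hq
      refine ⟨g * A y c, ?_, ?_⟩
      · rw [Prod.inv_mk, inv_eq_of_sq (h.rf_sq y c), inv_eq_of_sq (ss _)]; rfl
      have := (hg.trans (walk y hy g)).next hc
      rw [Rw c y g hw] at this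
      exact this.trans (walk y hy _).symm
  obtain ⟨g, rfl, hg⟩ := key
  have := (h.sc a b hb).rel R pr (fun z => InD r a b x0 z.1) (fun c _ => hR c) (fun c _ => hpr c)
    hP rel (y := (x', 1)) (y' := (x, g)) hx'
    ((walk x' hx' 1).symm.trans (hg.trans (walk x hx g))) he.symm
  have e : g = 1 := (congrArg Prod.snd this).symm
  rw [e]; rfl

omit h in
lemma lift65 {H : Type} [Group H] (s : Perm F → H) {S : Set (Perm F)} {g : Perm F}
    (hg : g ∈ Subgroup.closure S) :
    ∃ u, (g, u) ∈ Subgroup.closure ((fun g => (g, s g)) '' S) := by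
  induction hg using Subgroup.closure_induction with
  | mem g hg => exact ⟨s g, Subgroup.subset_closure ⟨g, hg, rfl⟩⟩
  | one => exact ⟨1, one_mem _⟩
  | mul g k _ _ ig ik =>
    obtain ⟨u, hu⟩ := ig
    obtain ⟨v, hv⟩ := ik
    exact ⟨u * v, mul_mem hu hv⟩
  | inv g _ ig =>
    obtain ⟨u, hu⟩ := ig
    exact ⟨u⁻¹, inv_mem hu⟩

/-- The chamber is a strict fundamental domain. -/
theorem par2 {a b : ℕ} (hb : b ≤ n) {x0 y : F} {g : Perm F}
    (hg : g ∈ Subgroup.closure (Walls r a b x0)) (hy : InD r a b x0 y)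
    (hy' : InD r a b x0 (g y)) : g = 1 := by
  obtain ⟨u, hu⟩ := lift65 (fun _ => (1 : Unit)) hg
  exact congrArg Prod.fst (h.cover65 hb x0 (fun _ => (1 : Unit)) (fun _ => rfl)
    (fun _ _ _ _ _ _ => rfl) hu hy hy' rfl)

/-- A wall in the subgroup generated by a set of walls belongs to this set. -/
theorem par1 [Finite F] {a b : ℕ} (hb : b ≤ n) {x0 : F} {S' : Set (Perm F)}
    (hS : S' ⊆ Walls r a b x0) {t : Perm F} (ht : t ∈ Walls r a b x0)
    (hc : t ∈ Subgroup.closure S') : t ∈ S' := by
  classical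
  have := Fintype.ofFinite F
  by_contra hn
  let S := {g // g ∈ Walls r a b x0}
  let _ : Fintype S := Fintype.ofFinite S
  let M : S → S → ℕ := fun g k => orderOf (g.1 * k.1)
  have hd : ∀ g, M g g = 1 := fun g => by simp only [M, h.walls_sq g.2, orderOf_one]
  have hsy : ∀ g k, M g k = M k g := fun g k => by
    simp only [M]
    rw [← orderOf_inv, mul_inv_rev, inv_eq_of_sq (h.walls_sq g.2), inv_eq_of_sq (h.walls_sq k.2)]
  let s : Perm F → ((S → ℝ) ≃ₗ[ℝ] (S → ℝ)) := fun g =>
    if hg : g ∈ Walls r a b x0 then gR hd ⟨g, hg⟩ else 1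
  have se : ∀ g (hg : g ∈ Walls r a b x0), s g = gR hd ⟨g, hg⟩ := fun g hg => dif_pos hg
  have ss : ∀ g, s g * s g = 1 := by
    intro g
    simp only [s]
    split_ifs
    · exact gR_sq _ _
    · exact one_mul _
  have hs : ∀ g ∈ Walls r a b x0, ∀ k ∈ Walls r a b x0, ∀ j, (g * k) ^ j = 1 →
      (s g * s k) ^ j = 1 := by
    intro g hg k hk j hj
    rw [se g hg, se k hk]
    refine gR_pow hd hsy _ _ ?_ (orderOf_dvd_of_pow_eq_one hj)
    by_cases e : g = k
    · exact Or.inl (Subtype.ext e)
    · right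
      have h0 := orderOf_pos (g * k)
      have h1 : orderOf (g * k) ≠ 1 := by
        rw [Ne, orderOf_eq_one_iff, mul_eq_one_iff_eq_inv, inv_eq_of_sq (h.walls_sq hk)]
        exact e
      change 2 ≤ orderOf (g * k)
      omega
  obtain ⟨u, hu⟩ := lift65 s hc
  have h1 : ∀ p ∈ Subgroup.closure ((fun g => (g, s g)) '' S'), ∀ v,
      p.2 v ⟨t, ht⟩ = v ⟨t, ht⟩ := by
    intro p hp
    induction hp using Subgroup.closure_induction with
    | mem p hp =>
      obtain ⟨g, hg, rfl⟩ := hp
      intro v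
      have : (⟨t, ht⟩ : S) ≠ ⟨g, hS hg⟩ := fun e => hn ((show t = g from congrArg Subtype.val e) ▸ hg)
      simp only [se g (hS hg), gR, Module.reflection_apply, Pi.sub_apply, Pi.smul_apply,
        Pi.single_eq_of_ne this, smul_zero, sub_zero]
    | one => intro v; rfl
    | mul p q _ _ ip iq => intro v; exact (ip _).trans (iq v)
    | inv p _ ip =>
      intro v
      have := ip (p.2⁻¹ v)
      rw [← LinearEquiv.mul_apply, mul_inv_cancel] at this
      exact this.symm
  have h2 := h.cover65 hb x0 s ss hs (p := (t, u) * (t, s t))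
    (mul_mem (Subgroup.closure_mono (image_mono hS) hu) (Subgroup.subset_closure ⟨t, ht, rfl⟩))
    (InD.refl x0) (InD.refl x0) (by
      change (t * t) x0 = x0
      rw [h.walls_sq ht]; rfl)
  have h3 : u * s t = 1 := congrArg Prod.snd h2
  have h4 := h1 _ hu (s t (Pi.single ⟨t, ht⟩ 1))
  change (u * s t) _ _ = _ at h4
  rw [h3, se t ht, gR, Module.reflection_apply_self] at h4
  simp at h4
  norm_num at h4

end PS

end Pool.Agent.FlagOrb
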