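import Pool.Agent.Lib.MP_7157e1_co.QBlue
import Pool.Agent.Lib.Q7.Par65

/-! The row PAR of the blueprint. -/

namespace Pool.Agent.FlagOrb.Q

theorem stPAR65 : St_PAR := fun h _ _ _ hb =>
  ⟨fun _ hS _ ht hc => h.par1 hb hS ht hc, fun _ hg _ hy hy' => h.par2 hb hg hy hy'⟩

end Pool.Agent.FlagOrb.Q
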