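import Pool.Agent.Lib.Q7.Small43b

/-! Towers over an eight-dimensional polytope with 2160 vertices. -/

namespace Pool.Agent.Lib.Q7.H43

open Module Function Finset Pool.Agent.Lib.MP_7157e1_co Chk

open Tr in
/-- part of the data -/
def g241Tm2 : Tr :=
    node (-1) (node (-1) (node (-1) (node (-1) (node (-1) (node (-1) (node 0 (node (-1) leaf nil)
    (node (-1) (node 0 leaf nil) nil)) (node 0 (node (-1) (node (-1) leaf nil) nil) nil)) (node 0
    (node (-1) (node (-1) (node (-1) leaf nil) nil) nil) nil)) (node 0 (node (-1) (node (-1)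
    (node (-1) (node (-1) leaf nil) nil) nil) nil) nil)) (node 0 (node (-1) (node (-1) (node (-1)
    (node (-1) (node (-1) leaf nil) nil) nil) nil) nil) nil)) (node 0 (node (-1) (node (-1) (node
    (-1) (node (-1) (node (-1) (node (-1) leaf nil) nil) nil) nil) nil) nil) nil)) (node 0 (node
    (-1) (node (-1) (node (-1) (node (-1) (node (-1) (node (-1) (node (-1) leaf nil) nil) nil)
    nil) nil) nil) nil) nil)

open Tr in
/-- part of the data -/
def g241Tp8 : Tr :=
    node 3 (node 3 (node 3 (node 3 (node 3 (node 3 (node 3 (node 2 leaf nil) (node 2 (node 3 leaf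
    nil) nil)) (node 2 (node 3 (node 3 leaf nil) nil) nil)) (node 2 (node 3 (node 3 (node 3 leaf
    nil) nil) nil) nil)) (node 2 (node 3 (node 3 (node 3 (node 3 leaf nil) nil) nil) nil) nil))
    (node 2 (node 3 (node 3 (node 3 (node 3 (node 3 leaf nil) nil) nil) nil) nil) nil)) (node 2
    (node 3 (node 3 (node 3 (node 3 (node 3 (node 3 leaf nil) nil) nil) nil) nil) nil) nil))
    (node 2 (node 3 (node 3 (node 3 (node 3 (node 3 (node 3 (node 3 leaf nil) nil) nil) nil) nil)
    nil) nil) nil)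

open Tr in
/-- part of the data -/
def g241Tm1 : Tr :=
    node 0 (node (-1) (node 0 (node (-1) (node 0 (node (-1) (node 0 (node (-1) leaf nil) (node
    (-1) (node 0 leaf nil) nil)) (node 0 (node (-1) (node (-1) leaf nil) nil) nil)) (node (-1)
    (node 0 (node 0 (node (-1) leaf nil) (node (-1) (node 0 leaf nil) nil)) (node (-1) (node 0
    (node 0 leaf nil) nil) nil)) nil)) (node 0 (node (-1) (node (-1) (node 0 (node (-1) leaf nil)
    (node (-1) (node 0 leaf nil) nil)) (node 0 (node (-1) (node (-1) leaf nil) nil) nil)) (node 0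
    (node (-1) (node (-1) (node (-1) leaf nil) nil) nil) nil)) nil)) (node (-1) (node 0 (node 0
    (node (-1) (node 0 (node (-1) leaf nil) (node (-1) (node 0 leaf nil) nil)) (node 0 (node (-1)
    (node (-1) leaf nil) nil) nil)) (node (-1) (node 0 (node 0 (node (-1) leaf nil) (node (-1)
    (node 0 leaf nil) nil)) (node (-1) (node 0 (node 0 leaf nil) nil) nil)) nil)) (node (-1)
    (node 0 (node 0 (node 0 (node (-1) leaf nil) (node (-1) (node 0 leaf nil) nil)) (node (-1)
    (node 0 (node 0 leaf nil) nil) nil)) (node (-1) (node 0 (node 0 (node 0 leaf nil) nil) nil)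
    nil)) nil)) nil)) (node 0 (node (-1) (node (-1) (node 0 (node (-1) (node 0 (node (-1) leaf
    nil) (node (-1) (node 0 leaf nil) nil)) (node 0 (node (-1) (node (-1) leaf nil) nil) nil))
    (node (-1) (node 0 (node 0 (node (-1) leaf nil) (node (-1) (node 0 leaf nil) nil)) (node (-1)
    (node 0 (node 0 leaf nil) nil) nil)) nil)) (node 0 (node (-1) (node (-1) (node 0 (node (-1)
    leaf nil) (node (-1) (node 0 leaf nil) nil)) (node 0 (node (-1) (node (-1) leaf nil) nil)
    nil)) (node 0 (node (-1) (node (-1) (node (-1) leaf nil) nil) nil) nil)) nil)) (node 0 (node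
    (-1) (node (-1) (node (-1) (node 0 (node (-1) leaf nil) (node (-1) (node 0 leaf nil) nil))
    (node 0 (node (-1) (node (-1) leaf nil) nil) nil)) (node 0 (node (-1) (node (-1) (node (-1)
    leaf nil) nil) nil) nil)) (node 0 (node (-1) (node (-1) (node (-1) (node (-1) leaf nil) nil)
    nil) nil) nil)) nil)) nil)) (node (-1) (node 0 (node 0 (node (-1) (node 0 (node (-1) (node 0
    (node (-1) leaf nil) (node (-1) (node 0 leaf nil) nil)) (node 0 (node (-1) (node (-1) leaf
    nil) nil) nil)) (node (-1) (node 0 (node 0 (node (-1) leaf nil) (node (-1) (node 0 leaf nil)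
    nil)) (node (-1) (node 0 (node 0 leaf nil) nil) nil)) nil)) (node 0 (node (-1) (node (-1)
    (node 0 (node (-1) leaf nil) (node (-1) (node 0 leaf nil) nil)) (node 0 (node (-1) (node (-1)
    leaf nil) nil) nil)) (node 0 (node (-1) (node (-1) (node (-1) leaf nil) nil) nil) nil)) nil))
    (node (-1) (node 0 (node 0 (node (-1) (node 0 (node (-1) leaf nil) (node (-1) (node 0 leaf
    nil) nil)) (node 0 (node (-1) (node (-1) leaf nil) nil) nil)) (node (-1) (node 0 (node 0
    (node (-1) leaf nil) (node (-1) (node 0 leaf nil) nil)) (node (-1) (node 0 (node 0 leaf nil)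
    nil) nil)) nil)) (node (-1) (node 0 (node 0 (node 0 (node (-1) leaf nil) (node (-1) (node 0
    leaf nil) nil)) (node (-1) (node 0 (node 0 leaf nil) nil) nil)) (node (-1) (node 0 (node 0
    (node 0 leaf nil) nil) nil) nil)) nil)) nil)) (node (-1) (node 0 (node 0 (node 0 (node (-1)
    (node 0 (node (-1) leaf nil) (node (-1) (node 0 leaf nil) nil)) (node 0 (node (-1) (node (-1)
    leaf nil) nil) nil)) (node (-1) (node 0 (node 0 (node (-1) leaf nil) (node (-1) (node 0 leaf
    nil) nil)) (node (-1) (node 0 (node 0 leaf nil) nil) nil)) nil)) (node (-1) (node 0 (node 0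
    (node 0 (node (-1) leaf nil) (node (-1) (node 0 leaf nil) nil)) (node (-1) (node 0 (node 0
    leaf nil) nil) nil)) (node (-1) (node 0 (node 0 (node 0 leaf nil) nil) nil) nil)) nil)) (node
    (-1) (node 0 (node 0 (node 0 (node 0 (node (-1) leaf nil) (node (-1) (node 0 leaf nil) nil))
    (node (-1) (node 0 (node 0 leaf nil) nil) nil)) (node (-1) (node 0 (node 0 (node 0 leaf nil)
    nil) nil) nil)) (node (-1) (node 0 (node 0 (node 0 (node 0 leaf nil) nil) nil) nil) nil))
    nil)) nil)) nil)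

open Tr in
/-- part of the data -/
def g241Tp7 : Tr :=
    node 3 (node 2 (node 3 (node 2 (node 3 (node 2 (node 3 (node 2 leaf nil) (node 2 (node 3 leaf
    nil) nil)) (node 3 (node 2 (node 2 leaf nil) nil) nil)) (node 2 (node 3 (node 3 (node 2 leaf
    nil) (node 2 (node 3 leaf nil) nil)) (node 2 (node 3 (node 3 leaf nil) nil) nil)) nil)) (node
    3 (node 2 (node 2 (node 3 (node 2 leaf nil) (node 2 (node 3 leaf nil) nil)) (node 3 (node 2
    (node 2 leaf nil) nil) nil)) (node 3 (node 2 (node 2 (node 2 leaf nil) nil) nil) nil)) nil))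
    (node 2 (node 3 (node 3 (node 2 (node 3 (node 2 leaf nil) (node 2 (node 3 leaf nil) nil))
    (node 3 (node 2 (node 2 leaf nil) nil) nil)) (node 2 (node 3 (node 3 (node 2 leaf nil) (node
    2 (node 3 leaf nil) nil)) (node 2 (node 3 (node 3 leaf nil) nil) nil)) nil)) (node 2 (node 3
    (node 3 (node 3 (node 2 leaf nil) (node 2 (node 3 leaf nil) nil)) (node 2 (node 3 (node 3
    leaf nil) nil) nil)) (node 2 (node 3 (node 3 (node 3 leaf nil) nil) nil) nil)) nil)) nil))
    (node 3 (node 2 (node 2 (node 3 (node 2 (node 3 (node 2 leaf nil) (node 2 (node 3 leaf nil)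
    nil)) (node 3 (node 2 (node 2 leaf nil) nil) nil)) (node 2 (node 3 (node 3 (node 2 leaf nil)
    (node 2 (node 3 leaf nil) nil)) (node 2 (node 3 (node 3 leaf nil) nil) nil)) nil)) (node 3
    (node 2 (node 2 (node 3 (node 2 leaf nil) (node 2 (node 3 leaf nil) nil)) (node 3 (node 2
    (node 2 leaf nil) nil) nil)) (node 3 (node 2 (node 2 (node 2 leaf nil) nil) nil) nil)) nil))
    (node 3 (node 2 (node 2 (node 2 (node 3 (node 2 leaf nil) (node 2 (node 3 leaf nil) nil))
    (node 3 (node 2 (node 2 leaf nil) nil) nil)) (node 3 (node 2 (node 2 (node 2 leaf nil) nil)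
    nil) nil)) (node 3 (node 2 (node 2 (node 2 (node 2 leaf nil) nil) nil) nil) nil)) nil)) nil))
    (node 2 (node 3 (node 3 (node 2 (node 3 (node 2 (node 3 (node 2 leaf nil) (node 2 (node 3
    leaf nil) nil)) (node 3 (node 2 (node 2 leaf nil) nil) nil)) (node 2 (node 3 (node 3 (node 2
    leaf nil) (node 2 (node 3 leaf nil) nil)) (node 2 (node 3 (node 3 leaf nil) nil) nil)) nil))
    (node 3 (node 2 (node 2 (node 3 (node 2 leaf nil) (node 2 (node 3 leaf nil) nil)) (node 3
    (node 2 (node 2 leaf nil) nil) nil)) (node 3 (node 2 (node 2 (node 2 leaf nil) nil) nil)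
    nil)) nil)) (node 2 (node 3 (node 3 (node 2 (node 3 (node 2 leaf nil) (node 2 (node 3 leaf
    nil) nil)) (node 3 (node 2 (node 2 leaf nil) nil) nil)) (node 2 (node 3 (node 3 (node 2 leaf
    nil) (node 2 (node 3 leaf nil) nil)) (node 2 (node 3 (node 3 leaf nil) nil) nil)) nil)) (node
    2 (node 3 (node 3 (node 3 (node 2 leaf nil) (node 2 (node 3 leaf nil) nil)) (node 2 (node 3
    (node 3 leaf nil) nil) nil)) (node 2 (node 3 (node 3 (node 3 leaf nil) nil) nil) nil)) nil))
    nil)) (node 2 (node 3 (node 3 (node 3 (node 2 (node 3 (node 2 leaf nil) (node 2 (node 3 leaf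
    nil) nil)) (node 3 (node 2 (node 2 leaf nil) nil) nil)) (node 2 (node 3 (node 3 (node 2 leaf
    nil) (node 2 (node 3 leaf nil) nil)) (node 2 (node 3 (node 3 leaf nil) nil) nil)) nil)) (node
    2 (node 3 (node 3 (node 3 (node 2 leaf nil) (node 2 (node 3 leaf nil) nil)) (node 2 (node 3
    (node 3 leaf nil) nil) nil)) (node 2 (node 3 (node 3 (node 3 leaf nil) nil) nil) nil)) nil))
    (node 2 (node 3 (node 3 (node 3 (node 3 (node 2 leaf nil) (node 2 (node 3 leaf nil) nil))
    (node 2 (node 3 (node 3 leaf nil) nil) nil)) (node 2 (node 3 (node 3 (node 3 leaf nil) nil)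
    nil) nil)) (node 2 (node 3 (node 3 (node 3 (node 3 leaf nil) nil) nil) nil) nil)) nil)) nil))
    nil)

open Tr in
/-- part of the data -/
def g241Tp0 : Tr :=
    node 0 (node 0 (node 0 (node 0 (node (-1) (node 1 (node 0 (node (-1) leaf nil) (node (-1)
    (node 0 leaf nil) nil)) (node 0 (node 1 (node (-1) leaf nil) (node (-1) (node 1 leaf nil)
    nil)) (node (-1) (node 1 (node 0 leaf nil) (node 0 (node 1 leaf nil) nil)) nil))) (node 1
    (node (-1) (node 0 (node (-1) leaf nil) (node (-1) (node 0 leaf nil) nil)) (node 0 (node (-1)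
    (node (-1) leaf nil) nil) nil)) (node 0 (node (-1) (node 1 (node (-1) leaf nil) (node (-1)
    (node 1 leaf nil) nil)) (node 1 (node (-1) (node (-1) leaf nil) nil) nil)) nil))) (node (-1)
    (node 0 (node 1 (node 0 (node (-1) leaf nil) (node (-1) (node 0 leaf nil) nil)) (node 0 (node
    1 (node (-1) leaf nil) (node (-1) (node 1 leaf nil) nil)) (node (-1) (node 1 (node 0 leaf
    nil) (node 0 (node 1 leaf nil) nil)) nil))) (node 1 (node 0 (node 0 (node (-1) leaf nil)
    (node (-1) (node 0 leaf nil) nil)) (node (-1) (node 0 (node 0 leaf nil) nil) nil)) (node (-1)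
    (node 0 (node 1 (node 0 leaf nil) (node 0 (node 1 leaf nil) nil)) (node 1 (node 0 (node 0
    leaf nil) nil) nil)) nil))) (node 1 (node 0 (node (-1) (node 0 (node (-1) leaf nil) (node
    (-1) (node 0 leaf nil) nil)) (node 0 (node (-1) (node (-1) leaf nil) nil) nil)) (node (-1)
    (node 0 (node 0 (node (-1) leaf nil) (node (-1) (node 0 leaf nil) nil)) (node (-1) (node 0
    (node 0 leaf nil) nil) nil)) nil)) nil))) (node (-1) (node 0 (node 0 (node 1 (node 0 (node
    (-1) leaf nil) (node (-1) (node 0 leaf nil) nil)) (node 0 (node 1 (node (-1) leaf nil) (node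
    (-1) (node 1 leaf nil) nil)) (node (-1) (node 1 (node 0 leaf nil) (node 0 (node 1 leaf nil)
    nil)) nil))) (node 1 (node 0 (node 0 (node (-1) leaf nil) (node (-1) (node 0 leaf nil) nil))
    (node (-1) (node 0 (node 0 leaf nil) nil) nil)) (node (-1) (node 0 (node 1 (node 0 leaf nil)
    (node 0 (node 1 leaf nil) nil)) (node 1 (node 0 (node 0 leaf nil) nil) nil)) nil))) (node 1
    (node 0 (node 0 (node 0 (node (-1) leaf nil) (node (-1) (node 0 leaf nil) nil)) (node (-1)
    (node 0 (node 0 leaf nil) nil) nil)) (node (-1) (node 0 (node 0 (node 0 leaf nil) nil) nil)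
    nil)) (node (-1) (node 0 (node 0 (node 1 (node 0 leaf nil) (node 0 (node 1 leaf nil) nil))
    (node 1 (node 0 (node 0 leaf nil) nil) nil)) (node 1 (node 0 (node 0 (node 0 leaf nil) nil)
    nil) nil)) nil))) (node 1 (node 0 (node 0 (node (-1) (node 0 (node (-1) leaf nil) (node (-1)
    (node 0 leaf nil) nil)) (node 0 (node (-1) (node (-1) leaf nil) nil) nil)) (node (-1) (node 0
    (node 0 (node (-1) leaf nil) (node (-1) (node 0 leaf nil) nil)) (node (-1) (node 0 (node 0
    leaf nil) nil) nil)) nil)) (node (-1) (node 0 (node 0 (node 0 (node (-1) leaf nil) (node (-1)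
    (node 0 leaf nil) nil)) (node (-1) (node 0 (node 0 leaf nil) nil) nil)) (node (-1) (node 0
    (node 0 (node 0 leaf nil) nil) nil) nil)) nil)) nil))) (node (-1) (node 0 (node 0 (node 0
    (node 1 (node 0 (node (-1) leaf nil) (node (-1) (node 0 leaf nil) nil)) (node 0 (node 1 (node
    (-1) leaf nil) (node (-1) (node 1 leaf nil) nil)) (node (-1) (node 1 (node 0 leaf nil) (node
    0 (node 1 leaf nil) nil)) nil))) (node 1 (node 0 (node 0 (node (-1) leaf nil) (node (-1)
    (node 0 leaf nil) nil)) (node (-1) (node 0 (node 0 leaf nil) nil) nil)) (node (-1) (node 0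
    (node 1 (node 0 leaf nil) (node 0 (node 1 leaf nil) nil)) (node 1 (node 0 (node 0 leaf nil)
    nil) nil)) nil))) (node 1 (node 0 (node 0 (node 0 (node (-1) leaf nil) (node (-1) (node 0
    leaf nil) nil)) (node (-1) (node 0 (node 0 leaf nil) nil) nil)) (node (-1) (node 0 (node 0
    (node 0 leaf nil) nil) nil) nil)) (node (-1) (node 0 (node 0 (node 1 (node 0 leaf nil) (node
    0 (node 1 leaf nil) nil)) (node 1 (node 0 (node 0 leaf nil) nil) nil)) (node 1 (node 0 (node
    0 (node 0 leaf nil) nil) nil) nil)) nil))) (node 1 (node 0 (node 0 (node 0 (node 0 (node (-1)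
    leaf nil) (node (-1) (node 0 leaf nil) nil)) (node (-1) (node 0 (node 0 leaf nil) nil) nil))
    (node (-1) (node 0 (node 0 (node 0 leaf nil) nil) nil) nil)) (node (-1) (node 0 (node 0 (node
    0 (node 0 leaf nil) nil) nil) nil) nil)) (node (-1) (node 0 (node 0 (node 0 (node 1 (node 0
    leaf nil) (node 0 (node 1 leaf nil) nil)) (node 1 (node 0 (node 0 leaf nil) nil) nil)) (node
    1 (node 0 (node 0 (node 0 leaf nil) nil) nil) nil)) (node 1 (node 0 (node 0 (node 0 (node 0
    leaf nil) nil) nil) nil) nil)) nil))) (node 1 (node 0 (node 0 (node 0 (node (-1) (node 0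
    (node (-1) leaf nil) (node (-1) (node 0 leaf nil) nil)) (node 0 (node (-1) (node (-1) leaf
    nil) nil) nil)) (node (-1) (node 0 (node 0 (node (-1) leaf nil) (node (-1) (node 0 leaf nil)
    nil)) (node (-1) (node 0 (node 0 leaf nil) nil) nil)) nil)) (node (-1) (node 0 (node 0 (node
    0 (node (-1) leaf nil) (node (-1) (node 0 leaf nil) nil)) (node (-1) (node 0 (node 0 leaf
    nil) nil) nil)) (node (-1) (node 0 (node 0 (node 0 leaf nil) nil) nil) nil)) nil)) (node (-1)
    (node 0 (node 0 (node 0 (node 0 (node (-1) leaf nil) (node (-1) (node 0 leaf nil) nil)) (node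
    (-1) (node 0 (node 0 leaf nil) nil) nil)) (node (-1) (node 0 (node 0 (node 0 leaf nil) nil)
    nil) nil)) (node (-1) (node 0 (node 0 (node 0 (node 0 leaf nil) nil) nil) nil) nil)) nil))
    nil))) (node (-1) (node 0 (node 0 (node 0 (node 0 (node 1 (node 0 (node (-1) leaf nil) (node
    (-1) (node 0 leaf nil) nil)) (node 0 (node 1 (node (-1) leaf nil) (node (-1) (node 1 leaf
    nil) nil)) (node (-1) (node 1 (node 0 leaf nil) (node 0 (node 1 leaf nil) nil)) nil))) (node
    1 (node 0 (node 0 (node (-1) leaf nil) (node (-1) (node 0 leaf nil) nil)) (node (-1) (node 0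
    (node 0 leaf nil) nil) nil)) (node (-1) (node 0 (node 1 (node 0 leaf nil) (node 0 (node 1
    leaf nil) nil)) (node 1 (node 0 (node 0 leaf nil) nil) nil)) nil))) (node 1 (node 0 (node 0
    (node 0 (node (-1) leaf nil) (node (-1) (node 0 leaf nil) nil)) (node (-1) (node 0 (node 0
    leaf nil) nil) nil)) (node (-1) (node 0 (node 0 (node 0 leaf nil) nil) nil) nil)) (node (-1)
    (node 0 (node 0 (node 1 (node 0 leaf nil) (node 0 (node 1 leaf nil) nil)) (node 1 (node 0
    (node 0 leaf nil) nil) nil)) (node 1 (node 0 (node 0 (node 0 leaf nil) nil) nil) nil)) nil)))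
    (node 1 (node 0 (node 0 (node 0 (node 0 (node (-1) leaf nil) (node (-1) (node 0 leaf nil)
    nil)) (node (-1) (node 0 (node 0 leaf nil) nil) nil)) (node (-1) (node 0 (node 0 (node 0 leaf
    nil) nil) nil) nil)) (node (-1) (node 0 (node 0 (node 0 (node 0 leaf nil) nil) nil) nil)
    nil)) (node (-1) (node 0 (node 0 (node 0 (node 1 (node 0 leaf nil) (node 0 (node 1 leaf nil)
    nil)) (node 1 (node 0 (node 0 leaf nil) nil) nil)) (node 1 (node 0 (node 0 (node 0 leaf nil)
    nil) nil) nil)) (node 1 (node 0 (node 0 (node 0 (node 0 leaf nil) nil) nil) nil) nil)) nil)))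
    (node 1 (node 0 (node 0 (node 0 (node 0 (node 0 (node (-1) leaf nil) (node (-1) (node 0 leaf
    nil) nil)) (node (-1) (node 0 (node 0 leaf nil) nil) nil)) (node (-1) (node 0 (node 0 (node 0
    leaf nil) nil) nil) nil)) (node (-1) (node 0 (node 0 (node 0 (node 0 leaf nil) nil) nil) nil)
    nil)) (node (-1) (node 0 (node 0 (node 0 (node 0 (node 0 leaf nil) nil) nil) nil) nil) nil))
    (node (-1) (node 0 (node 0 (node 0 (node 0 (node 1 (node 0 leaf nil) (node 0 (node 1 leaf
    nil) nil)) (node 1 (node 0 (node 0 leaf nil) nil) nil)) (node 1 (node 0 (node 0 (node 0 leaf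
    nil) nil) nil) nil)) (node 1 (node 0 (node 0 (node 0 (node 0 leaf nil) nil) nil) nil) nil))
    (node 1 (node 0 (node 0 (node 0 (node 0 (node 0 leaf nil) nil) nil) nil) nil) nil)) nil)))
    (node 1 (node 0 (node 0 (node 0 (node 0 (node (-1) (node 0 (node (-1) leaf nil) (node (-1)
    (node 0 leaf nil) nil)) (node 0 (node (-1) (node (-1) leaf nil) nil) nil)) (node (-1) (node 0
    (node 0 (node (-1) leaf nil) (node (-1) (node 0 leaf nil) nil)) (node (-1) (node 0 (node 0
    leaf nil) nil) nil)) nil)) (node (-1) (node 0 (node 0 (node 0 (node (-1) leaf nil) (node (-1)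
    (node 0 leaf nil) nil)) (node (-1) (node 0 (node 0 leaf nil) nil) nil)) (node (-1) (node 0
    (node 0 (node 0 leaf nil) nil) nil) nil)) nil)) (node (-1) (node 0 (node 0 (node 0 (node 0
    (node (-1) leaf nil) (node (-1) (node 0 leaf nil) nil)) (node (-1) (node 0 (node 0 leaf nil)
    nil) nil)) (node (-1) (node 0 (node 0 (node 0 leaf nil) nil) nil) nil)) (node (-1) (node 0
    (node 0 (node 0 (node 0 leaf nil) nil) nil) nil) nil)) nil)) (node (-1) (node 0 (node 0 (node
    0 (node 0 (node 0 (node (-1) leaf nil) (node (-1) (node 0 leaf nil) nil)) (node (-1) (node 0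
    (node 0 leaf nil) nil) nil)) (node (-1) (node 0 (node 0 (node 0 leaf nil) nil) nil) nil))
    (node (-1) (node 0 (node 0 (node 0 (node 0 leaf nil) nil) nil) nil) nil)) (node (-1) (node 0
    (node 0 (node 0 (node 0 (node 0 leaf nil) nil) nil) nil) nil) nil)) nil)) nil))

open Tr in
/-- part of the data -/
def g241Tp6 : Tr :=
    node 2 (node 2 (node 2 (node 3 (node 2 (node 3 (node 2 (node 1 leaf nil) (node 1 (node 2 leaf
    nil) nil)) (node 2 (node 3 (node 1 leaf nil) (node 1 (node 3 leaf nil) nil)) (node 1 (node 3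
    (node 2 leaf nil) (node 2 (node 3 leaf nil) nil)) nil))) (node 3 (node 2 (node 2 (node 1 leaf
    nil) (node 1 (node 2 leaf nil) nil)) (node 1 (node 2 (node 2 leaf nil) nil) nil)) (node 1
    (node 2 (node 3 (node 2 leaf nil) (node 2 (node 3 leaf nil) nil)) (node 3 (node 2 (node 2
    leaf nil) nil) nil)) nil))) (node 2 (node 3 (node 3 (node 2 (node 1 leaf nil) (node 1 (node 2
    leaf nil) nil)) (node 2 (node 3 (node 1 leaf nil) (node 1 (node 3 leaf nil) nil)) (node 1
    (node 3 (node 2 leaf nil) (node 2 (node 3 leaf nil) nil)) nil))) (node 2 (node 3 (node 3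
    (node 1 leaf nil) (node 1 (node 3 leaf nil) nil)) (node 1 (node 3 (node 3 leaf nil) nil)
    nil)) (node 1 (node 3 (node 3 (node 2 leaf nil) (node 2 (node 3 leaf nil) nil)) (node 2 (node
    3 (node 3 leaf nil) nil) nil)) nil))) (node 1 (node 3 (node 2 (node 3 (node 2 leaf nil) (node
    2 (node 3 leaf nil) nil)) (node 3 (node 2 (node 2 leaf nil) nil) nil)) (node 2 (node 3 (node
    3 (node 2 leaf nil) (node 2 (node 3 leaf nil) nil)) (node 2 (node 3 (node 3 leaf nil) nil)
    nil)) nil)) nil))) (node 3 (node 2 (node 2 (node 3 (node 2 (node 1 leaf nil) (node 1 (node 2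
    leaf nil) nil)) (node 2 (node 3 (node 1 leaf nil) (node 1 (node 3 leaf nil) nil)) (node 1
    (node 3 (node 2 leaf nil) (node 2 (node 3 leaf nil) nil)) nil))) (node 3 (node 2 (node 2
    (node 1 leaf nil) (node 1 (node 2 leaf nil) nil)) (node 1 (node 2 (node 2 leaf nil) nil)
    nil)) (node 1 (node 2 (node 3 (node 2 leaf nil) (node 2 (node 3 leaf nil) nil)) (node 3 (node
    2 (node 2 leaf nil) nil) nil)) nil))) (node 3 (node 2 (node 2 (node 2 (node 1 leaf nil) (node
    1 (node 2 leaf nil) nil)) (node 1 (node 2 (node 2 leaf nil) nil) nil)) (node 1 (node 2 (node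
    2 (node 2 leaf nil) nil) nil) nil)) (node 1 (node 2 (node 2 (node 3 (node 2 leaf nil) (node 2
    (node 3 leaf nil) nil)) (node 3 (node 2 (node 2 leaf nil) nil) nil)) (node 3 (node 2 (node 2
    (node 2 leaf nil) nil) nil) nil)) nil))) (node 1 (node 2 (node 3 (node 2 (node 3 (node 2 leaf
    nil) (node 2 (node 3 leaf nil) nil)) (node 3 (node 2 (node 2 leaf nil) nil) nil)) (node 2
    (node 3 (node 3 (node 2 leaf nil) (node 2 (node 3 leaf nil) nil)) (node 2 (node 3 (node 3
    leaf nil) nil) nil)) nil)) (node 3 (node 2 (node 2 (node 3 (node 2 leaf nil) (node 2 (node 3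
    leaf nil) nil)) (node 3 (node 2 (node 2 leaf nil) nil) nil)) (node 3 (node 2 (node 2 (node 2
    leaf nil) nil) nil) nil)) nil)) nil))) (node 3 (node 2 (node 2 (node 2 (node 3 (node 2 (node
    1 leaf nil) (node 1 (node 2 leaf nil) nil)) (node 2 (node 3 (node 1 leaf nil) (node 1 (node 3
    leaf nil) nil)) (node 1 (node 3 (node 2 leaf nil) (node 2 (node 3 leaf nil) nil)) nil)))
    (node 3 (node 2 (node 2 (node 1 leaf nil) (node 1 (node 2 leaf nil) nil)) (node 1 (node 2
    (node 2 leaf nil) nil) nil)) (node 1 (node 2 (node 3 (node 2 leaf nil) (node 2 (node 3 leaf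
    nil) nil)) (node 3 (node 2 (node 2 leaf nil) nil) nil)) nil))) (node 3 (node 2 (node 2 (node
    2 (node 1 leaf nil) (node 1 (node 2 leaf nil) nil)) (node 1 (node 2 (node 2 leaf nil) nil)
    nil)) (node 1 (node 2 (node 2 (node 2 leaf nil) nil) nil) nil)) (node 1 (node 2 (node 2 (node
    3 (node 2 leaf nil) (node 2 (node 3 leaf nil) nil)) (node 3 (node 2 (node 2 leaf nil) nil)
    nil)) (node 3 (node 2 (node 2 (node 2 leaf nil) nil) nil) nil)) nil))) (node 3 (node 2 (node
    2 (node 2 (node 2 (node 1 leaf nil) (node 1 (node 2 leaf nil) nil)) (node 1 (node 2 (node 2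
    leaf nil) nil) nil)) (node 1 (node 2 (node 2 (node 2 leaf nil) nil) nil) nil)) (node 1 (node
    2 (node 2 (node 2 (node 2 leaf nil) nil) nil) nil) nil)) (node 1 (node 2 (node 2 (node 2
    (node 3 (node 2 leaf nil) (node 2 (node 3 leaf nil) nil)) (node 3 (node 2 (node 2 leaf nil)
    nil) nil)) (node 3 (node 2 (node 2 (node 2 leaf nil) nil) nil) nil)) (node 3 (node 2 (node 2
    (node 2 (node 2 leaf nil) nil) nil) nil) nil)) nil))) (node 1 (node 2 (node 2 (node 3 (node 2
    (node 3 (node 2 leaf nil) (node 2 (node 3 leaf nil) nil)) (node 3 (node 2 (node 2 leaf nil)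
    nil) nil)) (node 2 (node 3 (node 3 (node 2 leaf nil) (node 2 (node 3 leaf nil) nil)) (node 2
    (node 3 (node 3 leaf nil) nil) nil)) nil)) (node 3 (node 2 (node 2 (node 3 (node 2 leaf nil)
    (node 2 (node 3 leaf nil) nil)) (node 3 (node 2 (node 2 leaf nil) nil) nil)) (node 3 (node 2
    (node 2 (node 2 leaf nil) nil) nil) nil)) nil)) (node 3 (node 2 (node 2 (node 2 (node 3 (node
    2 leaf nil) (node 2 (node 3 leaf nil) nil)) (node 3 (node 2 (node 2 leaf nil) nil) nil))
    (node 3 (node 2 (node 2 (node 2 leaf nil) nil) nil) nil)) (node 3 (node 2 (node 2 (node 2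
    (node 2 leaf nil) nil) nil) nil) nil)) nil)) nil))) (node 3 (node 2 (node 2 (node 2 (node 2
    (node 3 (node 2 (node 1 leaf nil) (node 1 (node 2 leaf nil) nil)) (node 2 (node 3 (node 1
    leaf nil) (node 1 (node 3 leaf nil) nil)) (node 1 (node 3 (node 2 leaf nil) (node 2 (node 3
    leaf nil) nil)) nil))) (node 3 (node 2 (node 2 (node 1 leaf nil) (node 1 (node 2 leaf nil)
    nil)) (node 1 (node 2 (node 2 leaf nil) nil) nil)) (node 1 (node 2 (node 3 (node 2 leaf nil)
    (node 2 (node 3 leaf nil) nil)) (node 3 (node 2 (node 2 leaf nil) nil) nil)) nil))) (node 3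
    (node 2 (node 2 (node 2 (node 1 leaf nil) (node 1 (node 2 leaf nil) nil)) (node 1 (node 2
    (node 2 leaf nil) nil) nil)) (node 1 (node 2 (node 2 (node 2 leaf nil) nil) nil) nil)) (node
    1 (node 2 (node 2 (node 3 (node 2 leaf nil) (node 2 (node 3 leaf nil) nil)) (node 3 (node 2
    (node 2 leaf nil) nil) nil)) (node 3 (node 2 (node 2 (node 2 leaf nil) nil) nil) nil)) nil)))
    (node 3 (node 2 (node 2 (node 2 (node 2 (node 1 leaf nil) (node 1 (node 2 leaf nil) nil))
    (node 1 (node 2 (node 2 leaf nil) nil) nil)) (node 1 (node 2 (node 2 (node 2 leaf nil) nil)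
    nil) nil)) (node 1 (node 2 (node 2 (node 2 (node 2 leaf nil) nil) nil) nil) nil)) (node 1
    (node 2 (node 2 (node 2 (node 3 (node 2 leaf nil) (node 2 (node 3 leaf nil) nil)) (node 3
    (node 2 (node 2 leaf nil) nil) nil)) (node 3 (node 2 (node 2 (node 2 leaf nil) nil) nil)
    nil)) (node 3 (node 2 (node 2 (node 2 (node 2 leaf nil) nil) nil) nil) nil)) nil))) (node 3
    (node 2 (node 2 (node 2 (node 2 (node 2 (node 1 leaf nil) (node 1 (node 2 leaf nil) nil))
    (node 1 (node 2 (node 2 leaf nil) nil) nil)) (node 1 (node 2 (node 2 (node 2 leaf nil) nil)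
    nil) nil)) (node 1 (node 2 (node 2 (node 2 (node 2 leaf nil) nil) nil) nil) nil)) (node 1
    (node 2 (node 2 (node 2 (node 2 (node 2 leaf nil) nil) nil) nil) nil) nil)) (node 1 (node 2
    (node 2 (node 2 (node 2 (node 3 (node 2 leaf nil) (node 2 (node 3 leaf nil) nil)) (node 3
    (node 2 (node 2 leaf nil) nil) nil)) (node 3 (node 2 (node 2 (node 2 leaf nil) nil) nil)
    nil)) (node 3 (node 2 (node 2 (node 2 (node 2 leaf nil) nil) nil) nil) nil)) (node 3 (node 2
    (node 2 (node 2 (node 2 (node 2 leaf nil) nil) nil) nil) nil) nil)) nil))) (node 1 (node 2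
    (node 2 (node 2 (node 3 (node 2 (node 3 (node 2 leaf nil) (node 2 (node 3 leaf nil) nil))
    (node 3 (node 2 (node 2 leaf nil) nil) nil)) (node 2 (node 3 (node 3 (node 2 leaf nil) (node
    2 (node 3 leaf nil) nil)) (node 2 (node 3 (node 3 leaf nil) nil) nil)) nil)) (node 3 (node 2
    (node 2 (node 3 (node 2 leaf nil) (node 2 (node 3 leaf nil) nil)) (node 3 (node 2 (node 2
    leaf nil) nil) nil)) (node 3 (node 2 (node 2 (node 2 leaf nil) nil) nil) nil)) nil)) (node 3
    (node 2 (node 2 (node 2 (node 3 (node 2 leaf nil) (node 2 (node 3 leaf nil) nil)) (node 3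
    (node 2 (node 2 leaf nil) nil) nil)) (node 3 (node 2 (node 2 (node 2 leaf nil) nil) nil)
    nil)) (node 3 (node 2 (node 2 (node 2 (node 2 leaf nil) nil) nil) nil) nil)) nil)) (node 3
    (node 2 (node 2 (node 2 (node 2 (node 3 (node 2 leaf nil) (node 2 (node 3 leaf nil) nil))
    (node 3 (node 2 (node 2 leaf nil) nil) nil)) (node 3 (node 2 (node 2 (node 2 leaf nil) nil)
    nil) nil)) (node 3 (node 2 (node 2 (node 2 (node 2 leaf nil) nil) nil) nil) nil)) (node 3
    (node 2 (node 2 (node 2 (node 2 (node 2 leaf nil) nil) nil) nil) nil) nil)) nil)) nil))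

open Tr in
/-- part of the data -/
def g241Tp1 : Tr :=
    node 0 (node 0 (node 1 (node 1 (node 0 (node 1 (node 0 (node (-1) leaf nil) (node (-1) (node
    0 leaf nil) nil)) (node 0 (node 1 (node (-1) leaf nil) (node (-1) (node 1 leaf nil) nil))
    (node (-1) (node 1 (node 0 leaf nil) (node 0 (node 1 leaf nil) nil)) nil))) (node 1 (node 0
    (node 0 (node (-1) leaf nil) (node (-1) (node 0 leaf nil) nil)) (node (-1) (node 0 (node 0
    leaf nil) nil) nil)) (node (-1) (node 0 (node 1 (node 0 leaf nil) (node 0 (node 1 leaf nil)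
    nil)) (node 1 (node 0 (node 0 leaf nil) nil) nil)) nil))) (node 0 (node 1 (node 1 (node 0
    (node (-1) leaf nil) (node (-1) (node 0 leaf nil) nil)) (node 0 (node 1 (node (-1) leaf nil)
    (node (-1) (node 1 leaf nil) nil)) (node (-1) (node 1 (node 0 leaf nil) (node 0 (node 1 leaf
    nil) nil)) nil))) (node 0 (node 1 (node 1 (node (-1) leaf nil) (node (-1) (node 1 leaf nil)
    nil)) (node (-1) (node 1 (node 1 leaf nil) nil) nil)) (node (-1) (node 1 (node 1 (node 0 leaf
    nil) (node 0 (node 1 leaf nil) nil)) (node 0 (node 1 (node 1 leaf nil) nil) nil)) nil)))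
    (node (-1) (node 1 (node 0 (node 1 (node 0 leaf nil) (node 0 (node 1 leaf nil) nil)) (node 1
    (node 0 (node 0 leaf nil) nil) nil)) (node 0 (node 1 (node 1 (node 0 leaf nil) (node 0 (node
    1 leaf nil) nil)) (node 0 (node 1 (node 1 leaf nil) nil) nil)) nil)) nil))) (node 0 (node 1
    (node 1 (node 1 (node 0 (node (-1) leaf nil) (node (-1) (node 0 leaf nil) nil)) (node 0 (node
    1 (node (-1) leaf nil) (node (-1) (node 1 leaf nil) nil)) (node (-1) (node 1 (node 0 leaf
    nil) (node 0 (node 1 leaf nil) nil)) nil))) (node 0 (node 1 (node 1 (node (-1) leaf nil)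
    (node (-1) (node 1 leaf nil) nil)) (node (-1) (node 1 (node 1 leaf nil) nil) nil)) (node (-1)
    (node 1 (node 1 (node 0 leaf nil) (node 0 (node 1 leaf nil) nil)) (node 0 (node 1 (node 1
    leaf nil) nil) nil)) nil))) (node 0 (node 1 (node 1 (node 1 (node (-1) leaf nil) (node (-1)
    (node 1 leaf nil) nil)) (node (-1) (node 1 (node 1 leaf nil) nil) nil)) (node 0 (node 0 (node
    2 (node 0 leaf nil) (node 0 (node 2 leaf nil) nil)) (node 2 (node 0 (node 0 leaf nil) nil)
    nil)) (node 2 (node 0 (node 0 (node 0 leaf nil) nil) nil) (node (-1) (node 1 (node 1 (node 1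
    leaf nil) nil) nil) nil)))) (node (-1) (node 1 (node 1 (node 1 (node 0 leaf nil) (node 0
    (node 1 leaf nil) nil)) (node 0 (node 1 (node 1 leaf nil) nil) nil)) (node 0 (node 1 (node 1
    (node 1 leaf nil) nil) nil) nil)) (node 2 (node 0 (node 0 (node 0 (node 0 leaf nil) nil) nil)
    nil) nil)))) (node (-1) (node 1 (node 1 (node 0 (node 1 (node 0 leaf nil) (node 0 (node 1
    leaf nil) nil)) (node 1 (node 0 (node 0 leaf nil) nil) nil)) (node 0 (node 1 (node 1 (node 0
    leaf nil) (node 0 (node 1 leaf nil) nil)) (node 0 (node 1 (node 1 leaf nil) nil) nil)) nil))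
    (node 0 (node 1 (node 1 (node 1 (node 0 leaf nil) (node 0 (node 1 leaf nil) nil)) (node 0
    (node 1 (node 1 leaf nil) nil) nil)) (node 0 (node 1 (node 1 (node 1 leaf nil) nil) nil)
    nil)) nil)) (node 2 (node 0 (node 0 (node 0 (node 0 (node 0 leaf nil) nil) nil) nil) nil)
    nil)))) (node 1 (node 0 (node 1 (node 0 (node 1 (node 0 (node (-1) leaf nil) (node (-1) (node
    0 leaf nil) nil)) (node 0 (node 1 (node (-1) leaf nil) (node (-1) (node 1 leaf nil) nil))
    (node (-1) (node 1 (node 0 leaf nil) (node 0 (node 1 leaf nil) nil)) nil))) (node 1 (node 0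
    (node 0 (node (-1) leaf nil) (node (-1) (node 0 leaf nil) nil)) (node (-1) (node 0 (node 0
    leaf nil) nil) nil)) (node (-1) (node 0 (node 1 (node 0 leaf nil) (node 0 (node 1 leaf nil)
    nil)) (node 1 (node 0 (node 0 leaf nil) nil) nil)) nil))) (node 0 (node 1 (node 1 (node 0
    (node (-1) leaf nil) (node (-1) (node 0 leaf nil) nil)) (node 0 (node 1 (node (-1) leaf nil)
    (node (-1) (node 1 leaf nil) nil)) (node (-1) (node 1 (node 0 leaf nil) (node 0 (node 1 leaf
    nil) nil)) nil))) (node 0 (node 1 (node 1 (node (-1) leaf nil) (node (-1) (node 1 leaf nil)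
    nil)) (node (-1) (node 1 (node 1 leaf nil) nil) nil)) (node (-1) (node 1 (node 1 (node 0 leaf
    nil) (node 0 (node 1 leaf nil) nil)) (node 0 (node 1 (node 1 leaf nil) nil) nil)) nil)))
    (node (-1) (node 1 (node 0 (node 1 (node 0 leaf nil) (node 0 (node 1 leaf nil) nil)) (node 1
    (node 0 (node 0 leaf nil) nil) nil)) (node 0 (node 1 (node 1 (node 0 leaf nil) (node 0 (node
    1 leaf nil) nil)) (node 0 (node 1 (node 1 leaf nil) nil) nil)) nil)) nil))) (node 1 (node 0
    (node 0 (node 1 (node 0 (node (-1) leaf nil) (node (-1) (node 0 leaf nil) nil)) (node 0 (node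
    1 (node (-1) leaf nil) (node (-1) (node 1 leaf nil) nil)) (node (-1) (node 1 (node 0 leaf
    nil) (node 0 (node 1 leaf nil) nil)) nil))) (node 1 (node 0 (node 0 (node (-1) leaf nil)
    (node (-1) (node 0 leaf nil) nil)) (node (-1) (node 0 (node 0 leaf nil) nil) nil)) (node (-1)
    (node 0 (node 1 (node 0 leaf nil) (node 0 (node 1 leaf nil) nil)) (node 1 (node 0 (node 0
    leaf nil) nil) nil)) nil))) (node 1 (node 0 (node 0 (node 0 (node (-1) leaf nil) (node (-1)
    (node 0 leaf nil) nil)) (node (-1) (node 0 (node 0 leaf nil) nil) nil)) (node (-1) (node 0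
    (node 0 (node 0 leaf nil) nil) nil) nil)) (node (-1) (node 0 (node 0 (node 1 (node 0 leaf
    nil) (node 0 (node 1 leaf nil) nil)) (node 1 (node 0 (node 0 leaf nil) nil) nil)) (node 1
    (node 0 (node 0 (node 0 leaf nil) nil) nil) nil)) nil))) (node (-1) (node 0 (node 1 (node 0
    (node 1 (node 0 leaf nil) (node 0 (node 1 leaf nil) nil)) (node 1 (node 0 (node 0 leaf nil)
    nil) nil)) (node 0 (node 1 (node 1 (node 0 leaf nil) (node 0 (node 1 leaf nil) nil)) (node 0
    (node 1 (node 1 leaf nil) nil) nil)) nil)) (node 1 (node 0 (node 0 (node 1 (node 0 leaf nil)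
    (node 0 (node 1 leaf nil) nil)) (node 1 (node 0 (node 0 leaf nil) nil) nil)) (node 1 (node 0
    (node 0 (node 0 leaf nil) nil) nil) nil)) nil)) nil))) (node (-1) (node 1 (node 0 (node 1
    (node 0 (node 1 (node 0 leaf nil) (node 0 (node 1 leaf nil) nil)) (node 1 (node 0 (node 0
    leaf nil) nil) nil)) (node 0 (node 1 (node 1 (node 0 leaf nil) (node 0 (node 1 leaf nil)
    nil)) (node 0 (node 1 (node 1 leaf nil) nil) nil)) nil)) (node 1 (node 0 (node 0 (node 1
    (node 0 leaf nil) (node 0 (node 1 leaf nil) nil)) (node 1 (node 0 (node 0 leaf nil) nil)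
    nil)) (node 1 (node 0 (node 0 (node 0 leaf nil) nil) nil) nil)) nil)) (node 0 (node 1 (node 1
    (node 0 (node 1 (node 0 leaf nil) (node 0 (node 1 leaf nil) nil)) (node 1 (node 0 (node 0
    leaf nil) nil) nil)) (node 0 (node 1 (node 1 (node 0 leaf nil) (node 0 (node 1 leaf nil)
    nil)) (node 0 (node 1 (node 1 leaf nil) nil) nil)) nil)) (node 0 (node 1 (node 1 (node 1
    (node 0 leaf nil) (node 0 (node 1 leaf nil) nil)) (node 0 (node 1 (node 1 leaf nil) nil)
    nil)) (node 0 (node 1 (node 1 (node 1 leaf nil) nil) nil) nil)) nil)) nil)) (node 2 (node 0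
    (node 0 (node 0 (node 0 (node 0 (node 0 leaf nil) nil) nil) nil) nil) nil) nil)))) (node 1
    (node 0 (node 0 (node 1 (node 0 (node 1 (node 0 (node (-1) leaf nil) (node (-1) (node 0 leaf
    nil) nil)) (node 0 (node 1 (node (-1) leaf nil) (node (-1) (node 1 leaf nil) nil)) (node (-1)
    (node 1 (node 0 leaf nil) (node 0 (node 1 leaf nil) nil)) nil))) (node 1 (node 0 (node 0
    (node (-1) leaf nil) (node (-1) (node 0 leaf nil) nil)) (node (-1) (node 0 (node 0 leaf nil)
    nil) nil)) (node (-1) (node 0 (node 1 (node 0 leaf nil) (node 0 (node 1 leaf nil) nil)) (node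
    1 (node 0 (node 0 leaf nil) nil) nil)) nil))) (node 0 (node 1 (node 1 (node 0 (node (-1) leaf
    nil) (node (-1) (node 0 leaf nil) nil)) (node 0 (node 1 (node (-1) leaf nil) (node (-1) (node
    1 leaf nil) nil)) (node (-1) (node 1 (node 0 leaf nil) (node 0 (node 1 leaf nil) nil)) nil)))
    (node 0 (node 1 (node 1 (node (-1) leaf nil) (node (-1) (node 1 leaf nil) nil)) (node (-1)
    (node 1 (node 1 leaf nil) nil) nil)) (node (-1) (node 1 (node 1 (node 0 leaf nil) (node 0
    (node 1 leaf nil) nil)) (node 0 (node 1 (node 1 leaf nil) nil) nil)) nil))) (node (-1) (node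
    1 (node 0 (node 1 (node 0 leaf nil) (node 0 (node 1 leaf nil) nil)) (node 1 (node 0 (node 0
    leaf nil) nil) nil)) (node 0 (node 1 (node 1 (node 0 leaf nil) (node 0 (node 1 leaf nil)
    nil)) (node 0 (node 1 (node 1 leaf nil) nil) nil)) nil)) nil))) (node 1 (node 0 (node 0 (node
    1 (node 0 (node (-1) leaf nil) (node (-1) (node 0 leaf nil) nil)) (node 0 (node 1 (node (-1)
    leaf nil) (node (-1) (node 1 leaf nil) nil)) (node (-1) (node 1 (node 0 leaf nil) (node 0
    (node 1 leaf nil) nil)) nil))) (node 1 (node 0 (node 0 (node (-1) leaf nil) (node (-1) (node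
    0 leaf nil) nil)) (node (-1) (node 0 (node 0 leaf nil) nil) nil)) (node (-1) (node 0 (node 1
    (node 0 leaf nil) (node 0 (node 1 leaf nil) nil)) (node 1 (node 0 (node 0 leaf nil) nil)
    nil)) nil))) (node 1 (node 0 (node 0 (node 0 (node (-1) leaf nil) (node (-1) (node 0 leaf
    nil) nil)) (node (-1) (node 0 (node 0 leaf nil) nil) nil)) (node (-1) (node 0 (node 0 (node 0
    leaf nil) nil) nil) nil)) (node (-1) (node 0 (node 0 (node 1 (node 0 leaf nil) (node 0 (node
    1 leaf nil) nil)) (node 1 (node 0 (node 0 leaf nil) nil) nil)) (node 1 (node 0 (node 0 (node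
    0 leaf nil) nil) nil) nil)) nil))) (node (-1) (node 0 (node 1 (node 0 (node 1 (node 0 leaf
    nil) (node 0 (node 1 leaf nil) nil)) (node 1 (node 0 (node 0 leaf nil) nil) nil)) (node 0
    (node 1 (node 1 (node 0 leaf nil) (node 0 (node 1 leaf nil) nil)) (node 0 (node 1 (node 1
    leaf nil) nil) nil)) nil)) (node 1 (node 0 (node 0 (node 1 (node 0 leaf nil) (node 0 (node 1
    leaf nil) nil)) (node 1 (node 0 (node 0 leaf nil) nil) nil)) (node 1 (node 0 (node 0 (node 0
    leaf nil) nil) nil) nil)) nil)) nil))) (node 1 (node 0 (node 0 (node 0 (node 1 (node 0 (node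
    (-1) leaf nil) (node (-1) (node 0 leaf nil) nil)) (node 0 (node 1 (node (-1) leaf nil) (node
    (-1) (node 1 leaf nil) nil)) (node (-1) (node 1 (node 0 leaf nil) (node 0 (node 1 leaf nil)
    nil)) nil))) (node 1 (node 0 (node 0 (node (-1) leaf nil) (node (-1) (node 0 leaf nil) nil))
    (node (-1) (node 0 (node 0 leaf nil) nil) nil)) (node (-1) (node 0 (node 1 (node 0 leaf nil)
    (node 0 (node 1 leaf nil) nil)) (node 1 (node 0 (node 0 leaf nil) nil) nil)) nil))) (node 1
    (node 0 (node 0 (node 0 (node (-1) leaf nil) (node (-1) (node 0 leaf nil) nil)) (node (-1)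
    (node 0 (node 0 leaf nil) nil) nil)) (node (-1) (node 0 (node 0 (node 0 leaf nil) nil) nil)
    nil)) (node (-1) (node 0 (node 0 (node 1 (node 0 leaf nil) (node 0 (node 1 leaf nil) nil))
    (node 1 (node 0 (node 0 leaf nil) nil) nil)) (node 1 (node 0 (node 0 (node 0 leaf nil) nil)
    nil) nil)) nil))) (node 1 (node 0 (node 0 (node 0 (node 0 (node (-1) leaf nil) (node (-1)
    (node 0 leaf nil) nil)) (node (-1) (node 0 (node 0 leaf nil) nil) nil)) (node (-1) (node 0
    (node 0 (node 0 leaf nil) nil) nil) nil)) (node (-1) (node 0 (node 0 (node 0 (node 0 leaf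
    nil) nil) nil) nil) nil)) (node (-1) (node 0 (node 0 (node 0 (node 1 (node 0 leaf nil) (node
    0 (node 1 leaf nil) nil)) (node 1 (node 0 (node 0 leaf nil) nil) nil)) (node 1 (node 0 (node
    0 (node 0 leaf nil) nil) nil) nil)) (node 1 (node 0 (node 0 (node 0 (node 0 leaf nil) nil)
    nil) nil) nil)) nil))) (node (-1) (node 0 (node 0 (node 1 (node 0 (node 1 (node 0 leaf nil)
    (node 0 (node 1 leaf nil) nil)) (node 1 (node 0 (node 0 leaf nil) nil) nil)) (node 0 (node 1
    (node 1 (node 0 leaf nil) (node 0 (node 1 leaf nil) nil)) (node 0 (node 1 (node 1 leaf nil)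
    nil) nil)) nil)) (node 1 (node 0 (node 0 (node 1 (node 0 leaf nil) (node 0 (node 1 leaf nil)
    nil)) (node 1 (node 0 (node 0 leaf nil) nil) nil)) (node 1 (node 0 (node 0 (node 0 leaf nil)
    nil) nil) nil)) nil)) (node 1 (node 0 (node 0 (node 0 (node 1 (node 0 leaf nil) (node 0 (node
    1 leaf nil) nil)) (node 1 (node 0 (node 0 leaf nil) nil) nil)) (node 1 (node 0 (node 0 (node
    0 leaf nil) nil) nil) nil)) (node 1 (node 0 (node 0 (node 0 (node 0 leaf nil) nil) nil) nil)
    nil)) nil)) nil))) (node (-1) (node 0 (node 1 (node 0 (node 1 (node 0 (node 1 (node 0 leaf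
    nil) (node 0 (node 1 leaf nil) nil)) (node 1 (node 0 (node 0 leaf nil) nil) nil)) (node 0
    (node 1 (node 1 (node 0 leaf nil) (node 0 (node 1 leaf nil) nil)) (node 0 (node 1 (node 1
    leaf nil) nil) nil)) nil)) (node 1 (node 0 (node 0 (node 1 (node 0 leaf nil) (node 0 (node 1
    leaf nil) nil)) (node 1 (node 0 (node 0 leaf nil) nil) nil)) (node 1 (node 0 (node 0 (node 0
    leaf nil) nil) nil) nil)) nil)) (node 0 (node 1 (node 1 (node 0 (node 1 (node 0 leaf nil)
    (node 0 (node 1 leaf nil) nil)) (node 1 (node 0 (node 0 leaf nil) nil) nil)) (node 0 (node 1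
    (node 1 (node 0 leaf nil) (node 0 (node 1 leaf nil) nil)) (node 0 (node 1 (node 1 leaf nil)
    nil) nil)) nil)) (node 0 (node 1 (node 1 (node 1 (node 0 leaf nil) (node 0 (node 1 leaf nil)
    nil)) (node 0 (node 1 (node 1 leaf nil) nil) nil)) (node 0 (node 1 (node 1 (node 1 leaf nil)
    nil) nil) nil)) nil)) nil)) (node 1 (node 0 (node 0 (node 1 (node 0 (node 1 (node 0 leaf nil)
    (node 0 (node 1 leaf nil) nil)) (node 1 (node 0 (node 0 leaf nil) nil) nil)) (node 0 (node 1
    (node 1 (node 0 leaf nil) (node 0 (node 1 leaf nil) nil)) (node 0 (node 1 (node 1 leaf nil)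
    nil) nil)) nil)) (node 1 (node 0 (node 0 (node 1 (node 0 leaf nil) (node 0 (node 1 leaf nil)
    nil)) (node 1 (node 0 (node 0 leaf nil) nil) nil)) (node 1 (node 0 (node 0 (node 0 leaf nil)
    nil) nil) nil)) nil)) (node 1 (node 0 (node 0 (node 0 (node 1 (node 0 leaf nil) (node 0 (node
    1 leaf nil) nil)) (node 1 (node 0 (node 0 leaf nil) nil) nil)) (node 1 (node 0 (node 0 (node
    0 leaf nil) nil) nil) nil)) (node 1 (node 0 (node 0 (node 0 (node 0 leaf nil) nil) nil) nil)
    nil)) nil)) nil)) (node 2 (node 0 (node 0 (node 0 (node 0 (node 0 (node 0 (node 0 leaf nil)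
    nil) nil) nil) nil) nil) nil) nil)))

open Tr in
/-- part of the data -/
def g241Tp5 : Tr :=
    node 2 (node 2 (node 1 (node 2 (node 1 (node 3 (node 2 (node 1 leaf nil) (node 1 (node 2 leaf
    nil) nil)) (node 2 (node 3 (node 1 leaf nil) (node 1 (node 3 leaf nil) nil)) (node 1 (node 3
    (node 2 leaf nil) (node 2 (node 3 leaf nil) nil)) nil))) (node 3 (node 1 (node 2 (node 1 leaf
    nil) (node 1 (node 2 leaf nil) nil)) (node 2 (node 1 (node 1 leaf nil) nil) nil)) (node 2
    (node 1 (node 3 (node 1 leaf nil) (node 1 (node 3 leaf nil) nil)) (node 3 (node 1 (node 1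
    leaf nil) nil) nil)) nil))) (node 1 (node 2 (node 3 (node 2 (node 1 leaf nil) (node 1 (node 2
    leaf nil) nil)) (node 2 (node 3 (node 1 leaf nil) (node 1 (node 3 leaf nil) nil)) (node 1
    (node 3 (node 2 leaf nil) (node 2 (node 3 leaf nil) nil)) nil))) (node 3 (node 2 (node 2
    (node 1 leaf nil) (node 1 (node 2 leaf nil) nil)) (node 1 (node 2 (node 2 leaf nil) nil)
    nil)) (node 1 (node 2 (node 3 (node 2 leaf nil) (node 2 (node 3 leaf nil) nil)) (node 3 (node
    2 (node 2 leaf nil) nil) nil)) nil))) (node 3 (node 2 (node 1 (node 2 (node 1 leaf nil) (node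
    1 (node 2 leaf nil) nil)) (node 2 (node 1 (node 1 leaf nil) nil) nil)) (node 1 (node 2 (node
    2 (node 1 leaf nil) (node 1 (node 2 leaf nil) nil)) (node 1 (node 2 (node 2 leaf nil) nil)
    nil)) nil)) nil))) (node 2 (node 1 (node 1 (node 3 (node 2 (node 1 leaf nil) (node 1 (node 2
    leaf nil) nil)) (node 2 (node 3 (node 1 leaf nil) (node 1 (node 3 leaf nil) nil)) (node 1
    (node 3 (node 2 leaf nil) (node 2 (node 3 leaf nil) nil)) nil))) (node 3 (node 1 (node 2
    (node 1 leaf nil) (node 1 (node 2 leaf nil) nil)) (node 2 (node 1 (node 1 leaf nil) nil)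
    nil)) (node 2 (node 1 (node 3 (node 1 leaf nil) (node 1 (node 3 leaf nil) nil)) (node 3 (node
    1 (node 1 leaf nil) nil) nil)) nil))) (node 2 (node 2 (node 2 (node 2 (node 0 leaf nil) (node
    0 (node 2 leaf nil) nil)) (node 0 (node 2 (node 2 leaf nil) nil) nil)) (node 1 (node 1 (node
    3 (node 1 leaf nil) (node 1 (node 3 leaf nil) nil)) (node 3 (node 1 (node 1 leaf nil) nil)
    nil)) (node 3 (node 1 (node 1 (node 1 leaf nil) nil) nil) (node 0 (node 2 (node 2 (node 2
    leaf nil) nil) nil) nil)))) (node 3 (node 1 (node 1 (node 2 (node 1 leaf nil) (node 1 (node 2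
    leaf nil) nil)) (node 2 (node 1 (node 1 leaf nil) nil) nil)) (node 2 (node 1 (node 1 (node 1
    leaf nil) nil) nil) nil)) (node 0 (node 2 (node 2 (node 2 (node 2 leaf nil) nil) nil) nil)
    nil)))) (node 3 (node 1 (node 2 (node 1 (node 2 (node 1 leaf nil) (node 1 (node 2 leaf nil)
    nil)) (node 2 (node 1 (node 1 leaf nil) nil) nil)) (node 1 (node 2 (node 2 (node 1 leaf nil)
    (node 1 (node 2 leaf nil) nil)) (node 1 (node 2 (node 2 leaf nil) nil) nil)) nil)) (node 2
    (node 1 (node 1 (node 2 (node 1 leaf nil) (node 1 (node 2 leaf nil) nil)) (node 2 (node 1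
    (node 1 leaf nil) nil) nil)) (node 2 (node 1 (node 1 (node 1 leaf nil) nil) nil) nil)) nil))
    (node 0 (node 2 (node 2 (node 2 (node 2 (node 2 leaf nil) nil) nil) nil) nil) nil)))) (node 1
    (node 2 (node 2 (node 1 (node 3 (node 2 (node 1 leaf nil) (node 1 (node 2 leaf nil) nil))
    (node 2 (node 3 (node 1 leaf nil) (node 1 (node 3 leaf nil) nil)) (node 1 (node 3 (node 2
    leaf nil) (node 2 (node 3 leaf nil) nil)) nil))) (node 3 (node 1 (node 2 (node 1 leaf nil)
    (node 1 (node 2 leaf nil) nil)) (node 2 (node 1 (node 1 leaf nil) nil) nil)) (node 2 (node 1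
    (node 3 (node 1 leaf nil) (node 1 (node 3 leaf nil) nil)) (node 3 (node 1 (node 1 leaf nil)
    nil) nil)) nil))) (node 1 (node 2 (node 3 (node 2 (node 1 leaf nil) (node 1 (node 2 leaf nil)
    nil)) (node 2 (node 3 (node 1 leaf nil) (node 1 (node 3 leaf nil) nil)) (node 1 (node 3 (node
    2 leaf nil) (node 2 (node 3 leaf nil) nil)) nil))) (node 3 (node 2 (node 2 (node 1 leaf nil)
    (node 1 (node 2 leaf nil) nil)) (node 1 (node 2 (node 2 leaf nil) nil) nil)) (node 1 (node 2
    (node 3 (node 2 leaf nil) (node 2 (node 3 leaf nil) nil)) (node 3 (node 2 (node 2 leaf nil)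
    nil) nil)) nil))) (node 3 (node 2 (node 1 (node 2 (node 1 leaf nil) (node 1 (node 2 leaf nil)
    nil)) (node 2 (node 1 (node 1 leaf nil) nil) nil)) (node 1 (node 2 (node 2 (node 1 leaf nil)
    (node 1 (node 2 leaf nil) nil)) (node 1 (node 2 (node 2 leaf nil) nil) nil)) nil)) nil)))
    (node 1 (node 2 (node 2 (node 3 (node 2 (node 1 leaf nil) (node 1 (node 2 leaf nil) nil))
    (node 2 (node 3 (node 1 leaf nil) (node 1 (node 3 leaf nil) nil)) (node 1 (node 3 (node 2
    leaf nil) (node 2 (node 3 leaf nil) nil)) nil))) (node 3 (node 2 (node 2 (node 1 leaf nil)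
    (node 1 (node 2 leaf nil) nil)) (node 1 (node 2 (node 2 leaf nil) nil) nil)) (node 1 (node 2
    (node 3 (node 2 leaf nil) (node 2 (node 3 leaf nil) nil)) (node 3 (node 2 (node 2 leaf nil)
    nil) nil)) nil))) (node 3 (node 2 (node 2 (node 2 (node 1 leaf nil) (node 1 (node 2 leaf nil)
    nil)) (node 1 (node 2 (node 2 leaf nil) nil) nil)) (node 1 (node 2 (node 2 (node 2 leaf nil)
    nil) nil) nil)) (node 1 (node 2 (node 2 (node 3 (node 2 leaf nil) (node 2 (node 3 leaf nil)
    nil)) (node 3 (node 2 (node 2 leaf nil) nil) nil)) (node 3 (node 2 (node 2 (node 2 leaf nil)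
    nil) nil) nil)) nil))) (node 3 (node 2 (node 2 (node 1 (node 2 (node 1 leaf nil) (node 1
    (node 2 leaf nil) nil)) (node 2 (node 1 (node 1 leaf nil) nil) nil)) (node 1 (node 2 (node 2
    (node 1 leaf nil) (node 1 (node 2 leaf nil) nil)) (node 1 (node 2 (node 2 leaf nil) nil)
    nil)) nil)) (node 1 (node 2 (node 2 (node 2 (node 1 leaf nil) (node 1 (node 2 leaf nil) nil))
    (node 1 (node 2 (node 2 leaf nil) nil) nil)) (node 1 (node 2 (node 2 (node 2 leaf nil) nil)
    nil) nil)) nil)) nil))) (node 3 (node 2 (node 1 (node 2 (node 1 (node 2 (node 1 leaf nil)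
    (node 1 (node 2 leaf nil) nil)) (node 2 (node 1 (node 1 leaf nil) nil) nil)) (node 1 (node 2
    (node 2 (node 1 leaf nil) (node 1 (node 2 leaf nil) nil)) (node 1 (node 2 (node 2 leaf nil)
    nil) nil)) nil)) (node 2 (node 1 (node 1 (node 2 (node 1 leaf nil) (node 1 (node 2 leaf nil)
    nil)) (node 2 (node 1 (node 1 leaf nil) nil) nil)) (node 2 (node 1 (node 1 (node 1 leaf nil)
    nil) nil) nil)) nil)) (node 1 (node 2 (node 2 (node 1 (node 2 (node 1 leaf nil) (node 1 (node
    2 leaf nil) nil)) (node 2 (node 1 (node 1 leaf nil) nil) nil)) (node 1 (node 2 (node 2 (node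
    1 leaf nil) (node 1 (node 2 leaf nil) nil)) (node 1 (node 2 (node 2 leaf nil) nil) nil))
    nil)) (node 1 (node 2 (node 2 (node 2 (node 1 leaf nil) (node 1 (node 2 leaf nil) nil)) (node
    1 (node 2 (node 2 leaf nil) nil) nil)) (node 1 (node 2 (node 2 (node 2 leaf nil) nil) nil)
    nil)) nil)) nil)) (node 0 (node 2 (node 2 (node 2 (node 2 (node 2 (node 2 leaf nil) nil) nil)
    nil) nil) nil) nil)))) (node 1 (node 2 (node 2 (node 2 (node 1 (node 3 (node 2 (node 1 leaf
    nil) (node 1 (node 2 leaf nil) nil)) (node 2 (node 3 (node 1 leaf nil) (node 1 (node 3 leaf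
    nil) nil)) (node 1 (node 3 (node 2 leaf nil) (node 2 (node 3 leaf nil) nil)) nil))) (node 3
    (node 1 (node 2 (node 1 leaf nil) (node 1 (node 2 leaf nil) nil)) (node 2 (node 1 (node 1
    leaf nil) nil) nil)) (node 2 (node 1 (node 3 (node 1 leaf nil) (node 1 (node 3 leaf nil)
    nil)) (node 3 (node 1 (node 1 leaf nil) nil) nil)) nil))) (node 1 (node 2 (node 3 (node 2
    (node 1 leaf nil) (node 1 (node 2 leaf nil) nil)) (node 2 (node 3 (node 1 leaf nil) (node 1
    (node 3 leaf nil) nil)) (node 1 (node 3 (node 2 leaf nil) (node 2 (node 3 leaf nil) nil))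
    nil))) (node 3 (node 2 (node 2 (node 1 leaf nil) (node 1 (node 2 leaf nil) nil)) (node 1
    (node 2 (node 2 leaf nil) nil) nil)) (node 1 (node 2 (node 3 (node 2 leaf nil) (node 2 (node
    3 leaf nil) nil)) (node 3 (node 2 (node 2 leaf nil) nil) nil)) nil))) (node 3 (node 2 (node 1
    (node 2 (node 1 leaf nil) (node 1 (node 2 leaf nil) nil)) (node 2 (node 1 (node 1 leaf nil)
    nil) nil)) (node 1 (node 2 (node 2 (node 1 leaf nil) (node 1 (node 2 leaf nil) nil)) (node 1
    (node 2 (node 2 leaf nil) nil) nil)) nil)) nil))) (node 1 (node 2 (node 2 (node 3 (node 2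
    (node 1 leaf nil) (node 1 (node 2 leaf nil) nil)) (node 2 (node 3 (node 1 leaf nil) (node 1
    (node 3 leaf nil) nil)) (node 1 (node 3 (node 2 leaf nil) (node 2 (node 3 leaf nil) nil))
    nil))) (node 3 (node 2 (node 2 (node 1 leaf nil) (node 1 (node 2 leaf nil) nil)) (node 1
    (node 2 (node 2 leaf nil) nil) nil)) (node 1 (node 2 (node 3 (node 2 leaf nil) (node 2 (node
    3 leaf nil) nil)) (node 3 (node 2 (node 2 leaf nil) nil) nil)) nil))) (node 3 (node 2 (node 2
    (node 2 (node 1 leaf nil) (node 1 (node 2 leaf nil) nil)) (node 1 (node 2 (node 2 leaf nil)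
    nil) nil)) (node 1 (node 2 (node 2 (node 2 leaf nil) nil) nil) nil)) (node 1 (node 2 (node 2
    (node 3 (node 2 leaf nil) (node 2 (node 3 leaf nil) nil)) (node 3 (node 2 (node 2 leaf nil)
    nil) nil)) (node 3 (node 2 (node 2 (node 2 leaf nil) nil) nil) nil)) nil))) (node 3 (node 2
    (node 2 (node 1 (node 2 (node 1 leaf nil) (node 1 (node 2 leaf nil) nil)) (node 2 (node 1
    (node 1 leaf nil) nil) nil)) (node 1 (node 2 (node 2 (node 1 leaf nil) (node 1 (node 2 leaf
    nil) nil)) (node 1 (node 2 (node 2 leaf nil) nil) nil)) nil)) (node 1 (node 2 (node 2 (node 2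
    (node 1 leaf nil) (node 1 (node 2 leaf nil) nil)) (node 1 (node 2 (node 2 leaf nil) nil)
    nil)) (node 1 (node 2 (node 2 (node 2 leaf nil) nil) nil) nil)) nil)) nil))) (node 1 (node 2
    (node 2 (node 2 (node 3 (node 2 (node 1 leaf nil) (node 1 (node 2 leaf nil) nil)) (node 2
    (node 3 (node 1 leaf nil) (node 1 (node 3 leaf nil) nil)) (node 1 (node 3 (node 2 leaf nil)
    (node 2 (node 3 leaf nil) nil)) nil))) (node 3 (node 2 (node 2 (node 1 leaf nil) (node 1
    (node 2 leaf nil) nil)) (node 1 (node 2 (node 2 leaf nil) nil) nil)) (node 1 (node 2 (node 3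
    (node 2 leaf nil) (node 2 (node 3 leaf nil) nil)) (node 3 (node 2 (node 2 leaf nil) nil)
    nil)) nil))) (node 3 (node 2 (node 2 (node 2 (node 1 leaf nil) (node 1 (node 2 leaf nil)
    nil)) (node 1 (node 2 (node 2 leaf nil) nil) nil)) (node 1 (node 2 (node 2 (node 2 leaf nil)
    nil) nil) nil)) (node 1 (node 2 (node 2 (node 3 (node 2 leaf nil) (node 2 (node 3 leaf nil)
    nil)) (node 3 (node 2 (node 2 leaf nil) nil) nil)) (node 3 (node 2 (node 2 (node 2 leaf nil)
    nil) nil) nil)) nil))) (node 3 (node 2 (node 2 (node 2 (node 2 (node 1 leaf nil) (node 1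
    (node 2 leaf nil) nil)) (node 1 (node 2 (node 2 leaf nil) nil) nil)) (node 1 (node 2 (node 2
    (node 2 leaf nil) nil) nil) nil)) (node 1 (node 2 (node 2 (node 2 (node 2 leaf nil) nil) nil)
    nil) nil)) (node 1 (node 2 (node 2 (node 2 (node 3 (node 2 leaf nil) (node 2 (node 3 leaf
    nil) nil)) (node 3 (node 2 (node 2 leaf nil) nil) nil)) (node 3 (node 2 (node 2 (node 2 leaf
    nil) nil) nil) nil)) (node 3 (node 2 (node 2 (node 2 (node 2 leaf nil) nil) nil) nil) nil))
    nil))) (node 3 (node 2 (node 2 (node 2 (node 1 (node 2 (node 1 leaf nil) (node 1 (node 2 leaf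
    nil) nil)) (node 2 (node 1 (node 1 leaf nil) nil) nil)) (node 1 (node 2 (node 2 (node 1 leaf
    nil) (node 1 (node 2 leaf nil) nil)) (node 1 (node 2 (node 2 leaf nil) nil) nil)) nil)) (node
    1 (node 2 (node 2 (node 2 (node 1 leaf nil) (node 1 (node 2 leaf nil) nil)) (node 1 (node 2
    (node 2 leaf nil) nil) nil)) (node 1 (node 2 (node 2 (node 2 leaf nil) nil) nil) nil)) nil))
    (node 1 (node 2 (node 2 (node 2 (node 2 (node 1 leaf nil) (node 1 (node 2 leaf nil) nil))
    (node 1 (node 2 (node 2 leaf nil) nil) nil)) (node 1 (node 2 (node 2 (node 2 leaf nil) nil)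
    nil) nil)) (node 1 (node 2 (node 2 (node 2 (node 2 leaf nil) nil) nil) nil) nil)) nil))
    nil))) (node 3 (node 2 (node 2 (node 1 (node 2 (node 1 (node 2 (node 1 leaf nil) (node 1
    (node 2 leaf nil) nil)) (node 2 (node 1 (node 1 leaf nil) nil) nil)) (node 1 (node 2 (node 2
    (node 1 leaf nil) (node 1 (node 2 leaf nil) nil)) (node 1 (node 2 (node 2 leaf nil) nil)
    nil)) nil)) (node 2 (node 1 (node 1 (node 2 (node 1 leaf nil) (node 1 (node 2 leaf nil) nil))
    (node 2 (node 1 (node 1 leaf nil) nil) nil)) (node 2 (node 1 (node 1 (node 1 leaf nil) nil)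
    nil) nil)) nil)) (node 1 (node 2 (node 2 (node 1 (node 2 (node 1 leaf nil) (node 1 (node 2
    leaf nil) nil)) (node 2 (node 1 (node 1 leaf nil) nil) nil)) (node 1 (node 2 (node 2 (node 1
    leaf nil) (node 1 (node 2 leaf nil) nil)) (node 1 (node 2 (node 2 leaf nil) nil) nil)) nil))
    (node 1 (node 2 (node 2 (node 2 (node 1 leaf nil) (node 1 (node 2 leaf nil) nil)) (node 1
    (node 2 (node 2 leaf nil) nil) nil)) (node 1 (node 2 (node 2 (node 2 leaf nil) nil) nil)
    nil)) nil)) nil)) (node 1 (node 2 (node 2 (node 2 (node 1 (node 2 (node 1 leaf nil) (node 1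
    (node 2 leaf nil) nil)) (node 2 (node 1 (node 1 leaf nil) nil) nil)) (node 1 (node 2 (node 2
    (node 1 leaf nil) (node 1 (node 2 leaf nil) nil)) (node 1 (node 2 (node 2 leaf nil) nil)
    nil)) nil)) (node 1 (node 2 (node 2 (node 2 (node 1 leaf nil) (node 1 (node 2 leaf nil) nil))
    (node 1 (node 2 (node 2 leaf nil) nil) nil)) (node 1 (node 2 (node 2 (node 2 leaf nil) nil)
    nil) nil)) nil)) (node 1 (node 2 (node 2 (node 2 (node 2 (node 1 leaf nil) (node 1 (node 2
    leaf nil) nil)) (node 1 (node 2 (node 2 leaf nil) nil) nil)) (node 1 (node 2 (node 2 (node 2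
    leaf nil) nil) nil) nil)) (node 1 (node 2 (node 2 (node 2 (node 2 leaf nil) nil) nil) nil)
    nil)) nil)) nil)) (node 0 (node 2 (node 2 (node 2 (node 2 (node 2 (node 2 (node 2 leaf nil)
    nil) nil) nil) nil) nil) nil) nil)))

open Tr in
/-- part of the data -/
def g241Tp2 : Tr :=
    node 1 (node 0 (node 0 (node 1 (node 0 (node 2 (node 1 (node 0 leaf nil) (node 0 (node 1 leaf
    nil) nil)) (node 1 (node 2 (node 0 leaf nil) (node 0 (node 2 leaf nil) nil)) (node 0 (node 2
    (node 1 leaf nil) (node 1 (node 2 leaf nil) nil)) nil))) (node 2 (node 0 (node 1 (node 0 leaf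
    nil) (node 0 (node 1 leaf nil) nil)) (node 1 (node 0 (node 0 leaf nil) nil) nil)) (node 1
    (node 0 (node 2 (node 0 leaf nil) (node 0 (node 2 leaf nil) nil)) (node 2 (node 0 (node 0
    leaf nil) nil) nil)) nil))) (node 0 (node 1 (node 2 (node 1 (node 0 leaf nil) (node 0 (node 1
    leaf nil) nil)) (node 1 (node 2 (node 0 leaf nil) (node 0 (node 2 leaf nil) nil)) (node 0
    (node 2 (node 1 leaf nil) (node 1 (node 2 leaf nil) nil)) nil))) (node 2 (node 1 (node 1
    (node 0 leaf nil) (node 0 (node 1 leaf nil) nil)) (node 0 (node 1 (node 1 leaf nil) nil)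
    nil)) (node 0 (node 1 (node 2 (node 1 leaf nil) (node 1 (node 2 leaf nil) nil)) (node 2 (node
    1 (node 1 leaf nil) nil) nil)) nil))) (node 2 (node 1 (node 0 (node 1 (node 0 leaf nil) (node
    0 (node 1 leaf nil) nil)) (node 1 (node 0 (node 0 leaf nil) nil) nil)) (node 0 (node 1 (node
    1 (node 0 leaf nil) (node 0 (node 1 leaf nil) nil)) (node 0 (node 1 (node 1 leaf nil) nil)
    nil)) nil)) nil))) (node 1 (node 0 (node 0 (node 2 (node 1 (node 0 leaf nil) (node 0 (node 1
    leaf nil) nil)) (node 1 (node 2 (node 0 leaf nil) (node 0 (node 2 leaf nil) nil)) (node 0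
    (node 2 (node 1 leaf nil) (node 1 (node 2 leaf nil) nil)) nil))) (node 2 (node 0 (node 1
    (node 0 leaf nil) (node 0 (node 1 leaf nil) nil)) (node 1 (node 0 (node 0 leaf nil) nil)
    nil)) (node 1 (node 0 (node 2 (node 0 leaf nil) (node 0 (node 2 leaf nil) nil)) (node 2 (node
    0 (node 0 leaf nil) nil) nil)) nil))) (node 1 (node 1 (node 1 (node 1 (node (-1) leaf nil)
    (node (-1) (node 1 leaf nil) nil)) (node (-1) (node 1 (node 1 leaf nil) nil) nil)) (node 0
    (node 0 (node 2 (node 0 leaf nil) (node 0 (node 2 leaf nil) nil)) (node 2 (node 0 (node 0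
    leaf nil) nil) nil)) (node 2 (node 0 (node 0 (node 0 leaf nil) nil) nil) (node (-1) (node 1
    (node 1 (node 1 leaf nil) nil) nil) nil)))) (node 2 (node 0 (node 0 (node 1 (node 0 leaf nil)
    (node 0 (node 1 leaf nil) nil)) (node 1 (node 0 (node 0 leaf nil) nil) nil)) (node 1 (node 0
    (node 0 (node 0 leaf nil) nil) nil) nil)) (node (-1) (node 1 (node 1 (node 1 (node 1 leaf
    nil) nil) nil) nil) nil)))) (node 2 (node 0 (node 1 (node 0 (node 1 (node 0 leaf nil) (node 0
    (node 1 leaf nil) nil)) (node 1 (node 0 (node 0 leaf nil) nil) nil)) (node 0 (node 1 (node 1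
    (node 0 leaf nil) (node 0 (node 1 leaf nil) nil)) (node 0 (node 1 (node 1 leaf nil) nil)
    nil)) nil)) (node 1 (node 0 (node 0 (node 1 (node 0 leaf nil) (node 0 (node 1 leaf nil) nil))
    (node 1 (node 0 (node 0 leaf nil) nil) nil)) (node 1 (node 0 (node 0 (node 0 leaf nil) nil)
    nil) nil)) nil)) (node (-1) (node 1 (node 1 (node 1 (node 1 (node 1 leaf nil) nil) nil) nil)
    nil) nil)))) (node 1 (node 1 (node 1 (node 1 (node 1 (node 0 (node (-1) leaf nil) (node (-1)
    (node 0 leaf nil) nil)) (node 0 (node 1 (node (-1) leaf nil) (node (-1) (node 1 leaf nil)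
    nil)) (node (-1) (node 1 (node 0 leaf nil) (node 0 (node 1 leaf nil) nil)) nil))) (node 0
    (node 1 (node 1 (node (-1) leaf nil) (node (-1) (node 1 leaf nil) nil)) (node (-1) (node 1
    (node 1 leaf nil) nil) nil)) (node (-1) (node 1 (node 1 (node 0 leaf nil) (node 0 (node 1
    leaf nil) nil)) (node 0 (node 1 (node 1 leaf nil) nil) nil)) nil))) (node 0 (node 1 (node 1
    (node 1 (node (-1) leaf nil) (node (-1) (node 1 leaf nil) nil)) (node (-1) (node 1 (node 1
    leaf nil) nil) nil)) (node 0 (node 0 (node 2 (node 0 leaf nil) (node 0 (node 2 leaf nil)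
    nil)) (node 2 (node 0 (node 0 leaf nil) nil) nil)) (node 2 (node 0 (node 0 (node 0 leaf nil)
    nil) nil) (node (-1) (node 1 (node 1 (node 1 leaf nil) nil) nil) nil)))) (node (-1) (node 1
    (node 1 (node 1 (node 0 leaf nil) (node 0 (node 1 leaf nil) nil)) (node 0 (node 1 (node 1
    leaf nil) nil) nil)) (node 0 (node 1 (node 1 (node 1 leaf nil) nil) nil) nil)) (node 2 (node
    0 (node 0 (node 0 (node 0 leaf nil) nil) nil) nil) nil)))) (node 0 (node 0 (node 0 (node 2
    (node 1 (node 0 leaf nil) (node 0 (node 1 leaf nil) nil)) (node 1 (node 2 (node 0 leaf nil)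
    (node 0 (node 2 leaf nil) nil)) (node 0 (node 2 (node 1 leaf nil) (node 1 (node 2 leaf nil)
    nil)) nil))) (node 2 (node 0 (node 1 (node 0 leaf nil) (node 0 (node 1 leaf nil) nil)) (node
    1 (node 0 (node 0 leaf nil) nil) nil)) (node 1 (node 0 (node 2 (node 0 leaf nil) (node 0
    (node 2 leaf nil) nil)) (node 2 (node 0 (node 0 leaf nil) nil) nil)) nil))) (node 1 (node 1
    (node 1 (node 1 (node (-1) leaf nil) (node (-1) (node 1 leaf nil) nil)) (node (-1) (node 1
    (node 1 leaf nil) nil) nil)) (node 0 (node 0 (node 2 (node 0 leaf nil) (node 0 (node 2 leaf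
    nil) nil)) (node 2 (node 0 (node 0 leaf nil) nil) nil)) (node 2 (node 0 (node 0 (node 0 leaf
    nil) nil) nil) (node (-1) (node 1 (node 1 (node 1 leaf nil) nil) nil) nil)))) (node 2 (node 0
    (node 0 (node 1 (node 0 leaf nil) (node 0 (node 1 leaf nil) nil)) (node 1 (node 0 (node 0
    leaf nil) nil) nil)) (node 1 (node 0 (node 0 (node 0 leaf nil) nil) nil) nil)) (node (-1)
    (node 1 (node 1 (node 1 (node 1 leaf nil) nil) nil) nil) nil)))) (node 2 (node 0 (node 0
    (node 0 (node 1 (node 0 leaf nil) (node 0 (node 1 leaf nil) nil)) (node 1 (node 0 (node 0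
    leaf nil) nil) nil)) (node 1 (node 0 (node 0 (node 0 leaf nil) nil) nil) nil)) (node 1 (node
    0 (node 0 (node 0 (node 0 leaf nil) nil) nil) nil) nil)) (node (-1) (node 1 (node 1 (node 1
    (node 1 (node 0 leaf nil) (node 0 (node 1 leaf nil) nil)) (node 0 (node 1 (node 1 leaf nil)
    nil) nil)) (node 0 (node 1 (node 1 (node 1 leaf nil) nil) nil) nil)) (node 0 (node 1 (node 1
    (node 1 (node 1 leaf nil) nil) nil) nil) nil)) nil)))) (node 2 (node 0 (node 0 (node 1 (node
    0 (node 1 (node 0 leaf nil) (node 0 (node 1 leaf nil) nil)) (node 1 (node 0 (node 0 leaf nil)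
    nil) nil)) (node 0 (node 1 (node 1 (node 0 leaf nil) (node 0 (node 1 leaf nil) nil)) (node 0
    (node 1 (node 1 leaf nil) nil) nil)) nil)) (node 1 (node 0 (node 0 (node 1 (node 0 leaf nil)
    (node 0 (node 1 leaf nil) nil)) (node 1 (node 0 (node 0 leaf nil) nil) nil)) (node 1 (node 0
    (node 0 (node 0 leaf nil) nil) nil) nil)) nil)) (node 1 (node 0 (node 0 (node 0 (node 1 (node
    0 leaf nil) (node 0 (node 1 leaf nil) nil)) (node 1 (node 0 (node 0 leaf nil) nil) nil))
    (node 1 (node 0 (node 0 (node 0 leaf nil) nil) nil) nil)) (node 1 (node 0 (node 0 (node 0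
    (node 0 leaf nil) nil) nil) nil) nil)) nil)) (node (-1) (node 1 (node 1 (node 1 (node 1 (node
    1 (node 0 leaf nil) (node 0 (node 1 leaf nil) nil)) (node 0 (node 1 (node 1 leaf nil) nil)
    nil)) (node 0 (node 1 (node 1 (node 1 leaf nil) nil) nil) nil)) (node 0 (node 1 (node 1 (node
    1 (node 1 leaf nil) nil) nil) nil) nil)) (node 0 (node 1 (node 1 (node 1 (node 1 (node 1 leaf
    nil) nil) nil) nil) nil) nil)) nil)))) (node 0 (node 1 (node 0 (node 1 (node 0 (node 2 (node
    1 (node 0 leaf nil) (node 0 (node 1 leaf nil) nil)) (node 1 (node 2 (node 0 leaf nil) (node 0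
    (node 2 leaf nil) nil)) (node 0 (node 2 (node 1 leaf nil) (node 1 (node 2 leaf nil) nil))
    nil))) (node 2 (node 0 (node 1 (node 0 leaf nil) (node 0 (node 1 leaf nil) nil)) (node 1
    (node 0 (node 0 leaf nil) nil) nil)) (node 1 (node 0 (node 2 (node 0 leaf nil) (node 0 (node
    2 leaf nil) nil)) (node 2 (node 0 (node 0 leaf nil) nil) nil)) nil))) (node 0 (node 1 (node 2
    (node 1 (node 0 leaf nil) (node 0 (node 1 leaf nil) nil)) (node 1 (node 2 (node 0 leaf nil)
    (node 0 (node 2 leaf nil) nil)) (node 0 (node 2 (node 1 leaf nil) (node 1 (node 2 leaf nil)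
    nil)) nil))) (node 2 (node 1 (node 1 (node 0 leaf nil) (node 0 (node 1 leaf nil) nil)) (node
    0 (node 1 (node 1 leaf nil) nil) nil)) (node 0 (node 1 (node 2 (node 1 leaf nil) (node 1
    (node 2 leaf nil) nil)) (node 2 (node 1 (node 1 leaf nil) nil) nil)) nil))) (node 2 (node 1
    (node 0 (node 1 (node 0 leaf nil) (node 0 (node 1 leaf nil) nil)) (node 1 (node 0 (node 0
    leaf nil) nil) nil)) (node 0 (node 1 (node 1 (node 0 leaf nil) (node 0 (node 1 leaf nil)
    nil)) (node 0 (node 1 (node 1 leaf nil) nil) nil)) nil)) nil))) (node 1 (node 0 (node 0 (node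
    2 (node 1 (node 0 leaf nil) (node 0 (node 1 leaf nil) nil)) (node 1 (node 2 (node 0 leaf nil)
    (node 0 (node 2 leaf nil) nil)) (node 0 (node 2 (node 1 leaf nil) (node 1 (node 2 leaf nil)
    nil)) nil))) (node 2 (node 0 (node 1 (node 0 leaf nil) (node 0 (node 1 leaf nil) nil)) (node
    1 (node 0 (node 0 leaf nil) nil) nil)) (node 1 (node 0 (node 2 (node 0 leaf nil) (node 0
    (node 2 leaf nil) nil)) (node 2 (node 0 (node 0 leaf nil) nil) nil)) nil))) (node 1 (node 1
    (node 1 (node 1 (node (-1) leaf nil) (node (-1) (node 1 leaf nil) nil)) (node (-1) (node 1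
    (node 1 leaf nil) nil) nil)) (node 0 (node 0 (node 2 (node 0 leaf nil) (node 0 (node 2 leaf
    nil) nil)) (node 2 (node 0 (node 0 leaf nil) nil) nil)) (node 2 (node 0 (node 0 (node 0 leaf
    nil) nil) nil) (node (-1) (node 1 (node 1 (node 1 leaf nil) nil) nil) nil)))) (node 2 (node 0
    (node 0 (node 1 (node 0 leaf nil) (node 0 (node 1 leaf nil) nil)) (node 1 (node 0 (node 0
    leaf nil) nil) nil)) (node 1 (node 0 (node 0 (node 0 leaf nil) nil) nil) nil)) (node (-1)
    (node 1 (node 1 (node 1 (node 1 leaf nil) nil) nil) nil) nil)))) (node 2 (node 0 (node 1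
    (node 0 (node 1 (node 0 leaf nil) (node 0 (node 1 leaf nil) nil)) (node 1 (node 0 (node 0
    leaf nil) nil) nil)) (node 0 (node 1 (node 1 (node 0 leaf nil) (node 0 (node 1 leaf nil)
    nil)) (node 0 (node 1 (node 1 leaf nil) nil) nil)) nil)) (node 1 (node 0 (node 0 (node 1
    (node 0 leaf nil) (node 0 (node 1 leaf nil) nil)) (node 1 (node 0 (node 0 leaf nil) nil)
    nil)) (node 1 (node 0 (node 0 (node 0 leaf nil) nil) nil) nil)) nil)) (node (-1) (node 1
    (node 1 (node 1 (node 1 (node 1 leaf nil) nil) nil) nil) nil) nil)))) (node 0 (node 1 (node 1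
    (node 0 (node 2 (node 1 (node 0 leaf nil) (node 0 (node 1 leaf nil) nil)) (node 1 (node 2
    (node 0 leaf nil) (node 0 (node 2 leaf nil) nil)) (node 0 (node 2 (node 1 leaf nil) (node 1
    (node 2 leaf nil) nil)) nil))) (node 2 (node 0 (node 1 (node 0 leaf nil) (node 0 (node 1 leaf
    nil) nil)) (node 1 (node 0 (node 0 leaf nil) nil) nil)) (node 1 (node 0 (node 2 (node 0 leaf
    nil) (node 0 (node 2 leaf nil) nil)) (node 2 (node 0 (node 0 leaf nil) nil) nil)) nil)))
    (node 0 (node 1 (node 2 (node 1 (node 0 leaf nil) (node 0 (node 1 leaf nil) nil)) (node 1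
    (node 2 (node 0 leaf nil) (node 0 (node 2 leaf nil) nil)) (node 0 (node 2 (node 1 leaf nil)
    (node 1 (node 2 leaf nil) nil)) nil))) (node 2 (node 1 (node 1 (node 0 leaf nil) (node 0
    (node 1 leaf nil) nil)) (node 0 (node 1 (node 1 leaf nil) nil) nil)) (node 0 (node 1 (node 2
    (node 1 leaf nil) (node 1 (node 2 leaf nil) nil)) (node 2 (node 1 (node 1 leaf nil) nil)
    nil)) nil))) (node 2 (node 1 (node 0 (node 1 (node 0 leaf nil) (node 0 (node 1 leaf nil)
    nil)) (node 1 (node 0 (node 0 leaf nil) nil) nil)) (node 0 (node 1 (node 1 (node 0 leaf nil)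
    (node 0 (node 1 leaf nil) nil)) (node 0 (node 1 (node 1 leaf nil) nil) nil)) nil)) nil)))
    (node 0 (node 1 (node 1 (node 2 (node 1 (node 0 leaf nil) (node 0 (node 1 leaf nil) nil))
    (node 1 (node 2 (node 0 leaf nil) (node 0 (node 2 leaf nil) nil)) (node 0 (node 2 (node 1
    leaf nil) (node 1 (node 2 leaf nil) nil)) nil))) (node 2 (node 1 (node 1 (node 0 leaf nil)
    (node 0 (node 1 leaf nil) nil)) (node 0 (node 1 (node 1 leaf nil) nil) nil)) (node 0 (node 1
    (node 2 (node 1 leaf nil) (node 1 (node 2 leaf nil) nil)) (node 2 (node 1 (node 1 leaf nil)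
    nil) nil)) nil))) (node 2 (node 1 (node 1 (node 1 (node 0 leaf nil) (node 0 (node 1 leaf nil)
    nil)) (node 0 (node 1 (node 1 leaf nil) nil) nil)) (node 0 (node 1 (node 1 (node 1 leaf nil)
    nil) nil) nil)) (node 0 (node 1 (node 1 (node 2 (node 1 leaf nil) (node 1 (node 2 leaf nil)
    nil)) (node 2 (node 1 (node 1 leaf nil) nil) nil)) (node 2 (node 1 (node 1 (node 1 leaf nil)
    nil) nil) nil)) nil))) (node 2 (node 1 (node 1 (node 0 (node 1 (node 0 leaf nil) (node 0
    (node 1 leaf nil) nil)) (node 1 (node 0 (node 0 leaf nil) nil) nil)) (node 0 (node 1 (node 1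
    (node 0 leaf nil) (node 0 (node 1 leaf nil) nil)) (node 0 (node 1 (node 1 leaf nil) nil)
    nil)) nil)) (node 0 (node 1 (node 1 (node 1 (node 0 leaf nil) (node 0 (node 1 leaf nil) nil))
    (node 0 (node 1 (node 1 leaf nil) nil) nil)) (node 0 (node 1 (node 1 (node 1 leaf nil) nil)
    nil) nil)) nil)) nil))) (node 2 (node 1 (node 0 (node 1 (node 0 (node 1 (node 0 leaf nil)
    (node 0 (node 1 leaf nil) nil)) (node 1 (node 0 (node 0 leaf nil) nil) nil)) (node 0 (node 1
    (node 1 (node 0 leaf nil) (node 0 (node 1 leaf nil) nil)) (node 0 (node 1 (node 1 leaf nil)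
    nil) nil)) nil)) (node 1 (node 0 (node 0 (node 1 (node 0 leaf nil) (node 0 (node 1 leaf nil)
    nil)) (node 1 (node 0 (node 0 leaf nil) nil) nil)) (node 1 (node 0 (node 0 (node 0 leaf nil)
    nil) nil) nil)) nil)) (node 0 (node 1 (node 1 (node 0 (node 1 (node 0 leaf nil) (node 0 (node
    1 leaf nil) nil)) (node 1 (node 0 (node 0 leaf nil) nil) nil)) (node 0 (node 1 (node 1 (node
    0 leaf nil) (node 0 (node 1 leaf nil) nil)) (node 0 (node 1 (node 1 leaf nil) nil) nil))
    nil)) (node 0 (node 1 (node 1 (node 1 (node 0 leaf nil) (node 0 (node 1 leaf nil) nil)) (node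
    0 (node 1 (node 1 leaf nil) nil) nil)) (node 0 (node 1 (node 1 (node 1 leaf nil) nil) nil)
    nil)) nil)) nil)) (node (-1) (node 1 (node 1 (node 1 (node 1 (node 1 (node 1 leaf nil) nil)
    nil) nil) nil) nil) nil)))) (node 2 (node 0 (node 1 (node 0 (node 1 (node 0 (node 1 (node 0
    leaf nil) (node 0 (node 1 leaf nil) nil)) (node 1 (node 0 (node 0 leaf nil) nil) nil)) (node
    0 (node 1 (node 1 (node 0 leaf nil) (node 0 (node 1 leaf nil) nil)) (node 0 (node 1 (node 1
    leaf nil) nil) nil)) nil)) (node 1 (node 0 (node 0 (node 1 (node 0 leaf nil) (node 0 (node 1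
    leaf nil) nil)) (node 1 (node 0 (node 0 leaf nil) nil) nil)) (node 1 (node 0 (node 0 (node 0
    leaf nil) nil) nil) nil)) nil)) (node 0 (node 1 (node 1 (node 0 (node 1 (node 0 leaf nil)
    (node 0 (node 1 leaf nil) nil)) (node 1 (node 0 (node 0 leaf nil) nil) nil)) (node 0 (node 1
    (node 1 (node 0 leaf nil) (node 0 (node 1 leaf nil) nil)) (node 0 (node 1 (node 1 leaf nil)
    nil) nil)) nil)) (node 0 (node 1 (node 1 (node 1 (node 0 leaf nil) (node 0 (node 1 leaf nil)
    nil)) (node 0 (node 1 (node 1 leaf nil) nil) nil)) (node 0 (node 1 (node 1 (node 1 leaf nil)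
    nil) nil) nil)) nil)) nil)) (node 1 (node 0 (node 0 (node 1 (node 0 (node 1 (node 0 leaf nil)
    (node 0 (node 1 leaf nil) nil)) (node 1 (node 0 (node 0 leaf nil) nil) nil)) (node 0 (node 1
    (node 1 (node 0 leaf nil) (node 0 (node 1 leaf nil) nil)) (node 0 (node 1 (node 1 leaf nil)
    nil) nil)) nil)) (node 1 (node 0 (node 0 (node 1 (node 0 leaf nil) (node 0 (node 1 leaf nil)
    nil)) (node 1 (node 0 (node 0 leaf nil) nil) nil)) (node 1 (node 0 (node 0 (node 0 leaf nil)
    nil) nil) nil)) nil)) (node 1 (node 0 (node 0 (node 0 (node 1 (node 0 leaf nil) (node 0 (node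
    1 leaf nil) nil)) (node 1 (node 0 (node 0 leaf nil) nil) nil)) (node 1 (node 0 (node 0 (node
    0 leaf nil) nil) nil) nil)) (node 1 (node 0 (node 0 (node 0 (node 0 leaf nil) nil) nil) nil)
    nil)) nil)) nil)) (node (-1) (node 1 (node 1 (node 1 (node 1 (node 1 (node 1 (node 0 leaf
    nil) (node 0 (node 1 leaf nil) nil)) (node 0 (node 1 (node 1 leaf nil) nil) nil)) (node 0
    (node 1 (node 1 (node 1 leaf nil) nil) nil) nil)) (node 0 (node 1 (node 1 (node 1 (node 1
    leaf nil) nil) nil) nil) nil)) (node 0 (node 1 (node 1 (node 1 (node 1 (node 1 leaf nil) nil)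
    nil) nil) nil) nil)) (node 0 (node 1 (node 1 (node 1 (node 1 (node 1 (node 1 leaf nil) nil)
    nil) nil) nil) nil) nil)) nil)))

open Tr in
/-- part of the data -/
def g241Tp4 : Tr :=
    node 2 (node 1 (node 2 (node 2 (node 1 (node 2 (node 1 (node 0 leaf nil) (node 0 (node 1 leaf
    nil) nil)) (node 1 (node 2 (node 0 leaf nil) (node 0 (node 2 leaf nil) nil)) (node 0 (node 2
    (node 1 leaf nil) (node 1 (node 2 leaf nil) nil)) nil))) (node 2 (node 1 (node 1 (node 0 leaf
    nil) (node 0 (node 1 leaf nil) nil)) (node 0 (node 1 (node 1 leaf nil) nil) nil)) (node 0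
    (node 1 (node 2 (node 1 leaf nil) (node 1 (node 2 leaf nil) nil)) (node 2 (node 1 (node 1
    leaf nil) nil) nil)) nil))) (node 1 (node 2 (node 2 (node 1 (node 0 leaf nil) (node 0 (node 1
    leaf nil) nil)) (node 1 (node 2 (node 0 leaf nil) (node 0 (node 2 leaf nil) nil)) (node 0
    (node 2 (node 1 leaf nil) (node 1 (node 2 leaf nil) nil)) nil))) (node 1 (node 2 (node 2
    (node 0 leaf nil) (node 0 (node 2 leaf nil) nil)) (node 0 (node 2 (node 2 leaf nil) nil)
    nil)) (node 0 (node 2 (node 2 (node 1 leaf nil) (node 1 (node 2 leaf nil) nil)) (node 1 (node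
    2 (node 2 leaf nil) nil) nil)) nil))) (node 0 (node 2 (node 1 (node 2 (node 1 leaf nil) (node
    1 (node 2 leaf nil) nil)) (node 2 (node 1 (node 1 leaf nil) nil) nil)) (node 1 (node 2 (node
    2 (node 1 leaf nil) (node 1 (node 2 leaf nil) nil)) (node 1 (node 2 (node 2 leaf nil) nil)
    nil)) nil)) nil))) (node 1 (node 2 (node 2 (node 2 (node 1 (node 0 leaf nil) (node 0 (node 1
    leaf nil) nil)) (node 1 (node 2 (node 0 leaf nil) (node 0 (node 2 leaf nil) nil)) (node 0
    (node 2 (node 1 leaf nil) (node 1 (node 2 leaf nil) nil)) nil))) (node 1 (node 2 (node 2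
    (node 0 leaf nil) (node 0 (node 2 leaf nil) nil)) (node 0 (node 2 (node 2 leaf nil) nil)
    nil)) (node 0 (node 2 (node 2 (node 1 leaf nil) (node 1 (node 2 leaf nil) nil)) (node 1 (node
    2 (node 2 leaf nil) nil) nil)) nil))) (node 1 (node 2 (node 2 (node 2 (node 0 leaf nil) (node
    0 (node 2 leaf nil) nil)) (node 0 (node 2 (node 2 leaf nil) nil) nil)) (node 1 (node 1 (node
    3 (node 1 leaf nil) (node 1 (node 3 leaf nil) nil)) (node 3 (node 1 (node 1 leaf nil) nil)
    nil)) (node 3 (node 1 (node 1 (node 1 leaf nil) nil) nil) (node 0 (node 2 (node 2 (node 2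
    leaf nil) nil) nil) nil)))) (node 0 (node 2 (node 2 (node 2 (node 1 leaf nil) (node 1 (node 2
    leaf nil) nil)) (node 1 (node 2 (node 2 leaf nil) nil) nil)) (node 1 (node 2 (node 2 (node 2
    leaf nil) nil) nil) nil)) (node 3 (node 1 (node 1 (node 1 (node 1 leaf nil) nil) nil) nil)
    nil)))) (node 0 (node 2 (node 2 (node 1 (node 2 (node 1 leaf nil) (node 1 (node 2 leaf nil)
    nil)) (node 2 (node 1 (node 1 leaf nil) nil) nil)) (node 1 (node 2 (node 2 (node 1 leaf nil)
    (node 1 (node 2 leaf nil) nil)) (node 1 (node 2 (node 2 leaf nil) nil) nil)) nil)) (node 1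
    (node 2 (node 2 (node 2 (node 1 leaf nil) (node 1 (node 2 leaf nil) nil)) (node 1 (node 2
    (node 2 leaf nil) nil) nil)) (node 1 (node 2 (node 2 (node 2 leaf nil) nil) nil) nil)) nil))
    (node 3 (node 1 (node 1 (node 1 (node 1 (node 1 leaf nil) nil) nil) nil) nil) nil)))) (node 2
    (node 1 (node 2 (node 1 (node 2 (node 1 (node 0 leaf nil) (node 0 (node 1 leaf nil) nil))
    (node 1 (node 2 (node 0 leaf nil) (node 0 (node 2 leaf nil) nil)) (node 0 (node 2 (node 1
    leaf nil) (node 1 (node 2 leaf nil) nil)) nil))) (node 2 (node 1 (node 1 (node 0 leaf nil)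
    (node 0 (node 1 leaf nil) nil)) (node 0 (node 1 (node 1 leaf nil) nil) nil)) (node 0 (node 1
    (node 2 (node 1 leaf nil) (node 1 (node 2 leaf nil) nil)) (node 2 (node 1 (node 1 leaf nil)
    nil) nil)) nil))) (node 1 (node 2 (node 2 (node 1 (node 0 leaf nil) (node 0 (node 1 leaf nil)
    nil)) (node 1 (node 2 (node 0 leaf nil) (node 0 (node 2 leaf nil) nil)) (node 0 (node 2 (node
    1 leaf nil) (node 1 (node 2 leaf nil) nil)) nil))) (node 1 (node 2 (node 2 (node 0 leaf nil)
    (node 0 (node 2 leaf nil) nil)) (node 0 (node 2 (node 2 leaf nil) nil) nil)) (node 0 (node 2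
    (node 2 (node 1 leaf nil) (node 1 (node 2 leaf nil) nil)) (node 1 (node 2 (node 2 leaf nil)
    nil) nil)) nil))) (node 0 (node 2 (node 1 (node 2 (node 1 leaf nil) (node 1 (node 2 leaf nil)
    nil)) (node 2 (node 1 (node 1 leaf nil) nil) nil)) (node 1 (node 2 (node 2 (node 1 leaf nil)
    (node 1 (node 2 leaf nil) nil)) (node 1 (node 2 (node 2 leaf nil) nil) nil)) nil)) nil)))
    (node 2 (node 1 (node 1 (node 2 (node 1 (node 0 leaf nil) (node 0 (node 1 leaf nil) nil))
    (node 1 (node 2 (node 0 leaf nil) (node 0 (node 2 leaf nil) nil)) (node 0 (node 2 (node 1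
    leaf nil) (node 1 (node 2 leaf nil) nil)) nil))) (node 2 (node 1 (node 1 (node 0 leaf nil)
    (node 0 (node 1 leaf nil) nil)) (node 0 (node 1 (node 1 leaf nil) nil) nil)) (node 0 (node 1
    (node 2 (node 1 leaf nil) (node 1 (node 2 leaf nil) nil)) (node 2 (node 1 (node 1 leaf nil)
    nil) nil)) nil))) (node 2 (node 1 (node 1 (node 1 (node 0 leaf nil) (node 0 (node 1 leaf nil)
    nil)) (node 0 (node 1 (node 1 leaf nil) nil) nil)) (node 0 (node 1 (node 1 (node 1 leaf nil)
    nil) nil) nil)) (node 0 (node 1 (node 1 (node 2 (node 1 leaf nil) (node 1 (node 2 leaf nil)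
    nil)) (node 2 (node 1 (node 1 leaf nil) nil) nil)) (node 2 (node 1 (node 1 (node 1 leaf nil)
    nil) nil) nil)) nil))) (node 0 (node 1 (node 2 (node 1 (node 2 (node 1 leaf nil) (node 1
    (node 2 leaf nil) nil)) (node 2 (node 1 (node 1 leaf nil) nil) nil)) (node 1 (node 2 (node 2
    (node 1 leaf nil) (node 1 (node 2 leaf nil) nil)) (node 1 (node 2 (node 2 leaf nil) nil)
    nil)) nil)) (node 2 (node 1 (node 1 (node 2 (node 1 leaf nil) (node 1 (node 2 leaf nil) nil))
    (node 2 (node 1 (node 1 leaf nil) nil) nil)) (node 2 (node 1 (node 1 (node 1 leaf nil) nil)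
    nil) nil)) nil)) nil))) (node 0 (node 2 (node 1 (node 2 (node 1 (node 2 (node 1 leaf nil)
    (node 1 (node 2 leaf nil) nil)) (node 2 (node 1 (node 1 leaf nil) nil) nil)) (node 1 (node 2
    (node 2 (node 1 leaf nil) (node 1 (node 2 leaf nil) nil)) (node 1 (node 2 (node 2 leaf nil)
    nil) nil)) nil)) (node 2 (node 1 (node 1 (node 2 (node 1 leaf nil) (node 1 (node 2 leaf nil)
    nil)) (node 2 (node 1 (node 1 leaf nil) nil) nil)) (node 2 (node 1 (node 1 (node 1 leaf nil)
    nil) nil) nil)) nil)) (node 1 (node 2 (node 2 (node 1 (node 2 (node 1 leaf nil) (node 1 (node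
    2 leaf nil) nil)) (node 2 (node 1 (node 1 leaf nil) nil) nil)) (node 1 (node 2 (node 2 (node
    1 leaf nil) (node 1 (node 2 leaf nil) nil)) (node 1 (node 2 (node 2 leaf nil) nil) nil))
    nil)) (node 1 (node 2 (node 2 (node 2 (node 1 leaf nil) (node 1 (node 2 leaf nil) nil)) (node
    1 (node 2 (node 2 leaf nil) nil) nil)) (node 1 (node 2 (node 2 (node 2 leaf nil) nil) nil)
    nil)) nil)) nil)) (node 3 (node 1 (node 1 (node 1 (node 1 (node 1 (node 1 leaf nil) nil) nil)
    nil) nil) nil) nil)))) (node 1 (node 2 (node 2 (node 2 (node 1 (node 2 (node 1 (node 0 leaf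
    nil) (node 0 (node 1 leaf nil) nil)) (node 1 (node 2 (node 0 leaf nil) (node 0 (node 2 leaf
    nil) nil)) (node 0 (node 2 (node 1 leaf nil) (node 1 (node 2 leaf nil) nil)) nil))) (node 2
    (node 1 (node 1 (node 0 leaf nil) (node 0 (node 1 leaf nil) nil)) (node 0 (node 1 (node 1
    leaf nil) nil) nil)) (node 0 (node 1 (node 2 (node 1 leaf nil) (node 1 (node 2 leaf nil)
    nil)) (node 2 (node 1 (node 1 leaf nil) nil) nil)) nil))) (node 1 (node 2 (node 2 (node 1
    (node 0 leaf nil) (node 0 (node 1 leaf nil) nil)) (node 1 (node 2 (node 0 leaf nil) (node 0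
    (node 2 leaf nil) nil)) (node 0 (node 2 (node 1 leaf nil) (node 1 (node 2 leaf nil) nil))
    nil))) (node 1 (node 2 (node 2 (node 0 leaf nil) (node 0 (node 2 leaf nil) nil)) (node 0
    (node 2 (node 2 leaf nil) nil) nil)) (node 0 (node 2 (node 2 (node 1 leaf nil) (node 1 (node
    2 leaf nil) nil)) (node 1 (node 2 (node 2 leaf nil) nil) nil)) nil))) (node 0 (node 2 (node 1
    (node 2 (node 1 leaf nil) (node 1 (node 2 leaf nil) nil)) (node 2 (node 1 (node 1 leaf nil)
    nil) nil)) (node 1 (node 2 (node 2 (node 1 leaf nil) (node 1 (node 2 leaf nil) nil)) (node 1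
    (node 2 (node 2 leaf nil) nil) nil)) nil)) nil))) (node 1 (node 2 (node 2 (node 2 (node 1
    (node 0 leaf nil) (node 0 (node 1 leaf nil) nil)) (node 1 (node 2 (node 0 leaf nil) (node 0
    (node 2 leaf nil) nil)) (node 0 (node 2 (node 1 leaf nil) (node 1 (node 2 leaf nil) nil))
    nil))) (node 1 (node 2 (node 2 (node 0 leaf nil) (node 0 (node 2 leaf nil) nil)) (node 0
    (node 2 (node 2 leaf nil) nil) nil)) (node 0 (node 2 (node 2 (node 1 leaf nil) (node 1 (node
    2 leaf nil) nil)) (node 1 (node 2 (node 2 leaf nil) nil) nil)) nil))) (node 1 (node 2 (node 2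
    (node 2 (node 0 leaf nil) (node 0 (node 2 leaf nil) nil)) (node 0 (node 2 (node 2 leaf nil)
    nil) nil)) (node 1 (node 1 (node 3 (node 1 leaf nil) (node 1 (node 3 leaf nil) nil)) (node 3
    (node 1 (node 1 leaf nil) nil) nil)) (node 3 (node 1 (node 1 (node 1 leaf nil) nil) nil)
    (node 0 (node 2 (node 2 (node 2 leaf nil) nil) nil) nil)))) (node 0 (node 2 (node 2 (node 2
    (node 1 leaf nil) (node 1 (node 2 leaf nil) nil)) (node 1 (node 2 (node 2 leaf nil) nil)
    nil)) (node 1 (node 2 (node 2 (node 2 leaf nil) nil) nil) nil)) (node 3 (node 1 (node 1 (node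
    1 (node 1 leaf nil) nil) nil) nil) nil)))) (node 0 (node 2 (node 2 (node 1 (node 2 (node 1
    leaf nil) (node 1 (node 2 leaf nil) nil)) (node 2 (node 1 (node 1 leaf nil) nil) nil)) (node
    1 (node 2 (node 2 (node 1 leaf nil) (node 1 (node 2 leaf nil) nil)) (node 1 (node 2 (node 2
    leaf nil) nil) nil)) nil)) (node 1 (node 2 (node 2 (node 2 (node 1 leaf nil) (node 1 (node 2
    leaf nil) nil)) (node 1 (node 2 (node 2 leaf nil) nil) nil)) (node 1 (node 2 (node 2 (node 2
    leaf nil) nil) nil) nil)) nil)) (node 3 (node 1 (node 1 (node 1 (node 1 (node 1 leaf nil)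
    nil) nil) nil) nil) nil)))) (node 1 (node 2 (node 2 (node 2 (node 2 (node 1 (node 0 leaf nil)
    (node 0 (node 1 leaf nil) nil)) (node 1 (node 2 (node 0 leaf nil) (node 0 (node 2 leaf nil)
    nil)) (node 0 (node 2 (node 1 leaf nil) (node 1 (node 2 leaf nil) nil)) nil))) (node 1 (node
    2 (node 2 (node 0 leaf nil) (node 0 (node 2 leaf nil) nil)) (node 0 (node 2 (node 2 leaf nil)
    nil) nil)) (node 0 (node 2 (node 2 (node 1 leaf nil) (node 1 (node 2 leaf nil) nil)) (node 1
    (node 2 (node 2 leaf nil) nil) nil)) nil))) (node 1 (node 2 (node 2 (node 2 (node 0 leaf nil)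
    (node 0 (node 2 leaf nil) nil)) (node 0 (node 2 (node 2 leaf nil) nil) nil)) (node 1 (node 1
    (node 3 (node 1 leaf nil) (node 1 (node 3 leaf nil) nil)) (node 3 (node 1 (node 1 leaf nil)
    nil) nil)) (node 3 (node 1 (node 1 (node 1 leaf nil) nil) nil) (node 0 (node 2 (node 2 (node
    2 leaf nil) nil) nil) nil)))) (node 0 (node 2 (node 2 (node 2 (node 1 leaf nil) (node 1 (node
    2 leaf nil) nil)) (node 1 (node 2 (node 2 leaf nil) nil) nil)) (node 1 (node 2 (node 2 (node
    2 leaf nil) nil) nil) nil)) (node 3 (node 1 (node 1 (node 1 (node 1 leaf nil) nil) nil) nil)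
    nil)))) (node 1 (node 1 (node 1 (node 3 (node 2 (node 1 leaf nil) (node 1 (node 2 leaf nil)
    nil)) (node 2 (node 3 (node 1 leaf nil) (node 1 (node 3 leaf nil) nil)) (node 1 (node 3 (node
    2 leaf nil) (node 2 (node 3 leaf nil) nil)) nil))) (node 3 (node 1 (node 2 (node 1 leaf nil)
    (node 1 (node 2 leaf nil) nil)) (node 2 (node 1 (node 1 leaf nil) nil) nil)) (node 2 (node 1
    (node 3 (node 1 leaf nil) (node 1 (node 3 leaf nil) nil)) (node 3 (node 1 (node 1 leaf nil)
    nil) nil)) nil))) (node 2 (node 2 (node 2 (node 2 (node 0 leaf nil) (node 0 (node 2 leaf nil)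
    nil)) (node 0 (node 2 (node 2 leaf nil) nil) nil)) (node 1 (node 1 (node 3 (node 1 leaf nil)
    (node 1 (node 3 leaf nil) nil)) (node 3 (node 1 (node 1 leaf nil) nil) nil)) (node 3 (node 1
    (node 1 (node 1 leaf nil) nil) nil) (node 0 (node 2 (node 2 (node 2 leaf nil) nil) nil)
    nil)))) (node 3 (node 1 (node 1 (node 2 (node 1 leaf nil) (node 1 (node 2 leaf nil) nil))
    (node 2 (node 1 (node 1 leaf nil) nil) nil)) (node 2 (node 1 (node 1 (node 1 leaf nil) nil)
    nil) nil)) (node 0 (node 2 (node 2 (node 2 (node 2 leaf nil) nil) nil) nil) nil)))) (node 3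
    (node 1 (node 1 (node 1 (node 2 (node 1 leaf nil) (node 1 (node 2 leaf nil) nil)) (node 2
    (node 1 (node 1 leaf nil) nil) nil)) (node 2 (node 1 (node 1 (node 1 leaf nil) nil) nil)
    nil)) (node 2 (node 1 (node 1 (node 1 (node 1 leaf nil) nil) nil) nil) nil)) (node 0 (node 2
    (node 2 (node 2 (node 2 (node 1 leaf nil) (node 1 (node 2 leaf nil) nil)) (node 1 (node 2
    (node 2 leaf nil) nil) nil)) (node 1 (node 2 (node 2 (node 2 leaf nil) nil) nil) nil)) (node
    1 (node 2 (node 2 (node 2 (node 2 leaf nil) nil) nil) nil) nil)) nil)))) (node 0 (node 2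
    (node 2 (node 2 (node 1 (node 2 (node 1 leaf nil) (node 1 (node 2 leaf nil) nil)) (node 2
    (node 1 (node 1 leaf nil) nil) nil)) (node 1 (node 2 (node 2 (node 1 leaf nil) (node 1 (node
    2 leaf nil) nil)) (node 1 (node 2 (node 2 leaf nil) nil) nil)) nil)) (node 1 (node 2 (node 2
    (node 2 (node 1 leaf nil) (node 1 (node 2 leaf nil) nil)) (node 1 (node 2 (node 2 leaf nil)
    nil) nil)) (node 1 (node 2 (node 2 (node 2 leaf nil) nil) nil) nil)) nil)) (node 1 (node 2
    (node 2 (node 2 (node 2 (node 1 leaf nil) (node 1 (node 2 leaf nil) nil)) (node 1 (node 2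
    (node 2 leaf nil) nil) nil)) (node 1 (node 2 (node 2 (node 2 leaf nil) nil) nil) nil)) (node
    1 (node 2 (node 2 (node 2 (node 2 leaf nil) nil) nil) nil) nil)) nil)) (node 3 (node 1 (node
    1 (node 1 (node 1 (node 2 (node 1 leaf nil) (node 1 (node 2 leaf nil) nil)) (node 2 (node 1
    (node 1 leaf nil) nil) nil)) (node 2 (node 1 (node 1 (node 1 leaf nil) nil) nil) nil)) (node
    2 (node 1 (node 1 (node 1 (node 1 leaf nil) nil) nil) nil) nil)) (node 2 (node 1 (node 1
    (node 1 (node 1 (node 1 leaf nil) nil) nil) nil) nil) nil)) nil)))) (node 0 (node 2 (node 2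
    (node 1 (node 2 (node 1 (node 2 (node 1 leaf nil) (node 1 (node 2 leaf nil) nil)) (node 2
    (node 1 (node 1 leaf nil) nil) nil)) (node 1 (node 2 (node 2 (node 1 leaf nil) (node 1 (node
    2 leaf nil) nil)) (node 1 (node 2 (node 2 leaf nil) nil) nil)) nil)) (node 2 (node 1 (node 1
    (node 2 (node 1 leaf nil) (node 1 (node 2 leaf nil) nil)) (node 2 (node 1 (node 1 leaf nil)
    nil) nil)) (node 2 (node 1 (node 1 (node 1 leaf nil) nil) nil) nil)) nil)) (node 1 (node 2
    (node 2 (node 1 (node 2 (node 1 leaf nil) (node 1 (node 2 leaf nil) nil)) (node 2 (node 1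
    (node 1 leaf nil) nil) nil)) (node 1 (node 2 (node 2 (node 1 leaf nil) (node 1 (node 2 leaf
    nil) nil)) (node 1 (node 2 (node 2 leaf nil) nil) nil)) nil)) (node 1 (node 2 (node 2 (node 2
    (node 1 leaf nil) (node 1 (node 2 leaf nil) nil)) (node 1 (node 2 (node 2 leaf nil) nil)
    nil)) (node 1 (node 2 (node 2 (node 2 leaf nil) nil) nil) nil)) nil)) nil)) (node 1 (node 2
    (node 2 (node 2 (node 1 (node 2 (node 1 leaf nil) (node 1 (node 2 leaf nil) nil)) (node 2
    (node 1 (node 1 leaf nil) nil) nil)) (node 1 (node 2 (node 2 (node 1 leaf nil) (node 1 (node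
    2 leaf nil) nil)) (node 1 (node 2 (node 2 leaf nil) nil) nil)) nil)) (node 1 (node 2 (node 2
    (node 2 (node 1 leaf nil) (node 1 (node 2 leaf nil) nil)) (node 1 (node 2 (node 2 leaf nil)
    nil) nil)) (node 1 (node 2 (node 2 (node 2 leaf nil) nil) nil) nil)) nil)) (node 1 (node 2
    (node 2 (node 2 (node 2 (node 1 leaf nil) (node 1 (node 2 leaf nil) nil)) (node 1 (node 2
    (node 2 leaf nil) nil) nil)) (node 1 (node 2 (node 2 (node 2 leaf nil) nil) nil) nil)) (node
    1 (node 2 (node 2 (node 2 (node 2 leaf nil) nil) nil) nil) nil)) nil)) nil)) (node 3 (node 1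
    (node 1 (node 1 (node 1 (node 1 (node 2 (node 1 leaf nil) (node 1 (node 2 leaf nil) nil))
    (node 2 (node 1 (node 1 leaf nil) nil) nil)) (node 2 (node 1 (node 1 (node 1 leaf nil) nil)
    nil) nil)) (node 2 (node 1 (node 1 (node 1 (node 1 leaf nil) nil) nil) nil) nil)) (node 2
    (node 1 (node 1 (node 1 (node 1 (node 1 leaf nil) nil) nil) nil) nil) nil)) (node 2 (node 1
    (node 1 (node 1 (node 1 (node 1 (node 1 leaf nil) nil) nil) nil) nil) nil) nil)) nil)))

open Tr in
/-- part of the data -/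
def g241Tp3 : Tr :=
    node 1 (node 1 (node 2 (node 1 (node 0 (node 2 (node 1 (node 0 leaf nil) (node 0 (node 1 leaf
    nil) nil)) (node 1 (node 2 (node 0 leaf nil) (node 0 (node 2 leaf nil) nil)) (node 0 (node 2
    (node 1 leaf nil) (node 1 (node 2 leaf nil) nil)) nil))) (node 2 (node 0 (node 1 (node 0 leaf
    nil) (node 0 (node 1 leaf nil) nil)) (node 1 (node 0 (node 0 leaf nil) nil) nil)) (node 1
    (node 0 (node 2 (node 0 leaf nil) (node 0 (node 2 leaf nil) nil)) (node 2 (node 0 (node 0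
    leaf nil) nil) nil)) nil))) (node 0 (node 1 (node 2 (node 1 (node 0 leaf nil) (node 0 (node 1
    leaf nil) nil)) (node 1 (node 2 (node 0 leaf nil) (node 0 (node 2 leaf nil) nil)) (node 0
    (node 2 (node 1 leaf nil) (node 1 (node 2 leaf nil) nil)) nil))) (node 2 (node 1 (node 1
    (node 0 leaf nil) (node 0 (node 1 leaf nil) nil)) (node 0 (node 1 (node 1 leaf nil) nil)
    nil)) (node 0 (node 1 (node 2 (node 1 leaf nil) (node 1 (node 2 leaf nil) nil)) (node 2 (node
    1 (node 1 leaf nil) nil) nil)) nil))) (node 2 (node 1 (node 0 (node 1 (node 0 leaf nil) (node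
    0 (node 1 leaf nil) nil)) (node 1 (node 0 (node 0 leaf nil) nil) nil)) (node 0 (node 1 (node
    1 (node 0 leaf nil) (node 0 (node 1 leaf nil) nil)) (node 0 (node 1 (node 1 leaf nil) nil)
    nil)) nil)) nil))) (node 1 (node 2 (node 0 (node 2 (node 1 (node 0 leaf nil) (node 0 (node 1
    leaf nil) nil)) (node 1 (node 2 (node 0 leaf nil) (node 0 (node 2 leaf nil) nil)) (node 0
    (node 2 (node 1 leaf nil) (node 1 (node 2 leaf nil) nil)) nil))) (node 2 (node 0 (node 1
    (node 0 leaf nil) (node 0 (node 1 leaf nil) nil)) (node 1 (node 0 (node 0 leaf nil) nil)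
    nil)) (node 1 (node 0 (node 2 (node 0 leaf nil) (node 0 (node 2 leaf nil) nil)) (node 2 (node
    0 (node 0 leaf nil) nil) nil)) nil))) (node 0 (node 2 (node 2 (node 1 (node 0 leaf nil) (node
    0 (node 1 leaf nil) nil)) (node 1 (node 2 (node 0 leaf nil) (node 0 (node 2 leaf nil) nil))
    (node 0 (node 2 (node 1 leaf nil) (node 1 (node 2 leaf nil) nil)) nil))) (node 1 (node 2
    (node 2 (node 0 leaf nil) (node 0 (node 2 leaf nil) nil)) (node 0 (node 2 (node 2 leaf nil)
    nil) nil)) (node 0 (node 2 (node 2 (node 1 leaf nil) (node 1 (node 2 leaf nil) nil)) (node 1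
    (node 2 (node 2 leaf nil) nil) nil)) nil))) (node 1 (node 2 (node 0 (node 2 (node 0 leaf nil)
    (node 0 (node 2 leaf nil) nil)) (node 2 (node 0 (node 0 leaf nil) nil) nil)) (node 0 (node 2
    (node 2 (node 0 leaf nil) (node 0 (node 2 leaf nil) nil)) (node 0 (node 2 (node 2 leaf nil)
    nil) nil)) nil)) nil))) (node 0 (node 2 (node 1 (node 2 (node 1 (node 0 leaf nil) (node 0
    (node 1 leaf nil) nil)) (node 1 (node 2 (node 0 leaf nil) (node 0 (node 2 leaf nil) nil))
    (node 0 (node 2 (node 1 leaf nil) (node 1 (node 2 leaf nil) nil)) nil))) (node 2 (node 1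
    (node 1 (node 0 leaf nil) (node 0 (node 1 leaf nil) nil)) (node 0 (node 1 (node 1 leaf nil)
    nil) nil)) (node 0 (node 1 (node 2 (node 1 leaf nil) (node 1 (node 2 leaf nil) nil)) (node 2
    (node 1 (node 1 leaf nil) nil) nil)) nil))) (node 1 (node 2 (node 2 (node 1 (node 0 leaf nil)
    (node 0 (node 1 leaf nil) nil)) (node 1 (node 2 (node 0 leaf nil) (node 0 (node 2 leaf nil)
    nil)) (node 0 (node 2 (node 1 leaf nil) (node 1 (node 2 leaf nil) nil)) nil))) (node 1 (node
    2 (node 2 (node 0 leaf nil) (node 0 (node 2 leaf nil) nil)) (node 0 (node 2 (node 2 leaf nil)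
    nil) nil)) (node 0 (node 2 (node 2 (node 1 leaf nil) (node 1 (node 2 leaf nil) nil)) (node 1
    (node 2 (node 2 leaf nil) nil) nil)) nil))) (node 0 (node 2 (node 1 (node 2 (node 1 leaf nil)
    (node 1 (node 2 leaf nil) nil)) (node 2 (node 1 (node 1 leaf nil) nil) nil)) (node 1 (node 2
    (node 2 (node 1 leaf nil) (node 1 (node 2 leaf nil) nil)) (node 1 (node 2 (node 2 leaf nil)
    nil) nil)) nil)) nil))) nil))) (node 2 (node 1 (node 1 (node 0 (node 2 (node 1 (node 0 leaf
    nil) (node 0 (node 1 leaf nil) nil)) (node 1 (node 2 (node 0 leaf nil) (node 0 (node 2 leaf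
    nil) nil)) (node 0 (node 2 (node 1 leaf nil) (node 1 (node 2 leaf nil) nil)) nil))) (node 2
    (node 0 (node 1 (node 0 leaf nil) (node 0 (node 1 leaf nil) nil)) (node 1 (node 0 (node 0
    leaf nil) nil) nil)) (node 1 (node 0 (node 2 (node 0 leaf nil) (node 0 (node 2 leaf nil)
    nil)) (node 2 (node 0 (node 0 leaf nil) nil) nil)) nil))) (node 0 (node 1 (node 2 (node 1
    (node 0 leaf nil) (node 0 (node 1 leaf nil) nil)) (node 1 (node 2 (node 0 leaf nil) (node 0
    (node 2 leaf nil) nil)) (node 0 (node 2 (node 1 leaf nil) (node 1 (node 2 leaf nil) nil))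
    nil))) (node 2 (node 1 (node 1 (node 0 leaf nil) (node 0 (node 1 leaf nil) nil)) (node 0
    (node 1 (node 1 leaf nil) nil) nil)) (node 0 (node 1 (node 2 (node 1 leaf nil) (node 1 (node
    2 leaf nil) nil)) (node 2 (node 1 (node 1 leaf nil) nil) nil)) nil))) (node 2 (node 1 (node 0
    (node 1 (node 0 leaf nil) (node 0 (node 1 leaf nil) nil)) (node 1 (node 0 (node 0 leaf nil)
    nil) nil)) (node 0 (node 1 (node 1 (node 0 leaf nil) (node 0 (node 1 leaf nil) nil)) (node 0
    (node 1 (node 1 leaf nil) nil) nil)) nil)) nil))) (node 0 (node 1 (node 1 (node 2 (node 1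
    (node 0 leaf nil) (node 0 (node 1 leaf nil) nil)) (node 1 (node 2 (node 0 leaf nil) (node 0
    (node 2 leaf nil) nil)) (node 0 (node 2 (node 1 leaf nil) (node 1 (node 2 leaf nil) nil))
    nil))) (node 2 (node 1 (node 1 (node 0 leaf nil) (node 0 (node 1 leaf nil) nil)) (node 0
    (node 1 (node 1 leaf nil) nil) nil)) (node 0 (node 1 (node 2 (node 1 leaf nil) (node 1 (node
    2 leaf nil) nil)) (node 2 (node 1 (node 1 leaf nil) nil) nil)) nil))) (node 2 (node 1 (node 1
    (node 1 (node 0 leaf nil) (node 0 (node 1 leaf nil) nil)) (node 0 (node 1 (node 1 leaf nil)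
    nil) nil)) (node 0 (node 1 (node 1 (node 1 leaf nil) nil) nil) nil)) (node 0 (node 1 (node 1
    (node 2 (node 1 leaf nil) (node 1 (node 2 leaf nil) nil)) (node 2 (node 1 (node 1 leaf nil)
    nil) nil)) (node 2 (node 1 (node 1 (node 1 leaf nil) nil) nil) nil)) nil))) (node 2 (node 1
    (node 1 (node 0 (node 1 (node 0 leaf nil) (node 0 (node 1 leaf nil) nil)) (node 1 (node 0
    (node 0 leaf nil) nil) nil)) (node 0 (node 1 (node 1 (node 0 leaf nil) (node 0 (node 1 leaf
    nil) nil)) (node 0 (node 1 (node 1 leaf nil) nil) nil)) nil)) (node 0 (node 1 (node 1 (node 1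
    (node 0 leaf nil) (node 0 (node 1 leaf nil) nil)) (node 0 (node 1 (node 1 leaf nil) nil)
    nil)) (node 0 (node 1 (node 1 (node 1 leaf nil) nil) nil) nil)) nil)) nil))) (node 0 (node 1
    (node 2 (node 1 (node 2 (node 1 (node 0 leaf nil) (node 0 (node 1 leaf nil) nil)) (node 1
    (node 2 (node 0 leaf nil) (node 0 (node 2 leaf nil) nil)) (node 0 (node 2 (node 1 leaf nil)
    (node 1 (node 2 leaf nil) nil)) nil))) (node 2 (node 1 (node 1 (node 0 leaf nil) (node 0
    (node 1 leaf nil) nil)) (node 0 (node 1 (node 1 leaf nil) nil) nil)) (node 0 (node 1 (node 2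
    (node 1 leaf nil) (node 1 (node 2 leaf nil) nil)) (node 2 (node 1 (node 1 leaf nil) nil)
    nil)) nil))) (node 1 (node 2 (node 2 (node 1 (node 0 leaf nil) (node 0 (node 1 leaf nil)
    nil)) (node 1 (node 2 (node 0 leaf nil) (node 0 (node 2 leaf nil) nil)) (node 0 (node 2 (node
    1 leaf nil) (node 1 (node 2 leaf nil) nil)) nil))) (node 1 (node 2 (node 2 (node 0 leaf nil)
    (node 0 (node 2 leaf nil) nil)) (node 0 (node 2 (node 2 leaf nil) nil) nil)) (node 0 (node 2
    (node 2 (node 1 leaf nil) (node 1 (node 2 leaf nil) nil)) (node 1 (node 2 (node 2 leaf nil)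
    nil) nil)) nil))) (node 0 (node 2 (node 1 (node 2 (node 1 leaf nil) (node 1 (node 2 leaf nil)
    nil)) (node 2 (node 1 (node 1 leaf nil) nil) nil)) (node 1 (node 2 (node 2 (node 1 leaf nil)
    (node 1 (node 2 leaf nil) nil)) (node 1 (node 2 (node 2 leaf nil) nil) nil)) nil)) nil)))
    (node 2 (node 1 (node 1 (node 2 (node 1 (node 0 leaf nil) (node 0 (node 1 leaf nil) nil))
    (node 1 (node 2 (node 0 leaf nil) (node 0 (node 2 leaf nil) nil)) (node 0 (node 2 (node 1
    leaf nil) (node 1 (node 2 leaf nil) nil)) nil))) (node 2 (node 1 (node 1 (node 0 leaf nil)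
    (node 0 (node 1 leaf nil) nil)) (node 0 (node 1 (node 1 leaf nil) nil) nil)) (node 0 (node 1
    (node 2 (node 1 leaf nil) (node 1 (node 2 leaf nil) nil)) (node 2 (node 1 (node 1 leaf nil)
    nil) nil)) nil))) (node 2 (node 1 (node 1 (node 1 (node 0 leaf nil) (node 0 (node 1 leaf nil)
    nil)) (node 0 (node 1 (node 1 leaf nil) nil) nil)) (node 0 (node 1 (node 1 (node 1 leaf nil)
    nil) nil) nil)) (node 0 (node 1 (node 1 (node 2 (node 1 leaf nil) (node 1 (node 2 leaf nil)
    nil)) (node 2 (node 1 (node 1 leaf nil) nil) nil)) (node 2 (node 1 (node 1 (node 1 leaf nil)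
    nil) nil) nil)) nil))) (node 0 (node 1 (node 2 (node 1 (node 2 (node 1 leaf nil) (node 1
    (node 2 leaf nil) nil)) (node 2 (node 1 (node 1 leaf nil) nil) nil)) (node 1 (node 2 (node 2
    (node 1 leaf nil) (node 1 (node 2 leaf nil) nil)) (node 1 (node 2 (node 2 leaf nil) nil)
    nil)) nil)) (node 2 (node 1 (node 1 (node 2 (node 1 leaf nil) (node 1 (node 2 leaf nil) nil))
    (node 2 (node 1 (node 1 leaf nil) nil) nil)) (node 2 (node 1 (node 1 (node 1 leaf nil) nil)
    nil) nil)) nil)) nil))) nil))) (node 2 (node 1 (node 1 (node 1 (node 0 (node 2 (node 1 (node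
    0 leaf nil) (node 0 (node 1 leaf nil) nil)) (node 1 (node 2 (node 0 leaf nil) (node 0 (node 2
    leaf nil) nil)) (node 0 (node 2 (node 1 leaf nil) (node 1 (node 2 leaf nil) nil)) nil)))
    (node 2 (node 0 (node 1 (node 0 leaf nil) (node 0 (node 1 leaf nil) nil)) (node 1 (node 0
    (node 0 leaf nil) nil) nil)) (node 1 (node 0 (node 2 (node 0 leaf nil) (node 0 (node 2 leaf
    nil) nil)) (node 2 (node 0 (node 0 leaf nil) nil) nil)) nil))) (node 0 (node 1 (node 2 (node
    1 (node 0 leaf nil) (node 0 (node 1 leaf nil) nil)) (node 1 (node 2 (node 0 leaf nil) (node 0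
    (node 2 leaf nil) nil)) (node 0 (node 2 (node 1 leaf nil) (node 1 (node 2 leaf nil) nil))
    nil))) (node 2 (node 1 (node 1 (node 0 leaf nil) (node 0 (node 1 leaf nil) nil)) (node 0
    (node 1 (node 1 leaf nil) nil) nil)) (node 0 (node 1 (node 2 (node 1 leaf nil) (node 1 (node
    2 leaf nil) nil)) (node 2 (node 1 (node 1 leaf nil) nil) nil)) nil))) (node 2 (node 1 (node 0
    (node 1 (node 0 leaf nil) (node 0 (node 1 leaf nil) nil)) (node 1 (node 0 (node 0 leaf nil)
    nil) nil)) (node 0 (node 1 (node 1 (node 0 leaf nil) (node 0 (node 1 leaf nil) nil)) (node 0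
    (node 1 (node 1 leaf nil) nil) nil)) nil)) nil))) (node 0 (node 1 (node 1 (node 2 (node 1
    (node 0 leaf nil) (node 0 (node 1 leaf nil) nil)) (node 1 (node 2 (node 0 leaf nil) (node 0
    (node 2 leaf nil) nil)) (node 0 (node 2 (node 1 leaf nil) (node 1 (node 2 leaf nil) nil))
    nil))) (node 2 (node 1 (node 1 (node 0 leaf nil) (node 0 (node 1 leaf nil) nil)) (node 0
    (node 1 (node 1 leaf nil) nil) nil)) (node 0 (node 1 (node 2 (node 1 leaf nil) (node 1 (node
    2 leaf nil) nil)) (node 2 (node 1 (node 1 leaf nil) nil) nil)) nil))) (node 2 (node 1 (node 1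
    (node 1 (node 0 leaf nil) (node 0 (node 1 leaf nil) nil)) (node 0 (node 1 (node 1 leaf nil)
    nil) nil)) (node 0 (node 1 (node 1 (node 1 leaf nil) nil) nil) nil)) (node 0 (node 1 (node 1
    (node 2 (node 1 leaf nil) (node 1 (node 2 leaf nil) nil)) (node 2 (node 1 (node 1 leaf nil)
    nil) nil)) (node 2 (node 1 (node 1 (node 1 leaf nil) nil) nil) nil)) nil))) (node 2 (node 1
    (node 1 (node 0 (node 1 (node 0 leaf nil) (node 0 (node 1 leaf nil) nil)) (node 1 (node 0
    (node 0 leaf nil) nil) nil)) (node 0 (node 1 (node 1 (node 0 leaf nil) (node 0 (node 1 leaf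
    nil) nil)) (node 0 (node 1 (node 1 leaf nil) nil) nil)) nil)) (node 0 (node 1 (node 1 (node 1
    (node 0 leaf nil) (node 0 (node 1 leaf nil) nil)) (node 0 (node 1 (node 1 leaf nil) nil)
    nil)) (node 0 (node 1 (node 1 (node 1 leaf nil) nil) nil) nil)) nil)) nil))) (node 0 (node 1
    (node 1 (node 1 (node 2 (node 1 (node 0 leaf nil) (node 0 (node 1 leaf nil) nil)) (node 1
    (node 2 (node 0 leaf nil) (node 0 (node 2 leaf nil) nil)) (node 0 (node 2 (node 1 leaf nil)
    (node 1 (node 2 leaf nil) nil)) nil))) (node 2 (node 1 (node 1 (node 0 leaf nil) (node 0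
    (node 1 leaf nil) nil)) (node 0 (node 1 (node 1 leaf nil) nil) nil)) (node 0 (node 1 (node 2
    (node 1 leaf nil) (node 1 (node 2 leaf nil) nil)) (node 2 (node 1 (node 1 leaf nil) nil)
    nil)) nil))) (node 2 (node 1 (node 1 (node 1 (node 0 leaf nil) (node 0 (node 1 leaf nil)
    nil)) (node 0 (node 1 (node 1 leaf nil) nil) nil)) (node 0 (node 1 (node 1 (node 1 leaf nil)
    nil) nil) nil)) (node 0 (node 1 (node 1 (node 2 (node 1 leaf nil) (node 1 (node 2 leaf nil)
    nil)) (node 2 (node 1 (node 1 leaf nil) nil) nil)) (node 2 (node 1 (node 1 (node 1 leaf nil)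
    nil) nil) nil)) nil))) (node 2 (node 1 (node 1 (node 1 (node 1 (node 0 leaf nil) (node 0
    (node 1 leaf nil) nil)) (node 0 (node 1 (node 1 leaf nil) nil) nil)) (node 0 (node 1 (node 1
    (node 1 leaf nil) nil) nil) nil)) (node 0 (node 1 (node 1 (node 1 (node 1 leaf nil) nil) nil)
    nil) nil)) (node 0 (node 1 (node 1 (node 1 (node 2 (node 1 leaf nil) (node 1 (node 2 leaf
    nil) nil)) (node 2 (node 1 (node 1 leaf nil) nil) nil)) (node 2 (node 1 (node 1 (node 1 leaf
    nil) nil) nil) nil)) (node 2 (node 1 (node 1 (node 1 (node 1 leaf nil) nil) nil) nil) nil))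
    nil))) (node 2 (node 1 (node 1 (node 1 (node 0 (node 1 (node 0 leaf nil) (node 0 (node 1 leaf
    nil) nil)) (node 1 (node 0 (node 0 leaf nil) nil) nil)) (node 0 (node 1 (node 1 (node 0 leaf
    nil) (node 0 (node 1 leaf nil) nil)) (node 0 (node 1 (node 1 leaf nil) nil) nil)) nil)) (node
    0 (node 1 (node 1 (node 1 (node 0 leaf nil) (node 0 (node 1 leaf nil) nil)) (node 0 (node 1
    (node 1 leaf nil) nil) nil)) (node 0 (node 1 (node 1 (node 1 leaf nil) nil) nil) nil)) nil))
    (node 0 (node 1 (node 1 (node 1 (node 1 (node 0 leaf nil) (node 0 (node 1 leaf nil) nil))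
    (node 0 (node 1 (node 1 leaf nil) nil) nil)) (node 0 (node 1 (node 1 (node 1 leaf nil) nil)
    nil) nil)) (node 0 (node 1 (node 1 (node 1 (node 1 leaf nil) nil) nil) nil) nil)) nil))
    nil))) (node 0 (node 1 (node 1 (node 2 (node 1 (node 2 (node 1 (node 0 leaf nil) (node 0
    (node 1 leaf nil) nil)) (node 1 (node 2 (node 0 leaf nil) (node 0 (node 2 leaf nil) nil))
    (node 0 (node 2 (node 1 leaf nil) (node 1 (node 2 leaf nil) nil)) nil))) (node 2 (node 1
    (node 1 (node 0 leaf nil) (node 0 (node 1 leaf nil) nil)) (node 0 (node 1 (node 1 leaf nil)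
    nil) nil)) (node 0 (node 1 (node 2 (node 1 leaf nil) (node 1 (node 2 leaf nil) nil)) (node 2
    (node 1 (node 1 leaf nil) nil) nil)) nil))) (node 1 (node 2 (node 2 (node 1 (node 0 leaf nil)
    (node 0 (node 1 leaf nil) nil)) (node 1 (node 2 (node 0 leaf nil) (node 0 (node 2 leaf nil)
    nil)) (node 0 (node 2 (node 1 leaf nil) (node 1 (node 2 leaf nil) nil)) nil))) (node 1 (node
    2 (node 2 (node 0 leaf nil) (node 0 (node 2 leaf nil) nil)) (node 0 (node 2 (node 2 leaf nil)
    nil) nil)) (node 0 (node 2 (node 2 (node 1 leaf nil) (node 1 (node 2 leaf nil) nil)) (node 1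
    (node 2 (node 2 leaf nil) nil) nil)) nil))) (node 0 (node 2 (node 1 (node 2 (node 1 leaf nil)
    (node 1 (node 2 leaf nil) nil)) (node 2 (node 1 (node 1 leaf nil) nil) nil)) (node 1 (node 2
    (node 2 (node 1 leaf nil) (node 1 (node 2 leaf nil) nil)) (node 1 (node 2 (node 2 leaf nil)
    nil) nil)) nil)) nil))) (node 2 (node 1 (node 1 (node 2 (node 1 (node 0 leaf nil) (node 0
    (node 1 leaf nil) nil)) (node 1 (node 2 (node 0 leaf nil) (node 0 (node 2 leaf nil) nil))
    (node 0 (node 2 (node 1 leaf nil) (node 1 (node 2 leaf nil) nil)) nil))) (node 2 (node 1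
    (node 1 (node 0 leaf nil) (node 0 (node 1 leaf nil) nil)) (node 0 (node 1 (node 1 leaf nil)
    nil) nil)) (node 0 (node 1 (node 2 (node 1 leaf nil) (node 1 (node 2 leaf nil) nil)) (node 2
    (node 1 (node 1 leaf nil) nil) nil)) nil))) (node 2 (node 1 (node 1 (node 1 (node 0 leaf nil)
    (node 0 (node 1 leaf nil) nil)) (node 0 (node 1 (node 1 leaf nil) nil) nil)) (node 0 (node 1
    (node 1 (node 1 leaf nil) nil) nil) nil)) (node 0 (node 1 (node 1 (node 2 (node 1 leaf nil)
    (node 1 (node 2 leaf nil) nil)) (node 2 (node 1 (node 1 leaf nil) nil) nil)) (node 2 (node 1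
    (node 1 (node 1 leaf nil) nil) nil) nil)) nil))) (node 0 (node 1 (node 2 (node 1 (node 2
    (node 1 leaf nil) (node 1 (node 2 leaf nil) nil)) (node 2 (node 1 (node 1 leaf nil) nil)
    nil)) (node 1 (node 2 (node 2 (node 1 leaf nil) (node 1 (node 2 leaf nil) nil)) (node 1 (node
    2 (node 2 leaf nil) nil) nil)) nil)) (node 2 (node 1 (node 1 (node 2 (node 1 leaf nil) (node
    1 (node 2 leaf nil) nil)) (node 2 (node 1 (node 1 leaf nil) nil) nil)) (node 2 (node 1 (node
    1 (node 1 leaf nil) nil) nil) nil)) nil)) nil))) (node 2 (node 1 (node 1 (node 1 (node 2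
    (node 1 (node 0 leaf nil) (node 0 (node 1 leaf nil) nil)) (node 1 (node 2 (node 0 leaf nil)
    (node 0 (node 2 leaf nil) nil)) (node 0 (node 2 (node 1 leaf nil) (node 1 (node 2 leaf nil)
    nil)) nil))) (node 2 (node 1 (node 1 (node 0 leaf nil) (node 0 (node 1 leaf nil) nil)) (node
    0 (node 1 (node 1 leaf nil) nil) nil)) (node 0 (node 1 (node 2 (node 1 leaf nil) (node 1
    (node 2 leaf nil) nil)) (node 2 (node 1 (node 1 leaf nil) nil) nil)) nil))) (node 2 (node 1
    (node 1 (node 1 (node 0 leaf nil) (node 0 (node 1 leaf nil) nil)) (node 0 (node 1 (node 1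
    leaf nil) nil) nil)) (node 0 (node 1 (node 1 (node 1 leaf nil) nil) nil) nil)) (node 0 (node
    1 (node 1 (node 2 (node 1 leaf nil) (node 1 (node 2 leaf nil) nil)) (node 2 (node 1 (node 1
    leaf nil) nil) nil)) (node 2 (node 1 (node 1 (node 1 leaf nil) nil) nil) nil)) nil))) (node 2
    (node 1 (node 1 (node 1 (node 1 (node 0 leaf nil) (node 0 (node 1 leaf nil) nil)) (node 0
    (node 1 (node 1 leaf nil) nil) nil)) (node 0 (node 1 (node 1 (node 1 leaf nil) nil) nil)
    nil)) (node 0 (node 1 (node 1 (node 1 (node 1 leaf nil) nil) nil) nil) nil)) (node 0 (node 1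
    (node 1 (node 1 (node 2 (node 1 leaf nil) (node 1 (node 2 leaf nil) nil)) (node 2 (node 1
    (node 1 leaf nil) nil) nil)) (node 2 (node 1 (node 1 (node 1 leaf nil) nil) nil) nil)) (node
    2 (node 1 (node 1 (node 1 (node 1 leaf nil) nil) nil) nil) nil)) nil))) (node 0 (node 1 (node
    1 (node 2 (node 1 (node 2 (node 1 leaf nil) (node 1 (node 2 leaf nil) nil)) (node 2 (node 1
    (node 1 leaf nil) nil) nil)) (node 1 (node 2 (node 2 (node 1 leaf nil) (node 1 (node 2 leaf
    nil) nil)) (node 1 (node 2 (node 2 leaf nil) nil) nil)) nil)) (node 2 (node 1 (node 1 (node 2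
    (node 1 leaf nil) (node 1 (node 2 leaf nil) nil)) (node 2 (node 1 (node 1 leaf nil) nil)
    nil)) (node 2 (node 1 (node 1 (node 1 leaf nil) nil) nil) nil)) nil)) (node 2 (node 1 (node 1
    (node 1 (node 2 (node 1 leaf nil) (node 1 (node 2 leaf nil) nil)) (node 2 (node 1 (node 1
    leaf nil) nil) nil)) (node 2 (node 1 (node 1 (node 1 leaf nil) nil) nil) nil)) (node 2 (node
    1 (node 1 (node 1 (node 1 leaf nil) nil) nil) nil) nil)) nil)) nil))) nil))

open Tr in
/-- the 2160 shifted vectors of norm four -/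
def g241T : Tr :=
    node 3 g241Tp3 (node 4 g241Tp4 (node 2 g241Tp2 (node 5 g241Tp5 (node 1 g241Tp1 (node 6
    g241Tp6 (node 0 g241Tp0 (node 7 g241Tp7 (node (-1) g241Tm1 (node 8 g241Tp8 (node (-2) g241Tm2
    nil))))))))))

theorem g241_len : ∀ y ∈ g241T.li, y.length = 8 + 1 := by decide +kernel

theorem g241_inv : ∀ i < 8, ∀ y ∈ g241T.li, g241T.has (gen 8 (fun i => i + 1) i y) = true := by
  intro i hi
  interval_cases i <;> decide +kernel

theorem g241 (s : ℕ) : Attained (5 + s * 7) 8 :=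
  main (L := g241T.li) (d := 8) (a := 4) (by omega) (by omega) (by omega)
    [[3,-1,-1,-1,-1,-1,-1,-1,-1],[7,-3,-2,-2,-2,-2,-2,-2,-2],[11,-4,-4,-3,-3,-3,-3,-3,-3],
    [15,-5,-5,-5,-4,-4,-4,-4,-4],[19,-6,-6,-6,-6,-5,-5,-5,-5],[23,-7,-7,-7,-7,-7,-6,-6,-6],
    [27,-8,-8,-8,-8,-8,-8,-7,-7],[31,-9,-9,-9,-9,-9,-9,-9,-8],[7,-2,-2,-2,-2,-2,-2,-2,-2]]
    [[],[],[],[],[],[12,-4,-4,-4,-4,-3,-3,-3,-3],[9,-3,-3,-3,-3,-3,-2,-2,-2],
    [6,-2,-2,-2,-2,-2,-2,-1,-1],[3,-1,-1,-1,-1,-1,-1,-1,0]]
    (gen 8 fun i => i + 1) [170,-54,-53,-52,-51,-49,-47,-45,-43] g241_len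
    (li_gen g241_len (by omega) fun _ _ _ => by omega) (inv_gen g241_inv)
    (by decide +kernel) (fun c hc => by fin_cases hc <;> decide +kernel) (by decide +kernel)
    (by decide +kernel) ⟨by decide, by decide +kernel, by decide +kernel, by decide +kernel,
      fun j hj => by interval_cases j <;> decide +kernel⟩ s

end Pool.Agent.Lib.Q7.H43
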