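import Pool.Agent.Lib.Q7.Small43c
import Pool.Agent.Lib.Q7.Small43d

/-! All numbers of flag orbits in small dimensions. -/

namespace Pool.Agent.Lib.Q7.H43

open Module Function Finset Pool.Agent.Lib.MP_7157e1_co

/-- the vertices of the cuboctahedron -/
def cuboL : List (List ℤ) := [[1,1,1,0],[1,1,-1,0],[1,-1,1,0],[1,-1,-1,0],[1,1,0,1],[1,1,0,-1],
  [1,-1,0,1],[1,-1,0,-1],[1,0,1,1],[1,0,1,-1],[1,0,-1,1],[1,0,-1,-1]]

open Chk in
theorem cubo (s : ℕ) : Attained (2 + s * 2) 3 :=
  main (L := cuboL) (d := 3) (a := 2) (by omega) (by omega) (by omega)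
    [[1,0,0,0],[2,-1,-1,0],[3,-2,-1,-1],[2,-1,-1,-1]] [[],[],[],[1,-1,0,0]]
    (fun i => ap (([[[1,0,0,0],[0,1,0,0],[0,0,0,1],[0,0,1,0]],
      [[1,0,0,0],[0,0,1,0],[0,1,0,0],[0,0,0,1]], [[1,0,0,0],[0,1,0,0],[0,0,1,0],[0,0,0,-1]]] :
        List (List (List ℤ))).getD i [])) [5,-3,-2,-1] (by decide +kernel)
    (fun _ _ => li_ap (by decide +kernel) _) (by decide +kernel) (by decide +kernel)
    (by decide +kernel) (by decide +kernel) (by decide +kernel) (by decide +kernel) s

/-- towers over a single facet of the cross-polytope -/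
theorem cross1 {d s : ℕ} (hd : 3 ≤ d) (hs : 1 ≤ s) : Attained (2 ^ d + s * (d - 1)) d := by
  have hi : ∀ y : Fin d → ZMod 2, Injective fun j => (j, y j) := fun y _ _ e => congrArg Prod.fst e
  have hn : ∀ y : Fin d → ZMod 2, Set.range (fun j => (j, y j)) ≠ Set.univ := fun y e => by
    obtain ⟨l, e⟩ := e.ge (Set.mem_univ (⟨0, by omega⟩, y ⟨0, by omega⟩ + 1))
    obtain ⟨rfl, e⟩ := Prod.mk.inj e
    exact z2_ne.2 rfl e.symm
  have hc : ∀ y : Fin d → ZMod 2, cr (EX d) (Set.range fun j => (j, y j)) = 1 := fun y =>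
    max_fac (EX_sub y subset_rfl) (hn y) fun H h1 h2 h3 => by
      obtain ⟨y', h4⟩ := EX_cov h1 h3
      rwa [gr_inj (h2.trans h4)]
  have hp : IsF (EX d) ∅ := EX_sub 0 (Set.empty_subset _)
  have rk := rk_of (hi 0) (fun S => EX_sub 0) (hc 0)
  let T : Tw d (Fin d × ZMod 2) Unit (Equiv.Perm (Fin d)) :=
    ⟨EX d, fun _ j => (j, 0), fun γ => γ.prodCongr (Equiv.refl _), fun _ => 1, fun γ _ => γ, hp, rk,
      fun _ => hi 0, fun _ => EX_sub 0 subset_rfl, fun _ => hc 0, fun _ _ _ => rfl,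
      fun γ f ⟨c, h⟩ => ⟨c, fun j t => h (γ j) t⟩, fun _ _ _ => rfl,
      fun γ δ e => Equiv.ext fun j =>
        congrArg (fun π : Equiv.Perm (Fin d × ZMod 2) => (π (j, 0)).1) e, fun ⟨j, t⟩ _ => by
      refine ⟨EX_sub (fun _ => t) (Set.singleton_subset_iff.2 ⟨j, rfl⟩), ?_⟩
      let g : ({k // k ≠ j} → ZMod 2) → Fin d → ZMod 2 := fun z l => if h : l = j then t else z ⟨l, h⟩
      have h1 : Injective fun z => Set.range fun l => (l, g z l) := fun z w e => funext fun l => by
        simpa [g, l.2] using congrFun (gr_inj e.le) l.1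
      have h3 := Set.ncard_le_ncard (s := Set.range fun z => Set.range fun l => (l, g z l))
        (t := {H | IsF (EX d) H ∧ cr (EX d) H = 1 ∧ {(j, t)} ⊆ H}) (by
          rintro _ ⟨z, rfl⟩
          exact ⟨EX_sub _ subset_rfl, hc _, Set.singleton_subset_iff.2 ⟨j, by simp [g]⟩⟩)
        (Set.toFinite _)
      rw [Set.ncard_range_of_injective h1, Nat.card_eq_fintype_card, Fintype.card_fun, ZMod.card,
        Fintype.card_subtype_compl, Fintype.card_fin, Fintype.card_subtype_eq] at h3
      refine lt_of_lt_of_le ?_ h3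
      obtain ⟨e, rfl⟩ : ∃ e, d = e + 3 := ⟨d - 3, by omega⟩
      have := Nat.lt_two_pow_self (n := e)
      rw [show e + 3 - 1 = e + 2 from rfl, pow_add]
      omega⟩
  have hΓ : Nat.card (Equiv.Perm (Fin d)) = d.factorial := by
    rw [Nat.card_eq_fintype_card, Fintype.card_perm, Fintype.card_fin]
  have := tower hd () (hΓ.trans (one_mul _).symm) ((s - 1) / 2) _ T (2 ^ d) (by
    change Nat.card (Fl (EX d) d) = _
    rw [card_sum hp rk (fun y : Fin d → ZMod 2 => ⟨_, EX_sub y subset_rfl⟩)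
      (fun _ _ e => gr_inj (congrArg Subtype.val e).le) fun H => ⟨fun h => ?_, ?_⟩,
      sum_congr rfl fun y _ => nc_range (hi y) _ rfl fun S => EX_sub y, hΓ, sum_const,
      card_univ, Fintype.card_fun, ZMod.card, Fintype.card_fin, smul_eq_mul]
    · obtain ⟨y, hy⟩ := EX_cov H.2 (ne_univ h.ge)
      exact ⟨y, Subtype.ext (fac_max H.2 h (EX_sub y subset_rfl) hy (hn y)).symm⟩
    · rintro ⟨y, rfl⟩
      exact hc y)
  rcases (show s = 2 * ((s - 1) / 2) + 1 ∨ s = 2 * ((s - 1) / 2) + 2 by omega) with e | e <;> rw [e]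
  exacts [this.1, this.2]

theorem one (d : ℕ) : Attained 1 d := by
  classical
  have hF : ∀ S : Set (Fin (d + 1)), IsF ⊤ S := fun S =>
    ⟨fun i => if i ∈ S then 0 else 1, trivial, fun i => by dsimp only; split_ifs <;> norm_num,
      fun i => by simp⟩
  have rk : finrank ℝ (⊤ : Submodule ℝ (Fin (d + 1) → ℝ)) = d + 1 := by simp
  have c : Nat.card (Fl (⊤ : Submodule ℝ (Fin (d + 1) → ℝ)) d) =
      Nat.card (Equiv.Perm (Fin (d + 1))) := by
    rw [card_fl (hF _) rk, nc_range injective_id _ Set.range_id.symm fun S _ => hF S,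
      Nat.card_eq_fintype_card, Fintype.card_perm]
  have k := k_mul (hF _) rk Set.univ (Fl.nonempty (hF _) rk).some (fun _ => trivial)
    (fun π : Equiv.Perm (Fin (d + 1)) => permIso π fun _ _ => trivial)
    (fun _ _ h => permIso_inj (fun _ => hF _) h) (by rw [Set.ncard_univ, c])
  rw [c] at k
  exact (mul_eq_right₀ Nat.card_pos.ne').1 k ▸ attained_sub (hF _) rk

/-- existence in dimensions three to eight -/
theorem small {k d : ℕ} (h3 : 3 ≤ d) (h8 : d ≤ 8) (hk : 1 ≤ k) (h2 : k = 2 → d = 3)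
    (h : d = 8 → k % 7 = 4 → 256 < k) : Attained k d := by
  by_cases h1 : k = 1
  · exact h1 ▸ one d
  have key : ∀ {c m}, (∀ s, Attained (c + s * m) d) → c ≤ k → (k - c) % m = 0 → Attained k d :=
    fun {c m} a b e => by
      have := a ((k - c) / m)
      rwa [Nat.div_mul_cancel (Nat.dvd_of_mod_eq_zero e), Nat.add_sub_cancel' b] at this
  have key1 : ∀ {c}, (∀ s, 1 ≤ s → Attained (c + s * (d - 1)) d) → c + (d - 1) ≤ k →
      (k - (c + (d - 1))) % (d - 1) = 0 → Attained k d := fun {c} a =>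
    key fun s => by
      have := a (s + 1) (by omega)
      rwa [add_mul, one_mul, add_comm (s * _), ← add_assoc] at this
  have k1 := key1 fun s => simplex (s := s) h3
  have k2 := key1 fun s => cross (s := s) h3
  have k3 := key1 fun s => hyper (s := s) h3
  obtain rfl | rfl | rfl | rfl | rfl | rfl :
    d = 3 ∨ d = 4 ∨ d = 5 ∨ d = 6 ∨ d = 7 ∨ d = 8 := by omega
  · by_cases e : k % 2 = 0
    · exact key cubo (by omega) (by omega)
    · exact k1 (by omega) (by omega)
  · by_cases e : k = 3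
    · exact e ▸ hypersimplex (d := 4) le_rfl
    obtain e1 | e1 | e1 : k % 3 = 1 ∨ k % 3 = 2 ∨ k % 3 = 0 := by omega
    exacts [k1 (by omega) (by omega), k2 (by omega) (by omega), k3 (by omega) (by omega)]
  · exact exist le_rfl (by omega) (by omega)
  · by_cases e : k % 5 = 3
    · exact key g221 (by omega) (by omega)
    · exact exist (by omega) (by omega) (by omega)
  · by_cases e : k % 6 = 3
    · exact key g321 (by omega) (by omega)
    by_cases e1 : k % 6 = 4
    · exact key g231 (by omega) (by omega)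
    · exact exist (by omega) (by omega) (by omega)
  · have := h rfl
    by_cases e : k % 7 = 3
    · exact key g421 (by omega) (by omega)
    by_cases e1 : k % 7 = 5
    · exact key g241 (by omega) (by omega)
    by_cases e2 : k % 7 = 4
    · exact key1 (fun s => cross1 (s := s) h3) (by omega) (by omega)
    · exact exist (by omega) (by omega) (by omega)

end Pool.Agent.Lib.Q7.H43
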