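import Pool.Agent.Lib.Q7.Exist43

/-! Towers over polytopes with two standard chains of faces. -/

namespace Pool.Agent.Lib.Q7.H43

open Module Function Finset Pool.Agent.Lib.MP_7157e1_co

variable {ι : Type} [Fintype ι] {E : Submodule ℝ (ι → ℝ)} {d : ℕ}

/-- linear symmetries -/
abbrev Lin (E : Submodule ℝ (ι → ℝ)) : Type := {π : Equiv.Perm ι // ∀ f ∈ E, f ∘ π ∈ E}

/-- the action of a linear symmetry on flags -/
def la (π : Lin E) (Φ : Fl E d) : Fl E d := Fl.act (permIso π.1 π.2) Φ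

theorem la_val (π : Lin E) (Φ : Fl E d) (j : ℕ) : (la π Φ).1 j = π.1 ⁻¹' Φ.1 j := rfl

theorem la_r (π : Lin E) (i : ℕ) (Φ : Fl E d) : la π (Fl.r i Φ) = Fl.r i (la π Φ) :=
  Fl.act_r _ i Φ

theorem la_la (π ρ : Lin E) (Φ : Fl E d) : ∃ τ : Lin E, la τ Φ = la π (la ρ Φ) :=
  ⟨⟨ρ.1 * π.1, fun f hf => π.2 _ (ρ.2 f hf)⟩, rfl⟩

theorem ex_orbit (hpos : IsF E ∅) (hle : finrank ℝ E ≤ d + 1) {a : ℕ} (ha : a < d)
    (A B : ℕ → Set ι) (fA : ∀ j, IsF E (A j)) (fB : ∀ j, IsF E (B j))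
    (sA : ∀ j, j < d → A j ⊂ A (j + 1)) (sB : ∀ j, a < j → j ≤ d → B j ⊂ B (j + 1))
    (sAB : ∀ j, a ≤ j → j ≤ d → A j ⊂ B (j + 1)) (nAB : ∀ j, a < j → j ≤ d → A j ≠ B j)
    (top : ∀ j, d + 1 ≤ j → B j = Set.univ)
    (hc : ∀ i, i + 2 ≤ d → ∃ σ, Sym E σ ∧ (∀ j, j ≤ d → (Set.MapsTo σ (A j) (A j) ↔ j ≠ i + 1)) ∧
      ∀ j, a < j → (Set.MapsTo σ (B j) (B j) ↔ j ≠ i + 2))
    (hα : 0 < a → ∃ σ, Sym E σ ∧ (∀ j, j ≤ a → (Set.MapsTo σ (A j) (A j) ↔ j ≠ a)) ∧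
      ∀ j, a < j → Set.MapsTo σ (B j) (B j)) :
    ∃ Φ : ℕ → Fl E d, (∀ m, a ≤ m → m ≤ d → ∀ j, (Φ m).1 j = if j ≤ m then A j else B j) ∧
      ∀ Ψ, ∃ m, a ≤ m ∧ m ≤ d ∧ ∃ π : Lin E, la π (Φ m) = Ψ := by
  let C : ℕ → ℕ → Set ι := fun m j => if j ≤ m then A j else B j
  have c1 : ∀ m j, IsF E (C m j) := fun m j => by
    simp only [C]; split_ifs; exacts [fA j, fB j]
  have c2 : ∀ m, a ≤ m → m ≤ d → ∀ j, j ≤ d → C m j ⊂ C m (j + 1) := fun m m1 m2 j hj => by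
    simp only [C]
    split_ifs
    · exact sA j (by omega)
    · exact sAB j (by omega) hj
    · omega
    · exact sB j (by omega) hj
  have hd := (cr_chain hle (c1 a) (c2 a le_rfl ha.le)).1
  have ex : ∀ m, ∃ Φ : Fl E d, a ≤ m → m ≤ d → Φ.1 = C m := by
    intro m
    by_cases k : a ≤ m ∧ m ≤ d
    · refine ⟨⟨C m, fun j => ⟨c1 m j, ?_, ?_⟩⟩, fun _ _ => rfl⟩
      · by_cases e : j ≤ d + 1
        · exact (cr_chain hle (c1 m) (c2 m k.1 k.2)).2 j e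
        · simp only [C]
          rw [if_neg (by omega), top j (by omega), cr_univ]; omega
      · by_cases e : j ≤ d
        · exact (c2 m k.1 k.2 j e).1
        · simp only [C]
          rw [if_neg (show ¬ j + 1 ≤ m by omega), top (j + 1) (by omega)]
          exact Set.subset_univ _
    · exact ⟨(Fl.nonempty hpos hd).some, fun k1 k2 => absurd ⟨k1, k2⟩ k⟩
  choose Φ hΦ using ex
  refine ⟨Φ, fun m m1 m2 => congrFun (hΦ m m1 m2), fun Ψ => ?_⟩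
  have up : ∀ m, a ≤ m → m < d → Fl.r m (Φ m) = Φ (m + 1) := by
    intro m m1 m2
    refine ((Fl.eq_or m2 fun j hj => ?_).resolve_left fun k => ?_).symm
    · rw [hΦ m m1 m2.le, hΦ _ (by omega) m2]
      exact if_congr (by omega) rfl rfl
    · have := congrArg (fun Ψ : Fl E d => Ψ.1 (m + 1)) k
      simp only [hΦ m m1 m2.le, hΦ (m + 1) (by omega) m2, C] at this
      rw [if_pos le_rfl, if_neg (by omega)] at this
      exact nAB _ (by omega) m2 this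
  have sym : ∀ m i σ, a ≤ m → m ≤ d → i < d → MP_7157e1_co.Sym E σ →
      (∀ j, Set.MapsTo σ (C m j) (C m j) ↔ j ≠ i + 1) →
      ∃ π : Lin E, la π (Φ m) = Fl.r i (Φ m) := by
    intro m i σ m1 m2 hi hσ h
    let π : Lin E := ⟨Involutive.toPerm σ hσ.1, hσ.2⟩
    have k : ∀ j, (la π (Φ m)).1 j = (Φ m).1 j ↔ j ≠ i + 1 := fun j => by
      rw [← h, ← hσ.pre, ← hΦ m m1 m2]
      exact Iff.rfl
    exact ⟨π, (Fl.eq_or hi fun j => (k j).2).resolve_left fun h2 =>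
      (k (i + 1)).1 (by rw [h2]) rfl⟩
  have fx : ∀ m i, a ≤ m → m ≤ d → i < d → i ≠ m → (i + 1 = m → m = a) →
      ∃ π : Lin E, la π (Φ m) = Fl.r i (Φ m) := by
    intro m i m1 m2 hi k1 k2
    rcases lt_trichotomy (i + 1) m with k | k | k
    · obtain ⟨σ, s1, s2, s3⟩ := hc i (by omega)
      refine sym m i σ m1 m2 hi s1 fun j => ?_
      simp only [C]
      split_ifs
      · exact s2 j (by omega)
      · rw [s3 j (by omega)]; omega
    · obtain ⟨σ, s1, s2, s3⟩ := hα (by omega)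
      refine sym m i σ m1 m2 hi s1 fun j => ?_
      simp only [C]
      split_ifs
      · rw [s2 j (by omega)]; omega
      · exact ⟨fun _ => by omega, fun _ => s3 j (by omega)⟩
    · obtain ⟨σ, s1, s2, s3⟩ := hc (i - 1) (by omega)
      refine sym m i σ m1 m2 hi s1 fun j => ?_
      simp only [C]
      split_ifs
      · rw [s2 j (by omega)]; omega
      · rw [s3 j (by omega)]; omega
  refine (Fl.conn (x := Φ a) (y := Ψ) (Nat.zero_le d) le_rfl fun j hj => ?_).ind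
    (fun Ψ => ∃ m, a ≤ m ∧ m ≤ d ∧ ∃ π : Lin E, la π (Φ m) = Ψ)
    ⟨a, le_rfl, ha.le, ⟨1, fun _ h => h⟩, rfl⟩ ?_
  · rcases hj with hj | hj
    · rw [show j = 0 by omega, Fl.bot hpos hd, Fl.bot hpos hd]
    · rw [Fl.top _ hj, Fl.top _ hj]
  rintro i ⟨-, hi⟩ _ ⟨m, m1, m2, π, rfl⟩
  rw [← la_r]
  by_cases e1 : i = m
  · subst e1
    exact ⟨i + 1, by omega, hi, π, by rw [up i m1 hi]⟩
  by_cases e2 : i + 1 = m → m = a
  · obtain ⟨ρ, hρ⟩ := fx m i m1 m2 hi e1 e2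
    exact ⟨m, m1, m2, hρ ▸ la_la π ρ _⟩
  push Not at e2
  obtain ⟨rfl, e2⟩ := e2
  exact ⟨i, by omega, by omega, π, by rw [← up i (by omega) hi, Fl.r_inv]⟩

theorem stack_ex (hd : 3 ≤ d) (hpos : IsF E ∅) (hle : finrank ℝ E ≤ d + 1) {a : ℕ} (ha : a < d)
    (ha1 : 0 < a) (A B : ℕ → Set ι) (fA : ∀ j, IsF E (A j)) (fB : ∀ j, IsF E (B j))
    (sA : ∀ j, j < d → A j ⊂ A (j + 1)) (sB : ∀ j, a < j → j ≤ d → B j ⊂ B (j + 1))
    (sAB : ∀ j, a ≤ j → j ≤ d → A j ⊂ B (j + 1)) (nAB : ∀ j, a < j → j ≤ d → A j ≠ B j)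
    (top : ∀ j, d + 1 ≤ j → B j = Set.univ)
    (hc : ∀ i, i + 2 ≤ d → ∃ σ, Sym E σ ∧ (∀ j, j ≤ d → (Set.MapsTo σ (A j) (A j) ↔ j ≠ i + 1)) ∧
      ∀ j, a < j → (Set.MapsTo σ (B j) (B j) ↔ j ≠ i + 2))
    (hα : ∃ σ, Sym E σ ∧ (∀ j, j ≤ a → (Set.MapsTo σ (A j) (A j) ↔ j ≠ a)) ∧
      ∀ j, a < j → Set.MapsTo σ (B j) (B j))
    (hs : ∀ i, IsF E {i}) (hA : (A d).ncard = d) (hB : (B d).ncard ≠ d) (s : ℕ) :
    Attained (d + 1 - a + s * (d - 1)) d := by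
  classical
  obtain ⟨rk, hk⟩ := ex_count hpos hle ha A B fA fB sA sB sAB nAB top hc (fun _ => hα) hs
    (fun e => hB (e.symm.trans hA))
  obtain ⟨Φ, h1, h2⟩ := ex_orbit hpos hle ha A B fA fB sA sB sAB nAB top hc fun _ => hα
  have hΦ : (Φ d).1 d = A d := (h1 d ha.le le_rfl d).trans (if_pos le_rfl)
  rcases Nat.eq_zero_or_pos s with rfl | h0
  · have : Nonempty ι := ⟨(Set.nonempty_of_ncard_ne_zero (s := A d) (by omega)).some⟩
    rw [zero_mul, add_zero, ← hk]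
    exact attained_sub hpos rk
  let P : {G // IsF E G} → Prop := fun G => cr E G.1 = 1 ∧ G.1.ncard = d
  have hP : ∀ Ψ : Fl E d, (Ψ.1 d).ncard = d → P ⟨_, Ψ.isF d⟩ := fun Ψ h =>
    ⟨by rw [Fl.cr]; omega, h⟩
  have hX : ∀ e, ((Fl.act e (Φ d)).1 d).ncard = d := fun e =>
    (ncard_iso hs hpos e ⟨_, (Φ d).isF d⟩).trans ((congrArg Set.ncard hΦ).trans hA)
  have ex : ∀ o : {G // P G}, ∃ v : Fin d → ι, Injective v ∧ Set.range v = o.1.1 := fun o => by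
    let e := Finite.equivFinOfCardEq ((Nat.card_coe_set_eq _).trans o.2.2)
    exact ⟨fun j => e.symm j, Subtype.val_injective.comp e.symm.injective,
      (e.symm.surjective.range_comp _).trans Subtype.range_coe⟩
  choose v v1 v2 using ex
  have fac : ∀ o, IsF E (Set.range (v o)) := fun o => v2 o ▸ o.1.2
  have cr1 : ∀ o, cr E (Set.range (v o)) = 1 := fun o => v2 o ▸ o.2.1
  have dist : ∀ o o', Set.range (v o) = Set.range (v o') → o = o' := fun o o' h =>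
    Subtype.ext (Subtype.ext (by rw [← v2, ← v2, h]))
  have cover : ∀ i, ∃ o j, v o j = i := fun i => by
    obtain ⟨Ψ, l, -, -, e, -⟩ := Fl.exists_two hpos rk (le_refl (⟨{i}, hs i⟩ : {G // IsF E G}))
    have e1 : {i} = Ψ.1 l := congrArg Subtype.val e
    obtain ⟨z, hz, -⟩ := exists_of_cr (E := E) (A := ∅) (B := Ψ.1 1)
      (by rw [Fl.cr, cr_empty, rk]; omega)
    have hl : 1 ≤ l := Nat.pos_of_ne_zero fun k => by
      rw [k, Fl.bot hpos rk] at e1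
      exact Set.singleton_ne_empty i e1
    obtain rfl : z = i := e1.ge (Ψ.mono hl hz)
    obtain ⟨m, m1, m2, π, rfl⟩ := h2 Ψ
    refine ⟨⟨_, hP _ (hX (permIso π.1 π.2))⟩, (v2 _).ge ?_⟩
    rw [la_val, h1 m m1 m2, if_pos (by omega)] at hz
    refine (la π (Φ d)).mono (show 1 ≤ d by omega) ?_
    rwa [la_val, h1 d ha.le le_rfl, if_pos (by omega)]
  let T : Tw d ι {G // P G} Unit := ⟨E, v, fun _ => 1, fun _ => 1, fun _ _ => 1, hpos, rk, v1,
    fac, cr1, dist, fun _ _ h => h, fun _ _ _ => rfl, fun _ _ _ => rfl, fun i h => by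
      obtain ⟨o, j, e⟩ := cover i
      exact absurd e (h o j)⟩
  have hb : Bijective fun π : Lin E =>
      (⟨la π (Φ d), hX _⟩ : {Ψ : Fl E d | (Ψ.1 d).ncard = d}) := by
    refine ⟨fun π ρ h => ?_, fun ⟨Ψ, h⟩ => ?_⟩
    · have h3 : la π (Φ d) = la ρ (Φ d) := congrArg Subtype.val h
      have h4 := (toSys hpos rk).free (g := (Fl.act (permIso ρ.1 ρ.2))⁻¹ * Fl.act (permIso π.1 π.2))
        (Subgroup.mul_mem _ (Subgroup.inv_mem _ (Fl.act_r _)) (Fl.act_r _)) (Φ d)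
        (Equiv.Perm.inv_eq_iff_eq.2 h3)
      exact Subtype.ext (permIso_inj hs (act_inj hpos rk (inv_mul_eq_one.1 h4))).symm
    · obtain ⟨m, m1, m2, π, rfl⟩ := h2 Ψ
      obtain rfl : m = d := by
        by_contra hne
        refine hB (Eq.trans ?_
          ((ncard_iso hs hpos (permIso π.1 π.2) ⟨_, (Φ m).isF d⟩).symm.trans h))
        exact congrArg Set.ncard ((h1 m m1 m2 d).trans (if_neg (by omega))).symm
      exact ⟨π, rfl⟩
  have hΓ : Nat.card (Lin E) = {Ψ : Fl E d | (Ψ.1 d).ncard = d}.ncard :=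
    (Nat.card_eq_of_bijective _ hb).trans (Nat.card_coe_set_eq _)
  have : Nonempty {G // P G} := ⟨⟨_, hP _ (hX (OrderIso.refl _))⟩⟩
  refine stack E hd hpos rk v v1 fac cr1 dist cover (Γ := Lin E) Subtype.val
    Subtype.val_injective (fun γ => γ.2) (fun γ o => ?_) ?_ ?_ h0
  · let e := (permIso γ.1 γ.2).symm
    refine ⟨⟨e o.1, (cr_iso e _).trans o.2.1, (ncard_iso hs hpos e _).trans o.2.2⟩, fun j => ?_⟩
    rw [v2]
    change γ.1.symm (γ.1 (v o j)) ∈ o.1.1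
    rw [Equiv.symm_apply_apply, ← v2]
    exact ⟨j, rfl⟩
  · have := card_facets hpos rk (univ.filter P) fun G hG => cr_one.2 (mem_filter.1 hG).2.1
    rw [sum_congr rfl fun G hG => nc_simplex d G (fun S hS => T.sub_isF ⟨G, (mem_filter.1 hG).2⟩
      (hS.trans (v2 ⟨G, (mem_filter.1 hG).2⟩).ge)) (mem_filter.1 hG).2.2, sum_const, smul_eq_mul,
      ← Fintype.card_subtype] at this
    rw [hΓ, ← this]
    exact congrArg Set.ncard (Set.ext fun Ψ =>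
      ⟨fun h => mem_filter.2 ⟨mem_univ _, hP Ψ h⟩, fun h => (mem_filter.1 h).2.2⟩)
  · rw [← hk]
    exact (k_mul hpos rk _ (Φ d) hX (fun π : Lin E => permIso π.1 π.2)
      (fun π ρ h => Subtype.ext (permIso_inj hs h)) hΓ.ge).symm

end Pool.Agent.Lib.Q7.H43
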