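import Pool.Agent.Lib.Q7.Small43a

/-! A checker for polytopes given by integer vectors. -/

namespace Pool.Agent.Lib.Q7.H43

open Module Function Finset Pool.Agent.Lib.MP_7157e1_co

namespace Chk

/-- the value of a functional -/
def ev (c : List ℤ) : List ℤ → ℤ :=
  List.rec (fun _ => 0) (fun a _ g y => List.rec 0 (fun b y _ => Int.add (Int.mul a b) (g y)) y) c

theorem ev_sum : ∀ (n : ℕ) (c y : List ℤ), y.length ≤ n →
    ev c y = ∑ j ∈ range n, c.getD j 0 * y.getD j 0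
  | _, [], _, _ => by simp [ev]
  | _, _ :: _, [], _ => by simp [ev]
  | 0, _ :: _, _ :: _, h => by simp at h
  | n + 1, a :: c, b :: y, h => by
    rw [sum_range_succ', add_comm]
    exact congrArg (a * b + ·) (ev_sum n c y (by simpa using h))

variable (L : List (List ℤ)) (d : ℕ)

/-- the span of the coordinates -/
def EE : Submodule ℝ ({y // y ∈ L} → ℝ) :=
  Submodule.span ℝ (Set.range fun (j : Fin (d + 1)) y => (y.1.getD j 0 : ℝ))

/-- the zero set of a functional -/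
def Z (c : List ℤ) : Set {y // y ∈ L} := {y | ev c y.1 = 0}

/-- the zero list of a functional -/
def ZL (c : List ℤ) : List (List ℤ) := L.filter fun y => ev c y = 0

/-- strict inclusion of zero sets -/
def Lt (c c' : List ℤ) : Prop := (∀ y ∈ ZL L c, ev c' y = 0) ∧ ∃ y ∈ ZL L c', ev c y ≠ 0

/-- a map keeps a zero set -/
def Mp (f : List ℤ → List ℤ) (c : List ℤ) : Prop := ∀ y ∈ ZL L c, ev c (f y) = 0

/-- a map is linear on the points -/
def Li (f : List ℤ → List ℤ) : Prop :=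
  ∀ j, (fun y : {y // y ∈ L} => ((f y.1).getD j 0 : ℝ)) ∈ EE L d

instance (c c' : List ℤ) : Decidable (Lt L c c') := by unfold Lt; infer_instance

instance (f : List ℤ → List ℤ) (c : List ℤ) : Decidable (Mp L f c) := by unfold Mp; infer_instance

/-- the conditions on the first chain -/
def R1 (a : ℕ) (A B : List (List ℤ)) (σ : ℕ → List ℤ → List ℤ) (j : ℕ) : Prop :=
  (j < d → Lt L (A.getD j []) (A.getD (j + 1) [])) ∧
    (a ≤ j → Lt L (A.getD j []) (B.getD (j + 1) [])) ∧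
    (j ≤ a → (Mp L (σ (d - 1)) (A.getD j []) ↔ j ≠ a)) ∧
    ∀ i < d - 1, Mp L (σ i) (A.getD j []) ↔ j ≠ i + 1

/-- the conditions on the second chain -/
def R2 (A B : List (List ℤ)) (σ : ℕ → List ℤ → List ℤ) (j : ℕ) : Prop :=
  Lt L (B.getD j []) (B.getD (j + 1) []) ∧
    (∃ y ∈ ZL L (A.getD j []), ev (B.getD j []) y ≠ 0) ∧ Mp L (σ (d - 1)) (B.getD j []) ∧
    ∀ i < d - 1, Mp L (σ i) (B.getD j []) ↔ j ≠ i + 2

instance (a A B σ j) : Decidable (R1 L d a A B σ j) := by unfold R1; infer_instance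

instance (A B σ j) : Decidable (R2 L d A B σ j) := by unfold R2; infer_instance

variable {L d}

theorem mem_ZL {c y : List ℤ} : y ∈ ZL L c ↔ y ∈ L ∧ ev c y = 0 := by simp [ZL]

theorem rank_le : finrank ℝ (EE L d) ≤ d + 1 :=
  (finrank_range_le_card _).trans (Fintype.card_fin _).le

theorem ev_mem (h : ∀ y ∈ L, y.length = d + 1) (c : List ℤ) :
    (fun y : {y // y ∈ L} => (ev c y.1 : ℝ)) ∈ EE L d := by
  have : (fun y : {y // y ∈ L} => (ev c y.1 : ℝ)) =
      ∑ j : Fin (d + 1), (c.getD j 0 : ℝ) • fun y : {y // y ∈ L} => (y.1.getD j 0 : ℝ) := by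
    funext y
    rw [ev_sum _ c _ (h y.1 y.2).le, sum_range]
    simp [Finset.sum_apply]
  rw [this]
  exact Submodule.sum_mem _ fun j _ => Submodule.smul_mem _ _ (Submodule.subset_span ⟨j, rfl⟩)

theorem isF (h : ∀ y ∈ L, y.length = d + 1) {c : List ℤ} (hc : ∀ y ∈ L, 0 ≤ ev c y) :
    IsF (EE L d) (Z L c) :=
  ⟨_, ev_mem h c, fun y => Int.cast_nonneg (hc y.1 y.2), fun _ => Int.cast_eq_zero⟩

theorem isF_get (h : ∀ y ∈ L, y.length = d + 1) {C : List (List ℤ)}
    (hc : ∀ c ∈ C, ∀ y ∈ L, 0 ≤ ev c y) (j : ℕ) : IsF (EE L d) (Z L (C.getD j [])) := by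
  refine isF h ?_
  by_cases e : j < C.length
  · rw [List.getD_eq_getElem _ _ e]
    exact hc _ (List.getElem_mem e)
  · rw [List.getD_eq_default _ _ (not_lt.1 e)]
    exact fun _ _ => le_rfl

theorem Lt.lt {c c' : List ℤ} (h : Lt L c c') : Z L c ⊂ Z L c' :=
  ⟨fun y k => h.1 y.1 (mem_ZL.2 ⟨y.2, k⟩), fun k => by
    obtain ⟨y, h1, h3⟩ := h.2
    exact h3 (k (a := ⟨y, (mem_ZL.1 h1).1⟩) (mem_ZL.1 h1).2)⟩

theorem Li.sym {f : List ℤ → List ℤ} (h : Li L d f) (hf : ∀ y ∈ L, f y ∈ L ∧ f (f y) = y) :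
    MP_7157e1_co.Sym (EE L d) fun y => ⟨f y.1, (hf y.1 y.2).1⟩ := by
  refine ⟨fun y => Subtype.ext (hf y.1 y.2).2, fun g hg => ?_⟩
  induction hg using Submodule.span_induction with
  | mem _ k =>
    obtain ⟨j, rfl⟩ := k
    exact h j
  | zero => exact Submodule.zero_mem _
  | add _ _ _ _ a b => exact Submodule.add_mem _ a b
  | smul r _ _ a => exact Submodule.smul_mem _ r a

theorem mp_iff {f : List ℤ → List ℤ} (hf : ∀ y ∈ L, f y ∈ L ∧ f (f y) = y) (c : List ℤ) :
    Set.MapsTo (fun y => (⟨f y.1, (hf y.1 y.2).1⟩ : {y // y ∈ L})) (Z L c) (Z L c) ↔ Mp L f c :=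
  ⟨fun k y hy => k (x := ⟨y, (mem_ZL.1 hy).1⟩) (mem_ZL.1 hy).2,
    fun k y hy => k y.1 (mem_ZL.2 ⟨y.2, hy⟩)⟩

theorem ncard_Z (c : List ℤ) : (Z L c).ncard = (ZL L c).dedup.length := by
  rw [← List.card_toFinset, ← Set.ncard_coe_finset,
    ← Set.ncard_image_of_injective _ Subtype.val_injective]
  congr 1
  ext y
  simp [Z, mem_ZL, and_comm]

theorem main (hd : 3 ≤ d) {a : ℕ} (ha : a < d) (ha1 : 0 < a) (A B : List (List ℤ))
    (σ : ℕ → List ℤ → List ℤ) (ρ : List ℤ) (h0 : ∀ y ∈ L, y.length = d + 1)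
    (lin : ∀ i < d, Li L d (σ i)) (inv : ∀ i < d, ∀ y ∈ L, σ i y ∈ L ∧ σ i (σ i y) = y)
    (h1 : ∀ y ∈ L, ev (A.getD 0 []) y ≠ 0)
    (fA : ∀ c ∈ A, ∀ y ∈ L, 0 ≤ ev c y) (fB : ∀ c ∈ B, ∀ y ∈ L, 0 ≤ ev c y)
    (hs : ∀ y ∈ L, 0 ≤ ev ρ y ∧ (ev (A.getD 1 []) y = 0 ∨ ∃ i < d, ev ρ (σ i y) < ev ρ y))
    (hz : B.length ≤ d + 1 ∧ (ZL L (A.getD 1 [])).dedup.length = 1 ∧
      (ZL L (A.getD d [])).dedup.length = d ∧ (ZL L (B.getD d [])).dedup.length ≠ d ∧
      ∀ j < d + 1, R1 L d a A B σ j ∧ (a < j → R2 L d A B σ j)) (s : ℕ) :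
    Attained (d + 1 - a + s * (d - 1)) d := by
  obtain ⟨top, z1, hA, hB, hz⟩ := hz
  have tp : ∀ j, d + 1 ≤ j → Z L (B.getD j []) = Set.univ := fun j hj => by
    rw [List.getD_eq_default _ _ (top.trans hj)]
    exact Set.eq_univ_of_forall fun _ => rfl
  refine stack_ex (E := EE L d) hd ?_ rank_le ha ha1 (fun j => Z L (A.getD j []))
    (fun j => Z L (B.getD j [])) (isF_get h0 fA) (isF_get h0 fB)
    (fun j hj => ((hz j (by omega)).1.1 hj).lt)
    (fun j j1 j2 => ((hz j (by omega)).2 j1).1.lt)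
    (fun j j1 j2 => ((hz j (by omega)).1.2.1 j1).lt)
    (fun j j1 j2 e => ?_) tp (fun i hi => ?_) ?_ (fun y => ?_) ((ncard_Z _).trans hA)
    (fun e => hB ((ncard_Z _).symm.trans e)) s
  · convert isF_get h0 fA 0
    exact (Set.eq_empty_of_forall_notMem fun y : {y // y ∈ L} => h1 y.1 y.2).symm
  · obtain ⟨y, k1, k3⟩ := ((hz j (by omega)).2 j1).2.1
    exact k3 ((Set.ext_iff.1 e ⟨y, (mem_ZL.1 k1).1⟩).1 (mem_ZL.1 k1).2)
  · have k := inv i (by omega)
    refine ⟨_, (lin i (by omega)).sym k, fun j hj => (mp_iff k _).trans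
      ((hz j (by omega)).1.2.2.2 i (by omega)), fun j hj => ?_⟩
    by_cases e : j < d + 1
    · exact (mp_iff k _).trans (((hz j e).2 hj).2.2.2 i (by omega))
    · rw [tp j (by omega)]
      exact iff_of_true (Set.mapsTo_univ _ _) (by omega)
  · have k := inv (d - 1) (by omega)
    refine ⟨_, (lin _ (by omega)).sym k, fun j hj => (mp_iff k _).trans
      ((hz j (by omega)).1.2.2.1 hj), fun j hj => ?_⟩
    by_cases e : j < d + 1
    · exact (mp_iff k _).2 ((hz j e).2 hj).2.2.1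
    · rw [tp j (by omega)]
      exact Set.mapsTo_univ _ _
  · obtain ⟨v, hv⟩ := Set.ncard_eq_one.1 ((ncard_Z _).trans z1)
    induction hn : (ev ρ y.1).toNat using Nat.strong_induction_on generalizing y with
    | _ n ih =>
    rcases (hs y.1 y.2).2 with k | ⟨i, hi, k⟩
    · obtain rfl : y = v := hv.le k
      exact hv ▸ isF_get h0 fA 1
    · have k1 := (lin i hi).sym (inv i hi)
      have k2 := (hs _ (inv i hi y.1 y.2).1).1
      convert (ih (ev ρ (σ i y.1)).toNat (by omega) ⟨σ i y.1, (inv i hi y.1 y.2).1⟩ rfl).pre k1.2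
      exact Set.ext fun z => (Involutive.injective (f := fun y : {y // y ∈ L} =>
        (⟨σ i y.1, (inv i hi y.1 y.2).1⟩ : {y // y ∈ L})) k1.1).eq_iff.symm

/-! ### symmetries -/

/-- the action of a matrix -/
def ap (M : List (List ℤ)) (y : List ℤ) : List ℤ := M.map fun c => ev c y

theorem li_ap (h : ∀ y ∈ L, y.length = d + 1) (M : List (List ℤ)) : Li L d (ap M) := fun j => by
  convert ev_mem h (M.getD j []) using 3
  exact List.getD_map M [] fun c => ev c _

/-- exchange two adjacent coordinates -/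
def sw : ℕ → List ℤ → List ℤ
  | 0, a :: b :: r => b :: a :: r
  | i + 1, a :: r => a :: sw i r
  | _, y => y

theorem sw_sw : ∀ i y, sw i (sw i y) = y
  | 0, [] => rfl
  | 0, [_] => rfl
  | 0, _ :: _ :: _ => rfl
  | _ + 1, [] => rfl
  | i + 1, a :: r => congrArg (a :: ·) (sw_sw i r)

theorem sw_get : ∀ i (y : List ℤ) j, i + 2 ≤ y.length →
    (sw i y).getD j 0 = y.getD (if j = i then i + 1 else if j = i + 1 then i else j) 0
  | _, [], _, h => by simp at h
  | 0, [_], _, h => by simp at h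
  | 0, _ :: _ :: _, 0, _ => rfl
  | 0, _ :: _ :: _, 1, _ => rfl
  | 0, _ :: _ :: _, _ + 2, _ => rfl
  | _ + 1, _ :: _, 0, _ => rfl
  | i + 1, a :: r, j + 1, h => by
    refine (sw_get i r j (by simpa using h)).trans ?_
    simp only [add_left_inj]
    split_ifs <;> rfl

theorem li_id (h : ∀ y ∈ L, y.length = d + 1) : Li L d id := fun j => by
  by_cases e : j < d + 1
  · exact Submodule.subset_span ⟨⟨j, e⟩, rfl⟩
  · convert (EE L d).zero_mem using 2 with y
    rw [id, List.getD_eq_default _ _ (by rw [h y.1 y.2]; omega)]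
    simp

theorem li_sw (h : ∀ y ∈ L, y.length = d + 1) {i : ℕ} (hi : i < d) : Li L d (sw i) := fun j => by
  convert li_id h (if j = i then i + 1 else if j = i + 1 then i else j) using 3 with y
  exact sw_get i y.1 j (by rw [h y.1 y.2]; omega)

/-- the quadratic transformation -/
def crm : List ℤ → List ℤ
  | a :: b :: c :: e :: r => (2 * a - b - c - e) :: (a - c - e) :: (a - b - e) :: (a - b - c) :: r
  | y => y

theorem crm_crm : ∀ y, crm (crm y) = y
  | [] => rfl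
  | [_] => rfl
  | [_, _] => rfl
  | [_, _, _] => rfl
  | a :: b :: c :: e :: r => by
    simp only [crm, List.cons.injEq, and_true]
    refine ⟨?_, ?_, ?_, ?_⟩ <;> ring

theorem li_crm (h : ∀ y ∈ L, y.length = d + 1) (hd : 3 ≤ d) : Li L d crm := fun j => by
  have key : ∀ y : {y // y ∈ L}, ∃ a b c e r, y.1 = a :: b :: c :: e :: r := fun y => by
    have := h y.1 y.2
    rcases y with ⟨_ | ⟨a, _ | ⟨b, _ | ⟨c, _ | ⟨e, r⟩⟩⟩⟩, hy⟩
    all_goals first | exact ⟨_, _, _, _, _, rfl⟩ | (simp only [List.length] at this; omega)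
  by_cases k : j < 4
  · convert ev_mem h (([[2, -1, -1, -1], [1, 0, -1, -1], [1, -1, 0, -1], [1, -1, -1, 0]] :
      List (List ℤ)).getD j []) using 3 with y
    obtain ⟨a, b, c, e, r, hy⟩ := key y
    rw [hy]
    interval_cases j <;> simp [crm, ev] <;> ring
  · convert li_id h j using 3 with y
    obtain ⟨a, b, c, e, r, hy⟩ := key y
    obtain ⟨j, rfl⟩ : ∃ l, j = l + 4 := ⟨j - 4, by omega⟩
    rw [id, hy]
    rfl

/-- search trees for integer vectors -/
inductive Tr : Type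
  | nil : Tr
  | leaf : Tr
  | node : ℤ → Tr → Tr → Tr

/-- the vectors of a tree -/
noncomputable def Tr.li (t : Tr) : List (List ℤ) :=
  Tr.rec [] [[]] (fun v _ _ p q => p.map (v :: ·) ++ q) t

/-- search -/
noncomputable def Tr.has (t : Tr) : List ℤ → Bool :=
  Tr.rec (fun _ => false) (fun y => y.isEmpty)
    (fun v _ _ p q y => List.rec false (fun a r _ => if a = v then p r else q y) y) t

theorem Tr.mem : ∀ (t : Tr) (y : List ℤ), t.has y = true → y ∈ t.li
  | .nil, _, h => absurd h Bool.false_ne_true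
  | .leaf, _, h => List.mem_singleton.2 (List.isEmpty_iff.1 h)
  | .node _ _ _, [], h => absurd h Bool.false_ne_true
  | .node v p q, a :: r, h => by
    change (if a = v then p.has r else q.has (a :: r)) = true at h
    refine List.mem_append.2 ?_
    split_ifs at h with e
    · exact Or.inl (List.mem_map.2 ⟨r, p.mem r h, by rw [e]⟩)
    · exact Or.inr (q.mem _ h)

/-- the generators of the symmetry group -/
def gen (d : ℕ) (g : ℕ → ℕ) (i : ℕ) : List ℤ → List ℤ := if i + 1 = d then crm else sw (g i)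

theorem li_gen (h : ∀ y ∈ L, y.length = d + 1) (hd : 3 ≤ d) {g : ℕ → ℕ}
    (hg : ∀ i < d, i + 1 ≠ d → g i < d) : ∀ i < d, Li L d (gen d g i) := fun i hi => by
  unfold gen
  split_ifs with e
  exacts [li_crm h hd, li_sw h (hg i hi e)]

theorem inv_gen {t : Tr} {g : ℕ → ℕ} (h : ∀ i < d, ∀ y ∈ t.li, t.has (gen d g i y) = true) :
    ∀ i < d, ∀ y ∈ t.li, gen d g i y ∈ t.li ∧ gen d g i (gen d g i y) = y := fun i hi y hy =>
  ⟨t.mem _ (h i hi y hy), by
    unfold gen
    split_ifs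
    exacts [crm_crm y, sw_sw _ y]⟩

end Chk

end Pool.Agent.Lib.Q7.H43
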