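import Pool.Agent.Lib.Q7.Stack43c

/-! Towers of prisms and caps over a family of simplex facets. -/

namespace Pool.Agent.Lib.Q7.H43

open Module Function Finset Pool.Agent.Lib.MP_7157e1_co

namespace Tw
variable {d : ℕ} {ι O Γ : Type} [Fintype ι] [Fintype O] (T : Tw d ι O Γ)

theorem compl_ne (j : Fin d) : ({j}ᶜ : Set (Fin d)) ≠ Set.univ := fun e =>
  (e.ge (Set.mem_univ j)) rfl

theorem compl_card (j : Fin d) : ({j}ᶜ : Set (Fin d)).ncard = d - 1 := by
  rw [Set.ncard_compl, Set.ncard_singleton, Nat.card_eq_fintype_card, Fintype.card_fin]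

theorem compl_inj {j k : Fin d} (h : ({j}ᶜ : Set (Fin d)) ⊆ {k}ᶜ) : j = k := by
  by_contra hne
  exact h (show k ∈ ({j}ᶜ : Set (Fin d)) from fun e => hne (Eq.symm e)) rfl

theorem ex_compl {S : Set (Fin d)} (h : S ≠ Set.univ) : ∃ j, S ⊆ {j}ᶜ := by
  obtain ⟨j, hj⟩ := (Set.ne_univ_iff_exists_notMem _).1 h
  exact ⟨j, Set.subset_compl_singleton_iff.2 hj⟩

theorem ind_pos {S : Set (Fin d)} (h : S ≠ Set.univ) [DecidablePred (· ∈ S)] :
    (0 : ℝ) < ∑ j, if j ∈ S then 0 else 1 := by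
  obtain ⟨j, hj⟩ := (Set.ne_univ_iff_exists_notMem _).1 h
  exact sum_pos' (fun k _ => by split_ifs <;> norm_num) ⟨j, mem_univ _, by simp [hj]⟩

/-! ### caps -/

/-- the weights of a cap -/
def AC (d : ℕ) : Unit → Fin d → ℝ := fun _ _ => 1

theorem cap_face (o : O) {S : Set (Fin d)} (h : S ≠ Set.univ) :
    IsF (T.NE (AC d)) (T.VW o S Set.univ) := by
  classical
  exact isF_new (fun _ _ => le_rfl) o (fun j => if j ∈ S then 0 else 1) _ (ind_pos h)
    (fun j => by split_ifs <;> norm_num) (fun _ => by simp) Set.univ_nonempty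
    (fun j => by simp) fun _ => by simp

theorem cap_fam (hd : 3 ≤ d) : Fam T (AC d) (fun j : Fin d => {j}ᶜ) fun _ => Set.univ where
  one := fun _ _ => le_rfl
  ne := inferInstance
  face := fun o j => T.cap_face o (compl_ne j)
  bne := fun _ => Set.univ_nonempty
  ane := compl_ne
  cover := fun x t h1 _ h2 _ => (ex_compl (zero_ne h1 (h2 ()))).imp fun _ h =>
    ⟨h, Set.subset_univ _⟩
  anti := fun _ _ h _ => compl_inj h
  sing := fun z => by
    have : Nonempty (Fin d) := ⟨⟨0, by omega⟩⟩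
    convert T.cap_face z.1 (Set.empty_ne_univ (α := Fin d)) using 1
    rw [VW_eq, Set.image_empty, Set.empty_union, Set.univ_unique, Set.image_singleton]
  small := fun _ => by simp

theorem cap_sub (o : O) (j : Fin d) {G : Set (ι ⊕ O × Unit)} (h : G ⊆ T.VW o {j}ᶜ Set.univ) :
    IsF (T.NE (AC d)) G := by
  have h1 : {k | Sum.inl (T.v o k) ∈ G} ≠ Set.univ := fun e =>
    VW_v.1 (h (e.ge (Set.mem_univ j))) rfl
  rw [eq_VW h]
  rcases Set.eq_empty_or_nonempty {k | Sum.inr (o, k) ∈ G} with e | e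
  · rw [e]
    exact old_V (fun _ _ => le_rfl) h1
  · rw [e.eq_univ]
    exact T.cap_face o h1

theorem cap_count (hd : 3 ≤ d) : Nat.card (Fl (T.NE (AC d)) d) =
    Nat.card (Fl T.E d) + (d - 1) * (Fintype.card O * d.factorial) := by
  have := (T.cap_fam hd).count hd (c := d * d.factorial) fun o => by
    rw [sum_congr rfl fun j _ => nc_simplex d _ (fun S hS => T.cap_sub o j hS) (by
      rw [VW_ncard, compl_card, Set.ncard_univ, Nat.card_unique]; omega)]
    simp
  obtain ⟨e, rfl⟩ : ∃ e, d = e + 1 := ⟨d - 1, by omega⟩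
  rw [Nat.add_sub_cancel]
  nlinarith

theorem cap_att (hd : 3 ≤ d) (o : O) (hΓ : Nat.card Γ = Fintype.card O * d.factorial) {k : ℕ}
    (hk : Nat.card (Fl T.E d) = k * Nat.card Γ) : Attained (k + (d - 1)) d := by
  have F := T.cap_fam hd
  have hp := pos_NE (T := T) F.one hd
  have hR : ∀ p j, IsF (T.NE (AC d)) (T.VW p {j}ᶜ ∅) ∧ cr (T.NE (AC d)) (T.VW p {j}ᶜ ∅) = 2 :=
    fun p j => ⟨old_V F.one (compl_ne j), by rw [VW_empty, cr_inl, T.cr2']⟩
  have e1 : d - 1 + 1 = d := by omega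
  obtain ⟨Φ0, h0⟩ := exists_facet hp (rk_NE (T := T)) (G := ⟨_, F.face o ⟨0, by omega⟩⟩)
    (cr_one.2 (F.cr_new _ _))
  obtain ⟨Φ, h1, h2⟩ := splice hp (rk_NE (T := T)) Φ0 (j := d - 1) (by omega)
    (hR o ⟨0, by omega⟩).1 (by rw [e1, h0]; exact VW_mono subset_rfl (Set.empty_subset _))
    (by rw [(hR o _).2]; omega)
  refine F.att hd (fun γ => (T.α γ).prodCongr (Equiv.refl _)) (fun _ _ => rfl) (fun _ _ _ => rfl)
    (⋃ z : O × Fin d, {Ψ | Ψ.1 d = T.VW z.1 {z.2}ᶜ Set.univ ∧ Ψ.1 (d - 1) = T.VW z.1 {z.2}ᶜ ∅})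
    Φ (fun e => ?_) ((ncard_union _ (c := (d - 1).factorial) fun z => ?_).trans (le_of_eq ?_))
    (by rw [T.cap_count hd, hk, hΓ, add_mul]) o
  · obtain ⟨z, hz⟩ := (F.side hd e ⟨_, Φ.isF d⟩).2 ⟨(o, ()), by
      change _ ∈ Φ.1 d
      rw [h2 d e1.le, h0]
      exact ⟨rfl, trivial⟩⟩
    have h3 : ∀ z, Sum.inr z ∉ (Fl.act e Φ).1 (d - 1) := fun z hz => by
      obtain ⟨z', hz'⟩ := (F.side hd e.symm (e ⟨_, Φ.isF (d - 1)⟩)).2 ⟨z, hz⟩
      rw [e.symm_apply_apply] at hz'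
      change _ ∈ Φ.1 (d - 1) at hz'
      rw [h1] at hz'
      exact hz'.2
    rcases F.facet ((Fl.act e Φ).isF d) (by rw [Fl.cr]; omega) with ⟨H, -, -, -, h4⟩ | ⟨p, j, h4⟩
    · have h5 : Sum.inr z ∈ (Fl.act e Φ).1 d := hz
      rw [h4] at h5
      simp at h5
    · refine Set.mem_iUnion.2 ⟨(p, j), h4, ((Fl.act e Φ).isF _).eq_of_cr ?_
        (by rw [Fl.cr, (hR p j).2]; omega)⟩
      rintro (i | y) h
      · exact h4.le ((Fl.act e Φ).mono (Nat.sub_le _ _) h)
      · exact absurd h (h3 y)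
  · rcases Set.eq_empty_or_nonempty {Ψ : Fl (T.NE (AC d)) d | Ψ.1 d = T.VW z.1 {z.2}ᶜ Set.univ ∧
      Ψ.1 (d - 1) = T.VW z.1 {z.2}ᶜ ∅} with e | ⟨Ψ, k1, k2⟩
    · rw [e, Set.ncard_empty]
      exact Nat.zero_le _
    · refine (Set.ncard_le_ncard (fun X hX l hl => ?_) (Set.toFinite _)).trans
        ((card_agree hp (rk_NE (T := T)) (d - 1) (by omega) Ψ).trans (nc_simplex _ _
          (fun S hS => T.cap_sub z.1 z.2 (hS.trans (k2.le.trans
            (VW_mono subset_rfl (Set.empty_subset _))))) ?_)).le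
      · rcases hl.eq_or_lt with rfl | hl
        · exact hX.2.trans k2.symm
        · rcases (show l = d ∨ d + 1 ≤ l by omega) with rfl | hl
          · exact hX.1.trans k1.symm
          · rw [X.top hl, Ψ.top hl]
      · change (Ψ.1 (d - 1)).ncard = _
        rw [k2, VW_ncard, compl_card, Set.ncard_empty, add_zero]
  · rw [hΓ, Fintype.card_prod, Fintype.card_fin, mul_assoc, Nat.mul_factorial_pred (by omega)]

/-! ### layers -/

/-- the weights of a layer -/
def AL (d : ℕ) : Fin d → Fin d → ℝ := fun k j => if j = k then 2 else 1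

theorem AL_one (k j : Fin d) : 1 ≤ AL d k j := by
  unfold AL
  split_ifs <;> norm_num

theorem AL_sum (k : Fin d) (x : Fin d → ℝ) : ∑ j, AL d k j * x j = x k + ∑ j, x j := by
  rw [← sum_ite_eq' univ k x |>.trans (if_pos (mem_univ k)), ← sum_add_distrib]
  refine sum_congr rfl fun j _ => ?_
  unfold AL
  split_ifs <;> ring

theorem lay_W (hd : 3 ≤ d) (o : O) (K : Set (Fin d)) : IsF (T.NE (AL d)) (T.VW o ∅ K) := by
  classical
  rcases K.eq_empty_or_nonempty with rfl | hK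
  · rw [VW_empty, Set.image_empty, Set.image_empty]
    exact pos_NE AL_one hd
  · have h : ∀ j, (1 : ℝ) ≤ if j ∈ K then 1 else 2 := fun j => by split_ifs <;> norm_num
    refine isF_new AL_one o (fun j => if j ∈ K then 1 else 2) (1 + ∑ j, if j ∈ K then 1 else 2)
      (add_pos_of_pos_of_nonneg one_pos (sum_nonneg fun j _ => zero_le_one.trans (h j)))
      (fun j => zero_le_one.trans (h j)) (fun k => by rw [AL_sum]; linarith [h k]) hK
      (fun j => iff_of_false id (one_pos.trans_le (h j)).ne') fun k => ?_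
    rw [AL_sum, add_left_inj]
    split_ifs with e <;> simp [e]

theorem lay_P (hd : 3 ≤ d) (o : O) {S : Set (Fin d)} (h : S ≠ Set.univ) :
    IsF (T.NE (AL d)) (T.VW o S S) := by
  classical
  rcases S.eq_empty_or_nonempty with rfl | hS
  · exact T.lay_W hd o ∅
  · refine isF_new AL_one o (fun j => if j ∈ S then 0 else 1) _ (ind_pos h)
      (fun j => by split_ifs <;> norm_num) (fun k => ?_) hS (fun j => by simp) fun k => ?_
    · rw [AL_sum, le_add_iff_nonneg_left]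
      split_ifs <;> norm_num
    · rw [AL_sum, add_eq_right]
      simp

theorem lay_eq {x : Fin d → ℝ} {t : ℝ} (h1 : ∀ j, 0 ≤ x j) (h2 : ∀ k, t ≤ ∑ j, AL d k j * x j)
    (h3 : ∃ k, ∑ j, AL d k j * x j = t) {i : Fin d} (hi : x i = 0) :
    {k | ∑ j, AL d k j * x j = t} = {j | x j = 0} := by
  obtain ⟨k, hk⟩ := h3
  have a1 := h2 i
  have a2 := h1 k
  rw [AL_sum] at a1 hk
  ext l
  rw [Set.mem_ofPred_eq, Set.mem_ofPred_eq, AL_sum]
  constructor <;> intro h <;> linarith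

theorem lay_fam (hd : 3 ≤ d) : Fam T (AL d) (fun y : Option (Fin d) => y.elim ∅ fun j => {j}ᶜ)
    fun y => y.elim Set.univ fun j => {j}ᶜ := by
  have hn : ∀ j : Fin d, ({j}ᶜ : Set (Fin d)).Nonempty := fun j =>
    Set.nonempty_of_ncard_ne_zero (by rw [compl_card]; omega)
  have : Nonempty (Fin d) := ⟨⟨0, by omega⟩⟩
  refine ⟨AL_one, this, ?_, ?_, ?_, fun x t h0 h1 h2 h3 => ?_, ?_, fun z => ?_, fun k => ?_⟩
  · rintro o (_ | j)
    exacts [T.lay_W hd o _, T.lay_P hd o (compl_ne j)]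
  · rintro (_ | j)
    exacts [Set.univ_nonempty, hn j]
  · rintro (_ | j)
    exacts [Set.empty_ne_univ, compl_ne j]
  · rcases Set.eq_empty_or_nonempty {j | x j = 0} with e | ⟨i, hi⟩
    · exact ⟨none, e.le, Set.subset_univ _⟩
    · obtain ⟨j, hj⟩ := ex_compl (zero_ne h0 (h2 i))
      exact ⟨some j, hj, (lay_eq h1 h2 h3 hi).le.trans hj⟩
  · rintro (_ | j) (_ | k) h1 h2
    · rfl
    · exact absurd (Set.univ_subset_iff.1 h2) (compl_ne k)
    · exact absurd (Set.subset_empty_iff.1 h1) (hn j).ne_empty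
    · rw [compl_inj h1]
  · convert T.lay_W hd z.1 {z.2} using 1
    rw [VW_eq, Set.image_empty, Set.empty_union, Set.image_singleton]
  · refine (Set.ncard_le_ncard (t := {some k}ᶜ) ?_ (Set.toFinite _)).trans ?_
    · rintro _ h rfl
      exact h rfl
    · rw [Set.ncard_compl, Set.ncard_singleton, Nat.card_eq_fintype_card, Fintype.card_option,
        Fintype.card_fin]
      omega

theorem lay_top (hd : 3 ≤ d) (o : O) :
    nc (⟨_, T.lay_W hd o Set.univ⟩ : {G // IsF (T.NE (AL d)) G}) = d.factorial :=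
  nc_simplex d _ (fun S hS => by
    rw [eq_VW hS, show {j | Sum.inl (T.v o j) ∈ S} = ∅ from
      Set.eq_empty_of_forall_notMem fun j hj => VW_v.1 (hS hj)]
    exact T.lay_W hd o _) (by
    rw [VW_ncard, Set.ncard_empty, Set.ncard_univ, Nat.card_eq_fintype_card, Fintype.card_fin,
      zero_add])

theorem lay_prism (hd : 3 ≤ d) (o : O) (j : Fin d) :
    nc (⟨_, T.lay_P hd o (compl_ne j)⟩ : {G // IsF (T.NE (AL d)) G}) = pw (d - 1) 0 := by
  have := (T.lay_fam hd).ne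
  have c : ({j}ᶜ : Finset (Fin d)).card = d - 1 := by
    rw [card_compl, card_singleton, Fintype.card_fin]
  have k := nc_prism (F := IsF (T.NE (AL d))) (x := fun k => Sum.inl (T.v o k))
    (y := fun k => Sum.inr (o, k)) (fun _ _ h => T.inj o (Sum.inl_injective h))
    (fun _ _ h => congrArg Prod.snd (Sum.inr_injective h)) (fun _ _ => Sum.inl_ne_inr) _ {j}ᶜ ∅ rfl
    (by simp) (card_pos.1 (by omega)) ⟨_, T.lay_P hd o (compl_ne j)⟩ (by simp [VW_eq])
    fun S hS => ⟨fun h i l hi hl => ?_, fun h => ?_⟩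
  · rw [k, c, card_empty]
  · rcases cases AL_one h fun e => VW_v.1 (hS (e.ge (Set.mem_univ (Sum.inl (T.v o j))))) rfl with
      ⟨H, -, -, rfl⟩ | ⟨p, x, t, -, h1, h2, h3, rfl⟩
    · simp at hl
    · obtain rfl : o = p := hl.1
      rw [lay_eq h1 h2 h3 (VW_v.1 hi)] at hl ⊢
      exact ⟨⟨rfl, VW_v.1 hi⟩, VW_v.2 hl.2⟩
  · have h1 : {k | Sum.inl (T.v o k) ∈ S} ≠ Set.univ := fun e =>
      VW_v.1 (hS (e.ge (Set.mem_univ j))) rfl
    rw [eq_VW hS]
    rcases Set.eq_empty_or_nonempty {k | Sum.inr (o, k) ∈ S} with e | ⟨l, hl⟩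
    · rw [e]
      exact old_V AL_one h1
    rcases Set.eq_empty_or_nonempty {k | Sum.inl (T.v o k) ∈ S} with e | ⟨i, hi⟩
    · rw [e]
      exact T.lay_W hd o _
    · rw [show {k | Sum.inr (o, k) ∈ S} = {k | Sum.inl (T.v o k) ∈ S} from
        Set.ext fun k => ⟨fun hk => (h i k hi hk).2, fun hk => (h k l hk hl).1⟩]
      exact T.lay_P hd o h1

theorem lay_count (hd : 3 ≤ d) : Nat.card (Fl (T.NE (AL d)) d) =
    Nat.card (Fl T.E d) + 2 * (d - 1) * (Fintype.card O * d.factorial) := by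
  have := (T.lay_fam hd).count hd (c := d.factorial + d * pw (d - 1) 0) fun o => by
    rw [Fintype.sum_option]
    refine congrArg₂ (· + ·) (T.lay_top hd o) ?_
    exact (sum_congr rfl fun j _ => T.lay_prism hd o j).trans (by simp)
  obtain ⟨e, rfl⟩ : ∃ e, d = e + 1 := ⟨d - 1, by omega⟩
  rw [Nat.add_sub_cancel] at this ⊢
  rw [pw, Nat.ascFactorial_zero, Nat.factorial_succ] at this
  rw [Nat.factorial_succ]
  nlinarith

omit [Fintype ι] [Fintype O] in
theorem lay_A (γ : Γ) (z : O × Fin d) (j : Fin d) :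
    AL d ((T.α γ).prodShear (T.β γ) z).2 (T.β γ z.1 j) = AL d z.2 j :=
  if_congr (T.β γ z.1).apply_eq_iff_eq rfl rfl

omit [Fintype ι] [Fintype O] in
theorem range_W (o : O) :
    Set.range (fun j => (Sum.inr (o, j) : ι ⊕ O × Fin d)) = T.VW o ∅ Set.univ := by
  rw [VW_eq, Set.image_empty, Set.empty_union, Set.image_univ]

/-- a new layer of prisms -/
noncomputable def layer (hd : 3 ≤ d) : Tw d (ι ⊕ O × Fin d) O Γ where
  E := T.NE (AL d)
  v := fun o j => Sum.inr (o, j)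
  π := fun γ => Equiv.sumCongr (T.π γ) ((T.α γ).prodShear (T.β γ))
  α := T.α
  β := T.β
  pos := pos_NE AL_one hd
  rk := rk_NE
  inj := fun _ _ _ h => congrArg Prod.snd (Sum.inr_injective h)
  fac := fun o => T.range_W o ▸ T.lay_W hd o _
  cr1 := fun o => T.range_W o ▸ (T.lay_fam hd).cr_new o none
  dist := fun o p h => by
    obtain ⟨j, hj⟩ := h.ge ⟨⟨0, by omega⟩, rfl⟩
    exact congrArg Prod.fst (Sum.inr_injective hj)
  sym := fun γ => sym_NE γ _ (fun _ => rfl) (T.lay_A γ)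
  act := fun _ _ _ => rfl
  pinj := fun _ _ e => T.pinj (Equiv.ext fun i => Sum.inl_injective
    (congrArg (fun π : Equiv.Perm (ι ⊕ O × Fin d) => π (Sum.inl i)) e))
  big := by
    have := (T.lay_fam hd).ne
    rintro (i | ⟨o, j⟩) h
    exacts [⟨sing_old AL_one hd i, big_old AL_one hd i⟩, absurd rfl (h o j)]

theorem lay_att (hd : 3 ≤ d) (o : O) (hΓ : Nat.card Γ = Fintype.card O * d.factorial) {k : ℕ}
    (hk : Nat.card (Fl T.E d) = k * Nat.card Γ) : Attained (k + 2 * (d - 1)) d := by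
  have F := T.lay_fam hd
  have hp := pos_NE (T := T) F.one hd
  obtain ⟨Φ, h0⟩ := exists_facet hp (rk_NE (T := T)) (G := ⟨_, F.face o none⟩)
    (cr_one.2 (F.cr_new _ _))
  refine F.att hd (fun γ => (T.α γ).prodShear (T.β γ)) (fun _ _ => rfl) T.lay_A
    (⋃ p : O, {Ψ | Ψ.1 d = T.VW p ∅ Set.univ}) Φ (fun e => ?_)
    ((ncard_union _ (c := d.factorial) fun p => ?_).trans hΓ.ge)
    (by rw [T.lay_count hd, hk, hΓ, add_mul]) o
  · have h3 : ∀ i, Sum.inl i ∉ (Fl.act e Φ).1 d := fun i hi => by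
      obtain ⟨i', hz'⟩ := (F.side hd e.symm (e ⟨_, Φ.isF d⟩)).1 ⟨i, hi⟩
      rw [e.symm_apply_apply] at hz'
      change _ ∈ Φ.1 d at hz'
      rw [h0] at hz'
      obtain ⟨_, h, -⟩ := hz'
      exact h
    rcases F.facet ((Fl.act e Φ).isF d) (by rw [Fl.cr]; omega) with
      ⟨H, -, h5, -, h4⟩ | ⟨p, _ | j, h4⟩
    · obtain ⟨i, hi, -⟩ := exists_of_cr (E := T.E) (A := ∅) (B := H)
        (by rw [h5, cr_empty, T.rk]; omega)
      exact absurd (h4.ge ⟨i, hi, rfl⟩) (h3 i)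
    · exact Set.mem_iUnion.2 ⟨p, h4⟩
    · obtain ⟨l, hl⟩ := F.bne (some j)
      exact absurd (h4.ge (VW_v.2 hl)) (h3 _)
  · exact ((card_facet hp (rk_NE (T := T)) (G := ⟨_, F.face p none⟩)
      (cr_one.2 (F.cr_new _ _))).trans (T.lay_top hd p)).le

end Tw

theorem tower {d : ℕ} {O Γ : Type} [Fintype O] (hd : 3 ≤ d) (o : O)
    (hΓ : Nat.card Γ = Fintype.card O * d.factorial) (n : ℕ) :
    ∀ (ι : Type) [Fintype ι] (T : Tw d ι O Γ) (k : ℕ), Nat.card (Fl T.E d) = k * Nat.card Γ →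
      Attained (k + (2 * n + 1) * (d - 1)) d ∧ Attained (k + (2 * n + 2) * (d - 1)) d := by
  induction n with
  | zero => exact fun ι _ T k hk => ⟨by simpa using T.cap_att hd o hΓ hk, T.lay_att hd o hΓ hk⟩
  | succ n ih =>
    intro ι _ T k hk
    have := ih _ (T.layer hd) (k + 2 * (d - 1)) ((T.lay_count hd).trans (by rw [hk, hΓ, add_mul]))
    constructor
    · convert this.1 using 1
      ring
    · convert this.2 using 1
      ring

/-- stacking towers on a family of simplex facets that covers all vertices and on whose flags a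
group of symmetries acts simply transitively -/
theorem stack {d : ℕ} {ι O Γ : Type} [Fintype ι] [Fintype O] [Nonempty O]
    (E : Submodule ℝ (ι → ℝ)) (hd : 3 ≤ d) (hpos : IsF E ∅) (rk : finrank ℝ E = d + 1)
    (v : O → Fin d → ι) (inj : ∀ o, Injective (v o)) (fac : ∀ o, IsF E (Set.range (v o)))
    (cr1 : ∀ o, cr E (Set.range (v o)) = 1)
    (dist : ∀ o o', Set.range (v o) = Set.range (v o') → o = o') (cover : ∀ i, ∃ o j, v o j = i)
    (π : Γ → Equiv.Perm ι) (pinj : Injective π) (sym : ∀ γ, ∀ f ∈ E, f ∘ π γ ∈ E)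
    (act : ∀ γ o, ∃ o', ∀ j, π γ (v o j) ∈ Set.range (v o'))
    (hΓ : Nat.card Γ = Fintype.card O * d.factorial) {k : ℕ}
    (hk : Nat.card (Fl E d) = k * Nat.card Γ) {s : ℕ} (hs : 1 ≤ s) :
    Attained (k + s * (d - 1)) d := by
  choose α hα using act
  choose β hβ using hα
  have b1 : ∀ γ o, Bijective (β γ o) := fun γ o => Finite.injective_iff_bijective.1
    fun j l h => inj o ((π γ).injective (by rw [← hβ, ← hβ, h]))
  have a1 : ∀ γ, Bijective (α γ) := fun γ => Finite.injective_iff_bijective.1 fun o p h => by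
    have key : ∀ o p, α γ o = α γ p → Set.range (v o) ⊆ Set.range (v p) := by
      rintro o p h _ ⟨j, rfl⟩
      obtain ⟨l, hl⟩ := (b1 γ p).2 (β γ o j)
      exact ⟨l, (π γ).injective (by rw [← hβ, ← hβ, h, hl])⟩
    exact dist o p ((key o p h).antisymm (key p o h.symm))
  let T : Tw d ι O Γ := ⟨E, v, π, fun γ => Equiv.ofBijective _ (a1 γ),
    fun γ o => Equiv.ofBijective _ (b1 γ o), hpos, rk, inj, fac, cr1, dist, sym,
    fun γ o j => (hβ γ o j).symm, pinj, fun i h => by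
      obtain ⟨o, j, e⟩ := cover i
      exact absurd e (h o j)⟩
  obtain ⟨o⟩ := ‹Nonempty O›
  have := tower hd o hΓ ((s - 1) / 2) ι T k hk
  rcases (show s = 2 * ((s - 1) / 2) + 1 ∨ s = 2 * ((s - 1) / 2) + 2 by omega) with e | e <;> rw [e]
  exacts [this.1, this.2]

end Pool.Agent.Lib.Q7.H43
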