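import Pool.Agent.Lib.MP_7157e1_co.X6

/-! Stacking on a family of simplex facets: general lemmas and small perturbations. -/

namespace Pool.Agent.Lib.Q7.H43

open Module Function Finset Filter Topology Pool.Agent.Lib.MP_7157e1_co

section General
variable {ι : Type} [Fintype ι] {E : Submodule ℝ (ι → ℝ)} {d : ℕ}

theorem cr_insert (A : Set ι) (i : ι) : cr E A ≤ cr E (insert i A) + 1 := by
  let ev : van E A →ₗ[ℝ] ℝ := (LinearMap.proj i).comp (van E A).subtype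
  have h1 := ev.finrank_range_add_finrank_ker
  have h2 : finrank ℝ ev.range ≤ 1 := (Submodule.finrank_le _).trans (finrank_self ℝ).le
  have h3 : finrank ℝ ev.ker ≤ cr E (insert i A) := by
    rw [← Submodule.finrank_map_subtype_eq]
    refine Submodule.finrank_mono ?_
    rintro _ ⟨f, hf, rfl⟩
    refine ⟨f.2.1, fun j hj => ?_⟩
    rcases hj with rfl | hj
    · exact hf
    · exact f.2.2 j hj
  unfold cr at h3 ⊢
  omega

theorem cr_fin (s : Finset ι) : cr E ∅ ≤ cr E s + s.card := by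
  classical
  induction s using Finset.induction_on with
  | empty => simp
  | insert i s hi ih =>
    have := cr_insert (E := E) s i
    rw [card_insert_of_notMem hi, coe_insert]
    omega

theorem cr_one {G : {G // IsF E G}} : G ⋖ ⟨Set.univ, isF_univ⟩ ↔ cr E G.1 = 1 := by
  rw [covBy_iff_cr]
  simp only [cr_univ, zero_add]
  exact and_iff_right (Set.subset_univ _)

omit [Fintype ι] in
theorem ne_univ {G : Set ι} (h : 1 ≤ cr E G) : G ≠ Set.univ := fun e => by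
  rw [e, cr_univ] at h
  omega

theorem cr_pos {G : Set ι} (hG : IsF E G) (h : G ≠ Set.univ) : 1 ≤ cr E G := by
  by_contra h1
  exact h (hG.eq_of_cr (Set.subset_univ _) (by omega))

/-- a facet is a maximal proper face -/
theorem fac_max {G H : Set ι} (hG : IsF E G) (h1 : cr E G = 1) (hH : IsF E H) (h : G ⊆ H)
    (hne : H ≠ Set.univ) : G = H := hG.eq_of_cr h (by rw [h1]; exact cr_pos hH hne)

theorem ex_fac {G : Set ι} (hG : IsF E G) (h : G ≠ Set.univ) :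
    ∃ H, IsF E H ∧ G ⊆ H ∧ cr E H = 1 := by
  obtain ⟨H, h1, h2, -, h3⟩ := graded hG isF_univ (Set.subset_univ _) (c := 1)
    (by rw [cr_univ]; omega) (cr_pos hG h)
  exact ⟨H, h1, h2, h3⟩

theorem max_fac {G : Set ι} (hG : IsF E G) (h : G ≠ Set.univ)
    (hm : ∀ H, IsF E H → G ⊆ H → H ≠ Set.univ → H ⊆ G) : cr E G = 1 := by
  obtain ⟨H, h1, h2, h3⟩ := ex_fac hG h
  rw [h2.antisymm (hm H h1 h2 (ne_univ h3.ge)), h3]

/-- the number of facets containing a set -/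
noncomputable def deg (E : Submodule ℝ (ι → ℝ)) (G : Set ι) : ℕ :=
  {H : Set ι | IsF E H ∧ cr E H = 1 ∧ G ⊆ H}.ncard

theorem deg_anti {G G' : Set ι} (h : G ⊆ G') : deg E G' ≤ deg E G :=
  Set.ncard_le_ncard (fun _ k => ⟨k.1, k.2.1, h.trans k.2.2⟩) (Set.toFinite _)

theorem deg_le (e : {G // IsF E G} ≃o {G // IsF E G}) (G : {G // IsF E G}) :
    deg E G.1 ≤ deg E (e G).1 := by
  classical
  refine Set.ncard_le_ncard_of_injOn (fun H => if h : IsF E H then (e ⟨H, h⟩).1 else ∅)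
    (fun H hH => ?_) (fun H hH K hK h => ?_) (Set.toFinite _)
  · rw [dif_pos hH.1]
    exact ⟨(e _).2, (cr_iso e _).trans hH.2.1, e.monotone (show G ≤ ⟨H, hH.1⟩ from hH.2.2)⟩
  · dsimp only at h
    rw [dif_pos hH.1, dif_pos hK.1] at h
    exact congrArg Subtype.val (e.injective (Subtype.ext h))

theorem deg_iso (e : {G // IsF E G} ≃o {G // IsF E G}) (G : {G // IsF E G}) :
    deg E (e G).1 = deg E G.1 :=
  le_antisymm (by simpa using deg_le e.symm (e G)) (deg_le e G)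

/-- the vertices of a simplex whose boundary, but not the simplex, lies in the boundary -/
theorem deg_big (hd : 3 ≤ d) {F : Fin d → ι}
    (h1 : ∀ j, IsF E (F '' {j}ᶜ) ∧ cr E (F '' {j}ᶜ) = 2)
    (h2 : ∀ H, IsF E H → Set.range F ⊆ H → H = Set.univ) (j : Fin d) : d < deg E {F j} := by
  have key : ∀ k, ∃ g : Bool → Set ι, g true ≠ g false ∧
      ∀ b, IsF E (g b) ∧ cr E (g b) = 1 ∧ F '' {k}ᶜ ⊆ g b := fun k => by
    obtain ⟨G, g1, g2, g3⟩ := ex_fac (h1 k).1 (ne_univ (by rw [(h1 k).2]; omega))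
    obtain ⟨G', k1, k2, -, k3, k4, -⟩ := diamond (h1 k).1 g1 isF_univ g2 (Set.subset_univ _)
      (by rw [(h1 k).2, g3]) (by rw [g3, cr_univ])
    exact ⟨fun b => if b then G' else G, k4, fun b => by
      cases b
      · exact ⟨g1, g3, g2⟩
      · exact ⟨k1, k3.trans g3, k2⟩⟩
  choose g g1 g2 using key
  have hn : ∀ k b, F k ∉ g k b := fun k b h => ne_univ (g2 k b).2.1.ge (h2 _ (g2 k b).1 (by
    rintro _ ⟨l, rfl⟩
    by_cases e : l = k
    · rw [e]; exact h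
    · exact (g2 k b).2.2 ⟨l, e, rfl⟩))
  have hi : Injective fun z : {k // k ≠ j} × Bool => g z.1 z.2 := by
    rintro ⟨⟨k, hk⟩, b⟩ ⟨⟨l, hl⟩, c⟩ h
    dsimp only at h
    obtain rfl : k = l := by
      by_contra hne
      exact hn k b (h ▸ (g2 l c).2.2 ⟨k, hne, rfl⟩)
    obtain rfl : b = c := by
      by_contra hne
      cases b <;> cases c
      · exact hne rfl
      · exact g1 k h.symm
      · exact g1 k h
      · exact hne rfl
    rfl
  have h3 := Set.ncard_le_ncard (s := Set.range fun z : {k // k ≠ j} × Bool => g z.1 z.2)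
    (t := {H : Set ι | IsF E H ∧ cr E H = 1 ∧ {F j} ⊆ H}) (by
      rintro _ ⟨⟨⟨k, hk⟩, b⟩, rfl⟩
      exact ⟨(g2 k b).1, (g2 k b).2.1, Set.singleton_subset_iff.2
        ((g2 k b).2.2 ⟨j, fun h => hk (Eq.symm h), rfl⟩)⟩) (Set.toFinite _)
  rw [Set.ncard_range_of_injective hi, Nat.card_prod, Nat.card_eq_fintype_card,
    Nat.card_eq_fintype_card, Fintype.card_bool, Fintype.card_subtype_compl,
    Fintype.card_fin, Fintype.card_subtype_eq] at h3
  unfold deg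
  omega

/-- automorphisms permute the vertices -/
theorem iso_pt (hs : ∀ i, IsF E {i}) (hpos : IsF E ∅) (e : {G // IsF E G} ≃o {G // IsF E G})
    (z : ι) : ∃ z', deg E {z'} = deg E {z} ∧ ∀ G : {G // IsF E G}, z ∈ G.1 ↔ z' ∈ (e G).1 := by
  obtain ⟨z', hz⟩ := Set.ncard_eq_one.1 ((ncard_iso hs hpos e ⟨{z}, hs z⟩).trans
    (Set.ncard_singleton z))
  refine ⟨z', hz ▸ deg_iso e ⟨{z}, hs z⟩, fun G => ?_⟩
  rw [← Set.singleton_subset_iff, ← Set.singleton_subset_iff, ← hz]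
  exact (e.le_iff_le (x := ⟨{z}, hs z⟩) (y := G)).symm

/-- the number of flags as a sum over the facets -/
theorem card_sum (hpos : IsF E ∅) (hd : finrank ℝ E = d + 1) {Z : Type} [Fintype Z]
    (φ : Z → {G // IsF E G}) (hi : Injective φ)
    (h : ∀ H : {G // IsF E G}, cr E H.1 = 1 ↔ ∃ z, φ z = H) :
    Nat.card (Fl E d) = ∑ z, nc (φ z) := by
  classical
  rw [card_fl hpos hd, nc_sum (not_isMin_of_lt (b := ⟨∅, hpos⟩) (lt_of_le_of_ne
    (Set.empty_subset _) fun e => ne_univ (E := E) (by rw [cr_empty, hd]; omega)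
      (congrArg Subtype.val e))) (univ.image φ), sum_image fun _ _ _ _ e => hi e]
  intro H
  rw [cr_one, h, mem_image]
  simp

omit [Fintype ι] in
theorem ncard_union {Z : Type} [Fintype Z] [Finite ι] (X : Z → Set ι) {c : ℕ}
    (h : ∀ z, (X z).ncard ≤ c) : (⋃ z, X z).ncard ≤ Fintype.card Z * c := by
  classical
  have := Fintype.ofFinite ι
  rw [Set.ncard_eq_toFinset_card', Set.toFinset_iUnion]
  exact card_biUnion_le_card_mul _ _ _ fun z _ => by
    rw [← Set.ncard_eq_toFinset_card']; exact h z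

end General

/-- a polytope with a family of simplex facets and a group of symmetries -/
structure Tw (d : ℕ) (ι O Γ : Type) where
  E : Submodule ℝ (ι → ℝ)
  v : O → Fin d → ι
  π : Γ → Equiv.Perm ι
  α : Γ → Equiv.Perm O
  β : Γ → O → Equiv.Perm (Fin d)
  pos : IsF E ∅
  rk : finrank ℝ E = d + 1
  inj : ∀ o, Injective (v o)
  fac : ∀ o, IsF E (Set.range (v o))
  cr1 : ∀ o, cr E (Set.range (v o)) = 1
  dist : ∀ o o', Set.range (v o) = Set.range (v o') → o = o'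
  sym : ∀ γ, ∀ f ∈ E, f ∘ π γ ∈ E
  act : ∀ γ o j, π γ (v o j) = v (α γ o) (β γ o j)
  pinj : Injective π
  big : ∀ i, (∀ o j, v o j ≠ i) → IsF E {i} ∧ d < deg E {i}

namespace Tw
variable {d : ℕ} {ι O Γ : Type} [Fintype ι] [Fintype O] (T : Tw d ι O Γ)

omit [Fintype O] in
theorem cr2 (o : O) (j : Fin d) : 2 ≤ cr T.E (T.v o '' {j}ᶜ) := by
  classical
  have h1 := cr_fin (E := T.E) (({j}ᶜ : Finset (Fin d)).image (T.v o))
  rw [card_image_of_injective _ (T.inj o), card_compl, card_singleton, Fintype.card_fin, cr_empty,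
    T.rk, coe_image, coe_compl, coe_singleton] at h1
  have := j.2
  omega

omit [Fintype O] in
theorem ex_dual (o : O) (j : Fin d) :
    ∃ e ∈ T.E, ∀ k, e (T.v o k) = if k = j then 1 else 0 := by
  have h1 : van T.E (Set.range (T.v o)) < van T.E (T.v o '' {j}ᶜ) :=
    lt_of_le_of_ne (van_anti (Set.image_subset_range _ _)) fun e => by
      have h2 := T.cr2 o j
      have h3 := T.cr1 o
      unfold cr at h2 h3
      rw [e] at h3
      omega
  obtain ⟨f, f1, f2⟩ := SetLike.exists_of_lt h1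
  have h4 : f (T.v o j) ≠ 0 := fun h => f2 ⟨f1.1, by
    rintro _ ⟨k, rfl⟩
    by_cases e : k = j
    · rw [e]; exact h
    · exact f1.2 _ ⟨k, e, rfl⟩⟩
  refine ⟨(f (T.v o j))⁻¹ • f, T.E.smul_mem _ f1.1, fun k => ?_⟩
  rw [Pi.smul_apply, smul_eq_mul]
  split_ifs with e
  · rw [e, inv_mul_cancel₀ h4]
  · rw [f1.2 _ ⟨k, e, rfl⟩, mul_zero]

omit [Fintype O] in
theorem sub_isF (o : O) {S : Set ι} (h : S ⊆ Set.range (T.v o)) : IsF T.E S :=
  all_sub (T.fac o) (by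
    rintro _ ⟨j, rfl⟩
    obtain ⟨e, e1, e2⟩ := T.ex_dual o j
    refine ⟨e, e1, ?_, by rw [e2, if_pos rfl]; exact one_pos⟩
    rintro _ ⟨k, rfl⟩ hk
    rw [e2, if_neg fun h => hk (by rw [h])]) h

omit [Fintype O] in
theorem sing (i : ι) : IsF T.E {i} := by
  by_cases h : ∃ o j, T.v o j = i
  · obtain ⟨o, j, rfl⟩ := h
    exact T.sub_isF o (Set.singleton_subset_iff.2 ⟨j, rfl⟩)
  · push Not at h
    exact (T.big i h).1

omit [Fintype O] in
theorem cr2' (o : O) (j : Fin d) : cr T.E (T.v o '' {j}ᶜ) = 2 := by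
  have h1 := cr_insert (E := T.E) (T.v o '' {j}ᶜ) (T.v o j)
  rw [← Set.image_insert_eq, ← Set.singleton_union, Set.union_compl_self, Set.image_univ,
    T.cr1] at h1
  exact le_antisymm h1 (T.cr2 o j)

omit [Fintype O] in
theorem not_sub {o o' : O} (h : o' ≠ o) : ∃ j, T.v o' j ∉ Set.range (T.v o) := by
  by_contra hn
  push Not at hn
  exact h (T.dist _ _ (fac_max (T.fac o') (T.cr1 o') (T.fac o) (Set.range_subset_iff.2 hn)
    (ne_univ (T.cr1 o).ge)))

omit [Fintype O] in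
/-- coordinates adapted to a facet -/
theorem basis (o : O) : ∃ (e : Fin d → ι → ℝ) (g : ι → ℝ), (∀ j, e j ∈ T.E) ∧ g ∈ T.E ∧
    (∀ j k, e j (T.v o k) = if k = j then 1 else 0) ∧ (∀ j, ∑ i, e j i = 0) ∧
    (∀ j, g (T.v o j) = 0) ∧ (∀ i, i ∉ Set.range (T.v o) → 0 < g i) ∧ ∑ i, g i = 1 ∧
    ∀ f ∈ T.E, ∀ i, f i = ∑ j, f (T.v o j) * e j i + (∑ i, f i) * g i := by
  obtain ⟨g, g1, g2, g3⟩ := (T.fac o).fn
  obtain ⟨i0, hi⟩ := (Set.ne_univ_iff_exists_notMem _).1 (ne_univ (T.cr1 o).ge)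
  have hs : 0 < ∑ i, g i := sum_pos' (fun i _ => g2 i) ⟨i0, mem_univ _, g3 i0 hi⟩
  choose e e1 e2 using T.ex_dual o
  have g0 : ∀ j, g (T.v o j) = 0 := fun j => g1.2 _ ⟨j, rfl⟩
  have hsum : ∀ j, ∑ i, (e j - ((∑ i, e j i) / ∑ i, g i) • g) i = 0 := fun j => by
    simp only [Pi.sub_apply, Pi.smul_apply, smul_eq_mul, sum_sub_distrib, ← mul_sum]
    field_simp
    ring
  refine ⟨fun j => e j - ((∑ i, e j i) / ∑ i, g i) • g, (∑ i, g i)⁻¹ • g,
    fun j => T.E.sub_mem (e1 j) (T.E.smul_mem _ g1.1), T.E.smul_mem _ g1.1, fun j k => ?_, hsum,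
    fun j => ?_, fun i hi => mul_pos (inv_pos.2 hs) (g3 i hi), ?_, fun f hf => ?_⟩
  · simp only [Pi.sub_apply, Pi.smul_apply, g0, smul_zero, sub_zero, e2]
  · simp only [Pi.smul_apply, g0, smul_zero]
  · simp only [Pi.smul_apply, smul_eq_mul, ← mul_sum]
    exact inv_mul_cancel₀ hs.ne'
  · let h : ι → ℝ := f - ∑ j, f (T.v o j) • (e j - ((∑ i, e j i) / ∑ i, g i) • g)
    have hh : ∀ i, h i = f i - ∑ j, f (T.v o j) * (e j - ((∑ i, e j i) / ∑ i, g i) • g) i :=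
      fun i => by simp only [h, Pi.sub_apply, Finset.sum_apply, Pi.smul_apply, smul_eq_mul]
    have h1 : h ∈ van T.E (Set.range (T.v o)) := ⟨T.E.sub_mem hf (T.E.sum_mem fun j _ =>
      T.E.smul_mem _ (T.E.sub_mem (e1 j) (T.E.smul_mem _ g1.1))), by
        rintro _ ⟨k, rfl⟩
        rw [hh]
        simp [g0, e2]⟩
    obtain ⟨c, hc⟩ := one_dim (Set.subset_univ _) (by rw [T.cr1, cr_univ]) g1 (Set.mem_univ i0)
      (g3 i0 hi).ne' h1
    have h2 : ∑ i, f i = c * ∑ i, g i := by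
      rw [mul_sum, ← sum_congr rfl fun i _ => hc i trivial, sum_congr rfl fun i _ => hh i,
        sum_sub_distrib, sum_comm]
      simp only [← mul_sum, hsum, mul_zero, sum_const_zero, sub_zero]
    intro i
    have h3 := hc i trivial
    rw [hh] at h3
    rw [h2, Pi.smul_apply, smul_eq_mul, mul_assoc, mul_inv_cancel_left₀ hs.ne']
    linarith

omit [Fintype O] in
theorem ex_val (o : O) (x : Fin d → ℝ) (t : ℝ) :
    ∃ f ∈ T.E, (∀ j, f (T.v o j) = x j) ∧ ∑ i, f i = t := by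
  obtain ⟨e, g, e1, g1, e2, e3, g2, -, g3, -⟩ := T.basis o
  refine ⟨∑ j, x j • e j + t • g, T.E.add_mem (T.E.sum_mem fun j _ => T.E.smul_mem _ (e1 j))
    (T.E.smul_mem _ g1), fun j => by simp [e2, g2], ?_⟩
  simp only [Pi.add_apply, Finset.sum_apply, Pi.smul_apply, smul_eq_mul, sum_add_distrib]
  rw [sum_comm]
  simp only [← mul_sum, e3, g3, mul_zero, sum_const_zero, zero_add, mul_one]

/-- the smallness conditions -/
structure Eps (ε : ℝ) : Prop where
  pos : 0 < ε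
  far : ∀ o, ∀ f ∈ T.E, (∀ j, 0 ≤ f (T.v o j)) → ∑ j, f (T.v o j) ≤ ε * ∑ i, f i →
    0 < ∑ i, f i → ∀ i, i ∉ Set.range (T.v o) → ε * ∑ i, f i < f i
  old : ∀ H, IsF T.E H → (∀ o, ¬Set.range (T.v o) ⊆ H) → ∃ f ∈ T.E, (∀ i, 0 ≤ f i) ∧
    (∀ i, f i = 0 ↔ i ∈ H) ∧ ∀ o, ε * ∑ i, f i < ∑ j, f (T.v o j)

theorem small (a b : ℝ) (hb : 0 < b) : ∀ᶠ ε in 𝓝[>] (0 : ℝ), ε * a < b := by
  refine nhdsWithin_le_nhds (Tendsto.eventually_lt_const hb ?_)
  simpa using (tendsto_id (x := 𝓝 (0 : ℝ))).mul_const a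

theorem ex_eps : ∃ ε, T.Eps ε := by
  choose e g e1 g1 e2 e3 g2 g3 g4 g5 using T.basis
  have h1 : ∀ᶠ ε in 𝓝[>] (0 : ℝ), ∀ o i, i ∉ Set.range (T.v o) →
      ε * (1 + ∑ j, |e o j i|) < g o i :=
    eventually_all.2 fun o => eventually_all.2 fun i => eventually_imp_distrib_left.2
      fun hi => small _ _ (g3 o i hi)
  have h2 : ∀ᶠ ε in 𝓝[>] (0 : ℝ), ∀ H, IsF T.E H → (∀ o, ¬Set.range (T.v o) ⊆ H) →
      ∃ f ∈ T.E, (∀ i, 0 ≤ f i) ∧ (∀ i, f i = 0 ↔ i ∈ H) ∧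
        ∀ o, ε * ∑ i, f i < ∑ j, f (T.v o j) := by
    refine eventually_all.2 fun H => eventually_imp_distrib_left.2 fun hH =>
      eventually_imp_distrib_left.2 fun hn => ?_
    obtain ⟨f, f1, f2, f3⟩ := hH
    refine (eventually_all.2 fun o => small (∑ i, f i) (∑ j, f (T.v o j)) ?_).mono
      fun ε h => ⟨f, f1, f2, f3, h⟩
    obtain ⟨_, ⟨j, rfl⟩, hj⟩ := Set.not_subset.1 (hn o)
    exact sum_pos' (fun k _ => f2 _) ⟨j, mem_univ _, (f2 _).lt_of_ne' fun h => hj ((f3 _).1 h)⟩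
  obtain ⟨ε, ⟨k1, k2⟩, k3⟩ := ((h1.and h2).and self_mem_nhdsWithin).exists
  refine ⟨ε, k3, fun o f hf a1 a2 a3 i hi => ?_, k2⟩
  have b1 := mul_lt_mul_of_pos_left (k1 o i hi) a3
  have b2 : -((ε * ∑ i, f i) * ∑ j, |e o j i|) ≤ ∑ j, f (T.v o j) * e o j i := by
    rw [mul_sum, ← sum_neg_distrib]
    refine sum_le_sum fun j _ => ?_
    have c1 : f (T.v o j) ≤ ε * ∑ i, f i :=
      (single_le_sum (fun k _ => a1 k) (mem_univ j)).trans a2
    have c2 := mul_le_mul_of_nonneg_left (neg_abs_le (e o j i)) (a1 j)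
    have c3 := mul_le_mul_of_nonneg_right c1 (abs_nonneg (e o j i))
    linarith
  rw [g5 o f hf i]
  linarith

end Tw

end Pool.Agent.Lib.Q7.H43
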