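import Pool.Agent.Lib.Q7.Stack43a

/-! Stacking on a family of simplex facets: the faces of the new polytope. -/

namespace Pool.Agent.Lib.Q7.H43

open Module Function Finset Pool.Agent.Lib.MP_7157e1_co

namespace Tw
variable {d : ℕ} {ι O Γ J : Type} [Fintype ι] [Fintype O] (T : Tw d ι O Γ)

noncomputable def ε : ℝ := T.ex_eps.choose

theorem eps : T.Eps T.ε := T.ex_eps.choose_spec

/-- the values at the new points -/
noncomputable def ext (A : J → Fin d → ℝ) : (ι → ℝ) →ₗ[ℝ] (ι ⊕ O × J → ℝ) where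
  toFun f := Sum.elim f fun z => ∑ j, A z.2 j * f (T.v z.1 j) - T.ε * ∑ i, f i
  map_add' f g := by
    ext (i | z)
    · rfl
    · simp only [Sum.elim_inr, Pi.add_apply, mul_add, sum_add_distrib]
      ring
  map_smul' c f := by
    ext (i | z)
    · rfl
    · simp only [Sum.elim_inr, Pi.smul_apply, smul_eq_mul, RingHom.id_apply, mul_sub, mul_sum,
        mul_left_comm c]

/-- the new space of functions -/
noncomputable def NE (A : J → Fin d → ℝ) : Submodule ℝ (ι ⊕ O × J → ℝ) := T.E.map (T.ext A)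

/-- old vertices of a facet and new points over it -/
def VW (o : O) (S : Set (Fin d)) (K : Set J) : Set (ι ⊕ O × J) :=
  {z | Sum.elim (fun i => i ∈ T.v o '' S) (fun y => y.1 = o ∧ y.2 ∈ K) z}

variable {T} {A : J → Fin d → ℝ} {o o' : O} {S S' : Set (Fin d)} {K K' : Set J}

omit [Fintype ι] [Fintype O] in
theorem VW_l {i : ι} : Sum.inl i ∈ T.VW o S K ↔ i ∈ T.v o '' S := Iff.rfl

omit [Fintype ι] [Fintype O] in
theorem VW_v {j : Fin d} : Sum.inl (T.v o j) ∈ T.VW o S K ↔ j ∈ S := (T.inj o).mem_set_image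

omit [Fintype ι] [Fintype O] in
theorem VW_r {k : J} : Sum.inr (o', k) ∈ T.VW o S K ↔ o' = o ∧ k ∈ K := Iff.rfl

omit [Fintype ι] [Fintype O] in
theorem VW_mono (h1 : S ⊆ S') (h2 : K ⊆ K') : T.VW o S K ⊆ T.VW o S' K' := by
  rintro (i | ⟨p, k⟩) h
  · exact Set.image_mono h1 h
  · exact ⟨h.1, h2 h.2⟩

omit [Fintype ι] [Fintype O] in
theorem VW_sub (hK : K.Nonempty) (h : T.VW o S K ⊆ T.VW o' S' K') : o = o' ∧ S ⊆ S' ∧ K ⊆ K' := by
  obtain ⟨k, hk⟩ := hK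
  obtain rfl : o = o' := (h (VW_r.2 ⟨rfl, hk⟩)).1
  exact ⟨rfl, fun j hj => VW_v.1 (h (VW_v.2 hj)), fun l hl => (h (VW_r.2 ⟨rfl, hl⟩)).2⟩

theorem ext_inj : Injective (T.ext A) := fun _ _ h => funext fun i => congrFun h (Sum.inl i)

theorem rk_NE : finrank ℝ (T.NE A) = d + 1 := by
  rw [← T.rk]
  exact (Submodule.equivMapOfInjective _ ext_inj _).finrank_eq.symm

theorem cr_inl (H : Set ι) : cr (T.NE A) (Sum.inl '' H) = cr T.E H := by
  have : van (T.NE A) (Sum.inl '' H) = (van T.E H).map (T.ext A) := by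
    ext f
    constructor
    · rintro ⟨⟨g, g1, rfl⟩, h⟩
      exact ⟨g, ⟨g1, fun i hi => h _ ⟨i, hi, rfl⟩⟩, rfl⟩
    · rintro ⟨g, g1, rfl⟩
      exact ⟨⟨g, g1.1, rfl⟩, by rintro _ ⟨i, hi, rfl⟩; exact g1.2 i hi⟩
  rw [cr, this]
  exact (Submodule.equivMapOfInjective _ ext_inj _).finrank_eq.symm

theorem isF_pre {G : Set (ι ⊕ O × J)} (h : IsF (T.NE A) G) : IsF T.E (Sum.inl ⁻¹' G) := by
  obtain ⟨_, ⟨f, f1, rfl⟩, f2, f3⟩ := h
  exact ⟨f, f1, fun i => f2 (Sum.inl i), fun i => f3 (Sum.inl i)⟩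

variable (hA : ∀ k j, 1 ≤ A k j)
include hA

omit [Fintype ι] [Fintype O] in
theorem sum_le {x : Fin d → ℝ} (hx : ∀ j, 0 ≤ x j) (k : J) : ∑ j, x j ≤ ∑ j, A k j * x j :=
  sum_le_sum fun j _ => le_mul_of_one_le_left (hx j) (hA k j)

theorem isF_old {H : Set ι} (hH : IsF T.E H) (h : ∀ o, ¬Set.range (T.v o) ⊆ H) :
    IsF (T.NE A) (Sum.inl '' H) := by
  obtain ⟨f, f1, f2, f3, f4⟩ := T.eps.old H hH h
  have key : ∀ z : O × J, 0 < T.ext A f (Sum.inr z) := fun z =>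
    sub_pos.2 ((f4 z.1).trans_le (sum_le hA (fun j => f2 _) z.2))
  refine ⟨_, ⟨f, f1, rfl⟩, ?_, ?_⟩
  · rintro (i | z)
    exacts [f2 i, (key z).le]
  · rintro (i | z)
    · exact (f3 i).trans Sum.inl_injective.mem_set_image.symm
    · exact iff_of_false (key z).ne' (by simp)

/-- the zero set of a function that vanishes at a new point -/
theorem zero_new {f : ι → ℝ} (hf : f ∈ T.E) (h0 : ∀ j, 0 ≤ f (T.v o j)) (hs : 0 < ∑ i, f i)
    {k : J} (hk : ∑ j, A k j * f (T.v o j) = T.ε * ∑ i, f i) :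
    (∀ i, 0 ≤ f i) ∧ (∀ p, p ≠ o → ∀ l, 0 < T.ext A f (Sum.inr (p, l))) ∧
      ∀ z, T.ext A f z = 0 ↔ z ∈ T.VW o {j | f (T.v o j) = 0}
        {l | ∑ j, A l j * f (T.v o j) = T.ε * ∑ i, f i} := by
  have h1 := T.eps.far o f hf h0 ((sum_le hA h0 k).trans hk.le) hs
  have h2 := mul_pos T.eps.pos hs
  have h3 : ∀ i, 0 ≤ f i := fun i => by
    by_cases hi : i ∈ Set.range (T.v o)
    · obtain ⟨j, rfl⟩ := hi
      exact h0 j
    · exact (h2.trans (h1 i hi)).le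
  have h4 : ∀ p, p ≠ o → ∀ l, 0 < T.ext A f (Sum.inr (p, l)) := fun p hp l => by
    obtain ⟨j, hj⟩ := T.not_sub hp
    exact sub_pos.2 (((h1 _ hj).trans_le (single_le_sum (f := fun j => f (T.v p j))
      (fun k _ => h3 _) (mem_univ j))).trans_le (sum_le hA (fun j => h3 _) l))
  refine ⟨h3, h4, ?_⟩
  rintro (i | ⟨p, l⟩)
  · refine ⟨fun h => ?_, ?_⟩
    · by_cases hi : i ∈ Set.range (T.v o)
      · obtain ⟨j, rfl⟩ := hi
        exact ⟨j, h, rfl⟩
      · exact absurd h (h2.trans (h1 i hi)).ne'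
    · rintro ⟨j, hj, rfl⟩
      exact hj
  · by_cases hp : p = o
    · subst hp
      exact sub_eq_zero.trans (and_iff_right rfl).symm
    · exact iff_of_false (h4 p hp l).ne' fun h => hp h.1

theorem isF_new (o : O) (x : Fin d → ℝ) (t : ℝ) (ht : 0 < t) (hx : ∀ j, 0 ≤ x j)
    (h1 : ∀ k, t ≤ ∑ j, A k j * x j) (hK : K.Nonempty) (h2 : ∀ j, j ∈ S ↔ x j = 0)
    (h3 : ∀ k, k ∈ K ↔ ∑ j, A k j * x j = t) : IsF (T.NE A) (T.VW o S K) := by
  obtain ⟨f, f1, f2, f3⟩ := T.ex_val o x (t / T.ε)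
  obtain ⟨k, hk⟩ := hK
  have e : T.ε * ∑ i, f i = t := by rw [f3, mul_div_cancel₀ _ T.eps.pos.ne']
  obtain ⟨a1, a2, a3⟩ := zero_new hA (o := o) f1 (fun j => (f2 j).symm ▸ hx j)
    (f3.symm ▸ div_pos ht T.eps.pos) (k := k) (by simp only [f2, e, (h3 k).1 hk])
  refine ⟨_, ⟨f, f1, rfl⟩, ?_, fun z => (a3 z).trans ?_⟩
  · rintro (i | ⟨p, l⟩)
    · exact a1 i
    · by_cases hp : p = o
      · subst hp
        refine sub_nonneg.2 ?_
        simp only [f2, e, h1]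
      · exact (a2 p hp l).le
  · simp only [f2, e, ← h2, ← h3, Set.ofPred_mem_eq]

theorem cases [Nonempty J] {G : Set (ι ⊕ O × J)} (h : IsF (T.NE A) G) (hne : G ≠ Set.univ) :
    (∃ H, IsF T.E H ∧ (∀ o, ¬Set.range (T.v o) ⊆ H) ∧ G = Sum.inl '' H) ∨
      ∃ (o : O) (x : Fin d → ℝ) (t : ℝ), 0 < t ∧ (∀ j, 0 ≤ x j) ∧ (∀ k, t ≤ ∑ j, A k j * x j) ∧
        (∃ k, ∑ j, A k j * x j = t) ∧ G = T.VW o {j | x j = 0} {k | ∑ j, A k j * x j = t} := by
  have hp := isF_pre h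
  obtain ⟨_, ⟨f, f1, rfl⟩, f2, f3⟩ := h
  have f4 : ∀ i, 0 ≤ f i := fun i => f2 (Sum.inl i)
  have hs : 0 < ∑ i, f i := (sum_nonneg fun i _ => f4 i).lt_of_ne' fun h => hne (by
    have : f = 0 := funext fun i => (sum_eq_zero_iff_of_nonneg fun i _ => f4 i).1 h i (mem_univ _)
    refine Set.eq_univ_of_forall fun z => (f3 z).1 ?_
    rw [this, map_zero]
    rfl)
  by_cases hz : ∃ z, Sum.inr z ∈ G
  · obtain ⟨⟨o, k⟩, hk⟩ := hz
    have h1 := sub_eq_zero.1 ((f3 _).2 hk)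
    exact Or.inr ⟨o, fun j => f (T.v o j), _, mul_pos T.eps.pos hs, fun j => f4 _,
      fun l => sub_nonneg.1 (f2 (Sum.inr (o, l))), ⟨k, h1⟩,
      Set.ext fun z => (f3 z).symm.trans ((zero_new hA f1 (fun j => f4 _) hs h1).2.2 z)⟩
  · refine Or.inl ⟨_, hp, fun o h => ?_, Set.ext ?_⟩
    · obtain ⟨k⟩ := ‹Nonempty J›
      have h1 := sub_nonneg.1 (f2 (Sum.inr (o, k)))
      have h2 : ∑ j, A k j * f (T.v o j) = 0 := sum_eq_zero fun j _ => by
        rw [show f (T.v o j) = 0 from (f3 (Sum.inl _)).2 (h ⟨j, rfl⟩), mul_zero]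
      exact absurd (mul_pos T.eps.pos hs) (not_lt.2 (h1.trans h2.le))
    · rintro (i | z)
      · exact (Sum.inl_injective.mem_set_image (s := Sum.inl ⁻¹' G)).symm
      · exact iff_of_false (fun h => hz ⟨z, h⟩) (by simp)

omit [Fintype ι] [Fintype O] hA in
theorem zero_ne {x : Fin d → ℝ} {t : ℝ} (ht : 0 < t) {k : J} (h : t ≤ ∑ j, A k j * x j) :
    {j | x j = 0} ≠ Set.univ := fun e => by
  rw [sum_eq_zero fun j _ => by rw [show x j = 0 from e.ge trivial, mul_zero]] at h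
  exact absurd ht (not_lt.2 h)

/-- no proper face contains an old facet of the family -/
theorem no_top [Nonempty J] [Finite J] {G : Set (ι ⊕ O × J)} (h : IsF (T.NE A) G)
    (hs : Set.range (fun j => Sum.inl (T.v o j)) ⊆ G) : G = Set.univ := by
  by_contra hne
  rcases cases hA h hne with ⟨H, -, h1, rfl⟩ | ⟨p, x, t, h1, -, h2, ⟨k, -⟩, rfl⟩
  · refine h1 o ?_
    rintro _ ⟨j, rfl⟩
    exact Sum.inl_injective.mem_set_image.1 (hs ⟨j, rfl⟩)
  · by_cases hp : o = p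
    · subst hp
      exact zero_ne h1 (h2 k) (Set.eq_univ_of_forall fun j => VW_v.1 (hs ⟨j, rfl⟩))
    · obtain ⟨j, hj⟩ := T.not_sub hp
      exact hj (Set.image_subset_range _ _ (hs ⟨j, rfl⟩))

omit hA [Fintype O] in
theorem small_not (hS : S ≠ Set.univ) (p : O) :
    ¬Set.range (T.v p) ⊆ T.v o '' S := fun h => by
  obtain rfl : p = o := by
    by_contra hp
    obtain ⟨j, hj⟩ := T.not_sub hp
    exact hj (Set.image_subset_range _ _ (h ⟨j, rfl⟩))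
  exact hS (Set.eq_univ_of_forall fun j => (T.inj p).mem_set_image.1 (h ⟨j, rfl⟩))

omit hA [Fintype ι] [Fintype O] in
theorem sing_not (hd : 3 ≤ d) (i : ι) (p : O) : ¬Set.range (T.v p) ⊆ {i} := fun h => by
  have h1 : T.v p ⟨0, by omega⟩ = T.v p ⟨1, by omega⟩ :=
    (h ⟨_, rfl⟩ : _ = i).trans (h ⟨_, rfl⟩ : _ = i).symm
  exact absurd (congrArg Fin.val (T.inj p h1)) (by simp)

theorem sing_old (hd : 3 ≤ d) (i : ι) : IsF (T.NE A) {Sum.inl i} := by
  rw [← Set.image_singleton]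
  exact isF_old hA (T.sing i) (sing_not hd i)

theorem pos_NE (hd : 3 ≤ d) : IsF (T.NE A) ∅ := by
  rw [← Set.image_empty Sum.inl]
  exact isF_old hA T.pos fun o h => h ⟨⟨0, by omega⟩, rfl⟩

/-- all old vertices lie in more than `d` facets -/
theorem big_old [Nonempty J] [Fintype J] (hd : 3 ≤ d) (i : ι) : d < deg (T.NE A) {Sum.inl i} := by
  by_cases hi : ∃ o j, T.v o j = i
  · obtain ⟨o, j, rfl⟩ := hi
    refine deg_big hd (F := fun j => Sum.inl (T.v o j)) (fun k => ?_) (fun H => no_top hA) j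
    rw [← Set.image_image Sum.inl (T.v o), cr_inl]
    exact ⟨isF_old hA (T.sub_isF o (Set.image_subset_range _ _))
      (small_not fun e => (e.ge (Set.mem_univ k)) rfl), T.cr2' o k⟩
  · push Not at hi
    refine (T.big i hi).2.trans_le (Set.ncard_le_ncard_of_injOn (fun H => Sum.inl '' H)
      (fun H hH => ⟨isF_old hA hH.1 fun o h => ?_, (cr_inl H).trans hH.2.1, ?_⟩)
      (Sum.inl_injective.image_injective.injOn) (Set.toFinite _))
    · obtain ⟨j, hj⟩ := (fac_max (T.fac o) (T.cr1 o) hH.1 h (ne_univ hH.2.1.ge)).ge (hH.2.2 rfl)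
      exact hi o j hj
    · rw [← Set.image_singleton]
      exact Set.image_mono hH.2.2

omit hA in
/-- the symmetries extend -/
theorem sym_NE (γ : Γ) (ψ : Equiv.Perm (O × J)) (h1 : ∀ z, (ψ z).1 = T.α γ z.1)
    (h2 : ∀ z j, A (ψ z).2 (T.β γ z.1 j) = A z.2 j) :
    ∀ f ∈ T.NE A, f ∘ Equiv.sumCongr (T.π γ) ψ ∈ T.NE A := by
  rintro _ ⟨f, f1, rfl⟩
  refine ⟨f ∘ T.π γ, T.sym γ f f1, funext ?_⟩
  rintro (i | z)
  · rfl
  · change ∑ j, A z.2 j * f (T.π γ (T.v z.1 j)) - T.ε * ∑ i, f (T.π γ i) =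
      ∑ j, A (ψ z).2 j * f (T.v (ψ z).1 j) - T.ε * ∑ i, f i
    rw [Equiv.sum_comp (T.π γ) f, h1,
      ← Equiv.sum_comp (T.β γ z.1) fun j => A (ψ z).2 j * f (T.v (T.α γ z.1) j)]
    simp only [h2, T.act]

end Tw

end Pool.Agent.Lib.Q7.H43
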