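import Pool.Agent.Lib.Q7.Stack43b

/-! Stacking on a family of simplex facets: facets and the number of flags. -/

namespace Pool.Agent.Lib.Q7.H43

open Module Function Finset Pool.Agent.Lib.MP_7157e1_co

namespace Tw
variable {d : ℕ} {ι O Γ J Y : Type} [Fintype ι] [Fintype O] [Fintype J] {T : Tw d ι O Γ}
  {A : J → Fin d → ℝ} {o : O} {S : Set (Fin d)} {K : Set J}

omit [Fintype ι] [Fintype O] [Fintype J] in
theorem eq_VW {G : Set (ι ⊕ O × J)} (h : G ⊆ T.VW o S K) :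
    G = T.VW o {j | Sum.inl (T.v o j) ∈ G} {k | Sum.inr (o, k) ∈ G} := by
  ext (i | ⟨p, k⟩)
  · refine ⟨fun hi => ?_, ?_⟩
    · obtain ⟨j, -, rfl⟩ := h hi
      exact ⟨j, hi, rfl⟩
    · rintro ⟨j, hj, rfl⟩
      exact hj
  · refine ⟨fun hi => ?_, ?_⟩
    · obtain rfl : p = o := (h hi).1
      exact ⟨rfl, hi⟩
    · rintro ⟨rfl, hk⟩
      exact hk

omit [Fintype ι] [Fintype O] [Fintype J] in
theorem VW_empty : T.VW o S (∅ : Set J) = Sum.inl '' (T.v o '' S) := by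
  ext (i | ⟨p, k⟩)
  · exact (Sum.inl_injective.mem_set_image (s := T.v o '' S)).symm
  · exact iff_of_false (fun h => h.2) (by simp)

omit [Fintype ι] [Fintype O] [Fintype J] in
theorem VW_eq : T.VW o S K =
    (fun j => Sum.inl (T.v o j)) '' S ∪ (fun k => Sum.inr (o, k)) '' K := by
  ext (i | ⟨p, k⟩)
  · simp [VW_l]
  · simp [VW_r, eq_comm, and_comm]

omit [Fintype O] [Fintype ι] in
theorem VW_ncard : (T.VW o S K).ncard = S.ncard + K.ncard := by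
  rw [VW_eq, Set.ncard_union_eq (by simp [Set.disjoint_left]),
    Set.ncard_image_of_injective _ fun _ _ h => T.inj o (Sum.inl_injective h),
    Set.ncard_image_of_injective _ fun _ _ h => congrArg Prod.snd (Sum.inr_injective h)]

omit [Fintype J] in
theorem old_V (hA : ∀ k j, 1 ≤ A k j) (hS : S ≠ Set.univ) : IsF (T.NE A) (T.VW o S ∅) := by
  rw [VW_empty]
  exact isF_old hA (T.sub_isF o (Set.image_subset_range _ _)) (small_not hS)

/-- a description of the new facets -/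
structure Fam (T : Tw d ι O Γ) (A : J → Fin d → ℝ) (a : Y → Set (Fin d)) (b : Y → Set J) :
    Prop where
  one : ∀ k j, 1 ≤ A k j
  ne : Nonempty J
  face : ∀ o y, IsF (T.NE A) (T.VW o (a y) (b y))
  bne : ∀ y, (b y).Nonempty
  ane : ∀ y, a y ≠ Set.univ
  cover : ∀ (x : Fin d → ℝ) (t : ℝ), 0 < t → (∀ j, 0 ≤ x j) → (∀ k, t ≤ ∑ j, A k j * x j) →
    (∃ k, ∑ j, A k j * x j = t) → ∃ y, {j | x j = 0} ⊆ a y ∧ {k | ∑ j, A k j * x j = t} ⊆ b y
  anti : ∀ y y', a y ⊆ a y' → b y ⊆ b y' → y = y'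
  sing : ∀ z, IsF (T.NE A) {Sum.inr z}
  small : ∀ k, {y | k ∈ b y}.ncard ≤ d

variable {a : Y → Set (Fin d)} {b : Y → Set J} (F : Fam T A a b)
include F

omit [Fintype J] in
theorem Fam.proper (o : O) (y : Y) : T.VW o (a y) (b y) ≠ Set.univ := fun e => F.ane y
  (Set.eq_univ_of_forall fun j => VW_v.1 (e.ge (Set.mem_univ (Sum.inl (T.v o j)))))

theorem Fam.cr_new (o : O) (y : Y) : cr (T.NE A) (T.VW o (a y) (b y)) = 1 := by
  have := F.ne
  refine max_fac (F.face o y) (F.proper o y) fun H hH h hne => ?_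
  rcases cases F.one hH hne with ⟨G, -, -, rfl⟩ | ⟨p, x, t, h1, h2, h3, h4, rfl⟩
  · obtain ⟨k, hk⟩ := F.bne y
    simpa using h (VW_r.2 ⟨rfl, hk⟩)
  · obtain ⟨y', k1, k2⟩ := F.cover x t h1 h2 h3 h4
    obtain ⟨rfl, k3, k4⟩ := VW_sub (F.bne y) (h.trans (VW_mono k1 k2))
    rw [F.anti y y' k3 k4]
    exact VW_mono k1 k2

theorem Fam.facet {G : Set (ι ⊕ O × J)} (h : IsF (T.NE A) G) (hc : cr (T.NE A) G = 1) :
    (∃ H, IsF T.E H ∧ cr T.E H = 1 ∧ (∀ o, ¬Set.range (T.v o) ⊆ H) ∧ G = Sum.inl '' H) ∨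
      ∃ o y, G = T.VW o (a y) (b y) := by
  have := F.ne
  rcases cases F.one h (ne_univ hc.ge) with ⟨H, h1, h2, rfl⟩ | ⟨p, x, t, h1, h2, h3, h4, rfl⟩
  · exact Or.inl ⟨H, h1, (cr_inl H).symm.trans hc, h2, rfl⟩
  · obtain ⟨y, k1, k2⟩ := F.cover x t h1 h2 h3 h4
    exact Or.inr ⟨p, y, fac_max h hc (F.face p y) (VW_mono k1 k2) (F.proper p y)⟩

omit [Fintype J] in
theorem Fam.sing' (hd : 3 ≤ d) : ∀ z, IsF (T.NE A) {z}
  | Sum.inl i => sing_old F.one hd i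
  | Sum.inr z => F.sing z

theorem Fam.deg_new [Finite Y] (z : O × J) : deg (T.NE A) {Sum.inr z} ≤ d := by
  refine le_trans (Set.ncard_le_ncard (t := (fun y => T.VW z.1 (a y) (b y)) '' {y | z.2 ∈ b y})
    (fun G hG => ?_) (Set.toFinite _)) ((Set.ncard_image_le (Set.toFinite _)).trans (F.small _))
  rcases F.facet hG.1 hG.2.1 with ⟨H, -, -, -, rfl⟩ | ⟨o, y, rfl⟩
  · simpa using hG.2.2 rfl
  · obtain ⟨h1, h2⟩ := hG.2.2 rfl
    exact ⟨y, h2, by rw [← h1]⟩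

/-- automorphisms keep old and new vertices apart -/
theorem Fam.side [Finite Y] (hd : 3 ≤ d) (e : {G // IsF (T.NE A) G} ≃o {G // IsF (T.NE A) G})
    (G : {G // IsF (T.NE A) G}) : ((∃ i, Sum.inl i ∈ G.1) → ∃ i, Sum.inl i ∈ (e G).1) ∧
      ((∃ z, Sum.inr z ∈ G.1) → ∃ z, Sum.inr z ∈ (e G).1) := by
  have := F.ne
  refine ⟨fun ⟨i, hi⟩ => ?_, fun ⟨z, hz⟩ => ?_⟩
  · obtain ⟨i' | z', h1, h2⟩ := iso_pt (F.sing' hd) (pos_NE F.one hd) e (Sum.inl i)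
    · exact ⟨i', (h2 G).1 hi⟩
    · exact absurd (big_old F.one hd i) (not_lt.2 (h1 ▸ F.deg_new z'))
  · obtain ⟨i' | z', h1, h2⟩ := iso_pt (F.sing' hd) (pos_NE F.one hd) e (Sum.inr z)
    · exact absurd (big_old F.one hd i') (not_lt.2 (h1 ▸ F.deg_new z))
    · exact ⟨z', (h2 G).1 hz⟩

theorem Fam.count [Fintype Y] (hd : 3 ≤ d) {c : ℕ}
    (hc : ∀ o, ∑ y, nc (⟨_, F.face o y⟩ : {G // IsF (T.NE A) G}) = c) :
    Nat.card (Fl (T.NE A) d) + Fintype.card O * d.factorial =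
      Nat.card (Fl T.E d) + Fintype.card O * c := by
  classical
  let Z := {G : {G // IsF T.E G} // cr T.E G.1 = 1 ∧ ∀ o, ¬Set.range (T.v o) ⊆ G.1}
  let l : Z → {G // IsF (T.NE A) G} := fun G => ⟨_, isF_old F.one G.1.2 G.2.2⟩
  have h1 := card_sum T.pos T.rk (Z := Z ⊕ O) (Sum.elim Subtype.val fun o => ⟨_, T.fac o⟩)
    (Subtype.val_injective.sumElim (fun o p e => T.dist o p (congrArg Subtype.val e))
      fun G o e => G.2.2 o (congrArg Subtype.val e).ge) fun H => ⟨fun h => ?_, ?_⟩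
  rotate_left
  · by_cases hn : ∀ o, ¬Set.range (T.v o) ⊆ H.1
    · exact ⟨Sum.inl ⟨H, h, hn⟩, rfl⟩
    · push Not at hn
      obtain ⟨o, ho⟩ := hn
      exact ⟨Sum.inr o, Subtype.ext (fac_max (T.fac o) (T.cr1 o) H.2 ho (ne_univ h.ge))⟩
  · rintro ⟨G | o, rfl⟩
    exacts [G.2.1, T.cr1 o]
  have h2 := card_sum (pos_NE F.one hd) (rk_NE (T := T)) (Z := Z ⊕ O × Y)
    (Sum.elim l fun z => ⟨_, F.face z.1 z.2⟩) (Injective.sumElim (fun G H e => Subtype.ext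
      (Subtype.ext (Sum.inl_injective.image_injective (congrArg Subtype.val e))))
      (fun z z' e => ?_) fun G z e => ?_) fun H => ⟨fun h => ?_, ?_⟩
  rotate_left
  · obtain ⟨k1, k2, k3⟩ := VW_sub (F.bne z.2) (congrArg Subtype.val e).le
    exact Prod.ext k1 (F.anti _ _ k2 k3)
  · obtain ⟨k, hk⟩ := F.bne z.2
    simpa [l] using (congrArg Subtype.val e).ge (VW_r.2 ⟨rfl, hk⟩)
  · rcases F.facet H.2 h with ⟨G, k1, k2, k3, k4⟩ | ⟨o, y, k⟩
    · exact ⟨Sum.inl ⟨⟨G, k1⟩, k2, k3⟩, Subtype.ext k4.symm⟩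
    · exact ⟨Sum.inr (o, y), Subtype.ext k.symm⟩
  · rintro ⟨G | z, rfl⟩
    exacts [(cr_inl _).trans G.2.1, F.cr_new _ _]
  have h3 : ∀ G : Z, nc (l G) = nc G.1 := fun G => by
    have k := nc_congr (fun H : {G // IsF (T.NE A) G} =>
      (⟨_, isF_pre H.2⟩ : {G // IsF T.E G})) (l G) (fun p hp q _ => ⟨fun h z hz => ?_,
        fun h => Set.preimage_mono h⟩) fun q hq => ?_
    · rw [← k]
      exact congrArg nc (Subtype.ext (Sum.inl_injective.preimage_image _))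
    · obtain ⟨i, -, rfl⟩ := hp hz
      exact h hz
    · have hq' : q.1 ⊆ G.1.1 := fun i hi => Sum.inl_injective.mem_set_image.1 (hq hi)
      exact ⟨⟨_, isF_old F.one q.2 fun o h => G.2.2 o (h.trans hq')⟩, Set.image_mono hq',
        Subtype.ext (Sum.inl_injective.preimage_image _)⟩
  have h4 : ∀ o, nc (⟨_, T.fac o⟩ : {G // IsF T.E G}) = d.factorial := fun o =>
    nc_simplex d _ (fun S hS => T.sub_isF o hS) (by
      rw [Set.ncard_range_of_injective (T.inj o), Nat.card_eq_fintype_card, Fintype.card_fin])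
  rw [h1, h2, Fintype.sum_sum_type, Fintype.sum_sum_type, Fintype.sum_prod_type]
  simp only [Sum.elim_inl, Sum.elim_inr, h3, h4, hc, sum_const, card_univ, smul_eq_mul]
  ring

/-- the number of orbits -/
theorem Fam.att (hd : 3 ≤ d) (ψ : Γ → Equiv.Perm (O × J)) (h1 : ∀ γ z, (ψ γ z).1 = T.α γ z.1)
    (h2 : ∀ γ z j, A (ψ γ z).2 (T.β γ z.1 j) = A z.2 j) (X : Set (Fl (T.NE A) d))
    (Φ : Fl (T.NE A) d) (h3 : ∀ e, Fl.act e Φ ∈ X) (h4 : X.ncard ≤ Nat.card Γ) {k : ℕ}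
    (h5 : Nat.card (Fl (T.NE A) d) = k * Nat.card Γ) (o : O) : Attained k d := by
  have : Nonempty (ι ⊕ O × J) := ⟨Sum.inl (T.v o ⟨0, by omega⟩)⟩
  have h6 := k_mul (pos_NE F.one hd) (rk_NE (T := T)) X Φ h3
    (fun γ => permIso _ (sym_NE γ (ψ γ) (h1 γ) (h2 γ))) (fun γ δ e => T.pinj (Equiv.ext fun i =>
      Sum.inl_injective (congrArg (fun π : Equiv.Perm (ι ⊕ O × J) => π (Sum.inl i))
        (permIso_inj (F.sing' hd) e)))) h4
  have h7 : 0 < Nat.card Γ := lt_of_lt_of_le ((Set.ncard_pos (Set.toFinite _)).2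
    ⟨_, h3 (OrderIso.refl _)⟩) h4
  rw [← Nat.eq_of_mul_eq_mul_right h7 (h6.trans h5)]
  exact attained_sub _ _

end Tw

end Pool.Agent.Lib.Q7.H43
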